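import Mathlib
import Pool.Agent.H408R4.Main
import Pool.Agent.H408R3.EvPd

/-!
Upper bounds for the depth of monomial quotients through squarefree patterns.
-/

set_option autoImplicit false

namespace Pool.Agent.V1147.CutA

open CategoryTheory Abelian Limits MvPolynomial
open Pool.Agent.Helper698.Dstab
open Pool.Agent.Helper698.Symb
open Pool.Agent.H408R3 Pool.Agent.H408R3.PDF
open Pool.Agent.H408R4

universe u

variable {r : ℕ} {K : Type u} [Field K]

/-- `Hom(k, M) = 0` means that `𝔪` is not an associated prime -/
theorem notMem_ass {M : Type u} [AddCommGroup M] [Module (MvPolynomial (Fin r) K) M]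
    [Module.Finite (MvPolynomial (Fin r) K) M]
    (h : EV (kk K r) M 1) (P : Ideal (MvPolynomial (Fin r) K))
    (hP : P ∈ associatedPrimes (MvPolynomial (Fin r) K) M) : ¬ mm K r ≤ P := by
  intro hle
  have h0 := h 0 Nat.one_pos
  have h1 : Subsingleton ((kk K r) ⟶ ModuleCat.of (MvPolynomial (Fin r) K) M) :=
    Ext.addEquiv₀.subsingleton_congr.mp h0
  have h2' : Subsingleton ((kk K r) →ₗ[MvPolynomial (Fin r) K]
      (ModuleCat.of (MvPolynomial (Fin r) K) M)) :=
    ModuleCat.homAddEquiv.symm.subsingleton
  have h2 : Subsingleton ((MvPolynomial (Fin r) K ⧸ mm K r) →ₗ[MvPolynomial (Fin r) K] M) := h2'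
  obtain ⟨y, hy, hyreg⟩ := IsSMulRegular.subsingleton_linearMap_iff.mp h2
  have hymm : y ∈ mm K r := (mem_ann_kk y).1 hy
  have h3 : y ∈ ⋃ p ∈ associatedPrimes (MvPolynomial (Fin r) K) M,
      (p : Set (MvPolynomial (Fin r) K)) := by
    simp only [Set.mem_iUnion]
    exact ⟨P, hP, hle hymm⟩
  rw [biUnion_associatedPrimes_eq_compl_regular] at h3
  exact h3 hyreg

/-- a regular element of the form `φ y` with `y ∈ 𝔪` -/
theorem exists_regular_expand {M : Type u} [AddCommGroup M] [Module (MvPolynomial (Fin r) K) M]
    [Module.Finite (MvPolynomial (Fin r) K) M] {N : ℕ} (hN : 0 < N)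
    (h : EV (kk K r) M 1) : ∃ y ∈ mm K r, IsSMulRegular M (ex K r N y) := by
  classical
  by_contra hcon
  push Not at hcon
  have hfin := associatedPrimes.finite (MvPolynomial (Fin r) K) M
  have h1 : ((mm K r : Ideal (MvPolynomial (Fin r) K)) : Set (MvPolynomial (Fin r) K)) ⊆
      ⋃ p ∈ (hfin.toFinset : Set (Ideal (MvPolynomial (Fin r) K))),
        (Ideal.comap (ex K r N) p : Set (MvPolynomial (Fin r) K)) := by
    intro y hy
    have h2 := hcon y hy
    have h3 : ex K r N y ∈ ⋃ p ∈ associatedPrimes (MvPolynomial (Fin r) K) M,
        (p : Set (MvPolynomial (Fin r) K)) := by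
      rw [biUnion_associatedPrimes_eq_compl_regular]; exact h2
    simp only [Set.mem_iUnion] at h3 ⊢
    obtain ⟨p, hp, hyp⟩ := h3
    exact ⟨p, by simpa using hp, hyp⟩
  have h4 := (Ideal.subset_union_prime (s := hfin.toFinset) (f := fun p => Ideal.comap (ex K r N) p)
    ⊥ ⊥ (by
      intro p hp _ _
      have hp' : p ∈ associatedPrimes (MvPolynomial (Fin r) K) M := by simpa using hp
      have := (isAssociatedPrime_iff.1 hp').1
      infer_instance) (I := mm K r)).1 h1
  obtain ⟨p, hp, hle⟩ := h4
  have hp' : p ∈ associatedPrimes (MvPolynomial (Fin r) K) M := by simpa using hp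
  have hpp : p.IsPrime := (isAssociatedPrime_iff.1 hp').1
  apply notMem_ass h p hp'
  rw [mm, Ideal.span_le]
  rintro _ ⟨i, rfl⟩
  have h5 : ex K r N (X i) ∈ p := hle (Ideal.subset_span ⟨i, rfl⟩)
  rw [ex_apply, expand_X] at h5
  exact hpp.mem_of_pow_mem _ h5

/-- restriction of scalars along `X_i ↦ X_i^N` does not decrease the depth -/
theorem EV_res {N : ℕ} (hN : 0 < N) : ∀ (s : ℕ) (M : Type u) [AddCommGroup M]
    [Module (MvPolynomial (Fin r) K) M] [Module.Finite (MvPolynomial (Fin r) K) M],
    EV (kk K r) M s → EV (kk K r) (Res (ex K r N) M) s := by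
  intro s
  induction s with
  | zero => intro M _ _ _ _ i hi; omega
  | succ s ih =>
    intro M _ _ _ h
    obtain ⟨y, hy, hreg⟩ := exists_regular_expand hN (h.mono (by omega))
    -- the quotient
    let z : MvPolynomial (Fin r) K := ex K r N y
    have hz : z ∈ mm K r := by
      show expand N y ∈ mm K r
      rw [mem_mm_iff] at hy ⊢
      rw [← hy]
      have h1 : (constantCoeff : MvPolynomial (Fin r) K →+* K).comp
          ((expand N : MvPolynomial (Fin r) K →ₐ[K] MvPolynomial (Fin r) K) :
            MvPolynomial (Fin r) K →+* MvPolynomial (Fin r) K) = constantCoeff := by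
        apply MvPolynomial.ringHom_ext
        · intro c; simp
        · intro i; simp [hN.ne']
      exact DFunLike.congr_fun h1 y
    let P : Submodule (MvPolynomial (Fin r) K) M :=
      LinearMap.range (LinearMap.lsmul (MvPolynomial (Fin r) K) M z)
    have hinj : Function.Injective (LinearMap.lsmul (MvPolynomial (Fin r) K) M z) := hreg
    have hex : Function.Exact (LinearMap.lsmul (MvPolynomial (Fin r) K) M z) P.mkQ := by
      intro x
      rw [Submodule.mkQ_apply, Submodule.Quotient.mk_eq_zero]
      exact Iff.rfl
    have h2 : EV (kk K r) (M ⧸ P) s :=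
      EV_right _ _ hinj P.mkQ_surjective hex (h.mono (Nat.le_succ s)) h
    have h3 := ih (M ⧸ P) h2
    refine EV_regular (A := Res (ex K r N) M) (C := Res (ex K r N) (M ⧸ P)) y
      ((mem_ann_kk y).2 hy) (resMap (ex K r N) P.mkQ) ?_ P.mkQ_surjective ?_ h3
    · exact hreg
    · exact hex

/-- squarefree patterns do not decrease the depth -/
theorem EV_expand {E E' : Set (Fin r →₀ ℕ)} (hE : IsUpperSet E) (hE' : IsUpperSet E') {N : ℕ}
    (hN : 0 < N) (b : Fin r → ℕ) (hb : ∀ i, b i < N) (hEE : ∀ γ, γ ∈ E' ↔ fs b + N • γ ∈ E)
    {m : ℕ} (h : EV (kk K r) (MvPolynomial (Fin r) K ⧸ MI K E) m) :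
    EV (kk K r) (MvPolynomial (Fin r) K ⧸ MI K E') m := by
  have h1 := EV_res hN m (MvPolynomial (Fin r) K ⧸ MI K E) h
  have hs : ∀ f ∈ MI K E', monomial (fs b) (1 : K) * expand N f ∈ MI K E := by
    intro f hf
    rw [mem_MI hE'] at hf
    rw [f.as_sum, map_sum, Finset.mul_sum]
    apply Ideal.sum_mem
    intro γ hγ
    rw [expand_monomial, monomial_mul, one_mul]
    exact monomial_mem_MI ((hEE γ).1 (hf γ hγ)) _
  have hp : ∀ f ∈ MI K E, qp K N b f ∈ MI K E' := by
    intro f hf
    rw [mem_MI hE] at hf
    rw [f.as_sum, map_sum]
    apply Ideal.sum_mem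
    intro γ hγ
    by_cases h2 : ∀ i, γ i % N = b i
    · rw [qp_pos h2]
      apply monomial_mem_MI
      rw [hEE]
      have : fs b + N • dv N γ = γ := by
        ext i
        rw [Finsupp.add_apply, fs_apply, Finsupp.smul_apply, dv_apply, smul_eq_mul, ← h2 i]
        exact Nat.mod_add_div _ _
      rw [this]
      exact hf γ hγ
    · rw [qp_neg h2]
      exact Ideal.zero_mem _
  -- the maps
  let s : (MvPolynomial (Fin r) K ⧸ MI K E') →ₗ[MvPolynomial (Fin r) K]
      Res (ex K r N) (MvPolynomial (Fin r) K ⧸ MI K E) :=
    Submodule.liftQ (MI K E')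
      { toFun := fun f => (Submodule.Quotient.mk (monomial (fs b) (1 : K) * expand N f) :
          MvPolynomial (Fin r) K ⧸ MI K E)
        map_add' := fun f g => by
          rw [map_add, mul_add]; rfl
        map_smul' := fun a f => by
          rw [smul_eq_mul, map_mul]
          show (Submodule.Quotient.mk (monomial (fs b) (1 : K) * (expand N a * expand N f)) :
            MvPolynomial (Fin r) K ⧸ MI K E) = Submodule.Quotient.mk (expand N a *
              (monomial (fs b) (1 : K) * expand N f))
          congr 1; ring }
      (by
        intro f hf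
        exact (Submodule.Quotient.mk_eq_zero _).2 (hs f hf))
  let p0 : (MvPolynomial (Fin r) K ⧸ MI K E) →+ (MvPolynomial (Fin r) K ⧸ MI K E') :=
    QuotientAddGroup.lift (MI K E).toAddSubgroup
      ((Submodule.mkQ (MI K E')).toAddMonoidHom.comp (qp K N b).toAddMonoidHom) (by
        intro f hf
        exact (Submodule.Quotient.mk_eq_zero _).2 (hp f hf))
  have hp0 : ∀ f, p0 (Submodule.Quotient.mk f) = Submodule.Quotient.mk (qp K N b f) := fun f => rfl
  let p : Res (ex K r N) (MvPolynomial (Fin r) K ⧸ MI K E) →ₗ[MvPolynomial (Fin r) K]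
      (MvPolynomial (Fin r) K ⧸ MI K E') :=
    { toFun := fun x => p0 x
      map_add' := fun x y => p0.map_add x y
      map_smul' := fun a x => by
        obtain ⟨f, rfl⟩ := Submodule.Quotient.mk_surjective _ x
        show p0 (Submodule.Quotient.mk (expand N a * f)) = a • p0 (Submodule.Quotient.mk f)
        rw [hp0, hp0, qp_expand hN]
        rfl }
  refine EV_retract s p ?_ h1
  apply LinearMap.ext
  intro x
  obtain ⟨f, rfl⟩ := Submodule.Quotient.mk_surjective _ x
  show p0 (Submodule.Quotient.mk (monomial (fs b) (1 : K) * expand N f)) = Submodule.Quotient.mk f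
  rw [hp0, qp_section hN b hb]

/-- the depth of the quotient by a product of disjoint pairs of variables plus variables -/
theorem MJ_EV {ι : Type} (uu vv : ι → Fin r) (huv : ∀ i j, uu i ≠ vv j)
    (hu : Function.Injective uu) (hv : Function.Injective vv) (C : Finset ι) :
    C.Nonempty → ∀ U : Finset (Fin r), (∀ j ∈ C, uu j ∉ U ∧ vv j ∉ U) →
    2 * C.card + U.card ≤ r →
    ¬ EV (kk K r) (MvPolynomial (Fin r) K ⧸ MI K (MJ uu vv C U)) (r - C.card - U.card) := by
  classical
  induction C using Finset.induction_on with
  | empty => intro h; simp at h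
  | insert j C hj ih =>
    intro _ U hU hr
    rw [Finset.card_insert_of_notMem hj] at hr ⊢
    obtain ⟨hjU, hjU'⟩ := hU j (Finset.mem_insert_self _ _)
    have hcard : (insert (uu j) (insert (vv j) U)).card = U.card + 2 := by
      rw [Finset.card_insert_of_notMem, Finset.card_insert_of_notMem hjU']
      intro h
      rcases Finset.mem_insert.1 h with h | h
      · exact huv _ _ h
      · exact hjU h
    rcases C.eq_empty_or_nonempty with rfl | hC
    · have h1 : MJ uu vv (insert j (∅ : Finset ι)) U = US (insert (uu j) (insert (vv j) U)) := by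
        ext γ
        constructor
        · rintro (h | ⟨w, hw, hne⟩)
          · rcases h j (Finset.mem_insert_self _ _) with h | h
            · exact ⟨_, Finset.mem_insert_self _ _, h⟩
            · exact ⟨_, Finset.mem_insert_of_mem (Finset.mem_insert_self _ _), h⟩
          · exact ⟨w, Finset.mem_insert_of_mem (Finset.mem_insert_of_mem hw), hne⟩
        · rintro ⟨w, hw, hne⟩
          rcases Finset.mem_insert.1 hw with rfl | hw
          · left
            intro j' hj'
            have : j' = j := by simpa using hj'
            rw [this]; exact Or.inl hne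
          · rcases Finset.mem_insert.1 hw with rfl | hw
            · left
              intro j' hj'
              have : j' = j := by simpa using hj'
              rw [this]; exact Or.inr hne
            · exact Or.inr ⟨w, hw, hne⟩
      rw [h1]
      have h2 := not_EV_US (K := K) (r - (U.card + 2)) (insert (uu j) (insert (vv j) U)) (by rw [hcard])
      rw [Finset.card_empty] at hr ⊢
      have e : r - (0 + 1) - U.card = r - (U.card + 2) + 1 := by omega
      rw [e]
      exact h2
    · intro hcon
      have hCU : ∀ i ∈ C, uu i ∉ insert (uu j) (insert (vv j) U) ∧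
          vv i ∉ insert (uu j) (insert (vv j) U) := by
        intro i hi
        have hij : i ≠ j := fun h => hj (h ▸ hi)
        obtain ⟨h1, h2⟩ := hU i (Finset.mem_insert_of_mem hi)
        constructor
        · intro h
          rcases Finset.mem_insert.1 h with h | h
          · exact hij (hu h)
          · rcases Finset.mem_insert.1 h with h | h
            · exact huv _ _ h
            · exact h1 h
        · intro h
          rcases Finset.mem_insert.1 h with h | h
          · exact huv _ _ h.symm
          · rcases Finset.mem_insert.1 h with h | h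
            · exact hij (hv h)
            · exact h2 h
      have h1 := ih hC _ hCU (by rw [hcard]; omega)
      apply h1
      rw [hcard]
      -- the four sets
      have u1 := MJ_upper uu vv (insert j C) U
      have u2 := MJ_upper uu vv C U
      have u3 := isUpperSet_US (insert (uu j) (insert (vv j) U))
      have u4 := MJ_upper uu vv C (insert (uu j) (insert (vv j) U))
      have s1 : MJ uu vv (insert j C) U ⊆ MJ uu vv C U := by
        rintro γ (h | h)
        · exact Or.inl fun i hi => h i (Finset.mem_insert_of_mem hi)
        · exact Or.inr h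
      have s2 : US (insert (uu j) (insert (vv j) U)) ⊆
          MJ uu vv C (insert (uu j) (insert (vv j) U)) := fun γ h => Or.inr h
      have hub : EV (kk K r) (MvPolynomial (Fin r) K ⧸ MI K (MJ uu vv C U))
          (r - (C.card + 1 + U.card)) := by
        have h5 := MJ_ub (K := K) uu vv huv C U (fun i hi => hU i (Finset.mem_insert_of_mem hi))
        have e : C.card + 2 + U.card = (C.card + 1 + U.card) + 1 := by omega
        rw [e] at h5
        exact EV_of_PD _ _ h5
      have hmap := EV_map _ _ (MI_mono s1) hcon (hub.mono (by omega))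
      have h6 := EV_block (K := K) (N := kk K r) (t := r - (C.card + 1) - U.card) u1 u2 u3 u4 0
        (by
          intro γ hγ
          rw [zero_add]
          rcases hγ with h | ⟨w, hw, hne⟩
          · exact Or.inl h
          · exact Or.inr ⟨w, Finset.mem_insert_of_mem (Finset.mem_insert_of_mem hw), hne⟩)
        (by
          intro γ hγ
          rw [zero_add]
          rcases hγ with h | ⟨w, hw, hne⟩
          · rcases h j (Finset.mem_insert_self _ _) with h | h
            · exact ⟨_, Finset.mem_insert_self _ _, h⟩
            · exact ⟨_, Finset.mem_insert_of_mem (Finset.mem_insert_self _ _), h⟩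
          · exact ⟨w, Finset.mem_insert_of_mem (Finset.mem_insert_of_mem hw), hne⟩)
        (by
          intro γ hγ hγ2
          rw [zero_add] at hγ2
          rcases hγ with h | h
          · obtain ⟨w, hw, hne⟩ := hγ2
            rcases Finset.mem_insert.1 hw with rfl | hw
            · left
              intro i hi
              rcases Finset.mem_insert.1 hi with rfl | hi
              · exact Or.inl hne
              · exact h i hi
            · rcases Finset.mem_insert.1 hw with rfl | hw
              · left
                intro i hi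
                rcases Finset.mem_insert.1 hi with rfl | hi
                · exact Or.inr hne
                · exact h i hi
              · exact Or.inr ⟨w, hw, hne⟩
          · exact Or.inr h)
        (by
          intro γ hγ hγ2
          refine ⟨γ, ?_, (zero_add _).symm⟩
          rcases hγ with h | h
          · exact Or.inl h
          · exact absurd h hγ2)
      have h7 := h6.1 hmap
      have e2 : r - (C.card + 1) - U.card = (r - C.card - (U.card + 2)) + 1 := by omega
      rw [e2] at h7
      refine EV_coker _ _ (MI_mono s2) h7 ?_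
      refine (EV_US (K := K) (r - (U.card + 2)) (insert (uu j) (insert (vv j) U))
        (by rw [hcard])).mono ?_
      omega

end Pool.Agent.V1147.CutA
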