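import Mathlib
import Pool.Agent.V1147.CutA

/-!
Exact depth of the symbolic powers of the monomial ideals.
-/

set_option autoImplicit false

namespace Pool.Agent.V1147.CutA

open CategoryTheory Abelian Limits MvPolynomial
open Pool.Agent.Helper698.Dstab
open Pool.Agent.Helper698.Symb
open Pool.Agent.H408R3 Pool.Agent.H408R3.PDF
open Pool.Agent.H408R4

universe u

variable {r : ℕ} {K : Type u} [Field K]

theorem EV_of_SN {S : Sys r} (t m : ℕ)
    (h : EV (kk K r) (MvPolynomial (Fin r) K ⧸ MI K (S.SN t)) m) (a : Fin r → ℕ) :
    EV (kk K r) (MvPolynomial (Fin r) K ⧸ MI K (JG (S.adj t a) Finset.univ)) m := by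
  obtain ⟨M, hM⟩ := S.big t
  let N := M + 1 + ∑ v, a v
  refine EV_expand (Sys.SN_upper t) (JG_upper _ _) (N := N) (by omega) a ?_ ?_ h
  · intro i
    have : a i ≤ ∑ v, a v := Finset.single_le_sum (f := a) (fun _ _ => Nat.zero_le _)
      (Finset.mem_univ i)
    omega
  · intro γ
    rw [Sys.mem_JG_adj]
    have hval : ∀ v, (fs a + N • γ : Fin r →₀ ℕ) v = a v + N * γ v := by
      intro v
      rw [Finsupp.add_apply, fs_apply, Finsupp.smul_apply, smul_eq_mul]
    have hlarge : ∀ v, γ v ≠ 0 → M ≤ (fs a + N • γ : Fin r →₀ ℕ) v := by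
      intro v hv
      rw [hval]
      have : N * 1 ≤ N * γ v := Nat.mul_le_mul_left _ (by omega)
      omega
    have hsmall : ∀ v, γ v = 0 → (fs a + N • γ : Fin r →₀ ℕ) v = a v := by
      intro v hv
      rw [hval, hv, mul_zero, add_zero]
    constructor
    · intro h2 x y hxy
      by_cases hx : γ x = 0
      · by_cases hy : γ y = 0
        · rw [hsmall x hx, hsmall y hy]
          by_contra hcon
          rcases h2 x y hxy hcon with h | h
          · exact h hx
          · exact h hy
        · exact hM _ _ _ _ (Or.inr (hlarge y hy))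
      · exact hM _ _ _ _ (Or.inl (hlarge x hx))
    · intro h2 x y hxy h3
      by_contra hcon
      push Not at hcon
      have := h2 x y hxy
      rw [hsmall x hcon.1, hsmall y hcon.2] at this
      exact h3 this

section

variable {I : Type} (e : I ⊕ I ≃ Fin r) {p : ℕ} {B : I → ℕ → Prop} {L : I → Prop}
  (hp : 2 ≤ p) (hB1 : ∀ i s, 1 ≤ s → B i (s + p) → B i s)
  (hB2 : ∀ i s, p < s → (B i (s + p) ↔ B i s))

theorem lowerEV (t : ℕ) (ht : 1 ≤ t) (C : Finset I) (hCne : C.Nonempty)
    (hC : ∀ j ∈ C, B j t ∧ (t ≤ p → ¬ L j)) (hr : 2 * C.card ≤ r) :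
    ¬ EV (kk K r) (MvPolynomial (Fin r) K ⧸ MI K ((theSys e (L := L) hp hB1 hB2).SN t))
      (r - C.card) := by
  classical
  intro h
  obtain ⟨M, hM⟩ := (theSys e (L := L) hp hB1 hB2).big t
  let a : Fin r → ℕ := fun v => match e.symm v with
    | Sum.inl i => if i ∈ C then (p + 3) * t - 1 else M
    | Sum.inr i => if i ∈ C then om2 p * t + (p + 2) else M
  have hau : ∀ i ∈ C, a (e (Sum.inl i)) + 1 = (p + 3) * t := by
    intro i hi
    have h1 : a (e (Sum.inl i)) = (p + 3) * t - 1 := by
      simp only [a, Equiv.symm_apply_apply, if_pos hi]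
    have h2 : 0 < (p + 3) * t := by positivity
    omega
  have hau' : ∀ i, i ∉ C → a (e (Sum.inl i)) = M := by
    intro i hi
    simp only [a, Equiv.symm_apply_apply, if_neg hi]
  have hav : ∀ i ∈ C, a (e (Sum.inr i)) = om2 p * t + (p + 2) := by
    intro i hi
    simp only [a, Equiv.symm_apply_apply, if_pos hi]
  have hav' : ∀ i, i ∉ C → a (e (Sum.inr i)) = M := by
    intro i hi
    simp only [a, Equiv.symm_apply_apply, if_neg hi]
  have h1 := WM_eq hp t
  have h2 := WC_eq hp t
  have h3 := EV_of_SN t _ h a
  have h4 : JG ((theSys e (L := L) hp hB1 hB2).adj t a) Finset.univ =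
      MJ (fun i => e (Sum.inl i)) (fun i => e (Sum.inr i)) C ∅ := by
    ext γ
    rw [Sys.mem_JG_adj]
    constructor
    · intro h5
      left
      intro j hj
      apply h5 _ _ (adm_uv e hp hB1 hB2 j j)
      rw [not_T_uv, loc_E]
      left
      refine ⟨rfl, ?_⟩
      have h6 := hau j hj
      have h7 := hav j hj
      have h8 := kap_below_pos (B := B j) h6 (hC j hj).1
      unfold TM
      omega
    · rintro (h5 | ⟨w, hw, _⟩)
      · intro x y h6 h7
        rcases adm_cases e hp hB1 hB2 h6 with ⟨i, j, rfl, rfl⟩ | ⟨i, j, hij, rfl, rfl⟩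
        · by_cases hi : i ∈ C
          · by_cases hj : j ∈ C
            · rw [not_T_uv, loc_E] at h7
              rcases h7 with ⟨rfl, h7⟩ | ⟨hij, h7⟩
              · exact h5 i hi
              · exfalso
                apply h7
                have h8 := hau i hi
                have h9 := hav j hj
                have h10 : lam p (L i ∨ L j) (a (e (Sum.inl i))) = 1 := by
                  apply lam_below_one h8
                  by_cases htp : p < t
                  · exact Or.inl htp
                  · right
                    rintro (h11 | h11)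
                    · exact (hC i hi).2 (by omega) h11
                    · exact (hC j hj).2 (by omega) h11
                unfold TC
                rw [h10, h9, h2]
                have h12 : (p + 1) * ((p + 3) * t) = (p + 1) * a (e (Sum.inl i)) + (p + 1) := by
                  rw [← h8]; ring
                omega
            · exact absurd (hM _ _ _ _ (Or.inr (hav' j hj).symm.le)) h7
          · exact absurd (hM _ _ _ _ (Or.inl (hau' i hi).symm.le)) h7
        · exfalso
          by_cases hi : i ∈ C
          · by_cases hj : j ∈ C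
            · rw [T_vv, mul_assoc] at h7
              have h8 := hav i hi
              have h9 := hav j hj
              omega
            · exact absurd (hM _ _ _ _ (Or.inr (hav' j hj).symm.le)) h7
          · exact absurd (hM _ _ _ _ (Or.inl (hav' i hi).symm.le)) h7
      · simp at hw
  rw [h4] at h3
  refine MJ_EV (K := K) (fun i => e (Sum.inl i)) (fun i => e (Sum.inr i)) ?_ ?_ ?_ C hCne ∅ ?_ ?_ ?_
  · intro i j hij
    have := e.injective hij
    simp at this
  · intro i j hij
    have := e.injective hij
    simpa using this
  · intro i j hij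
    have := e.injective hij
    simpa using this
  · intro j _
    simp
  · simpa using hr
  · simpa using h3

end

end Pool.Agent.V1147.CutA
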