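import Mathlib
import Pool.Agent.V1147.CutA

/-!
Generic linear sections.
-/

set_option autoImplicit false

namespace Pool.Agent.V1147.CutA

open CategoryTheory Abelian Limits MvPolynomial
open Pool.Agent.Helper698.Dstab
open Pool.Agent.Helper698.Symb
open Pool.Agent.H408R3 Pool.Agent.H408R3.PDF
open Pool.Agent.H408R4

universe u

variable {r : ℕ} {K : Type u} [Field K]

/-- a vector space over an uncountable field is not a countable union of proper subspaces -/
theorem exists_avoid [Uncountable K] (Cs : Set (Submodule K (Fin r → K))) (hC : Cs.Countable)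
    (htop : ⊤ ∉ Cs) : ∃ v, ∀ W ∈ Cs, v ∉ W := by
  classical
  -- the moment curve
  let c : K → (Fin r → K) := fun x i => x ^ (i : ℕ)
  have key : ∀ W ∈ Cs, {x | c x ∈ W}.Finite := by
    intro W hW
    have hWt : W ≠ ⊤ := fun h => htop (h ▸ hW)
    obtain ⟨f, hf, hfW⟩ := Submodule.exists_le_ker_of_lt_top W (lt_top_iff_ne_top.2 hWt)
    -- the polynomial
    let q : Polynomial K := ∑ i : Fin r, Polynomial.C (f (Pi.single i 1)) * Polynomial.X ^ (i : ℕ)
    have hq : q ≠ 0 := by
      intro h0
      apply hf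
      apply LinearMap.pi_ext'
      intro i
      apply LinearMap.ext_ring
      have h1 : q.coeff (i : ℕ) = f (Pi.single i 1) := by
        simp only [q, Polynomial.finsetSum_coeff, Polynomial.coeff_C_mul, Polynomial.coeff_X_pow]
        rw [Finset.sum_eq_single i]
        · simp
        · intro j _ hj
          rw [if_neg, mul_zero]
          intro h
          exact hj (Fin.ext h.symm)
        · intro h; exact absurd (Finset.mem_univ i) h
      show f (Pi.single i 1) = 0
      rw [← h1, h0, Polynomial.coeff_zero]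
    refine (q.roots.toFinset.finite_toSet).subset ?_
    intro x hx
    have h1 : f (c x) = 0 := hfW hx
    have h2 : f (c x) = q.eval x := by
      have h3 : c x = ∑ i : Fin r, (x ^ (i : ℕ)) • (Pi.single i 1 : Fin r → K) := by
        ext j; simp [c, Finset.sum_apply, Pi.single_apply]
      rw [h3, map_sum]
      simp only [q, Polynomial.eval_finsetSum, Polynomial.eval_mul, Polynomial.eval_C,
        Polynomial.eval_pow, Polynomial.eval_X, map_smul, smul_eq_mul]
      apply Finset.sum_congr rfl
      intro i _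
      ring
    rw [Finset.mem_coe, Multiset.mem_toFinset, Polynomial.mem_roots hq]
    show q.eval x = 0
    rw [← h2, h1]
  have h1 : (⋃ W ∈ Cs, {x | c x ∈ W}).Countable := hC.biUnion fun W hW => (key W hW).countable
  have h2 : (⋃ W ∈ Cs, {x | c x ∈ W}) ≠ Set.univ := by
    intro h
    rw [h] at h1
    exact Set.not_countable_univ h1
  obtain ⟨x, hx⟩ := (Set.ne_univ_iff_exists_notMem _).1 h2
  simp only [Set.mem_iUnion, not_exists] at hx
  exact ⟨c x, fun W hW h => hx W hW h⟩

/-- the linear forms which are not regular on a module of positive depth lie in finitely many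
proper subspaces -/
theorem bad_lin (M : Type u) [AddCommGroup M] [Module (MvPolynomial (Fin r) K) M]
    [Module.Finite (MvPolynomial (Fin r) K) M] (h : EV (kk K r) M 1) :
    ∃ s : Set (Submodule K (Fin r → K)), s.Finite ∧ ⊤ ∉ s ∧
      ∀ v, ¬ IsSMulRegular M (lin K r v) → ∃ W ∈ s, v ∈ W := by
  classical
  have hfin := associatedPrimes.finite (MvPolynomial (Fin r) K) M
  refine ⟨(fun p : Ideal (MvPolynomial (Fin r) K) =>
    Submodule.comap (lin K r) (p.restrictScalars K)) ''
      associatedPrimes (MvPolynomial (Fin r) K) M, hfin.image _, ?_, ?_⟩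
  · rintro ⟨p, hp, hpe⟩
    apply notMem_ass h p hp
    rw [mm, Ideal.span_le]
    rintro _ ⟨i, rfl⟩
    have h5 : (Pi.single i 1 : Fin r → K) ∈
        Submodule.comap (lin K r) (p.restrictScalars K) := by
      have hpe' : Submodule.comap (lin K r) (p.restrictScalars K) = ⊤ := hpe
      rw [hpe']; trivial
    rw [Submodule.mem_comap, lin_single] at h5
    exact h5
  · intro v hv
    have h3 : lin K r v ∈ ⋃ p ∈ associatedPrimes (MvPolynomial (Fin r) K) M,
        (p : Set (MvPolynomial (Fin r) K)) := by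
      rw [biUnion_associatedPrimes_eq_compl_regular]; exact hv
    simp only [Set.mem_iUnion] at h3
    obtain ⟨p, hp, hvp⟩ := h3
    exact ⟨_, ⟨p, hp, rfl⟩, hvp⟩

section pi

variable {R : Type u} [CommRing R] {N : ModuleCat.{u} R}

theorem EV_pi {ι : Type} [Fintype ι] (M : ι → Type u) [∀ i, AddCommGroup (M i)]
    [∀ i, Module R (M i)] (t : ℕ) (h : ∀ i, EV N (M i) t) : EV N (∀ i, M i) t := by
  classical
  -- submodules supported on a finset
  let P : Finset ι → Submodule R (∀ i, M i) := fun s =>
    { carrier := {x | ∀ i, i ∉ s → x i = 0}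
      add_mem' := by
        intro x y hx hy i hi
        rw [Pi.add_apply, hx i hi, hy i hi, add_zero]
      zero_mem' := fun i _ => rfl
      smul_mem' := by
        intro c x hx i hi
        rw [Pi.smul_apply, hx i hi, smul_zero] }
  have hP : ∀ s x, x ∈ P s ↔ ∀ i, i ∉ s → x i = 0 := fun s x => Iff.rfl
  have key : ∀ s : Finset ι, EV N (P s) t := by
    intro s
    induction s using Finset.induction_on with
    | empty =>
      have : Subsingleton (P ∅) := by
        refine ⟨fun x y => ?_⟩
        apply Subtype.ext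
        funext i
        rw [(hP _ _).1 x.2 i (by simp), (hP _ _).1 y.2 i (by simp)]
      exact EV_of_subsingleton t
    | insert e s he ih =>
      have hle : P s ≤ P (insert e s) := by
        intro x hx i hi
        exact hx i fun h => hi (Finset.mem_insert_of_mem h)
      refine EV_mid (A := P s) (C := M e) (Submodule.inclusion hle)
        ((LinearMap.proj e).comp (P (insert e s)).subtype) (Submodule.inclusion_injective hle)
        ?_ ?_ ih (h e)
      · intro m
        refine ⟨⟨Pi.single e m, ?_⟩, by simp⟩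
        intro i hi
        have : i ≠ e := fun h => hi (h ▸ Finset.mem_insert_self _ _)
        simp [this]
      · intro x
        constructor
        · intro hx
          refine ⟨⟨x.1, ?_⟩, rfl⟩
          intro i hi
          by_cases hie : i = e
          · subst hie; exact hx
          · exact x.2 i (fun h => by
              rcases Finset.mem_insert.1 h with h | h
              · exact hie h
              · exact hi h)
        · rintro ⟨y, rfl⟩
          exact y.2 e he
  have e1 : P Finset.univ = ⊤ := by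
    rw [Submodule.eq_top_iff']
    intro x i hi
    exact absurd (Finset.mem_univ i) hi
  have h1 := key Finset.univ
  rw [e1] at h1
  exact EV.equiv Submodule.topEquiv h1

end pi

/-- the cokernel of `S → ∏ S / F e` -/
def dg {R : Type u} [CommRing R] {ι : Type} (F : ι → Ideal R) : R →ₗ[R] (∀ e, R ⧸ F e) :=
  LinearMap.pi fun e => (F e).mkQ

theorem EV_coker_pi {R : Type u} [CommRing R] {N : ModuleCat.{u} R} {ι : Type} [Fintype ι]
    (F : ι → Ideal R) (h1 : ∀ e, EV N (R ⧸ F e) 1) (h2 : EV N (R ⧸ (⨅ e, F e)) 2) :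
    EV N ((∀ e, R ⧸ F e) ⧸ LinearMap.range (dg F)) 1 := by
  have hk : LinearMap.ker (dg F) = ⨅ e, F e := by
    unfold dg
    rw [LinearMap.ker_pi]
    apply iInf_congr
    intro e
    exact Submodule.ker_mkQ _
  let f : (R ⧸ (⨅ e, F e)) →ₗ[R] (∀ e, R ⧸ F e) := Submodule.liftQ _ (dg F) hk.ge
  have hf : LinearMap.range f = LinearMap.range (dg F) := Submodule.range_liftQ _ _ _
  refine EV_right (B := ∀ e, R ⧸ F e) f (LinearMap.range (dg F)).mkQ ?_
    (Submodule.mkQ_surjective _) ?_ (EV_pi _ 1 h1) h2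
  · rw [← LinearMap.ker_eq_bot]
    exact Submodule.ker_liftQ_eq_bot _ _ _ hk.le
  · intro x
    rw [Submodule.mkQ_apply, Submodule.Quotient.mk_eq_zero, ← hf]
    exact Iff.rfl

/-- one cut -/
theorem inf_sup_eq {R : Type u} [CommRing R] {ι : Type} (F : ι → Ideal R) (l : R)
    (h1 : IsSMulRegular ((∀ e, R ⧸ F e) ⧸ LinearMap.range (dg F)) l) :
    ⨅ e, (F e ⊔ Ideal.span {l}) = (⨅ e, F e) ⊔ Ideal.span {l} := by
  apply le_antisymm
  · intro f hf
    rw [Ideal.mem_iInf] at hf
    have h2 : ∀ e, ∃ g : R, f - l * g ∈ F e := by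
      intro e
      obtain ⟨a, ha, b, hb, hab⟩ := Submodule.mem_sup.1 (hf e)
      obtain ⟨c, rfl⟩ := Ideal.mem_span_singleton.1 hb
      exact ⟨c, by rw [← hab]; simpa using ha⟩
    choose g hg using h2
    let G : ∀ e, R ⧸ F e := fun e => Submodule.Quotient.mk (g e)
    have h3 : dg F f = l • G := by
      funext e
      show (Submodule.Quotient.mk f : R ⧸ F e) = l • (Submodule.Quotient.mk (g e) : R ⧸ F e)
      rw [← Submodule.Quotient.mk_smul, Submodule.Quotient.eq]
      exact hg e
    have h4 : l • (Submodule.Quotient.mk G : (∀ e, R ⧸ F e) ⧸ LinearMap.range (dg F)) =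
        l • 0 := by
      rw [smul_zero, ← Submodule.Quotient.mk_smul, Submodule.Quotient.mk_eq_zero, ← h3]
      exact ⟨f, rfl⟩
    have h5 := h1 h4
    rw [Submodule.Quotient.mk_eq_zero] at h5
    obtain ⟨g0, hg0⟩ := h5
    have h6 : f - l * g0 ∈ ⨅ e, F e := by
      rw [Ideal.mem_iInf]
      intro e
      have h7 := congrFun hg0 e
      have h8 : (Submodule.Quotient.mk g0 : R ⧸ F e) = Submodule.Quotient.mk (g e) := h7
      rw [Submodule.Quotient.eq] at h8
      have : f - l * g0 = (f - l * g e) - l * (g0 - g e) := by ring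
      rw [this]
      exact (F e).sub_mem (hg e) ((F e).mul_mem_left _ h8)
    have h7 : f = (f - l * g0) + l * g0 := by ring
    rw [h7]
    exact Submodule.add_mem_sup h6 (Ideal.mul_mem_right _ _ (Ideal.mem_span_singleton_self l))
  · apply sup_le
    · exact iInf_mono fun e => le_sup_left
    · exact le_iInf fun e => le_sup_right

theorem regular_iff {R : Type u} [CommRing R] (I : Ideal R) (l : R) :
    IsSMulRegular (R ⧸ I) l ↔ ∀ a, l * a ∈ I → a ∈ I := by
  constructor
  · intro h a ha
    have h3 : l • (Submodule.Quotient.mk a : R ⧸ I) = l • 0 := by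
      rw [smul_zero, ← Submodule.Quotient.mk_smul, Submodule.Quotient.mk_eq_zero]
      exact ha
    exact (Submodule.Quotient.mk_eq_zero I).1 (h h3)
  · intro h
    exact (quot_exact I l h).1

theorem EV_cut {I : Ideal (MvPolynomial (Fin r) K)} {l : MvPolynomial (Fin r) K}
    (hreg : ∀ a, l * a ∈ I → a ∈ I) {s : ℕ}
    (h : EV (kk K r) (MvPolynomial (Fin r) K ⧸ I) (s + 1)) :
    EV (kk K r) (MvPolynomial (Fin r) K ⧸ (I ⊔ Ideal.span {l})) s := by
  obtain ⟨e1, e2, e3⟩ := quot_exact I l hreg
  exact EV_right _ _ e1 e2 e3 (h.mono (Nat.le_succ s)) h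

theorem EV_uncut {I : Ideal (MvPolynomial (Fin r) K)} {l : MvPolynomial (Fin r) K}
    (hl : l ∈ mm K r) (hreg : ∀ a, l * a ∈ I → a ∈ I) {s : ℕ}
    (h : EV (kk K r) (MvPolynomial (Fin r) K ⧸ (I ⊔ Ideal.span {l})) s) :
    EV (kk K r) (MvPolynomial (Fin r) K ⧸ I) (s + 1) := by
  obtain ⟨e1, e2, e3⟩ := quot_exact I l hreg
  exact EV_regular l ((mem_ann_kk l).2 hl) _ e1 e2 e3 h

/-- one generic cut for countably many families -/
theorem cut_step [Uncountable K] {ι : Type} [Fintype ι]
    (F : ℕ → ι → Ideal (MvPolynomial (Fin r) K))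
    (h1 : ∀ t e, EV (kk K r) (MvPolynomial (Fin r) K ⧸ F t e) 1)
    (h2 : ∀ t, EV (kk K r) (MvPolynomial (Fin r) K ⧸ (⨅ e, F t e)) 2)
    (Ws : Set (Submodule K (Fin r → K))) (hWs : Ws.Countable) (htop : ⊤ ∉ Ws) :
    ∃ v, (∀ W ∈ Ws, v ∉ W) ∧ (∀ t e a, lin K r v * a ∈ F t e → a ∈ F t e) ∧
      (∀ t a, lin K r v * a ∈ (⨅ e, F t e) → a ∈ (⨅ e, F t e)) ∧
      (∀ t, ⨅ e, (F t e ⊔ Ideal.span {lin K r v}) = (⨅ e, F t e) ⊔ Ideal.span {lin K r v}) := by
  classical
  have hD : ∀ t, EV (kk K r) ((∀ e, MvPolynomial (Fin r) K ⧸ F t e) ⧸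
      LinearMap.range (dg (F t))) 1 := fun t => EV_coker_pi (F t) (h1 t) (h2 t)
  choose s1 hs1 hs1' hs1'' using fun t e => bad_lin _ (h1 t e)
  choose s2 hs2 hs2' hs2'' using fun t => bad_lin _ (hD t)
  obtain ⟨v, hv⟩ := exists_avoid (Ws ∪ ((⋃ t, ⋃ e, s1 t e) ∪ ⋃ t, s2 t))
    (hWs.union ((Set.countable_iUnion fun t => Set.countable_iUnion fun e =>
      (hs1 t e).countable).union (Set.countable_iUnion fun t => (hs2 t).countable)))
    (by
      rintro (h | h | h)
      · exact htop h
      · simp only [Set.mem_iUnion] at h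
        obtain ⟨t, e, h⟩ := h
        exact hs1' t e h
      · simp only [Set.mem_iUnion] at h
        obtain ⟨t, h⟩ := h
        exact hs2' t h)
  have r1 : ∀ t e, IsSMulRegular (MvPolynomial (Fin r) K ⧸ F t e) (lin K r v) := by
    intro t e
    by_contra hcon
    obtain ⟨W, hW, hvW⟩ := hs1'' t e v hcon
    refine hv W (Or.inr (Or.inl ?_)) hvW
    simp only [Set.mem_iUnion]
    exact ⟨t, e, hW⟩
  have r2 : ∀ t, IsSMulRegular ((∀ e, MvPolynomial (Fin r) K ⧸ F t e) ⧸
      LinearMap.range (dg (F t))) (lin K r v) := by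
    intro t
    by_contra hcon
    obtain ⟨W, hW, hvW⟩ := hs2'' t v hcon
    refine hv W (Or.inr (Or.inr ?_)) hvW
    simp only [Set.mem_iUnion]
    exact ⟨t, hW⟩
  refine ⟨v, fun W hW => hv W (Or.inl hW), fun t e => (regular_iff _ _).1 (r1 t e), ?_, ?_⟩
  · intro t a ha
    rw [Ideal.mem_iInf] at ha ⊢
    exact fun e => (regular_iff _ _).1 (r1 t e) a (ha e)
  · exact fun t => inf_sup_eq (F t) _ (r2 t)

end Pool.Agent.V1147.CutA
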