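import Mathlib
import Pool.Agent.V1147.CutC

/-!
Several generic linear sections.
-/

set_option autoImplicit false

namespace Pool.Agent.V1147.CutA

open CategoryTheory Abelian Limits MvPolynomial
open Pool.Agent.Helper698.Dstab
open Pool.Agent.Helper698.Symb
open Pool.Agent.H408R3 Pool.Agent.H408R3.PDF
open Pool.Agent.H408R4

universe u

variable {r : ℕ} {K : Type u} [Field K]

/-- the ideal generated by linear forms -/
noncomputable def LI (K : Type u) [Field K] {r : ℕ} (vs : List (Fin r → K)) :
    Ideal (MvPolynomial (Fin r) K) := Ideal.span {y | y ∈ vs.map (lin K r)}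

theorem LI_cons (v : Fin r → K) (vs : List (Fin r → K)) :
    LI K (v :: vs) = Ideal.span {lin K r v} ⊔ LI K vs := by
  unfold LI
  have hset : {z : MvPolynomial (Fin r) K | z ∈ (v :: vs).map (lin K r)} =
      {lin K r v} ∪ {z | z ∈ vs.map (lin K r)} := by
    ext z; simp
  rw [hset, Ideal.span_union]

theorem LI_nil : LI K ([] : List (Fin r → K)) = ⊥ := by
  unfold LI
  have : {y : MvPolynomial (Fin r) K | y ∈ ([] : List (Fin r → K)).map (lin K r)} = ∅ := by
    ext; simp
  rw [this, Ideal.span_empty]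

theorem cut_iter [Uncountable K] {ι : Type} [Fintype ι] : ∀ (c : ℕ)
    (F : ℕ → ι → Ideal (MvPolynomial (Fin r) K)) (s : ℕ → ℕ)
    (Ws : Set (Submodule K (Fin r → K))), Ws.Countable →
    (∀ W ∈ Ws, Module.finrank K W + c ≤ r) →
    (∀ t e, EV (kk K r) (MvPolynomial (Fin r) K ⧸ F t e) c) →
    (∀ t, c + 1 ≤ s t) →
    (∀ t, EV (kk K r) (MvPolynomial (Fin r) K ⧸ (⨅ e, F t e)) (s t)) →
    (∀ t, ¬ EV (kk K r) (MvPolynomial (Fin r) K ⧸ (⨅ e, F t e)) (s t + 1)) →
    ∃ vs : List (Fin r → K),
      (∀ t, ⨅ e, (F t e ⊔ LI K vs) = (⨅ e, F t e) ⊔ LI K vs) ∧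
      (∀ t, EV (kk K r) (MvPolynomial (Fin r) K ⧸ ((⨅ e, F t e) ⊔ LI K vs)) (s t - c)) ∧
      (∀ t, ¬ EV (kk K r) (MvPolynomial (Fin r) K ⧸ ((⨅ e, F t e) ⊔ LI K vs)) (s t - c + 1)) ∧
      (∀ W ∈ Ws, Module.finrank K (W ⊔ Submodule.span K {v | v ∈ vs} :
        Submodule K (Fin r → K)) = Module.finrank K W + c) := by
  intro c
  induction c with
  | zero =>
    intro F s Ws _ _ _ _ h1 h2
    refine ⟨[], ?_, ?_, ?_, ?_⟩
    · intro t
      simp only [LI_nil, sup_bot_eq]
    · intro t
      rw [LI_nil, sup_bot_eq]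
      exact h1 t
    · intro t
      rw [LI_nil, sup_bot_eq]
      exact h2 t
    · intro W _
      have : {v : Fin r → K | v ∈ ([] : List (Fin r → K))} = ∅ := by ext; simp
      rw [this, Submodule.span_empty, sup_bot_eq, add_zero]
  | succ c ih =>
    intro F s Ws hWs hWr hF hs h1 h2
    obtain ⟨v, hv1, hv2, hv3, hv4⟩ := cut_step F (fun t e => (hF t e).mono (by omega))
      (fun t => (h1 t).mono (by have := hs t; omega)) Ws hWs (by
        intro htop
        have h3 := hWr ⊤ htop
        rw [finrank_top, Module.finrank_fintype_fun_eq_card, Fintype.card_fin] at h3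
        omega)
    have hfr : ∀ W ∈ Ws, Module.finrank K (W ⊔ Submodule.span K {v} : Submodule K (Fin r → K)) =
        Module.finrank K W + 1 := by
      intro W hW
      have hv := hv1 W hW
      have hv0 : v ≠ 0 := fun h0 => hv (h0 ▸ zero_mem W)
      have hlt : W < W ⊔ Submodule.span K {v} := by
        refine lt_of_le_of_ne le_sup_left fun h0 => hv ?_
        rw [h0]
        exact Submodule.mem_sup_right (Submodule.mem_span_singleton_self v)
      have hfr : Module.finrank K W + 1 ≤
          Module.finrank K (W ⊔ Submodule.span K {v} : Submodule K (Fin r → K)) :=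
        Submodule.finrank_lt_finrank_of_lt hlt
      have hfr2 : Module.finrank K (W ⊔ Submodule.span K {v} : Submodule K (Fin r → K)) ≤
          Module.finrank K W + 1 := by
        refine (Submodule.finrank_add_le_finrank_add_finrank _ _).trans ?_
        rw [finrank_span_singleton hv0]
      omega
    let F' : ℕ → ι → Ideal (MvPolynomial (Fin r) K) := fun t e => F t e ⊔ Ideal.span {lin K r v}
    have hF' : ∀ t, ⨅ e, F' t e = (⨅ e, F t e) ⊔ Ideal.span {lin K r v} := hv4
    obtain ⟨vs, w1, w2, w3, w4⟩ := ih F' (fun t => s t - 1)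
      ((fun W => W ⊔ Submodule.span K {v}) '' Ws) (hWs.image _)
      (by
        rintro _ ⟨W, hW, rfl⟩
        show Module.finrank K (W ⊔ Submodule.span K {v} : Submodule K (Fin r → K)) + c ≤ r
        rw [hfr W hW]
        have := hWr W hW
        omega)
      (fun t e => EV_cut (hv2 t e) (hF t e))
      (fun t => by have := hs t; show c + 1 ≤ s t - 1; omega)
      (fun t => by
        rw [hF']
        apply EV_cut (hv3 t)
        have := hs t
        have e : s t - 1 + 1 = s t := by omega
        rw [e]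
        exact h1 t)
      (fun t hcon => by
        rw [hF'] at hcon
        apply h2 t
        apply EV_uncut (lin_mem_mm v) (hv3 t)
        have := hs t
        have e : s t - 1 + 1 = s t := by omega
        rw [e] at hcon
        exact hcon)
    have hsup : ∀ I : Ideal (MvPolynomial (Fin r) K), I ⊔ LI K (v :: vs) =
        I ⊔ Ideal.span {lin K r v} ⊔ LI K vs := by
      intro I
      rw [LI_cons, sup_assoc]
    refine ⟨v :: vs, ?_, ?_, ?_, ?_⟩
    · intro t
      simp only [hsup]
      rw [← hF']
      exact w1 t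
    · intro t
      rw [hsup, ← hF']
      have e : s t - (c + 1) = s t - 1 - c := by omega
      rw [e]
      exact w2 t
    · intro t
      rw [hsup, ← hF']
      have e : s t - (c + 1) = s t - 1 - c := by omega
      rw [e]
      exact w3 t
    · intro W hW
      have hset : {z : Fin r → K | z ∈ v :: vs} = {v} ∪ {z | z ∈ vs} := by
        ext z; simp
      rw [hset, Submodule.span_union, ← sup_assoc]
      have h5 := w4 _ ⟨W, hW, rfl⟩
      rw [hfr W hW] at h5
      rw [h5]
      omega

/-- the quotient by the linear forms -/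
theorem exists_quot (vs : List (Fin r → K)) (m : ℕ)
    (hm : Module.finrank K (Submodule.span K {v | v ∈ vs}) + m = r) :
    ∃ q : (Fin r → K) →ₗ[K] (Fin m → K), Function.Surjective q ∧
      LinearMap.ker q = Submodule.span K {v | v ∈ vs} := by
  set Y := Submodule.span K {v | v ∈ vs} with hY
  have hfr : Module.finrank K ((Fin r → K) ⧸ Y) = Module.finrank K (Fin m → K) := by
    have h1 := Submodule.finrank_quotient_add_finrank Y
    rw [Module.finrank_fintype_fun_eq_card, Fintype.card_fin] at h1
    rw [Module.finrank_fintype_fun_eq_card, Fintype.card_fin]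
    omega
  let e : ((Fin r → K) ⧸ Y) ≃ₗ[K] (Fin m → K) := LinearEquiv.ofFinrankEq _ _ hfr
  refine ⟨e.toLinearMap.comp Y.mkQ, e.surjective.comp Y.mkQ_surjective, ?_⟩
  ext v
  rw [LinearMap.mem_ker]
  show e (Y.mkQ v) = 0 ↔ v ∈ Y
  rw [e.map_eq_zero_iff]
  exact Submodule.Quotient.mk_eq_zero Y

/-- the algebra homomorphism induced by a linear map -/
noncomputable def ps {r m : ℕ} (q : (Fin r → K) →ₗ[K] (Fin m → K)) :
    MvPolynomial (Fin r) K →ₐ[K] MvPolynomial (Fin m) K :=
  aeval (fun i => lin K m (q (Pi.single i 1)))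

theorem ps_lin {r m : ℕ} (q : (Fin r → K) →ₗ[K] (Fin m → K)) (w : Fin r → K) :
    ps q (lin K r w) = lin K m (q w) := by
  rw [lin_apply, map_sum]
  have h1 : w = ∑ j, w j • (Pi.single j 1 : Fin r → K) := by
    ext j; simp [Finset.sum_apply, Pi.single_apply]
  conv_rhs => rw [h1]
  rw [map_sum, map_sum]
  apply Finset.sum_congr rfl
  intro j _
  rw [map_smul, map_smul, map_smul]
  congr 1
  exact aeval_X _ j

theorem ps_X {r m : ℕ} (q : (Fin r → K) →ₗ[K] (Fin m → K)) (i : Fin r) :
    ps q (X i) = lin K m (q (Pi.single i 1)) := aeval_X _ i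

theorem ps_comp {r m l : ℕ} (q : (Fin r → K) →ₗ[K] (Fin m → K)) (q' : (Fin m → K) →ₗ[K] (Fin l → K))
    (f : MvPolynomial (Fin r) K) : ps q' (ps q f) = ps (q'.comp q) f := by
  have : (ps q').comp (ps q) = ps (q'.comp q) := by
    apply MvPolynomial.algHom_ext
    intro i
    rw [AlgHom.comp_apply, ps_X, ps_X, ps_lin]
    rfl
  exact DFunLike.congr_fun this f

theorem ps_id (f : MvPolynomial (Fin r) K) : ps (LinearMap.id : (Fin r → K) →ₗ[K] (Fin r → K)) f = f := by
  have : ps (LinearMap.id : (Fin r → K) →ₗ[K] (Fin r → K)) = AlgHom.id K _ := by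
    apply MvPolynomial.algHom_ext
    intro i
    rw [ps_X, LinearMap.id_apply, lin_single]
    rfl
  rw [this]; rfl

/-- modulo the linear forms of the kernel, a section does nothing -/
theorem sub_ps_mem {m : ℕ} (q : (Fin r → K) →ₗ[K] (Fin m → K)) (σ : (Fin m → K) →ₗ[K] (Fin r → K))
    (hσ : ∀ w, q (σ w) = w) (I : Ideal (MvPolynomial (Fin r) K))
    (hI : ∀ v, q v = 0 → lin K r v ∈ I) (f : MvPolynomial (Fin r) K) :
    f - ps σ (ps q f) ∈ I := by
  have key : Ideal.Quotient.mkₐ K I = (Ideal.Quotient.mkₐ K I).comp ((ps σ).comp (ps q)) := by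
    apply MvPolynomial.algHom_ext
    intro i
    rw [AlgHom.comp_apply, AlgHom.comp_apply, ps_X, ps_lin, ← lin_single i]
    show (Ideal.Quotient.mk I) _ = (Ideal.Quotient.mk I) _
    rw [Ideal.Quotient.eq, ← map_sub]
    apply hI
    rw [map_sub, hσ, sub_self]
  have h1 := congrArg (fun F => F f) key
  exact Ideal.Quotient.eq.1 h1

theorem ker_ps {m : ℕ} (q : (Fin r → K) →ₗ[K] (Fin m → K)) (hq : Function.Surjective q)
    (vs : List (Fin r → K)) (hk : LinearMap.ker q = Submodule.span K {v | v ∈ vs}) :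
    RingHom.ker (ps q) = LI K vs := by
  obtain ⟨σ, hσ⟩ := LinearMap.exists_rightInverse_of_surjective q (LinearMap.range_eq_top.2 hq)
  have hσ' : ∀ w, q (σ w) = w := fun w => by
    have := LinearMap.congr_fun hσ w
    simpa using this
  apply le_antisymm
  · intro f hf
    have h1 := sub_ps_mem q σ hσ' (LI K vs) (by
      intro v hv
      have hv' : v ∈ Submodule.span K {v | v ∈ vs} := by rw [← hk]; exact hv
      have h2 : Submodule.span K {v | v ∈ vs} ≤
          Submodule.comap (lin K r) ((LI K vs).restrictScalars K) := by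
        rw [Submodule.span_le]
        intro v hv
        exact Ideal.subset_span (List.mem_map.2 ⟨v, hv, rfl⟩)
      exact h2 hv') f
    rw [RingHom.mem_ker] at hf
    have hf' : ps q f = 0 := hf
    rwa [hf', map_zero, sub_zero] at h1
  · unfold LI
    rw [Ideal.span_le]
    intro y hy
    obtain ⟨v, hv, rfl⟩ := List.mem_map.1 hy
    show ps q (lin K r v) = 0
    have hv' : v ∈ LinearMap.ker q := by rw [hk]; exact Submodule.subset_span hv
    rw [ps_lin, LinearMap.mem_ker.1 hv', map_zero]

end Pool.Agent.V1147.CutA
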