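import Mathlib
import Pool.Agent.V1147.CutD
import Pool.Agent.Helper698.SDef

/-!
Transfer along surjections of polynomial rings given by linear forms.
-/

set_option autoImplicit false

namespace Pool.Agent.V1147.CutA

open CategoryTheory Abelian Limits MvPolynomial
open Pool.Agent.Helper698.Dstab
open Pool.Agent.Helper698.Symb
open Pool.Agent.H408R3 Pool.Agent.H408R3.PDF
open Pool.Agent.H408R4

universe u

section general

/-- symbolic powers of intersections of ideals with primary powers -/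
theorem symbPow_iInf {R : Type u} [CommRing R] {ι : Type} [Fintype ι] (A P : ι → Ideal R)
    (hPp : ∀ e, (P e).IsPrime) (hAP : ∀ e, A e ≤ P e)
    (hrad : ∀ e (p : Ideal R), p.IsPrime → A e ≤ p → P e ≤ p)
    (hprim : ∀ e t, 1 ≤ t → ∀ a f, a ∉ P e → a * f ∈ A e ^ t → f ∈ A e ^ t)
    (hinc : ∀ e e', P e' ≤ P e → P e' = P e ∧ A e' = A e) (t : ℕ) (ht : 1 ≤ t) :
    symbPow (⨅ e, A e) t = ⨅ e, A e ^ t := by
  classical
  have hmin : ∀ p, p ∈ (⨅ e, A e).minimalPrimes ↔ ∃ e, p = P e := by
    intro p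
    constructor
    · intro hp
      have hpp : p.IsPrime := hp.1.1
      have h1 : (Finset.univ.inf A) ≤ p := by
        rw [Finset.inf_univ_eq_iInf]; exact hp.1.2
      obtain ⟨e, -, he⟩ := (hpp.inf_le').1 h1
      refine ⟨e, le_antisymm ?_ (hrad e p hpp he)⟩
      exact hp.2 ⟨hPp e, (iInf_le A e).trans (hAP e)⟩ (hrad e p hpp he)
    · rintro ⟨e, rfl⟩
      refine ⟨⟨hPp e, (iInf_le A e).trans (hAP e)⟩, ?_⟩
      rintro q ⟨hq, hAq⟩ hle
      have h1 : (Finset.univ.inf A) ≤ q := by
        rw [Finset.inf_univ_eq_iInf]; exact hAq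
      obtain ⟨e', -, he'⟩ := (hq.inf_le').1 h1
      have h2 := hrad e' q hq he'
      have h3 := (hinc e e' (h2.trans hle)).1
      rw [← h3]; exact h2
  apply le_antisymm
  · intro f hf
    rw [mem_symbPow] at hf
    rw [Ideal.mem_iInf]
    intro e
    obtain ⟨s, hs, hsf⟩ := hf (P e) ((hmin _).2 ⟨e, rfl⟩)
    exact hprim e t ht s f hs (Ideal.pow_right_mono (iInf_le A e) t hsf)
  · intro f hf
    rw [mem_symbPow]
    intro p hp
    obtain ⟨e, rfl⟩ := (hmin p).1 hp
    rw [Ideal.mem_iInf] at hf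
    have hw : ∀ e', ∃ w, w ∉ P e ∧ ∀ x ∈ A e, w * x ∈ A e' := by
      intro e'
      by_cases h : P e' ≤ P e
      · refine ⟨1, ?_, ?_⟩
        · exact fun h1 => (hPp e).ne_top ((Ideal.eq_top_iff_one _).2 h1)
        · intro x hx
          rw [one_mul, (hinc e e' h).2]; exact hx
      · have h1 : ¬ A e' ≤ P e := fun h2 => h (hrad e' (P e) (hPp e) h2)
        obtain ⟨w, hw, hwP⟩ := Set.not_subset.1 h1
        exact ⟨w, hwP, fun x _ => Ideal.mul_mem_right _ _ hw⟩
    choose w hw1 hw2 using hw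
    refine ⟨(∏ e', w e') ^ t, ?_, ?_⟩
    · intro h
      have h1 := (hPp e).mem_of_pow_mem _ h
      rw [Ideal.IsPrime.prod_mem_iff] at h1
      obtain ⟨e', -, he'⟩ := h1
      exact hw1 e' he'
    · have h1 : Ideal.span {∏ e', w e'} * A e ≤ ⨅ e', A e' := by
        rw [Ideal.mul_le]
        intro a ha x hx
        obtain ⟨c, rfl⟩ := Ideal.mem_span_singleton.1 ha
        rw [Ideal.mem_iInf]
        intro e'
        rw [← Finset.mul_prod_erase Finset.univ w (Finset.mem_univ e')]
        have h2 := hw2 e' x hx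
        have h3 : w e' * (∏ x ∈ Finset.univ.erase e', w x) * c * x =
            ((∏ x ∈ Finset.univ.erase e', w x) * c) * (w e' * x) := by ring
        rw [h3]
        exact Ideal.mul_mem_left _ _ h2
      have h2 : (Ideal.span {∏ e', w e'} * A e) ^ t ≤ (⨅ e', A e') ^ t := Ideal.pow_right_mono h1 t
      rw [mul_pow] at h2
      exact h2 (Ideal.mul_mem_mul (Ideal.pow_mem_pow (Ideal.mem_span_singleton_self _) t) (hf e))

end general

variable {r m : ℕ} {K : Type u} [Field K]

section transfer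

variable (q : (Fin r → K) →ₗ[K] (Fin m → K))

theorem ps_mm {f : MvPolynomial (Fin r) K} (hf : f ∈ mm K r) : ps q f ∈ mm K m := by
  have h1 : mm K r ≤ Ideal.comap (ps q) (mm K m) := by
    rw [mm, Ideal.span_le]
    rintro _ ⟨i, rfl⟩
    show ps q (X i) ∈ mm K m
    rw [ps_X]
    exact lin_mem_mm _
  exact h1 hf

variable (σ : (Fin m → K) →ₗ[K] (Fin r → K)) (hσ : ∀ w, q (σ w) = w)

include hσ in
theorem ps_sec (f : MvPolynomial (Fin m) K) : ps q (ps σ f) = f := by
  rw [ps_comp]
  have : q.comp σ = LinearMap.id := LinearMap.ext hσ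
  rw [this, ps_id]

include hσ in
theorem ps_surj : Function.Surjective (ps q) := fun f => ⟨ps σ f, ps_sec q σ hσ f⟩

include hσ in
theorem comap_sup (I : Ideal (MvPolynomial (Fin m) K)) (y : MvPolynomial (Fin r) K) :
    Ideal.comap (ps q) (I ⊔ Ideal.span {ps q y}) = Ideal.comap (ps q) I ⊔ Ideal.span {y} := by
  apply le_antisymm
  · intro f hf
    obtain ⟨a, ha, b, hb, hab⟩ := Submodule.mem_sup.1 (Ideal.mem_comap.1 hf)
    obtain ⟨c, rfl⟩ := Ideal.mem_span_singleton.1 hb
    have h1 : f = (f - y * ps σ c) + y * ps σ c := by ring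
    rw [h1]
    refine Submodule.add_mem_sup ?_ (Ideal.mul_mem_right _ _ (Ideal.mem_span_singleton_self y))
    rw [Ideal.mem_comap, map_sub, map_mul, ps_sec q σ hσ, ← hab]
    simpa using ha
  · apply sup_le
    · exact Ideal.comap_mono le_sup_left
    · rw [Ideal.span_singleton_le_iff_mem, Ideal.mem_comap]
      exact Ideal.mem_sup_right (Ideal.mem_span_singleton_self _)

include hσ in
theorem chain_down : ∀ (ys : List (MvPolynomial (Fin r) K)) (I : Ideal (MvPolynomial (Fin m) K)),
    RegChain (Ideal.comap (ps q) I) ys → RegChain I (ys.map (ps q)) := by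
  intro ys
  induction ys with
  | nil => intro I _; trivial
  | cons y ys ih =>
    intro I h
    refine ⟨?_, ?_⟩
    · intro a ha
      have h1 := h.1 (ps σ a) (by
        rw [Ideal.mem_comap, map_mul, ps_sec q σ hσ]; exact ha)
      rwa [Ideal.mem_comap, ps_sec q σ hσ] at h1
    · apply ih
      rw [comap_sup q σ hσ]
      exact h.2

include hσ in
theorem chain_up : ∀ (ys : List (MvPolynomial (Fin m) K)) (I : Ideal (MvPolynomial (Fin m) K)),
    RegChain I ys → RegChain (Ideal.comap (ps q) I) (ys.map (ps σ)) := by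
  intro ys
  induction ys with
  | nil => intro I _; trivial
  | cons y ys ih =>
    intro I h
    refine ⟨?_, ?_⟩
    · intro a ha
      rw [Ideal.mem_comap, map_mul, ps_sec q σ hσ] at ha
      exact h.1 _ ha
    · rw [← comap_sup q σ hσ, ps_sec q σ hσ]
      exact ih _ h.2

include hσ in
theorem EV_down (I : Ideal (MvPolynomial (Fin m) K)) (hI : I ≤ mm K m) (t : ℕ)
    (h : EV (kk K r) (MvPolynomial (Fin r) K ⧸ Ideal.comap (ps q) I) t) :
    EV (kk K m) (MvPolynomial (Fin m) K ⧸ I) t := by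
  have hI' : Ideal.comap (ps q) I ≤ mm K r := by
    intro f hf
    have h1 := hI hf
    -- constant coefficients agree
    rw [mem_mm_iff] at h1 ⊢
    have h2 : (constantCoeff : MvPolynomial (Fin m) K →+* K).comp (ps q).toRingHom =
        constantCoeff := by
      apply MvPolynomial.ringHom_ext
      · intro c
        simp [ps]
      · intro i
        show constantCoeff (ps q (X i)) = _
        rw [ps_X, constantCoeff_X]
        exact mem_mm_iff.1 (lin_mem_mm _)
    have h3 := DFunLike.congr_fun h2 f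
    have h4 : constantCoeff (ps q f) = constantCoeff f := h3
    rw [← h4]; exact h1
  obtain ⟨rs, hlen, hmem, hreg⟩ := exists_regular_of_EV _ hI' t h
  have h1 := chain_down q σ hσ rs I (chain_of_isWeaklyRegular rs _ hreg.toIsWeaklyRegular)
  have h2 := EV_of_chain (N := kk K m) _ _ h1 (by
    intro y hy
    obtain ⟨x, hx, rfl⟩ := List.mem_map.1 hy
    exact (mem_ann_kk _).2 (ps_mm q (hmem x hx)))
  rwa [List.length_map, hlen] at h2

include hσ in
theorem EV_up (I : Ideal (MvPolynomial (Fin m) K)) (hI : I ≤ mm K m) (t : ℕ)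
    (h : EV (kk K m) (MvPolynomial (Fin m) K ⧸ I) t) :
    EV (kk K r) (MvPolynomial (Fin r) K ⧸ Ideal.comap (ps q) I) t := by
  obtain ⟨rs, hlen, hmem, hreg⟩ := exists_regular_of_EV _ hI t h
  have h1 := chain_up q σ hσ rs I (chain_of_isWeaklyRegular rs _ hreg.toIsWeaklyRegular)
  have h2 := EV_of_chain (N := kk K r) _ _ h1 (by
    intro y hy
    obtain ⟨x, hx, rfl⟩ := List.mem_map.1 hy
    exact (mem_ann_kk _).2 (ps_mm σ (hmem x hx)))
  rwa [List.length_map, hlen] at h2

end transfer

/-- a section which is the identity on a given complement of the kernel -/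
theorem exists_sec (q : (Fin r → K) →ₗ[K] (Fin m → K)) (hq : Function.Surjective q)
    (W : Submodule K (Fin r → K)) (hW : ∀ w ∈ W, q w = 0 → w = 0) :
    ∃ σ : (Fin m → K) →ₗ[K] (Fin r → K), (∀ w, q (σ w) = w) ∧ ∀ w ∈ W, σ (q w) = w := by
  obtain ⟨σ0, hσ0⟩ := LinearMap.exists_rightInverse_of_surjective q (LinearMap.range_eq_top.2 hq)
  have hσ' : ∀ w, q (σ0 w) = w := fun w => by
    have := LinearMap.congr_fun hσ0 w
    simpa using this
  have hker : LinearMap.ker (q.comp W.subtype) = ⊥ := by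
    rw [LinearMap.ker_eq_bot']
    rintro ⟨w, hw⟩ h
    apply Subtype.ext
    exact hW w hw h
  obtain ⟨p, hp⟩ := LinearMap.exists_leftInverse_of_injective (q.comp W.subtype) hker
  refine ⟨σ0 + (W.subtype.comp p - σ0.comp (q.comp (W.subtype.comp p))), ?_, ?_⟩
  · intro w
    simp [hσ']
  · intro w hw
    have h1 : p (q w) = ⟨w, hw⟩ := LinearMap.congr_fun hp ⟨w, hw⟩
    simp [h1]

/-- images of ideals described by the variables in `G` -/
theorem map_MI (q : (Fin r → K) →ₗ[K] (Fin m → K)) (σ : (Fin m → K) →ₗ[K] (Fin r → K))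
    (hσ : ∀ w, q (σ w) = w) (G : Finset (Fin r))
    (hG : ∀ i ∈ G, σ (q (Pi.single i 1)) = Pi.single i 1)
    (T : Set (Fin r →₀ ℕ)) (hTG : ∀ α β : Fin r →₀ ℕ, (∀ i ∈ G, α i = β i) → α ∈ T → β ∈ T) :
    Ideal.map (ps q) (MI K T) = Ideal.comap (ps σ) (MI K T) := by
  classical
  apply le_antisymm
  · rw [Ideal.map_le_iff_le_comap, MI, Ideal.span_le]
    rintro _ ⟨α, hα, rfl⟩
    show ps σ (ps q (monomial α 1)) ∈ MI K T
    have h1 : (monomial α (1 : K)) = monomial (α.filter (· ∈ G)) 1 *
        monomial (α.filter (fun i => ¬ i ∈ G)) 1 := by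
      rw [monomial_mul, Finsupp.filter_pos_add_filter_neg, one_mul]
    have h2 : ps σ (ps q (monomial (α.filter (· ∈ G)) (1 : K))) =
        monomial (α.filter (· ∈ G)) (1 : K) := by
      rw [ps_comp, monomial_eq, C_1, one_mul, Finsupp.prod, map_prod]
      apply Finset.prod_congr rfl
      intro i hi
      have hiG : i ∈ G := by
        by_contra hcon
        rw [Finsupp.mem_support_iff, Finsupp.filter_apply_neg _ _ hcon] at hi
        exact hi rfl
      rw [map_pow, ps_X]
      congr 1
      show lin K r (σ (q (Pi.single i 1))) = X i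
      rw [hG i hiG, lin_single]
    rw [h1, map_mul, map_mul, h2]
    apply Ideal.mul_mem_right
    apply monomial_mem_MI
    apply hTG α _ _ hα
    intro i hi
    rw [Finsupp.filter_apply_pos _ _ hi]
  · intro f hf
    rw [Ideal.mem_comap] at hf
    rw [← ps_sec q σ hσ f]
    exact Ideal.mem_map_of_mem _ hf

end Pool.Agent.V1147.CutA
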