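import Mathlib
import Pool.Agent.V1147.CutB
import Pool.Agent.V1147.CutE

/-!
The monomial systems with prescribed depths.
-/

set_option autoImplicit false

namespace Pool.Agent.V1147.CutA

open CategoryTheory Abelian Limits MvPolynomial
open Pool.Agent.Helper698.Dstab
open Pool.Agent.Helper698.Symb
open Pool.Agent.H408R3 Pool.Agent.H408R3.PDF
open Pool.Agent.H408R4

universe u

theorem per_mul {g : ℕ → ℕ} {N q : ℕ} (h : ∀ t : ℕ, N ≤ t → g (t + q) = g t) :
    ∀ k t : ℕ, N ≤ t → g (t + q * k) = g t := by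
  intro k
  induction k with
  | zero => intro t _; rw [mul_zero, add_zero]
  | succ k ih =>
    intro t ht
    have e : t + q * (k + 1) = (t + q * k) + q := by ring
    rw [e, h _ (by omega), ih t ht]

theorem per_mod {g : ℕ → ℕ} {N q p : ℕ} (h : ∀ t : ℕ, N ≤ t → g (t + q) = g t)
    (hp : p = q * (N + 2)) (hNp : N ≤ p) (hp0 : 0 < p) (t : ℕ) (ht : p ≤ t) :
    g t = g (t % p + p) := by
  have h1 := Nat.mod_add_div t p
  have h2 : 1 ≤ t / p := Nat.div_pos ht hp0
  obtain ⟨d, hd⟩ : ∃ d, t / p = d + 1 := ⟨t / p - 1, by omega⟩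
  have h3 : t = (t % p + p) + q * ((N + 2) * d) := by
    rw [hd] at h1
    calc t = t % p + p * (d + 1) := h1.symm
      _ = (t % p + p) + p * d := by ring
      _ = (t % p + p) + q * ((N + 2) * d) := by rw [hp]; ring
  conv_lhs => rw [h3]
  exact per_mul h _ _ (by omega)

theorem card_lt (M n : ℕ) (h : n ≤ M) :
    (Finset.univ.filter (fun k : Fin M => k.val < n)).card = n := by
  rw [Fin.card_filter_val_lt]
  omega

/-- monomial systems whose symbolic powers have prescribed depths -/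
theorem exists_sys (g : ℕ → ℕ) (hper0 : ∃ N p : ℕ, 0 < p ∧ ∀ t : ℕ, N ≤ t → g (t + p) = g t)
    (hg : ∀ t : ℕ, 1 ≤ t → 2 ≤ g t) (n0 : ℕ) (K : Type u) [Field K] :
    ∃ (r : ℕ) (S : Sys r), n0 ≤ r ∧ (∃ x y, S.adm x y) ∧ ∀ t, 1 ≤ t → g t + 1 ≤ r ∧
      EV (kk K r) (MvPolynomial (Fin r) K ⧸ MI K (S.SN t)) (r - (g t + 1)) ∧
      ¬ EV (kk K r) (MvPolynomial (Fin r) K ⧸ MI K (S.SN t)) (r - (g t + 1) + 1) := by
  classical
  obtain ⟨N0, q, hq, hper1⟩ := hper0
  obtain ⟨N, hNdef⟩ : ∃ N, N = N0 + n0 := ⟨_, rfl⟩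
  have hper : ∀ t : ℕ, N ≤ t → g (t + q) = g t := fun t ht => hper1 t (by omega)
  obtain ⟨p, hpdef⟩ : ∃ p, p = q * (N + 2) := ⟨_, rfl⟩
  have hNp : N + 2 ≤ p := by
    rw [hpdef]; exact Nat.le_mul_of_pos_left _ hq
  have hp : 2 ≤ p := by omega
  have hmod : ∀ t, p ≤ t → g t = g (t % p + p) := per_mod hper hpdef (by omega) (by omega)
  -- the bound
  let M := ∑ t ∈ Finset.range (2 * p), g t
  have hM0 : ∀ t, t < 2 * p → g t ≤ M := fun t ht =>
    Finset.single_le_sum (f := g) (fun _ _ => Nat.zero_le _) (Finset.mem_range.2 ht)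
  have hM : ∀ t, g t ≤ M := by
    intro t
    rcases Nat.lt_or_ge t p with h | h
    · exact hM0 t (by omega)
    · rw [hmod t h]
      apply hM0
      have := Nat.mod_lt t (show 0 < p by omega)
      omega
  have hMp : p ≤ M := by
    have h1 : ∑ t ∈ Finset.range (2 * p), (if 1 ≤ t then 1 else 0) ≤ M := by
      apply Finset.sum_le_sum
      intro t _
      split_ifs with h
      · have := hg t h; omega
      · exact Nat.zero_le _
    have h2 : ∑ t ∈ Finset.range (2 * p), (if 1 ≤ t then 1 else 0) = 2 * p - 1 := by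
      obtain ⟨k, hk⟩ : ∃ k, 2 * p = k + 1 := ⟨2 * p - 1, by omega⟩
      rw [hk, Finset.sum_range_succ']
      simp
    omega
  let I := Bool × Fin M
  let B : I → ℕ → Prop := fun i s =>
    (i.1 = false ∧ s ≤ p ∧ i.2.val < g s) ∨ (i.1 = true ∧ i.2.val < g (s % p + p))
  let L : I → Prop := fun i => i.1 = true
  have hB1 : ∀ i s, 1 ≤ s → B i (s + p) → B i s := by
    rintro i s hs (⟨h1, h2, h3⟩ | ⟨h1, h2⟩)
    · omega
    · right
      rw [Nat.add_mod_right] at h2
      exact ⟨h1, h2⟩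
  have hB2 : ∀ i s, p < s → (B i (s + p) ↔ B i s) := by
    intro i s hs
    constructor
    · exact hB1 i s (by omega)
    · rintro (⟨h1, h2, h3⟩ | ⟨h1, h2⟩)
      · omega
      · right
        rw [Nat.add_mod_right]
        exact ⟨h1, h2⟩
  have hcardI : Fintype.card I = 2 * M := by
    simp [I]
  have hcard : Fintype.card (I ⊕ I) = 4 * M := by
    rw [Fintype.card_sum, hcardI]; ring
  let e : I ⊕ I ≃ Fin (Fintype.card (I ⊕ I)) := Fintype.equivFin _
  let S := theSys e (L := L) hp hB1 hB2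
  have hMpos : 0 < M := by omega
  refine ⟨Fintype.card (I ⊕ I), S, by omega, ?_, ?_⟩
  · let i : I := (false, ⟨0, hMpos⟩)
    exact ⟨_, _, adm_uv e hp hB1 hB2 i i⟩
  intro t ht
  have hgt := hg t ht
  -- the active indices
  obtain ⟨C, hC1, hC2⟩ : ∃ C : Finset I, (∀ j, j ∈ C ↔ B j t ∧ (t ≤ p → ¬ L j)) ∧ C.card = g t := by
    refine ⟨(Finset.univ.filter (fun k : Fin M => k.val < g t)).map
      ⟨fun k => (decide (p < t), k), fun k k' h => (Prod.mk.inj h).2⟩, ?_, ?_⟩
    · rintro ⟨b, k⟩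
      rw [Finset.mem_map]
      constructor
      · rintro ⟨k', hk', h'⟩
        have h1 : k'.val < g t := (Finset.mem_filter.1 hk').2
        obtain ⟨h2, h3⟩ := Prod.mk.inj h'
        subst h3
        by_cases hpt : p < t
        · have hb : b = true := by rw [← h2]; simpa using hpt
          refine ⟨Or.inr ⟨hb, ?_⟩, fun h => by omega⟩
          show k'.val < g (t % p + p)
          rw [← hmod t hpt.le]; exact h1
        · have hb : b = false := by rw [← h2]; simpa using hpt
          refine ⟨Or.inl ⟨hb, by omega, h1⟩, fun _ hL => ?_⟩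
          have hL' : b = true := hL
          rw [hb] at hL'
          exact Bool.false_ne_true hL'
      · rintro ⟨h1, h2⟩
        refine ⟨k, Finset.mem_filter.2 ⟨Finset.mem_univ _, ?_⟩, ?_⟩
        · rcases h1 with ⟨_, _, h3⟩ | ⟨h3, h4⟩
          · exact h3
          · by_cases hpt : t ≤ p
            · exact absurd h3 (h2 hpt)
            · rw [hmod t (by omega)]; exact h4
        · show (decide (p < t), k) = (b, k)
          rcases h1 with ⟨h3, h4, _⟩ | ⟨h3, h4⟩
          · have hb : b = false := h3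
            rw [hb, decide_eq_false (by omega)]
          · have hb : b = true := h3
            have hpt : ¬ t ≤ p := fun hpt => h2 hpt h3
            rw [hb, decide_eq_true (by omega)]
    · rw [Finset.card_map]
      exact card_lt M (g t) (hM t)
  have hgM := hM t
  refine ⟨by omega, ?_, ?_⟩
  · have h1 : QD K (S.SN t) (g t + 2) :=
      upper e hp hB1 hB2 t (g t) hgt C (fun j h1 h2 => (hC1 j).2 ⟨h1, h2⟩) hC2.le
    exact EV_of_PD (g t + 1) _ h1
  · have h2 : ¬ EV (kk K (Fintype.card (I ⊕ I))) (MvPolynomial (Fin (Fintype.card (I ⊕ I))) K ⧸ MI K (S.SN t))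
        (Fintype.card (I ⊕ I) - C.card) := by
      apply lowerEV e hp hB1 hB2 t ht C
      · rw [← Finset.card_pos, hC2]; omega
      · exact fun j hj => (hC1 j).1 hj
      · rw [hC2]; omega
    rw [hC2] at h2
    have e1 : Fintype.card (I ⊕ I) - (g t + 1) + 1 = Fintype.card (I ⊕ I) - g t := by omega
    rw [e1]
    exact h2

/-- the ideals of one condition have depth at least `r - 2` -/
theorem EV_TT {r : ℕ} {S : Sys r} {K : Type u} [Field K] {x y : Fin r} (hxy : S.adm x y) (t : ℕ) :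
    EV (kk K r) (MvPolynomial (Fin r) K ⧸ MI K (S.TT x y t)) (r - 2) := by
  classical
  let S' : Sys r :=
    { adm := fun a b => a = x ∧ b = y
      T := S.T
      ne := by rintro a b ⟨rfl, rfl⟩; exact S.ne _ _ hxy
      up := S.up
      add := S.add
      dec := S.dec
      pos := by rintro a b t ⟨rfl, rfl⟩; exact S.pos _ _ _ hxy
      big := S.big
      uniq := by
        rintro a b a' b' ⟨rfl, rfl⟩ ⟨rfl, rfl⟩ _ _
        exact Or.inl ⟨rfl, rfl⟩ }
  have h1 : S'.SN t = S.TT x y t := by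
    ext γ
    constructor
    · intro h
      exact h x y ⟨rfl, rfl⟩
    · rintro h a b ⟨rfl, rfl⟩
      exact h
  have h2 : QD K (S'.SN t) 3 := by
    apply Sys.QD_SN
    intro a
    refine QD_star _ (Sys.adj_symm t a) (Sys.adj_irrefl t a) _ x ?_
    rintro u _ v _ (⟨⟨h, _⟩, _⟩ | ⟨⟨h, _⟩, _⟩)
    · exact Or.inl h
    · exact Or.inr h
  rw [← h1]
  exact EV_of_PD 2 _ h2

theorem SN_eq_iInf {r : ℕ} {S : Sys r} {K : Type u} [Field K] (t : ℕ) :
    MI K (S.SN t) = ⨅ e : {xy : Fin r × Fin r // S.adm xy.1 xy.2}, MI K (S.TT e.1.1 e.1.2 t) := by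
  ext f
  rw [Ideal.mem_iInf, mem_MI (Sys.SN_upper t)]
  constructor
  · intro h e
    rw [mem_MI (Sys.TT_upper _ _ t)]
    exact fun α hα => h α hα _ _ e.2
  · intro h α hα x y hxy
    have h1 := h ⟨(x, y), hxy⟩
    rw [mem_MI (Sys.TT_upper _ _ t)] at h1
    exact h1 α hα

end Pool.Agent.V1147.CutA
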