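import Mathlib
import Pool.Agent.V1147.CutF

/-!
Ideals of height two in `m + 3` variables with prescribed symbolic depth functions.
-/

set_option autoImplicit false

namespace Pool.Agent.V1147.CutA

open CategoryTheory Abelian Limits MvPolynomial
open Pool.Agent.Helper698.Dstab
open Pool.Agent.Helper698.Symb
open Pool.Agent.H408R3 Pool.Agent.H408R3.PDF
open Pool.Agent.H408R4

universe u

variable {r : ℕ} {K : Type u} [Field K]

/-- coordinates subspaces -/
def crd (K : Type u) [Field K] {r : ℕ} (T : Fin 3 → Fin r) : Submodule K (Fin r → K) :=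
  Submodule.span K (Set.range fun i => (Pi.single (T i) 1 : Fin r → K))

theorem finrank_crd (T : Fin 3 → Fin r) : Module.finrank K (crd K T) ≤ 3 := by
  unfold crd
  have := finrank_range_le_card (R := K) (fun i => (Pi.single (T i) 1 : Fin r → K))
  rw [Fintype.card_fin] at this
  exact this

theorem X_notMem_US {x y z : Fin r} (hx : z ≠ x) (hy : z ≠ y) :
    (X z : MvPolynomial (Fin r) K) ∉ MI K (US {x, y}) := by
  classical
  rw [mem_MI (isUpperSet_US _)]
  intro h
  obtain ⟨j, hj, hne⟩ := h (Finsupp.single z 1) (by simp [X])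
  rw [Finset.mem_insert, Finset.mem_singleton] at hj
  rcases hj with rfl | rfl
  · rw [Finsupp.single_eq_of_ne hx.symm] at hne; exact hne rfl
  · rw [Finsupp.single_eq_of_ne hy.symm] at hne; exact hne rfl

/-- the main construction -/
theorem main [Uncountable K] (S : Sys r) (m : ℕ) (hr : m + 3 ≤ r) (hadm : ∃ x y, S.adm x y)
    (φ : ℕ → ℕ) (hφ1 : ∀ t, 1 ≤ t → 1 ≤ φ t) (hφm : ∀ t, 1 ≤ t → φ t ≤ m)
    (hS : ∀ t, 1 ≤ t →
      EV (kk K r) (MvPolynomial (Fin r) K ⧸ MI K (S.SN t)) (r - (m - φ t + 3)) ∧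
      ¬ EV (kk K r) (MvPolynomial (Fin r) K ⧸ MI K (S.SN t)) (r - (m - φ t + 3) + 1)) :
    ∃ Q : Ideal (MvPolynomial (Fin (m + 3)) K),
      (∃ G : Set (MvPolynomial (Fin (m + 3)) K), (∀ f ∈ G, ∃ d, f.IsHomogeneous d) ∧
        Q = Ideal.span G) ∧
      Q.height = 2 ∧
      ∀ t, 1 ≤ t → depthQuot (symbPow Q t) = (φ t : ℕ∞) := by
  classical
  let ι := {xy : Fin r × Fin r // S.adm xy.1 xy.2}
  obtain ⟨c, hc⟩ : ∃ c, c = r - (m + 3) := ⟨_, rfl⟩
  have hrc : r = m + 3 + c := by omega
  let F : ℕ → ι → Ideal (MvPolynomial (Fin r) K) := fun t e => MI K (S.TT e.1.1 e.1.2 (t + 1))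
  have hFi : ∀ t, ⨅ e, F t e = MI K (S.SN (t + 1)) := fun t => (SN_eq_iInf (t + 1)).symm
  obtain ⟨vs, w1, w2, w3, w4⟩ := cut_iter c F (fun t => r - (m - φ (t + 1) + 3))
    ({⊥} ∪ Set.range (crd K)) ((Set.countable_singleton _).union (Set.countable_range _))
    (by
      rintro W (hW | ⟨T, rfl⟩)
      · rw [Set.mem_singleton_iff] at hW
        subst hW
        rw [finrank_bot]; omega
      · have := finrank_crd (K := K) T
        omega)
    (fun t e => (EV_TT e.2 (t + 1)).mono (by omega))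
    (fun t => by
      have h1 := hφ1 (t + 1) (by omega)
      have h2 := hφm (t + 1) (by omega)
      show c + 1 ≤ r - (m - φ (t + 1) + 3)
      omega)
    (fun t => by rw [hFi]; exact (hS (t + 1) (by omega)).1)
    (fun t => by rw [hFi]; exact (hS (t + 1) (by omega)).2)
  set Y := Submodule.span K {v | v ∈ vs} with hY
  have hYc : Module.finrank K Y = c := by
    have h1 := w4 ⊥ (Or.inl rfl)
    rw [bot_sup_eq, finrank_bot, zero_add] at h1
    exact h1
  obtain ⟨q, hq, hqk⟩ := exists_quot vs (m + 3) (by rw [← hY, hYc]; omega)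
  have hker := ker_ps q hq vs hqk
  -- coordinate subspaces meet the kernel trivially
  have hcrd : ∀ (T : Fin 3 → Fin r), ∀ w ∈ crd K T, q w = 0 → w = 0 := by
    intro T w hw hqw
    have h1 := w4 (crd K T) (Or.inr ⟨T, rfl⟩)
    have h2 := Submodule.finrank_sup_add_finrank_inf_eq (crd K T) Y
    rw [h1, hYc] at h2
    have h3 : Module.finrank K (crd K T ⊓ Y : Submodule K (Fin r → K)) = 0 := by omega
    have h4 : crd K T ⊓ Y = ⊥ := Submodule.finrank_eq_zero.1 h3
    have h6 : w ∈ LinearMap.ker q := hqw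
    rw [hqk] at h6
    have h5 : w ∈ crd K T ⊓ Y := ⟨hw, h6⟩
    rw [h4] at h5
    exact (Submodule.mem_bot K).1 h5
  -- sections
  have hsec : ∀ x y z : Fin r, ∃ σ : (Fin (m + 3) → K) →ₗ[K] (Fin r → K), (∀ w, q (σ w) = w) ∧
      σ (q (Pi.single x 1)) = Pi.single x 1 ∧ σ (q (Pi.single y 1)) = Pi.single y 1 ∧
      σ (q (Pi.single z 1)) = Pi.single z 1 := by
    intro x y z
    obtain ⟨σ, hσ1, hσ2⟩ := exists_sec q hq (crd K ![x, y, z]) (hcrd _)
    refine ⟨σ, hσ1, hσ2 _ ?_, hσ2 _ ?_, hσ2 _ ?_⟩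
    · exact Submodule.subset_span ⟨0, rfl⟩
    · exact Submodule.subset_span ⟨1, rfl⟩
    · exact Submodule.subset_span ⟨2, rfl⟩
  have hGsec : ∀ x y z : Fin r, ∃ σ : (Fin (m + 3) → K) →ₗ[K] (Fin r → K), (∀ w, q (σ w) = w) ∧
      (∀ i ∈ ({x, y} : Finset (Fin r)), σ (q (Pi.single i 1)) = Pi.single i 1) ∧
      σ (q (Pi.single z 1)) = Pi.single z 1 := by
    intro x y z
    obtain ⟨σ, h1, h2, h3, h4⟩ := hsec x y z
    refine ⟨σ, h1, ?_, h4⟩
    intro i hi
    rw [Finset.mem_insert, Finset.mem_singleton] at hi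
    rcases hi with rfl | rfl
    · exact h2
    · exact h3
  have hsurj : Function.Surjective (ps q) := by
    obtain ⟨x, _, _⟩ := hadm
    obtain ⟨σ, h1, _⟩ := hsec x x x
    exact ps_surj q σ h1
  -- the ideals
  let A : ι → Ideal (MvPolynomial (Fin (m + 3)) K) := fun e => Ideal.map (ps q) (F 0 e)
  let P : ι → Ideal (MvPolynomial (Fin (m + 3)) K) := fun e =>
    Ideal.map (ps q) (MI K (US {e.1.1, e.1.2}))
  have hApow : ∀ e t, A e ^ (t + 1) = Ideal.map (ps q) (F t e) := by
    intro e t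
    show (Ideal.map (ps q) (MI K (S.TT e.1.1 e.1.2 (0 + 1)))) ^ (t + 1) =
      Ideal.map (ps q) (MI K (S.TT e.1.1 e.1.2 (t + 1)))
    rw [← Ideal.map_pow, zero_add, Sys.TT_pow (S.ne _ _ e.2) (t + 1) (by omega)]
  have hcm : ∀ I : Ideal (MvPolynomial (Fin r) K),
      Ideal.comap (ps q) (Ideal.map (ps q) I) = I ⊔ LI K vs := by
    intro I
    rw [Ideal.comap_map_of_surjective _ hsurj, ← hker]
    rfl
  have hmapi : ∀ t, ⨅ e, Ideal.map (ps q) (F t e) = Ideal.map (ps q) (MI K (S.SN (t + 1))) := by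
    intro t
    apply Ideal.comap_injective_of_surjective (ps q) hsurj
    rw [Ideal.comap_iInf, hcm, ← hFi, ← w1 t]
    exact iInf_congr fun e => hcm _
  have hPp : ∀ e, (P e).IsPrime := by
    intro e
    obtain ⟨σ, h1, h2, _⟩ := hGsec e.1.1 e.1.2 e.1.1
    have h3 : P e = Ideal.comap (ps σ) (MI K (US {e.1.1, e.1.2})) :=
      map_MI q σ h1 _ h2 _ (US_congr _)
    rw [h3]
    have := isPrime_US (K := K) ({e.1.1, e.1.2} : Finset (Fin r))
    exact Ideal.comap_isPrime _ _
  have hAP : ∀ e, A e ≤ P e := by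
    intro e
    apply Ideal.map_mono
    apply MI_mono
    exact Sys.TT_sub_US e.2 (by omega)
  have hprim : ∀ e t, 1 ≤ t → ∀ a f, a ∉ P e → a * f ∈ A e ^ t → f ∈ A e ^ t := by
    intro e t ht a f ha haf
    obtain ⟨t', rfl⟩ : ∃ t', t = t' + 1 := ⟨t - 1, by omega⟩
    obtain ⟨σ, h1, h2, _⟩ := hGsec e.1.1 e.1.2 e.1.1
    have h3 : P e = Ideal.comap (ps σ) (MI K (US {e.1.1, e.1.2})) :=
      map_MI q σ h1 _ h2 _ (US_congr _)
    have h4 : Ideal.map (ps q) (F t' e) = Ideal.comap (ps σ) (F t' e) :=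
      map_MI q σ h1 _ h2 _ Sys.TT_congr
    rw [hApow, h4, Ideal.mem_comap] at haf ⊢
    rw [h3, Ideal.mem_comap] at ha
    rw [map_mul] at haf
    exact primary_lemma _ _ (Sys.TT_upper _ _ _) Sys.TT_congr _ _ ha haf
  have hrad : ∀ e (p : Ideal (MvPolynomial (Fin (m + 3)) K)), p.IsPrime → A e ≤ p → P e ≤ p := by
    intro e p hp hle
    rw [Ideal.map_le_iff_le_comap] at hle ⊢
    have := Ideal.comap_isPrime (ps q) p
    rw [US_le_iff]
    obtain ⟨M, hM⟩ := S.big (0 + 1)
    intro i hi
    have h1 : monomial (Finsupp.single i M) (1 : K) ∈ Ideal.comap (ps q) p := by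
      apply hle
      apply monomial_mem_MI
      show S.T _ _ (0 + 1) _ _
      rw [Finset.mem_insert, Finset.mem_singleton] at hi
      rcases hi with rfl | rfl
      · exact hM _ _ _ _ (Or.inl (by simp))
      · exact hM _ _ _ _ (Or.inr (by simp))
    have h2 : monomial (Finsupp.single i M) (1 : K) = X i ^ M := by
      rw [X, monomial_pow]
      simp
    rw [h2] at h1
    exact Ideal.IsPrime.mem_of_pow_mem inferInstance _ h1
  have hinc : ∀ e e', P e' ≤ P e → P e' = P e ∧ A e' = A e := by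
    rintro ⟨⟨x, y⟩, hxy⟩ ⟨⟨x', y'⟩, hxy'⟩ hle
    have key : ∀ z, z ∈ ({x', y'} : Finset (Fin r)) → z = x ∨ z = y := by
      intro z hz
      by_contra hcon
      push Not at hcon
      obtain ⟨σ, h1, h2, h3⟩ := hGsec x y z
      have h4 : Ideal.map (ps q) (MI K (US {x, y})) = Ideal.comap (ps σ) (MI K (US {x, y})) :=
        map_MI q σ h1 _ h2 _ (US_congr _)
      have h5 : ps q (X z) ∈ Ideal.map (ps q) (MI K (US {x', y'})) := by
        apply Ideal.mem_map_of_mem
        exact monomial_mem_MI (S := US {x', y'}) (α := Finsupp.single z 1) ⟨z, hz, by simp⟩ 1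
      have h6 : ps q (X z) ∈ Ideal.map (ps q) (MI K (US {x, y})) := hle h5
      rw [h4, Ideal.mem_comap, ps_X, ps_lin, h3, lin_single] at h6
      exact X_notMem_US hcon.1 hcon.2 h6
    rcases S.uniq x y x' y' hxy hxy' (key x' (by simp)) (key y' (by simp)) with
      ⟨rfl, rfl⟩ | ⟨rfl, rfl, hT⟩
    · exact ⟨rfl, rfl⟩
    · have hT' : ∀ t a b, S.T x' y' t a b → S.T y' x' t b a := by
        rcases S.uniq x' y' y' x' hxy' hxy (Or.inr rfl) (Or.inl rfl) with ⟨h1, _⟩ | ⟨_, _, h⟩
        · exact absurd h1.symm (S.ne _ _ hxy')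
        · exact h
      constructor
      · show Ideal.map (ps q) (MI K (US {x', y'})) = Ideal.map (ps q) (MI K (US {y', x'}))
        rw [Finset.pair_comm]
      · show Ideal.map (ps q) (MI K (S.TT x' y' (0 + 1))) =
          Ideal.map (ps q) (MI K (S.TT y' x' (0 + 1)))
        have : S.TT x' y' (0 + 1) = S.TT y' x' (0 + 1) := by
          ext γ
          exact ⟨fun h => hT' _ _ _ h, fun h => hT _ _ _ h⟩
        rw [this]
  -- the ideal
  have hsymb : ∀ t, symbPow (⨅ e, A e) (t + 1) = Ideal.map (ps q) (MI K (S.SN (t + 1))) := by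
    intro t
    rw [symbPow_iInf A P hPp hAP hrad hprim hinc (t + 1) (by omega), ← hmapi]
    exact iInf_congr fun e => hApow e t
  have hQ : (⨅ e, A e) = Ideal.map (ps q) (MI K (S.SN 1)) := hmapi 0
  obtain ⟨x0, y0, hxy0⟩ := hadm
  have hmmr : ∀ t, 1 ≤ t → MI K (S.SN t) ≤ mm K r := by
    intro t ht
    refine (MI_mono ((Sys.SN_sub_TT hxy0).trans (Sys.TT_sub_US hxy0 ht))).trans ?_
    rw [US_le_iff]
    intro i _
    exact Ideal.subset_span ⟨i, rfl⟩
  have hmm : ∀ t, 1 ≤ t → Ideal.map (ps q) (MI K (S.SN t)) ≤ mm K (m + 3) := by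
    intro t ht
    rw [Ideal.map_le_iff_le_comap]
    exact fun f hf => ps_mm q (hmmr t ht hf)
  refine ⟨⨅ e, A e, ?_, ?_, ?_⟩
  · -- homogeneous
    refine ⟨(ps q) '' ((fun α => monomial α (1 : K)) '' (S.SN 1)), ?_, ?_⟩
    · rintro _ ⟨_, ⟨α, -, rfl⟩, rfl⟩
      refine ⟨1 * α.degree, ?_⟩
      exact (isHomogeneous_monomial (1 : K) rfl).aeval _ fun i => lin_homogeneous _
    · rw [hQ, MI, Ideal.map_span]
  · -- height
    have hmem : ∀ p, p ∈ (⨅ e, A e).minimalPrimes → ∃ e, p = P e := by
      intro p hp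
      have hpp : p.IsPrime := hp.1.1
      have h1 : (Finset.univ.inf A) ≤ p := by
        rw [Finset.inf_univ_eq_iInf]; exact hp.1.2
      obtain ⟨e, -, he⟩ := (hpp.inf_le').1 h1
      refine ⟨e, le_antisymm ?_ (hrad e p hpp he)⟩
      exact hp.2 ⟨hPp e, (iInf_le A e).trans (hAP e)⟩ (hrad e p hpp he)
    have hPh : ∀ e, (P e).height = 2 := by
      rintro ⟨⟨x, y⟩, hxy⟩
      have hne : x ≠ y := S.ne _ _ hxy
      have hpr := hPp ⟨⟨x, y⟩, hxy⟩
      apply le_antisymm
      · have h1 : P ⟨⟨x, y⟩, hxy⟩ = Ideal.span (({ps q (X x), ps q (X y)} :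
            Finset (MvPolynomial (Fin (m + 3)) K)) : Set (MvPolynomial (Fin (m + 3)) K)) := by
          apply le_antisymm
          · show Ideal.map (ps q) (MI K (US {x, y})) ≤ _
            rw [Ideal.map_le_iff_le_comap, US_le_iff]
            intro i hi
            rw [Finset.mem_insert, Finset.mem_singleton] at hi
            rw [Ideal.mem_comap]
            apply Ideal.subset_span
            rcases hi with rfl | rfl
            · simp
            · simp
          · rw [Ideal.span_le]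
            intro f hf
            have hf' : f = ps q (X x) ∨ f = ps q (X y) := by simpa using hf
            rcases hf' with rfl | rfl
            · apply Ideal.mem_map_of_mem
              exact monomial_mem_MI (S := US {x, y}) (α := Finsupp.single x 1)
                ⟨x, by simp, by simp⟩ 1
            · apply Ideal.mem_map_of_mem
              exact monomial_mem_MI (S := US {x, y}) (α := Finsupp.single y 1)
                ⟨y, by simp, by simp⟩ 1
        have h2 : P ⟨⟨x, y⟩, hxy⟩ ∈ (Ideal.span (({ps q (X x), ps q (X y)} :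
            Finset (MvPolynomial (Fin (m + 3)) K)) :
              Set (MvPolynomial (Fin (m + 3)) K))).minimalPrimes := by
          rw [← h1]
          exact ⟨⟨hpr, le_rfl⟩, fun q' hq' _ => hq'.2⟩
        refine (Ideal.height_le_card_of_mem_minimalPrimes_span_finset h2).trans ?_
        have h3 := Finset.card_insert_le (ps q (X x))
          ({ps q (X y)} : Finset (MvPolynomial (Fin (m + 3)) K))
        rw [Finset.card_singleton] at h3
        exact_mod_cast h3
      · -- chain of primes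
        obtain ⟨σ, h1, h2, _⟩ := hGsec x y x
        have h3 : P ⟨⟨x, y⟩, hxy⟩ = Ideal.comap (ps σ) (MI K (US {x, y})) :=
          map_MI q σ h1 _ h2 _ (US_congr _)
        let P1 : Ideal (MvPolynomial (Fin (m + 3)) K) := Ideal.comap (ps σ) (MI K (US {x}))
        have hP1 : P1.IsPrime := by
          have := isPrime_US (K := K) ({x} : Finset (Fin r))
          exact Ideal.comap_isPrime _ _
        have hlt1 : (⊥ : Ideal (MvPolynomial (Fin (m + 3)) K)) < P1 := by
          rw [bot_lt_iff_ne_bot]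
          intro hbot
          have h4 : ps q (X x) ∈ P1 := by
            rw [Ideal.mem_comap, ps_X, ps_lin, h2 x (by simp), lin_single]
            exact monomial_mem_MI (S := US {x}) (α := Finsupp.single x 1) ⟨x, by simp, by simp⟩ 1
          rw [hbot, Ideal.mem_bot] at h4
          have h5 : ps σ (ps q (X x)) = (X x : MvPolynomial (Fin r) K) := by
            rw [ps_X, ps_lin, h2 x (by simp), lin_single]
          rw [h4, map_zero] at h5
          exact X_ne_zero x h5.symm
        have hlt2 : P1 < P ⟨⟨x, y⟩, hxy⟩ := by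
          rw [h3]
          refine lt_of_le_of_ne ?_ ?_
          · apply Ideal.comap_mono
            apply MI_mono
            rintro γ ⟨j, hj, hne⟩
            rw [Finset.mem_singleton] at hj
            exact ⟨j, by rw [hj]; simp, hne⟩
          · intro heq
            have h4 : ps q (X y) ∈ Ideal.comap (ps σ) (MI K (US {x, y})) := by
              rw [Ideal.mem_comap, ps_X, ps_lin, h2 y (by simp), lin_single]
              exact monomial_mem_MI (S := US {x, y}) (α := Finsupp.single y 1)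
                ⟨y, by simp, by simp⟩ 1
            rw [← heq] at h4
            rw [Ideal.mem_comap, ps_X, ps_lin, h2 y (by simp), lin_single] at h4
            have h5 : (X y : MvPolynomial (Fin r) K) ∉ MI K (US {x, x}) := X_notMem_US hne.symm hne.symm
            rw [Finset.pair_eq_singleton] at h5
            exact h5 h4
        have g1 := Ideal.height_add_one_le_of_lt_of_isPrime hlt1
        have g2 := Ideal.height_add_one_le_of_lt_of_isPrime hlt2
        rw [Ideal.height_bot, zero_add] at g1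
        calc (2 : ℕ∞) = 1 + 1 := by norm_num
          _ ≤ P1.height + 1 := by gcongr
          _ ≤ _ := g2
    rw [Ideal.height_eq_inf_minimalPrimes]
    apply le_antisymm
    · have hp0 : P ⟨⟨x0, y0⟩, hxy0⟩ ∈ (⨅ e, A e).minimalPrimes := by
        refine ⟨⟨hPp _, (iInf_le A _).trans (hAP _)⟩, ?_⟩
        rintro q' ⟨hq', hAq⟩ hle
        have h1 : (Finset.univ.inf A) ≤ q' := by
          rw [Finset.inf_univ_eq_iInf]; exact hAq
        obtain ⟨e', -, he'⟩ := (hq'.inf_le').1 h1
        have h2 := hrad e' q' hq' he'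
        have h3 := (hinc _ e' (h2.trans hle)).1
        rw [← h3]; exact h2
      exact (iInf₂_le _ hp0).trans (hPh _).le
    · refine le_iInf₂ fun p hp => ?_
      obtain ⟨e, rfl⟩ := hmem p hp
      exact (hPh e).ge
  · -- depths
    intro t ht
    obtain ⟨t, rfl⟩ : ∃ t', t = t' + 1 := ⟨t - 1, by omega⟩
    rw [hsymb t]
    obtain ⟨σ, h1, _⟩ := hsec x0 x0 x0
    have a1 := hφ1 (t + 1) ht
    have a2 := hφm (t + 1) ht
    have e1 : r - (m - φ (t + 1) + 3) - c = φ (t + 1) := by omega
    apply depthQuot_eq _ (hmm (t + 1) ht)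
    · apply EV_down q σ h1 _ (hmm (t + 1) ht)
      rw [hcm, ← hFi]
      have := w2 t
      rwa [e1] at this
    · intro hcon
      have h5 := EV_up q σ h1 _ (hmm (t + 1) ht) _ hcon
      rw [hcm, ← hFi] at h5
      have := w3 t
      rw [e1] at this
      exact this h5

end Pool.Agent.V1147.CutA
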