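import Mathlib

/-!
Permanents: two rows with vanishing 2 × 2 permanents, linearity in a row, arrow matrices.
-/

set_option autoImplicit false

namespace Pool.Agent.V1147.Perm

open Matrix Finset

variable {ι : Type*} [Fintype ι] [DecidableEq ι] {S : Type*} [CommRing S]

theorem perm_eq_rows (N : Matrix ι ι S) : N.permanent = ∑ σ : Equiv.Perm ι, ∏ x, N x (σ x) := by
  rw [← permanent_transpose]; rfl

/-- reindexing -/
theorem perm_equiv {κ : Type*} [Fintype κ] [DecidableEq κ] (N : Matrix ι ι S) (e : κ ≃ ι) :
    (N.submatrix e e).permanent = N.permanent := by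
  rw [permanent, permanent]
  refine Fintype.sum_equiv e.permCongr _ _ fun σ => ?_
  refine Fintype.prod_equiv e _ _ fun i => ?_
  simp [Matrix.submatrix_apply, Equiv.permCongr_apply]

theorem perm_zero_row (N : Matrix ι ι S) (x : ι) (h : ∀ c, N x c = 0) : N.permanent = 0 := by
  rw [perm_eq_rows]
  exact Finset.sum_eq_zero fun σ _ => Finset.prod_eq_zero (mem_univ x) (h _)

/-- two rows all of whose `2 × 2` permanents vanish -/
theorem perm_two_rows (N : Matrix ι ι S) (x y : ι) (hxy : x ≠ y)
    (h : ∀ c c', c ≠ c' → N x c * N y c' + N x c' * N y c = 0) : N.permanent = 0 := by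
  rw [perm_eq_rows]
  refine Finset.sum_involution (fun σ _ => σ * Equiv.swap x y) ?_ ?_ ?_ ?_
  · intro σ _
    have hy : y ∈ (univ : Finset ι).erase x := mem_erase.2 ⟨hxy.symm, mem_univ _⟩
    rw [← mul_prod_erase univ _ (mem_univ x), ← mul_prod_erase _ _ hy,
      ← mul_prod_erase univ (fun z => N z ((σ * Equiv.swap x y) z)) (mem_univ x),
      ← mul_prod_erase _ (fun z => N z ((σ * Equiv.swap x y) z)) hy]
    have h1 : ∏ z ∈ ((univ : Finset ι).erase x).erase y, N z ((σ * Equiv.swap x y) z) =
        ∏ z ∈ ((univ : Finset ι).erase x).erase y, N z (σ z) := by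
      refine Finset.prod_congr rfl fun z hz => ?_
      rw [mem_erase, mem_erase] at hz
      rw [Equiv.Perm.mul_apply, Equiv.swap_apply_of_ne_of_ne hz.2.1 hz.1]
    rw [h1]
    simp only [Equiv.Perm.mul_apply, Equiv.swap_apply_left, Equiv.swap_apply_right]
    have h2 := h (σ x) (σ y) (fun he => hxy (σ.injective he))
    linear_combination (∏ z ∈ ((univ : Finset ι).erase x).erase y, N z (σ z)) * h2
  · intro σ _ _ he
    have h1 : Equiv.swap x y = 1 := by
      have := congrArg (fun τ => σ⁻¹ * τ) he
      simpa using this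
    exact hxy (Equiv.swap_eq_one_iff.1 h1)
  · intro σ _; exact mem_univ _
  · intro σ _
    rw [mul_assoc, Equiv.swap_mul_self, mul_one]

theorem perm_updateRow_sum {κ : Type*} (N : Matrix ι ι S) (x : ι) (t : Finset κ)
    (w : κ → ι → S) (h : ∀ c, N x c = ∑ l ∈ t, w l c) :
    N.permanent = ∑ l ∈ t, (N.updateRow x (w l)).permanent := by
  simp only [perm_eq_rows]
  rw [Finset.sum_comm]
  refine Finset.sum_congr rfl fun σ _ => ?_
  rw [← mul_prod_erase univ _ (mem_univ x), h, Finset.sum_mul]
  refine Finset.sum_congr rfl fun l _ => ?_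
  rw [← mul_prod_erase univ (fun z => (N.updateRow x (w l)) z (σ z)) (mem_univ x)]
  congr 1
  · simp
  · refine Finset.prod_congr rfl fun z hz => ?_
    rw [mem_erase] at hz
    rw [updateRow_ne hz.1]

/-- arrow matrices -/
theorem perm_arrow (N : Matrix ι ι S) (r0 : ι) (U : Finset ι) (hU : r0 ∉ U)
    (h1 : ∀ r, r ≠ r0 → N r r = 1)
    (h2 : ∀ r ∈ U, ∀ c, c ≠ r → N r c = 0)
    (h3 : ∀ r, r ≠ r0 → r ∉ U → ∀ c, c ≠ r → c ≠ r0 → c ∉ U → N r c = 0) :
    N.permanent = N r0 r0 + ∑ r ∈ (univ \ (insert r0 U)), N r r0 * N r0 r := by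
  have key : ∑ σ : Equiv.Perm ι, ∏ x, N x (σ x) =
      ∑ σ ∈ (univ \ U).image (fun r => Equiv.swap r0 r), ∏ x, N x (σ x) := by
    symm
    refine Finset.sum_subset (subset_univ _) ?_
    intro σ _ hσ
    by_contra hne
    have hnz : ∀ x, N x (σ x) ≠ 0 := by
      intro x hx
      exact hne (Finset.prod_eq_zero (mem_univ x) hx)
    apply hσ
    rw [mem_image]
    have hfU : ∀ r ∈ U, σ r = r := by
      intro r hr
      by_contra hc
      exact hnz r (h2 r hr _ hc)
    have hnU : ∀ r, r ∉ U → σ r ∉ U := by
      intro r hr hc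
      have := hfU _ hc
      exact hr (by rw [← σ.injective this]; exact hc)
    have h4 : ∀ r, r ≠ r0 → σ r = r ∨ σ r = r0 := by
      intro r hr
      by_cases hrU : r ∈ U
      · exact Or.inl (hfU r hrU)
      · by_contra hc
        push Not at hc
        exact hnz r (h3 r hr hrU _ hc.1 hc.2 (hnU r hrU))
    refine ⟨σ r0, mem_sdiff.2 ⟨mem_univ _, hnU _ hU⟩, ?_⟩
    ext x
    by_cases hx0 : x = r0
    · rw [hx0, Equiv.swap_apply_left]
    · by_cases hx1 : x = σ r0
      · rw [hx1, Equiv.swap_apply_right]
        rcases h4 (σ r0) (by rw [← hx1]; exact hx0) with h | h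
        · exfalso
          exact hx0 (by rw [hx1]; exact σ.injective h)
        · exact h.symm
      · rw [Equiv.swap_apply_of_ne_of_ne hx0 hx1]
        rcases h4 x hx0 with h | h
        · exact h.symm
        · -- σ x = r0
          by_cases h00 : σ r0 = r0
          · exfalso
            exact hx0 (σ.injective (by rw [h, h00]))
          · rcases h4 (σ r0) h00 with h5 | h5
            · exfalso; exact h00 (σ.injective h5)
            · exfalso
              exact hx1 (σ.injective (by rw [h, h5]))
  rw [perm_eq_rows, key, Finset.sum_image]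
  · have hs : (univ \ U : Finset ι) = insert r0 (univ \ (insert r0 U)) := by
      ext r
      simp only [mem_sdiff, mem_univ, true_and, mem_insert]
      constructor
      · intro h
        by_cases hr : r = r0
        · exact Or.inl hr
        · exact Or.inr (by push Not; exact ⟨hr, h⟩)
      · rintro (h | h)
        · rw [h]; exact hU
        · push Not at h; exact h.2
    rw [hs, Finset.sum_insert (by simp)]
    congr 1
    · rw [Equiv.swap_self]
      rw [← mul_prod_erase univ _ (mem_univ r0)]
      rw [Finset.prod_eq_one]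
      · simp
      · intro x hx
        exact h1 x (mem_erase.1 hx).1
    · refine Finset.sum_congr rfl fun r hr => ?_
      have hr0 : r ≠ r0 := by
        rintro rfl
        simp at hr
      have hmem : r ∈ (univ : Finset ι).erase r0 := mem_erase.2 ⟨hr0, mem_univ _⟩
      rw [← mul_prod_erase univ _ (mem_univ r0), ← mul_prod_erase _ _ hmem,
        Equiv.swap_apply_left, Equiv.swap_apply_right, Finset.prod_eq_one]
      · ring
      · intro x hx
        rw [mem_erase, mem_erase] at hx
        rw [Equiv.swap_apply_of_ne_of_ne hx.2.1 hx.1]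
        exact h1 x hx.2.1
  · intro r _ r' _ h
    have := congrArg (fun τ : Equiv.Perm ι => τ r0) h
    simpa using this

end Pool.Agent.V1147.Perm
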