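import Mathlib
import Pool.Agent.V1147.PermBasic

/-!
The matrix of subpermanents and its determinant.
-/

set_option autoImplicit false

namespace Pool.Agent.V1147.Perm

open Matrix Finset

variable {S : Type*} [CommRing S] {s : ℕ}

/-- column index set -/
abbrev Kp (s : ℕ) := Fin s ⊕ Bool

/-- the columns used for the index `j` (all but one) -/
def col : Kp s → Option (Fin s) → Kp s
  | Sum.inl i, some l => if l = i then Sum.inr false else Sum.inl l
  | Sum.inl _, none => Sum.inr true
  | Sum.inr _, some l => Sum.inl l
  | Sum.inr b, none => Sum.inr b

theorem col_injective (j : Kp s) : Function.Injective (col j) := by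
  intro x y h
  rcases j with i | b <;> rcases x with _ | x <;> rcases y with _ | y
  · rfl
  · simp only [col] at h
    split_ifs at h
    simp at h
  · simp only [col] at h
    split_ifs at h
    simp at h
  · simp only [col] at h
    split_ifs at h with h1 h2 h2
    · rw [h1, h2]
    · rw [Sum.inl.inj h]
  · rfl
  · simp [col] at h
  · simp [col] at h
  · simp only [col] at h
    rw [Sum.inl.inj h]

/-- rows: the rows of `Y`, and `z` -/
def rowf (Y : Fin s → Kp s → S) (z : Kp s → S) : Option (Fin s) → Kp s → S
  | none => z
  | some l => Y l

/-- the permanents -/
def D (Y : Fin s → Kp s → S) (z : Kp s → S) (j : Kp s) : S :=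
  ∑ σ : Equiv.Perm (Option (Fin s)), z (col j (σ none)) * ∏ l, Y l (col j (σ (some l)))

theorem D_eq (Y : Fin s → Kp s → S) (z : Kp s → S) (j : Kp s) :
    D Y z j = (Matrix.of fun x y => rowf Y z x (col j y)).permanent := by
  rw [perm_eq_rows, D]
  refine Finset.sum_congr rfl fun σ _ => ?_
  rw [Fintype.prod_option]
  rfl

/-- the matrix of the linear forms `D` -/
def A (Y : Fin s → Kp s → S) : Matrix (Kp s) (Kp s) S := fun j i =>
  ∑ σ : Equiv.Perm (Option (Fin s)),
    if col j (σ none) = i then ∏ l, Y l (col j (σ (some l))) else 0

theorem A_mulVec (Y : Fin s → Kp s → S) (z : Kp s → S) : (A Y) *ᵥ z = D Y z := by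
  funext j
  simp only [Matrix.mulVec, dotProduct, A, D, Finset.sum_mul]
  rw [Finset.sum_comm]
  refine Finset.sum_congr rfl fun σ _ => ?_
  simp only [ite_mul, zero_mul]
  rw [Finset.sum_ite_eq]
  simp [mul_comm]

theorem map_A {B : Type*} [CommRing B] (φ : S →+* B) (Y : Fin s → Kp s → S) :
    φ (A Y).det = (A (fun l i => φ (Y l i))).det := by
  rw [RingHom.map_det]
  congr 1
  ext j i
  simp only [RingHom.mapMatrix_apply, Matrix.map_apply, A, map_sum]
  refine Finset.sum_congr rfl fun σ _ => ?_
  split_ifs <;> simp

/-- if all `D Y z j` lie in the prime ideal `P` then `z i ∈ P` or `det A ∈ P` -/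
theorem det_mul_mem (P : Ideal S) (Y : Fin s → Kp s → S) (z : Kp s → S)
    (h : ∀ j, D Y z j ∈ P) (i : Kp s) : (A Y).det * z i ∈ P := by
  have h1 : ((A Y).adjugate * A Y) *ᵥ z = (A Y).det • z := by
    rw [Matrix.adjugate_mul, Matrix.smul_mulVec, Matrix.one_mulVec]
  have h2 : (A Y).det * z i = ∑ j, (A Y).adjugate i j * D Y z j := by
    have := congrFun h1 i
    rw [← Matrix.mulVec_mulVec, A_mulVec] at this
    simp only [Pi.smul_apply, smul_eq_mul] at this
    rw [← this]
    rfl
  rw [h2]
  exact Ideal.sum_mem _ fun j _ => Ideal.mul_mem_left _ _ (h j)

/-- `[I | a | b]` -/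
def Y0 (a b : Fin s → S) (l : Fin s) : Kp s → S
  | Sum.inl l' => if l = l' then 1 else 0
  | Sum.inr false => a l
  | Sum.inr true => b l

theorem D_Y0_inr (a b : Fin s → S) (z : Kp s → S) (c : Bool) :
    D (Y0 a b) z (Sum.inr c) = z (Sum.inr c) + ∑ l, Y0 a b l (Sum.inr c) * z (Sum.inl l) := by
  rw [D_eq, perm_arrow _ none ∅ (by simp)]
  · simp only [insert_empty_eq]
    congr 1
    have : (univ \ {none} : Finset (Option (Fin s))) = univ.image some := by
      ext x; cases x <;> simp
    rw [this, Finset.sum_image (fun x _ y _ h => Option.some_injective _ h)]
    rfl
  · intro r hr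
    cases r with
    | none => exact absurd rfl hr
    | some l => simp [rowf, col, Y0]
  · simp
  · intro r hr _ c' hc hc0 _
    cases r with
    | none => exact absurd rfl hr
    | some l =>
      cases c' with
      | none => exact absurd rfl hc0
      | some l' =>
        have : l ≠ l' := fun h => hc (by rw [h])
        simp [rowf, col, Y0, this]

theorem D_Y0_inl (a b : Fin s → S) (z : Kp s → S) (i : Fin s) :
    D (Y0 a b) z (Sum.inl i) =
      a i * (z (Sum.inr true) + ∑ l ∈ univ \ {i}, b l * z (Sum.inl l)) +
      b i * (z (Sum.inr false) + ∑ l ∈ univ \ {i}, a l * z (Sum.inl l)) := by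
  have hset : (univ \ (insert none {some i}) : Finset (Option (Fin s))) =
      (univ \ {i}).image some := by
    ext x; cases x <;> simp
  rw [D_eq]
  rw [perm_updateRow_sum _ (some i) (univ : Finset Bool)
    (fun c x => if c then (if x = none then b i else 0) else (if x = some i then a i else 0))]
  · rw [Fintype.sum_bool, add_comm]
    congr 1
    · -- unit at some i
      have h1 : (fun x : Option (Fin s) => if false = true then (if x = none then b i else 0) else
          (if x = some i then a i else 0)) = a i • (Pi.single (some i) 1) := by
        funext x
        simp [Pi.single_apply]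
      rw [h1, permanent_updateRow_smul]
      congr 1
      rw [perm_arrow _ none {some i} (by simp), hset,
        Finset.sum_image (fun x _ y _ h => Option.some_injective _ h)]
      · congr 1
        refine Finset.sum_congr rfl fun l hl => ?_
        have hl' : l ≠ i := by simpa using hl
        rw [updateRow_ne (by simpa using hl'), updateRow_ne (by simp)]
        simp [rowf, col, Y0, hl']
      · intro r hr
        cases r with
        | none => exact absurd rfl hr
        | some l =>
          by_cases hl : l = i
          · subst hl; simp
          · rw [updateRow_ne (by simpa using hl)]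
            simp [rowf, col, Y0, hl]
      · intro r hr c hc
        rw [mem_singleton] at hr
        subst hr
        simp [hc]
      · intro r hr hrU c' hc hc0 hcU
        cases r with
        | none => exact absurd rfl hr
        | some l =>
          cases c' with
          | none => exact absurd rfl hc0
          | some l' =>
            have h3 : l ≠ l' := fun h => hc (by rw [h])
            have h4 : l' ≠ i := by simpa using hcU
            have h5 : l ≠ i := by simpa using hrU
            rw [updateRow_ne (by simpa using h5)]
            simp [rowf, col, Y0, h3, h4]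
    · -- unit at none
      have h1 : (fun x : Option (Fin s) => if true = true then (if x = none then b i else 0) else
          (if x = some i then a i else 0)) = b i • (Pi.single none 1) := by
        funext x
        simp [Pi.single_apply]
      rw [h1, permanent_updateRow_smul]
      congr 1
      rw [← permanent_permute_rows (Equiv.swap none (some i)), perm_arrow _ none {some i} (by simp),
        hset, Finset.sum_image (fun x _ y _ h => Option.some_injective _ h)]
      · congr 1
        · rw [submatrix_apply, Equiv.swap_apply_left, id_eq, updateRow_ne (by simp)]
          simp [rowf, col]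
        refine Finset.sum_congr rfl fun l hl => ?_
        have hl' : l ≠ i := by simpa using hl
        rw [submatrix_apply, submatrix_apply, Equiv.swap_apply_left, id_eq, id_eq,
          Equiv.swap_apply_of_ne_of_ne (by simp) (by simpa using hl'),
          updateRow_ne (by simpa using hl'), updateRow_ne (by simp)]
        simp [rowf, col, Y0, hl']
      · intro r hr
        cases r with
        | none => exact absurd rfl hr
        | some l =>
          by_cases hl : l = i
          · subst hl; simp
          · rw [submatrix_apply, Equiv.swap_apply_of_ne_of_ne (by simp) (by simpa using hl),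
              id_eq, updateRow_ne (by simpa using hl)]
            simp [rowf, col, Y0, hl]
      · intro r hr c hc
        rw [mem_singleton] at hr
        subst hr
        rw [submatrix_apply, id_eq, updateRow_self, Pi.single_apply, if_neg]
        intro h
        apply hc
        have := congrArg (Equiv.swap none (some i)) h
        simpa using this
      · intro r hr hrU c' hc hc0 hcU
        cases r with
        | none => exact absurd rfl hr
        | some l =>
          cases c' with
          | none => exact absurd rfl hc0
          | some l' =>
            have h3 : l ≠ l' := fun h => hc (by rw [h])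
            have h4 : l' ≠ i := by simpa using hcU
            have h5 : l ≠ i := by simpa using hrU
            rw [submatrix_apply, id_eq, Equiv.swap_apply_of_ne_of_ne (by simp) (by simpa using h4),
              updateRow_ne (by simpa using h5)]
            simp [rowf, col, Y0, h3, h4]
  · intro c
    rw [Fintype.sum_bool]
    cases c with
    | none => simp [rowf, col, Y0]
    | some l =>
      by_cases hl : l = i
      · subst hl; simp [rowf, col, Y0]
      · have : i ≠ l := fun h => hl h.symm
        simp [rowf, col, Y0, hl, this]

theorem det_A_Y0 (a b : Fin s → S) : (A (Y0 a b)).det = ∏ i, (-(2 * a i * b i)) := by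
  set T : Matrix (Kp s) (Kp s) S := fromBlocks
    (Matrix.of fun i l => if i = l then 0 else a i * b l + b i * a l)
    (Matrix.of fun i (c : Bool) => if c then a i else b i)
    (Matrix.of fun (c : Bool) l => if c then b l else a l) 1 with hT
  have h1 : A (Y0 a b) = T := by
    have h2 : ∀ z, A (Y0 a b) *ᵥ z = T *ᵥ z := by
      intro z
      rw [A_mulVec]
      funext j
      rw [hT]
      rcases j with i | c
      · rw [D_Y0_inl]
        simp only [mulVec, dotProduct, Fintype.sum_sum_type, fromBlocks_apply₁₁,
          fromBlocks_apply₁₂, of_apply, Fintype.sum_bool]
        have h3 : ∀ f : Fin s → S, ∑ l ∈ univ \ {i}, f l = ∑ l, if i = l then 0 else f l := by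
          intro f
          rw [Finset.sum_ite, Finset.sum_const_zero, zero_add]
          refine Finset.sum_congr ?_ fun _ _ => rfl
          ext l
          simp [eq_comm]
        rw [h3, h3]
        have h4 : ∑ l, (if i = l then 0 else a i * b l + b i * a l) * z (Sum.inl l) =
            a i * (∑ l, if i = l then 0 else b l * z (Sum.inl l)) +
            b i * (∑ l, if i = l then 0 else a l * z (Sum.inl l)) := by
          rw [Finset.mul_sum, Finset.mul_sum, ← Finset.sum_add_distrib]
          refine Finset.sum_congr rfl fun l _ => ?_
          split_ifs
          · simp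
          · ring
        rw [h4]
        simp
        ring
      · rw [D_Y0_inr]
        simp only [mulVec, dotProduct, Fintype.sum_sum_type, fromBlocks_apply₂₁,
          fromBlocks_apply₂₂, of_apply, Fintype.sum_bool]
        cases c <;> simp [Y0, Matrix.one_apply] <;> ring
    ext j i
    have := congrFun (h2 (Pi.single i 1)) j
    simpa using this
  rw [h1, hT, det_fromBlocks_one₂₂]
  have h5 : ((Matrix.of fun i l => if i = l then 0 else a i * b l + b i * a l) -
      (Matrix.of fun i (c : Bool) => if c then a i else b i) *
      (Matrix.of fun (c : Bool) l => if c then b l else a l) : Matrix (Fin s) (Fin s) S) =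
      diagonal fun i => -(2 * a i * b i) := by
    ext i l
    rw [Matrix.sub_apply, Matrix.mul_apply, Fintype.sum_bool, diagonal_apply]
    simp only [of_apply]
    by_cases h : i = l
    · subst h; simp; ring
    · simp [h]
  rw [h5, det_diagonal]

end Pool.Agent.V1147.Perm
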