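import Mathlib
import Pool.Agent.V1147.PermKey

/-!
Ideals of `t × t` permanents; the criterion for non-primality.
-/

set_option autoImplicit false

namespace Pool.Agent.V1147.Perm

open Matrix Finset

variable {S : Type*} [CommRing S]

/-- ideal generated by the permanents of the `t × t` submatrices -/
def pIdeal {m n : ℕ} (M : Matrix (Fin m) (Fin n) S) (t : ℕ) : Ideal S :=
  Ideal.span {f | ∃ (r : Fin t → Fin m) (c : Fin t → Fin n), StrictMono r ∧ StrictMono c ∧
    f = (M.submatrix r c).permanent}

theorem mem_of_inj {m n t : ℕ} (M : Matrix (Fin m) (Fin n) S) (r : Fin t → Fin m)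
    (c : Fin t → Fin n) (hr : Function.Injective r) (hc : Function.Injective c) :
    (M.submatrix r c).permanent ∈ pIdeal M t := by
  have h1 : StrictMono (r ∘ Tuple.sort r) :=
    (Tuple.monotone_sort r).strictMono_of_injective (hr.comp (Equiv.injective _))
  have h2 : StrictMono (c ∘ Tuple.sort c) :=
    (Tuple.monotone_sort c).strictMono_of_injective (hc.comp (Equiv.injective _))
  have h3 : (M.submatrix r c).permanent =
      (M.submatrix (r ∘ Tuple.sort r) (c ∘ Tuple.sort c)).permanent := by
    rw [← permanent_permute_cols (Tuple.sort r) (M.submatrix r c),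
      ← permanent_permute_rows (Tuple.sort c)]
    rfl
  rw [h3]
  exact Ideal.subset_span ⟨_, _, h1, h2, rfl⟩

theorem pIdeal_transpose {m n t : ℕ} (M : Matrix (Fin m) (Fin n) S) :
    pIdeal Mᵀ t = pIdeal M t := by
  unfold pIdeal
  congr 1
  ext f
  constructor
  · rintro ⟨r, c, hr, hc, rfl⟩
    exact ⟨c, r, hc, hr, by rw [← permanent_transpose]; rfl⟩
  · rintro ⟨r, c, hr, hc, rfl⟩
    exact ⟨c, r, hc, hr, by rw [← permanent_transpose]; rfl⟩

/-- a ring homomorphism killing all permanents kills the ideal -/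
theorem pIdeal_le_ker {m n t : ℕ} (M : Matrix (Fin m) (Fin n) S) {B : Type*} [CommRing B]
    (φ : S →+* B) (h : ∀ (r : Fin t → Fin m) (c : Fin t → Fin n), Function.Injective r →
      Function.Injective c → ((M.map φ).submatrix r c).permanent = 0) :
    pIdeal M t ≤ RingHom.ker φ := by
  unfold pIdeal
  rw [Ideal.span_le]
  rintro f ⟨r, c, hr, hc, rfl⟩
  rw [SetLike.mem_coe, RingHom.mem_ker]
  have h1 : φ (M.submatrix r c).permanent = ((M.map φ).submatrix r c).permanent := by
    simp [permanent]
  rw [h1]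
  exact h r c hr.injective hc.injective

/-- the rows `0, …, s` -/
def rho {m s : ℕ} (hm : s + 1 ≤ m) : Option (Fin s) → Fin m
  | none => ⟨s, by omega⟩
  | some l => ⟨l, by omega⟩

/-- the columns `0, …, s + 1` -/
def gam {n s : ℕ} (hn : s + 2 ≤ n) : Kp s → Fin n
  | Sum.inl l => ⟨l, by omega⟩
  | Sum.inr false => ⟨s, by omega⟩
  | Sum.inr true => ⟨s + 1, by omega⟩

theorem rho_injective {m s : ℕ} (hm : s + 1 ≤ m) : Function.Injective (rho hm) := by
  intro x y h
  rcases x with _ | x <;> rcases y with _ | y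
  · rfl
  · have := Fin.mk.inj_iff.1 h; omega
  · have := Fin.mk.inj_iff.1 h; omega
  · have := Fin.mk.inj_iff.1 h
    congr 1
    exact Fin.ext this

theorem gam_injective {n s : ℕ} (hn : s + 2 ≤ n) : Function.Injective (gam hn) := by
  intro x y h
  rcases x with x | _ | _ <;> rcases y with y | _ | _
  · have := Fin.mk.inj_iff.1 h
    congr 1
    exact Fin.ext this
  all_goals first
    | rfl
    | (exfalso; have := Fin.mk.inj_iff.1 h; omega)

theorem D_mem {m n s : ℕ} (hm : s + 1 ≤ m) (hn : s + 2 ≤ n) (M : Matrix (Fin m) (Fin n) S)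
    (j : Kp s) :
    D (fun l i => M (rho hm (some l)) (gam hn i)) (fun i => M (rho hm none) (gam hn i)) j ∈
      pIdeal M (s + 1) := by
  rw [D_eq]
  have h1 : (Matrix.of fun x y : Option (Fin s) =>
      rowf (fun l i => M (rho hm (some l)) (gam hn i)) (fun i => M (rho hm none) (gam hn i)) x
        (col j y)) = M.submatrix (rho hm) (gam hn ∘ col j) := by
    ext x y
    cases x <;> rfl
  rw [h1, ← perm_equiv _ (finSuccEquiv s)]
  exact mem_of_inj M (rho hm ∘ finSuccEquiv s) (gam hn ∘ col j ∘ finSuccEquiv s)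
    ((rho_injective hm).comp (Equiv.injective _))
    ((gam_injective hn).comp ((col_injective j).comp (Equiv.injective _)))

/-- criterion -/
theorem not_prime {m n s : ℕ} (hm : s + 1 ≤ m) (hn : s + 2 ≤ n) (M : Matrix (Fin m) (Fin n) S)
    {B C : Type*} [CommRing B] [CommRing C] (φ : S →+* B) (ψ : S →+* C)
    (hφ : ∀ (r : Fin (s + 1) → Fin m) (c : Fin (s + 1) → Fin n), Function.Injective r →
      Function.Injective c → ((M.map φ).submatrix r c).permanent = 0)
    (hψ : ∀ (r : Fin (s + 1) → Fin m) (c : Fin (s + 1) → Fin n), Function.Injective r →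
      Function.Injective c → ((M.map ψ).submatrix r c).permanent = 0)
    (a b : Fin s → B) (hY : ∀ l i, φ (M (rho hm (some l)) (gam hn i)) = Y0 a b l i)
    (hab : ∏ i, (-(2 * a i * b i)) ≠ 0) (i0 : Kp s)
    (hz : ψ (M (rho hm none) (gam hn i0)) ≠ 0) :
    ¬ (pIdeal M (s + 1)).IsPrime := by
  intro hP
  have h1 := det_mul_mem (pIdeal M (s + 1)) (fun l i => M (rho hm (some l)) (gam hn i))
    (fun i => M (rho hm none) (gam hn i)) (D_mem hm hn M) i0
  rcases hP.mem_or_mem h1 with h | h
  · have h2 := pIdeal_le_ker M φ hφ h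
    rw [RingHom.mem_ker, map_A] at h2
    have h3 : (fun l i => φ (M (rho hm (some l)) (gam hn i))) = Y0 a b := by
      funext l i
      exact hY l i
    rw [h3, det_A_Y0] at h2
    exact hab h2
  · have h2 := pIdeal_le_ker M ψ hψ h
    exact hz h2

/-- a matrix with at most one nonzero entry has no nonzero permanents of size at least two -/
theorem perm_single {m n s : ℕ} (hs : 1 ≤ s) (N : Matrix (Fin m) (Fin n) S) (x : Fin m)
    (hN : ∀ p q, p ≠ x → N p q = 0) (r : Fin (s + 1) → Fin m) (c : Fin (s + 1) → Fin n)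
    (hr : Function.Injective r) : (N.submatrix r c).permanent = 0 := by
  have h1 : ∃ y, r y ≠ x := by
    by_contra hcon
    push Not at hcon
    have h2 : r 0 = r (Fin.last s) := by rw [hcon, hcon]
    have h3 := hr h2
    have := congrArg Fin.val h3
    simp at this
    omega
  obtain ⟨y, hy⟩ := h1
  exact perm_zero_row _ y fun c' => hN _ _ hy

/-- a matrix with only `s` nonzero rows has no nonzero permanents of size `s + 1` -/
theorem perm_few_rows {m n s : ℕ} (N : Matrix (Fin m) (Fin n) S)
    (hN : ∀ p q, s ≤ p.val → N p q = 0) (r : Fin (s + 1) → Fin m) (c : Fin (s + 1) → Fin n)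
    (hr : Function.Injective r) : (N.submatrix r c).permanent = 0 := by
  have h1 : ∃ y, s ≤ (r y).val := by
    by_contra hcon
    push Not at hcon
    have h2 : Function.Injective (fun y => (⟨(r y).val, hcon y⟩ : Fin s)) := by
      intro y y' h
      exact hr (Fin.ext (Fin.mk.inj_iff.1 h))
    have := Fintype.card_le_of_injective _ h2
    simp at this
  obtain ⟨y, hy⟩ := h1
  exact perm_zero_row _ y fun c' => hN _ _ hy

end Pool.Agent.V1147.Perm
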