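import Mathlib
import Pool.Agent.V1147.PermIdeal

/-!
A symmetric matrix over a nonreduced ring with all permanents of size `s + 1` zero.
-/

set_option autoImplicit false

namespace Pool.Agent.V1147.Perm

open Matrix Finset

variable {B : Type*} [CommRing B]

/-- entries -/
def mN (s : ℕ) (a b : ℕ → B) (p q : ℕ) : B :=
  if p < s then (if q = p then 1 else if q = s then a p else if q = s + 1 then b p else 0)
  else if p = s then (if q < s then a q else if q = s + 1 then -∑ l ∈ range s, a l * b l else 0)
  else if p = s + 1 then (if q < s then b q else if q = s then -∑ l ∈ range s, a l * b l else 0)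
  else 0

theorem mN_symm (s : ℕ) (a b : ℕ → B) (p q : ℕ) : mN s a b p q = mN s a b q p := by
  unfold mN
  split_ifs <;> first | rfl | (exfalso; omega) | (subst_vars; rfl)

def mu (s : ℕ) (a b : ℕ → B) (l q : ℕ) : B :=
  if q = l then a l else if q = s + 1 then -(a l * b l) else 0

def nu (s : ℕ) (a b : ℕ → B) (l q : ℕ) : B :=
  if q = l then b l else if q = s then -(a l * b l) else 0

theorem row_u (s : ℕ) (a b : ℕ → B) (q : ℕ) : mN s a b s q = ∑ l ∈ range s, mu s a b l q := by
  unfold mN mu
  rw [if_neg (lt_irrefl s), if_pos rfl]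
  by_cases h1 : q < s
  · rw [if_pos h1, Finset.sum_eq_single q]
    · simp
    · intro l _ hl
      rw [if_neg (fun h => hl h.symm), if_neg (by omega)]
    · intro h
      exact absurd (mem_range.2 h1) h
  · rw [if_neg h1]
    by_cases h2 : q = s + 1
    · rw [if_pos h2, ← Finset.sum_neg_distrib]
      refine Finset.sum_congr rfl fun l hl => ?_
      rw [mem_range] at hl
      rw [if_neg (by omega), if_pos h2]
    · rw [if_neg h2, Finset.sum_eq_zero]
      intro l hl
      rw [mem_range] at hl
      rw [if_neg (by omega), if_neg h2]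

theorem row_v (s : ℕ) (a b : ℕ → B) (q : ℕ) :
    mN s a b (s + 1) q = ∑ l ∈ range s, nu s a b l q := by
  unfold mN nu
  rw [if_neg (by omega), if_neg (by omega), if_pos rfl]
  by_cases h1 : q < s
  · rw [if_pos h1, Finset.sum_eq_single q]
    · simp
    · intro l _ hl
      rw [if_neg (fun h => hl h.symm), if_neg (by omega)]
    · intro h
      exact absurd (mem_range.2 h1) h
  · rw [if_neg h1]
    by_cases h2 : q = s
    · rw [if_pos h2, ← Finset.sum_neg_distrib]
      refine Finset.sum_congr rfl fun l hl => ?_
      rw [mem_range] at hl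
      rw [if_neg (by omega), if_pos h2]
    · rw [if_neg h2, Finset.sum_eq_zero]
      intro l hl
      rw [mem_range] at hl
      rw [if_neg (by omega), if_neg h2]

section

variable (s : ℕ) (a b : ℕ → B) (ha : ∀ l, a l ^ 2 = 0) (hb : ∀ l, b l ^ 2 = 0)

include ha hb

theorem T1 (l : ℕ) (hl : l < s) (c c' : ℕ) (hc : c ≠ c') :
    mN s a b l c * mu s a b l c' + mN s a b l c' * mu s a b l c = 0 := by
  have h1 := ha l
  have h2 := hb l
  unfold mN mu
  rw [if_pos hl, if_pos hl]
  split_ifs <;> first | (exfalso; omega) | ring1 | linear_combination h1 | linear_combination (-b l) * h1 | linear_combination (-a l) * h2 | skip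

theorem T2 (l : ℕ) (hl : l < s) (c c' : ℕ) (hc : c ≠ c') :
    mN s a b l c * nu s a b l c' + mN s a b l c' * nu s a b l c = 0 := by
  have h1 := ha l
  have h2 := hb l
  unfold mN nu
  rw [if_pos hl, if_pos hl]
  split_ifs <;> first | (exfalso; omega) | ring1 | linear_combination h2 | linear_combination (-b l) * h1 | linear_combination (-a l) * h2 | skip

theorem T3 (l : ℕ) (hl : l < s) (c c' : ℕ) (hc : c ≠ c') :
    mu s a b l c * nu s a b l c' + mu s a b l c' * nu s a b l c = 0 := by
  have h1 := ha l
  have h2 := hb l
  unfold mu nu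
  split_ifs <;> first | (exfalso; omega) | ring1 | linear_combination (-b l) * h1 | linear_combination (-a l) * h2 | linear_combination (b l ^ 2) * h1 | skip

end

theorem pigeon {n s : ℕ} (r : Fin (s + 1) → Fin n) (hr : Function.Injective r)
    (h0 : ∀ y, (r y).val < s + 2) (p q : ℕ) (hp : p < s + 2) (hq : q < s + 2) (hpq : p ≠ q)
    (h1 : ∀ y, (r y).val ≠ p) (h2 : ∀ y, (r y).val ≠ q) : False := by
  have h3 : (univ.image fun y => (r y).val) ⊆ ((range (s + 2)).erase p).erase q := by
    intro x hx
    rw [mem_image] at hx
    obtain ⟨y, _, rfl⟩ := hx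
    rw [mem_erase, mem_erase, mem_range]
    exact ⟨h2 y, h1 y, h0 y⟩
  have h4 := card_le_card h3
  rw [card_image_of_injective _ (fun y y' h => hr (Fin.ext h)), card_erase_of_mem, card_erase_of_mem,
    card_range, card_univ, Fintype.card_fin] at h4
  · omega
  · exact mem_range.2 hp
  · rw [mem_erase]
    exact ⟨hpq.symm, mem_range.2 hq⟩

theorem perm_sym {n s : ℕ} (a b : ℕ → B) (ha : ∀ l, a l ^ 2 = 0) (hb : ∀ l, b l ^ 2 = 0)
    (r c : Fin (s + 1) → Fin n) (hr : Function.Injective r) (hc : Function.Injective c) :
    (Matrix.of fun x y => mN s a b (r x).val (c y).val).permanent = 0 := by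
  set N : Matrix (Fin (s + 1)) (Fin (s + 1)) B :=
    Matrix.of fun x y => mN s a b (r x).val (c y).val with hN
  have hcv : ∀ y y', y ≠ y' → (c y).val ≠ (c y').val := fun y y' h h' => h (hc (Fin.ext h'))
  by_cases h0 : ∃ y, s + 2 ≤ (r y).val
  · obtain ⟨y, hy⟩ := h0
    refine perm_zero_row N y fun c' => ?_
    simp only [hN, of_apply, mN]
    rw [if_neg (by omega), if_neg (by omega), if_neg (by omega)]
  push Not at h0
  by_cases hu : ∃ xu, (r xu).val = s
  · obtain ⟨xu, hxu⟩ := hu
    rw [perm_updateRow_sum N xu (range s) (fun l y => mu s a b l (c y).val)]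
    swap
    · intro y
      simp only [hN, of_apply, hxu]
      exact row_u s a b _
    refine Finset.sum_eq_zero fun l hl => ?_
    rw [mem_range] at hl
    by_cases hl' : ∃ xl, (r xl).val = l
    · obtain ⟨xl, hxl⟩ := hl'
      have hne : xl ≠ xu := by
        rintro rfl
        omega
      refine perm_two_rows _ xl xu hne fun y y' hyy => ?_
      rw [updateRow_ne hne, updateRow_self]
      simp only [hN, of_apply, hxl]
      exact T1 s a b ha hb l hl _ _ (hcv y y' hyy)
    · push Not at hl'
      have hv : ∃ xv, (r xv).val = s + 1 := by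
        by_contra hcon
        push Not at hcon
        exact pigeon r hr h0 l (s + 1) (by omega) (by omega) (by omega) hl' hcon
      obtain ⟨xv, hxv⟩ := hv
      have huv : xv ≠ xu := by
        rintro rfl
        omega
      rw [perm_updateRow_sum _ xv (range s) (fun l' y => nu s a b l' (c y).val)]
      swap
      · intro y
        rw [updateRow_ne huv]
        simp only [hN, of_apply, hxv]
        exact row_v s a b _
      refine Finset.sum_eq_zero fun l' hl1 => ?_
      rw [mem_range] at hl1
      by_cases hl2 : ∃ xl, (r xl).val = l'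
      · obtain ⟨xl, hxl⟩ := hl2
        have hne : xl ≠ xu := by
          rintro rfl
          omega
        have hne2 : xl ≠ xv := by
          rintro rfl
          omega
        refine perm_two_rows _ xl xv hne2 fun y y' hyy => ?_
        rw [updateRow_ne hne2, updateRow_self, updateRow_ne hne]
        simp only [hN, of_apply, hxl]
        exact T2 s a b ha hb l' hl1 _ _ (hcv y y' hyy)
      · push Not at hl2
        have hll : l' = l := by
          by_contra hcon
          exact pigeon r hr h0 l' l (by omega) (by omega) hcon hl2 hl'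
        subst hll
        refine perm_two_rows _ xu xv huv.symm fun y y' hyy => ?_
        rw [updateRow_ne huv.symm, updateRow_self, updateRow_self]
        exact T3 s a b ha hb l' hl _ _ (hcv y y' hyy)
  · push Not at hu
    have hv : ∃ xv, (r xv).val = s + 1 := by
      by_contra hcon
      push Not at hcon
      exact pigeon r hr h0 s (s + 1) (by omega) (by omega) (by omega) hu hcon
    obtain ⟨xv, hxv⟩ := hv
    rw [perm_updateRow_sum _ xv (range s) (fun l' y => nu s a b l' (c y).val)]
    swap
    · intro y
      simp only [hN, of_apply, hxv]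
      exact row_v s a b _
    refine Finset.sum_eq_zero fun l' hl1 => ?_
    rw [mem_range] at hl1
    have hl2 : ∃ xl, (r xl).val = l' := by
      by_contra hcon
      push Not at hcon
      exact pigeon r hr h0 s l' (by omega) (by omega) (by omega) hu hcon
    obtain ⟨xl, hxl⟩ := hl2
    have hne2 : xl ≠ xv := by
      rintro rfl
      omega
    refine perm_two_rows _ xl xv hne2 fun y y' hyy => ?_
    rw [updateRow_ne hne2, updateRow_self]
    simp only [hN, of_apply, hxl]
    exact T2 s a b ha hb l' hl1 _ _ (hcv y y' hyy)

end Pool.Agent.V1147.Perm
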