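import Mathlib

/-!
Existence of an associated prime containing two given elements.
-/

set_option autoImplicit false

namespace Pool.Agent.V1147.Emb

variable {S : Type*} [CommRing S]

/-- `P` is an associated prime of `S / I`: it is prime and of the form `(I : f)`. -/
def IsAssoc (I P : Ideal S) : Prop := P.IsPrime ∧ ∃ f : S, ∀ s : S, s ∈ P ↔ s * f ∈ I

theorem isAssoc_of_mathlib [IsNoetherianRing S] (I P : Ideal S)
    (h : P ∈ associatedPrimes S (S ⧸ I)) : IsAssoc I P := by
  obtain ⟨h1, x, hx⟩ := (Submodule.isAssociatedPrime_iff).1 h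
  refine ⟨h1, ?_⟩
  obtain ⟨t, rfl⟩ := Ideal.Quotient.mk_surjective x
  refine ⟨t, fun s => ?_⟩
  rw [hx, Submodule.mem_colon_singleton, Submodule.mem_bot, ← Ideal.Quotient.eq_zero_iff_mem,
    map_mul]
  rfl

theorem exists_assoc [IsNoetherianRing S] (I : Ideal S) (X Y G : S) (h1 : G * (X * X) ∈ I)
    (h2 : G * (X * Y) ∈ I) (h3 : ∀ n : ℕ, X * G ^ n ∉ I) :
    ∃ P : Ideal S, IsAssoc I P ∧ G ∉ P ∧ X ∈ P ∧ Y ∈ P := by
  let J : ℕ → Ideal S := fun n => Submodule.comap (LinearMap.toSpanSingleton S S (X * G ^ n)) I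
  have hJ : ∀ n s, s ∈ J n ↔ s * (X * G ^ n) ∈ I := by
    intro n s
    rfl
  have hmono : Monotone J := by
    apply monotone_nat_of_le_succ
    intro n s hs
    rw [hJ] at hs ⊢
    have : s * (X * G ^ (n + 1)) = G * (s * (X * G ^ n)) := by ring
    rw [this]
    exact Ideal.mul_mem_left _ _ hs
  obtain ⟨n, hn⟩ := monotone_stabilizes_iff_noetherian.2 (inferInstance : IsNoetherian S S)
    ⟨J, hmono⟩
  have hn1 : J n = J (n + 1) := hn (n + 1) (by omega)
  have hne : Nontrivial (S ⧸ J n) := by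
    rw [Ideal.Quotient.nontrivial_iff]
    intro h
    have h4 : (1 : S) ∈ J n := by rw [h]; exact Submodule.mem_top
    rw [hJ, one_mul] at h4
    exact h3 n h4
  obtain ⟨P, hP⟩ := associatedPrimes.nonempty S (S ⧸ J n)
  obtain ⟨hp, t, ht⟩ := isAssoc_of_mathlib (J n) P hP
  refine ⟨P, ⟨hp, t * (X * G ^ n), fun s => ?_⟩, ?_, ?_, ?_⟩
  · rw [ht, hJ, mul_assoc]
  · intro hG
    rw [ht, hJ] at hG
    have h5 : t ∈ J (n + 1) := by
      rw [hJ]
      have : t * (X * G ^ (n + 1)) = G * t * (X * G ^ n) := by ring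
      rw [this]
      exact hG
    rw [← hn1] at h5
    apply hp.ne_top
    rw [Ideal.eq_top_iff_one, ht, one_mul]
    exact h5
  · rw [ht, mul_comm]
    apply Ideal.mul_mem_left
    rw [hn1, hJ]
    have : X * (X * G ^ (n + 1)) = G ^ n * (G * (X * X)) := by ring
    rw [this]
    exact Ideal.mul_mem_left _ _ h1
  · rw [ht, mul_comm]
    apply Ideal.mul_mem_left
    rw [hn1, hJ]
    have : Y * (X * G ^ (n + 1)) = G ^ n * (G * (X * Y)) := by ring
    rw [this]
    exact Ideal.mul_mem_left _ _ h2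

/-- if there is a prime `P' < P` containing `I` then there is an associated prime below `P` -/
theorem exists_assoc_lt [IsNoetherianRing S] (I P P' : Ideal S) (hP' : P'.IsPrime) (hI : I ≤ P')
    (hlt : P' < P) : ∃ Q : Ideal S, IsAssoc I Q ∧ Q ∈ I.minimalPrimes ∧ Q < P := by
  obtain ⟨Q, hQ, hQP⟩ := Ideal.exists_minimalPrimes_le hI
  refine ⟨Q, ?_, hQ, lt_of_le_of_lt hQP hlt⟩
  apply isAssoc_of_mathlib
  apply Module.associatedPrimes.minimalPrimes_annihilator_subset_associatedPrimes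
  rw [Ideal.annihilator_quotient]
  exact hQ

end Pool.Agent.V1147.Emb
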