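import Mathlib

/-!
Polynomial identities for the configuration of five points and six lines.
-/

set_option autoImplicit false

namespace Pool.Agent.V1147.LSS

variable {A : Type*} [CommRing A]

/-- Step A: `O, U` on the lines `a, y`; `O` on `e`; `Z` on `a`. -/
theorem stepA (O U Z a e y : Fin 3 → A)
    (hoa : O 0 * a 0 + O 1 * a 1 + O 2 * a 2 = 0) (hua : U 0 * a 0 + U 1 * a 1 + U 2 * a 2 = 0)
    (hoe : O 0 * e 0 + O 1 * e 1 + O 2 * e 2 = 0) (hza : Z 0 * a 0 + Z 1 * a 1 + Z 2 * a 2 = 0)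
    (hoy : O 0 * y 0 + O 1 * y 1 + O 2 * y 2 = 0) (huy : U 0 * y 0 + U 1 * y 1 + U 2 * y 2 = 0) :
    a 2 * O 0 * ((U 0 * e 0 + U 1 * e 1 + U 2 * e 2) * (Z 0 * y 0 + Z 1 * y 1 + Z 2 * y 2)) = 0 := by
  linear_combination a 2 * (Z 0 * y 0 + Z 1 * y 1 + Z 2 * y 2) * U 0 * hoe +
    (e 1 * y 2 - e 2 * y 1) * ((O 0 * U 1 - O 1 * U 0) * hza -
      Z 0 * (U 1 * hoa - O 1 * hua) + Z 1 * (U 0 * hoa - O 0 * hua)) +
    a 2 * e 2 * (Z 0 * (U 2 * hoy - O 2 * huy) - Z 2 * (U 0 * hoy - O 0 * huy)) +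
    a 2 * e 1 * (Z 0 * (U 1 * hoy - O 1 * huy) - Z 1 * (U 0 * hoy - O 0 * huy))

/-- Step B: `R, W, Z` on the line `k`, `R` on `c`. -/
theorem stepB (R W Z k c : Fin 3 → A)
    (hrk : R 0 * k 0 + R 1 * k 1 + R 2 * k 2 = 0) (hwk : W 0 * k 0 + W 1 * k 1 + W 2 * k 2 = 0)
    (hzk : Z 0 * k 0 + Z 1 * k 1 + Z 2 * k 2 = 0) (hrc : R 0 * c 0 + R 1 * c 1 + R 2 * c 2 = 0) :
    k 2 * ((W 0 * c 0 + W 1 * c 1 + W 2 * c 2) * (Z 0 * R 1 - Z 1 * R 0) +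
      (Z 0 * c 0 + Z 1 * c 1 + Z 2 * c 2) * (R 0 * W 1 - R 1 * W 0)) = 0 := by
  linear_combination c 2 * ((W 0 * Z 1 - W 1 * Z 0) * hrk + (Z 0 * R 1 - Z 1 * R 0) * hwk +
    (R 0 * W 1 - R 1 * W 0) * hzk) - k 2 * (W 0 * Z 1 - W 1 * Z 0) * hrc

/-- Step C: `O, W` on the line `e`, `O` on `a` and `c`; `φ = (0, e 2, -e 1)`. -/
theorem stepC (O W a c e : Fin 3 → A)
    (hoe : O 0 * e 0 + O 1 * e 1 + O 2 * e 2 = 0) (hwe : W 0 * e 0 + W 1 * e 1 + W 2 * e 2 = 0)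
    (hoa : O 0 * a 0 + O 1 * a 1 + O 2 * a 2 = 0) (hoc : O 0 * c 0 + O 1 * c 1 + O 2 * c 2 = 0) :
    e 1 * (e 1 * O 0) * ((W 0 * a 0 + W 1 * a 1 + W 2 * a 2) * (e 2 * c 1 - e 1 * c 2) -
      (W 0 * c 0 + W 1 * c 1 + W 2 * c 2) * (e 2 * a 1 - e 1 * a 2)) = 0 := by
  linear_combination -(e 2 * c 1 - e 1 * c 2) * (a 1 * ((W 0 * e 1) * hoe - (e 1 * O 0) * hwe) -
    e 1 * (W 0 * e 1) * hoa) + (e 2 * a 1 - e 1 * a 2) * (c 1 * ((W 0 * e 1) * hoe -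
    (e 1 * O 0) * hwe) - e 1 * (W 0 * e 1) * hoc)

/-- Step D: triangle `O U W` with sides `a, e, h`. -/
theorem stepD (O U W a e h : Fin 3 → A)
    (hoa : O 0 * a 0 + O 1 * a 1 + O 2 * a 2 = 0) (hoe : O 0 * e 0 + O 1 * e 1 + O 2 * e 2 = 0)
    (hua : U 0 * a 0 + U 1 * a 1 + U 2 * a 2 = 0) (huh : U 0 * h 0 + U 1 * h 1 + U 2 * h 2 = 0)
    (hwe : W 0 * e 0 + W 1 * e 1 + W 2 * e 2 = 0) (hwh : W 0 * h 0 + W 1 * h 1 + W 2 * h 2 = 0) :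
    O 0 * a 2 * e 1 * (W 0 * (a 2 * h 1 - a 1 * h 2) * (e 2 * a 1 - e 1 * a 2) *
        (U 0 * e 0 + U 1 * e 1 + U 2 * e 2) -
      U 0 * (e 2 * h 1 - e 1 * h 2) * (a 2 * e 1 - a 1 * e 2) *
        (W 0 * a 0 + W 1 * a 1 + W 2 * a 2)) = 0 := by
  -- α = O 0 * U 1 - O 1 * U 0, β = W 0 * O 2 - O 0 * W 2
  have D1 : O 0 * a 2 * (U 0 * e 0 + U 1 * e 1 + U 2 * e 2) =
      (O 0 * U 1 - O 1 * U 0) * (a 2 * e 1 - a 1 * e 2) := by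
    linear_combination U 0 * a 2 * hoe + (O 0 * hua - U 0 * hoa) * e 2
  have D2 : (O 0 * U 1 - O 1 * U 0) * (a 2 * h 1 - a 1 * h 2) +
      U 0 * a 2 * (O 0 * h 0 + O 1 * h 1 + O 2 * h 2) = 0 := by
    linear_combination O 0 * a 2 * huh - (O 0 * hua - U 0 * hoa) * h 2
  have D3 : O 0 * e 1 * (W 0 * a 0 + W 1 * a 1 + W 2 * a 2) =
      (W 0 * O 2 - O 0 * W 2) * (e 2 * a 1 - e 1 * a 2) := by
    linear_combination W 0 * e 1 * hoa + (O 0 * hwe - W 0 * hoe) * a 1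
  have D4 : (W 0 * O 2 - O 0 * W 2) * (e 2 * h 1 - e 1 * h 2) +
      W 0 * e 1 * (O 0 * h 0 + O 1 * h 1 + O 2 * h 2) = 0 := by
    linear_combination O 0 * e 1 * hwh - (O 0 * hwe - W 0 * hoe) * h 1
  linear_combination W 0 * e 1 * (a 2 * h 1 - a 1 * h 2) * (e 2 * a 1 - e 1 * a 2) * D1 +
    W 0 * e 1 * (e 2 * a 1 - e 1 * a 2) * (a 2 * e 1 - a 1 * e 2) * D2 -
    U 0 * a 2 * (e 2 * h 1 - e 1 * h 2) * (a 2 * e 1 - a 1 * e 2) * D3 -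
    U 0 * a 2 * (e 2 * a 1 - e 1 * a 2) * (a 2 * e 1 - a 1 * e 2) * D4

/-- scalar product of two columns -/
def dp (v : Fin 3 → Fin 11 → A) (j k : Fin 11) : A := v 0 j * v 0 k + v 1 j * v 1 k + v 2 j * v 2 k

/-- the edges: points `0..4 = O, U, W, Z, R`, lines `5..10 = a, e, h, k, c, b` -/
def edges : List (Fin 11 × Fin 11) :=
  [(0, 5), (0, 6), (0, 9), (0, 10), (1, 5), (1, 7), (1, 9), (1, 10), (2, 6), (2, 7), (2, 8),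
    (3, 5), (3, 8), (4, 8), (4, 9)]

/-- the nondegeneracy factor -/
def GG (v : Fin 3 → Fin 11 → A) : A :=
  (v 2 5 * v 0 0) * (v 2 8 * (v 0 3 * v 1 4 - v 1 3 * v 0 4)) *
  (v 1 6 * (v 1 6 * v 0 0) * (v 2 6 * v 1 9 - v 1 6 * v 2 9)) *
  (v 0 0 * v 2 5 * v 1 6 * (v 0 2 * (v 2 5 * v 1 7 - v 1 5 * v 2 7) *
    (v 2 6 * v 1 5 - v 1 6 * v 2 5))) * dp v 3 6

theorem final (v : Fin 3 → Fin 11 → A) (hv : ∀ x ∈ edges, dp v x.1 x.2 = 0) :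
    GG v * (dp v 1 6 * dp v 1 6) = 0 ∧ GG v * (dp v 1 6 * dp v 3 10) = 0 := by
  have h05 := hv (0, 5) (by decide)
  have h06 := hv (0, 6) (by decide)
  have h09 := hv (0, 9) (by decide)
  have h0b := hv (0, 10) (by decide)
  have h15 := hv (1, 5) (by decide)
  have h17 := hv (1, 7) (by decide)
  have h19 := hv (1, 9) (by decide)
  have h1b := hv (1, 10) (by decide)
  have h26 := hv (2, 6) (by decide)
  have h27 := hv (2, 7) (by decide)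
  have h28 := hv (2, 8) (by decide)
  have h35 := hv (3, 5) (by decide)
  have h38 := hv (3, 8) (by decide)
  have h48 := hv (4, 8) (by decide)
  have h49 := hv (4, 9) (by decide)
  simp only [dp] at h05 h06 h09 h0b h15 h17 h19 h1b h26 h27 h28 h35 h38 h48 h49
  have A1 := stepA (fun i => v i 0) (fun i => v i 1) (fun i => v i 3) (fun i => v i 5)
    (fun i => v i 6) (fun i => v i 10) h05 h15 h06 h35 h0b h1b
  have A2 := stepA (fun i => v i 0) (fun i => v i 1) (fun i => v i 3) (fun i => v i 5)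
    (fun i => v i 6) (fun i => v i 9) h05 h15 h06 h35 h09 h19
  have B := stepB (fun i => v i 4) (fun i => v i 2) (fun i => v i 3) (fun i => v i 8)
    (fun i => v i 9) h48 h28 h38 h49
  have C := stepC (fun i => v i 0) (fun i => v i 2) (fun i => v i 5) (fun i => v i 9)
    (fun i => v i 6) h06 h26 h05 h09
  have D := stepD (fun i => v i 0) (fun i => v i 1) (fun i => v i 2) (fun i => v i 5)
    (fun i => v i 6) (fun i => v i 7) h05 h06 h15 h17 h26 h27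
  change v 2 5 * v 0 0 * (dp v 1 6 * dp v 3 10) = 0 at A1
  change v 2 5 * v 0 0 * (dp v 1 6 * dp v 3 9) = 0 at A2
  change v 2 8 * (dp v 2 9 * (v 0 3 * v 1 4 - v 1 3 * v 0 4) +
    dp v 3 9 * (v 0 4 * v 1 2 - v 1 4 * v 0 2)) = 0 at B
  change v 1 6 * (v 1 6 * v 0 0) * (dp v 2 5 * (v 2 6 * v 1 9 - v 1 6 * v 2 9) -
    dp v 2 9 * (v 2 6 * v 1 5 - v 1 6 * v 2 5)) = 0 at C
  change v 0 0 * v 2 5 * v 1 6 * (v 0 2 * (v 2 5 * v 1 7 - v 1 5 * v 2 7) *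
    (v 2 6 * v 1 5 - v 1 6 * v 2 5) * dp v 1 6 - v 0 1 * (v 2 6 * v 1 7 - v 1 6 * v 2 7) *
    (v 2 5 * v 1 6 - v 1 5 * v 2 6) * dp v 2 5) = 0 at D
  have P2 : (v 2 5 * v 0 0) * (v 2 8 * (v 0 3 * v 1 4 - v 1 3 * v 0 4)) *
      (dp v 1 6 * dp v 2 9) = 0 := by
    linear_combination (v 2 5 * v 0 0) * dp v 1 6 * B -
      v 2 8 * (v 0 4 * v 1 2 - v 1 4 * v 0 2) * A2
  have P3 : (v 2 5 * v 0 0) * (v 2 8 * (v 0 3 * v 1 4 - v 1 3 * v 0 4)) *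
      (v 1 6 * (v 1 6 * v 0 0) * (v 2 6 * v 1 9 - v 1 6 * v 2 9)) *
      (dp v 1 6 * dp v 2 5) = 0 := by
    linear_combination (v 2 5 * v 0 0) * (v 2 8 * (v 0 3 * v 1 4 - v 1 3 * v 0 4)) * dp v 1 6 * C +
      v 1 6 * (v 1 6 * v 0 0) * (v 2 6 * v 1 5 - v 1 6 * v 2 5) * P2
  constructor
  · rw [GG]
    linear_combination (v 2 5 * v 0 0) * (v 2 8 * (v 0 3 * v 1 4 - v 1 3 * v 0 4)) *
      (v 1 6 * (v 1 6 * v 0 0) * (v 2 6 * v 1 9 - v 1 6 * v 2 9)) * dp v 3 6 * dp v 1 6 * D +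
      dp v 3 6 * v 0 0 * v 2 5 * v 1 6 * v 0 1 * (v 2 6 * v 1 7 - v 1 6 * v 2 7) *
      (v 2 5 * v 1 6 - v 1 5 * v 2 6) * P3
  · rw [GG]
    linear_combination (v 2 8 * (v 0 3 * v 1 4 - v 1 3 * v 0 4)) *
      (v 1 6 * (v 1 6 * v 0 0) * (v 2 6 * v 1 9 - v 1 6 * v 2 9)) *
      (v 0 0 * v 2 5 * v 1 6 * (v 0 2 * (v 2 5 * v 1 7 - v 1 5 * v 2 7) *
      (v 2 6 * v 1 5 - v 1 6 * v 2 5))) * dp v 3 6 * A1

end Pool.Agent.V1147.LSS
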