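import Mathlib

set_option autoImplicit false

open MvPolynomial

namespace Pool.V1147.Def2

universe u

variable {A : Type u} [CommRing A] {ι : Type}

noncomputable def ex (h p : ℕ) : Fin 2 →₀ ℕ := Finsupp.single 0 p + Finsupp.single 1 (h - p)

lemma ex_0 (h p : ℕ) : ex h p 0 = p := by simp [ex]
lemma ex_1 (h p : ℕ) : ex h p 1 = h - p := by simp [ex]

lemma fin2_ext {e e' : Fin 2 →₀ ℕ} (h0 : e 0 = e' 0) (h1 : e 1 = e' 1) : e = e' := by
  ext i
  fin_cases i
  · exact h0
  · exact h1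

lemma ex_inj {h p h' p' : ℕ} (hp : p ≤ h) (hp' : p' ≤ h') (e : ex h p = ex h' p') : h = h' ∧ p = p' := by
  have h0 := DFunLike.congr_fun e 0
  have h1 := DFunLike.congr_fun e 1
  rw [ex_0, ex_0] at h0
  rw [ex_1, ex_1] at h1
  omega

lemma eq_ex (e : Fin 2 →₀ ℕ) : e = ex (e 0 + e 1) (e 0) := by
  apply fin2_ext
  · rw [ex_0]
  · rw [ex_1]; omega

variable (A) in
noncomputable def mo (h p : ℕ) : MvPolynomial (Fin 2) A := monomial (ex h p) 1

lemma mo_mul {h p h' p' : ℕ} (hp : p ≤ h) (hp' : p' ≤ h') :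
    mo A h p * mo A h' p' = mo A (h+h') (p+p') := by
  have h1 : ex h p + ex h' p' = ex (h+h') (p+p') := by
    apply fin2_ext
    · rw [Finsupp.add_apply, ex_0, ex_0, ex_0]
    · rw [Finsupp.add_apply, ex_1, ex_1, ex_1]; omega
  rw [mo, mo, monomial_mul, one_mul, mo, h1]

lemma coeff_mo_self (h p : ℕ) : coeff (ex h p) (mo A h p) = 1 := by
  rw [mo, coeff_monomial, if_pos rfl]

lemma coeff_mo_ne {h p h' p' : ℕ} (hp : p ≤ h) (hp' : p' ≤ h') (hne : ¬ (h = h' ∧ p = p')) :
    coeff (ex h' p') (mo A h p) = 0 := by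
  rw [mo, coeff_monomial, if_neg]
  intro e
  exact hne (ex_inj hp hp' e)

lemma coeff_mo_low {h p : ℕ} (hp : p ≤ h) (e : Fin 2 →₀ ℕ) (he : e 0 + e 1 ≠ h) :
    coeff e (mo A h p) = 0 := by
  rw [mo, coeff_monomial, if_neg]
  rintro rfl
  rw [ex_0, ex_1] at he
  omega

/-- generators -/
def gens (c : ι → A) (δ N : ℕ) (E G : Finset ℕ) (Y : Finset (ℕ × ι)) :
    Set (MvPolynomial (Fin 2) A) :=
  {F | (∃ p ≤ N+2, F = mo A (N+2) p) ∨ (∃ g ∈ G, F = mo A (N+1) g) ∨ (∃ e ∈ E, F = mo A N e) ∨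
     (∃ q ∈ Y, F = mo A (N+1) (q.1+δ) + C (c q.2) * mo A N q.1)}

noncomputable def JJ (c : ι → A) (δ N : ℕ) (E G : Finset ℕ) (Y : Finset (ℕ × ι)) :
    Ideal (MvPolynomial (Fin 2) A) := Ideal.span (gens c δ N E G Y)

/-- level conditions -/
structure Lev (δ N : ℕ) (E G : Finset ℕ) (Y : Finset (ℕ × ι)) : Prop where
  hE : ∀ e ∈ E, e ≤ N
  hG : ∀ g ∈ G, g ≤ N + 1
  hY : ∀ q ∈ Y, q.1 + δ ≤ N
  EG : ∀ e ∈ E, e ∈ G
  EG1 : ∀ e ∈ E, e + 1 ∈ G
  YG : ∀ q ∈ Y, q.1 ∈ G
  YG1 : ∀ q ∈ Y, q.1 + 1 ∈ G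

variable {c : ι → A} {δ N : ℕ} {E G : Finset ℕ} {Y : Finset (ℕ × ι)}

lemma mem_top {h p : ℕ} (hh : N + 2 ≤ h) (hp : p ≤ h) : mo A h p ∈ JJ c δ N E G Y := by
  have h1 : mo A h p = mo A (h - (N+2)) (p - min p (N+2)) * mo A (N+2) (min p (N+2)) := by
    rw [mo_mul (by omega) (by omega)]
    congr 1 <;> omega
  rw [h1]
  exact Ideal.mul_mem_left _ _ (Ideal.subset_span (Or.inl ⟨_, min_le_right _ _, rfl⟩))

lemma mem_G {g : ℕ} (hg : g ∈ G) : mo A (N+1) g ∈ JJ c δ N E G Y :=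
  Ideal.subset_span (Or.inr (Or.inl ⟨g, hg, rfl⟩))

lemma mem_E {e : ℕ} (he : e ∈ E) : mo A N e ∈ JJ c δ N E G Y :=
  Ideal.subset_span (Or.inr (Or.inr (Or.inl ⟨e, he, rfl⟩)))

lemma mem_Y {p : ℕ} {i : ι} (hq : (p, i) ∈ Y) :
    mo A (N+1) (p+δ) + C (c i) * mo A N p ∈ JJ c δ N E G Y :=
  Ideal.subset_span (Or.inr (Or.inr (Or.inr ⟨(p, i), hq, rfl⟩)))

/-- the coefficient conditions -/
structure KC (c : ι → A) (δ N : ℕ) (E G : Finset ℕ) (Y : Finset (ℕ × ι)) (I : Ideal A)
    (F : MvPolynomial (Fin 2) A) : Prop where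
  k1 : ∀ e : Fin 2 →₀ ℕ, e 0 + e 1 < N → coeff e F ∈ I
  k2 : ∀ p ≤ N, p ∉ E → (∀ i, (p, i) ∉ Y) → coeff (ex N p) F ∈ I
  k3 : ∀ p ≤ N, p ∉ E → p + δ ∉ G → ∀ i, (p, i) ∈ Y →
    coeff (ex N p) F - c i * coeff (ex (N+1) (p+δ)) F ∈ I
  k4 : ∀ p ≤ N, p ∉ E → p + δ ∈ G → coeff (ex N p) F ∈ I ⊔ Ideal.span {a | ∃ i, (p, i) ∈ Y ∧ c i = a}
  k5 : ∀ q ≤ N + 1, q ∉ G → (∀ p i, (p, i) ∈ Y → p + δ ≠ q) → coeff (ex (N+1) q) F ∈ I

variable {I : Ideal A} {F F' : MvPolynomial (Fin 2) A}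

lemma KC_add (h : KC c δ N E G Y I F) (h' : KC c δ N E G Y I F') : KC c δ N E G Y I (F + F') := by
  refine ⟨?_, ?_, ?_, ?_, ?_⟩
  · intro e he
    rw [coeff_add]; exact I.add_mem (h.k1 e he) (h'.k1 e he)
  · intro p h1 h2 h3
    rw [coeff_add]; exact I.add_mem (h.k2 p h1 h2 h3) (h'.k2 p h1 h2 h3)
  · intro p h1 h2 h3 i h4
    rw [coeff_add, coeff_add]
    have := I.add_mem (h.k3 p h1 h2 h3 i h4) (h'.k3 p h1 h2 h3 i h4)
    have e : ∀ a b a' b' : A, a + a' - c i * (b + b') = a - c i * b + (a' - c i * b') := by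
      intros; ring
    rw [e]; exact this
  · intro p h1 h2 h3
    rw [coeff_add]; exact Ideal.add_mem _ (h.k4 p h1 h2 h3) (h'.k4 p h1 h2 h3)
  · intro p h1 h2 h3
    rw [coeff_add]; exact I.add_mem (h.k5 p h1 h2 h3) (h'.k5 p h1 h2 h3)

lemma KC_C (a : A) (h : KC c δ N E G Y I F) : KC c δ N E G Y I (C a * F) := by
  refine ⟨?_, ?_, ?_, ?_, ?_⟩
  · intro e he
    rw [coeff_C_mul]; exact I.mul_mem_left _ (h.k1 e he)
  · intro p h1 h2 h3
    rw [coeff_C_mul]; exact I.mul_mem_left _ (h.k2 p h1 h2 h3)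
  · intro p h1 h2 h3 i h4
    rw [coeff_C_mul, coeff_C_mul]
    have := I.mul_mem_left a (h.k3 p h1 h2 h3 i h4)
    have e : ∀ b b' : A, a * b - c i * (a * b') = a * (b - c i * b') := by
      intros; ring
    rw [e]; exact this
  · intro p h1 h2 h3
    rw [coeff_C_mul]; exact Ideal.mul_mem_left _ _ (h.k4 p h1 h2 h3)
  · intro p h1 h2 h3
    rw [coeff_C_mul]; exact I.mul_mem_left _ (h.k5 p h1 h2 h3)

lemma KC_all (h : ∀ e, coeff e F ∈ I) : KC c δ N E G Y I F := by
  refine ⟨fun e _ => h e, fun _ _ _ _ => h _, ?_, ?_, fun _ _ _ _ => h _⟩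
  · intro p _ _ _ i _
    exact I.sub_mem (h _) (I.mul_mem_left _ (h _))
  · intro p _ _ _
    exact (le_sup_left : I ≤ _) (h _)

lemma coeff_X_low (j : Fin 2) (h : KC c δ N E G Y I F) (e : Fin 2 →₀ ℕ) (he : e 0 + e 1 ≤ N) :
    coeff e (X j * F) ∈ I := by
  classical
  rw [coeff_X_mul']
  split_ifs with hj
  · apply h.k1
    rw [Finsupp.mem_support_iff] at hj
    fin_cases j
    · simp only [Fin.zero_eta, Finsupp.tsub_apply] at hj ⊢
      simp
      simp at hj
      omega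
    · simp only [Fin.mk_one, Finsupp.tsub_apply] at hj ⊢
      simp
      simp at hj
      omega
  · exact I.zero_mem

lemma coeff_X_top (L : Lev δ N E G Y) (j : Fin 2) (h : KC c δ N E G Y I F) (q : ℕ) (hq : q ≤ N + 1)
    (hG : q ∉ G) : coeff (ex (N+1) q) (X j * F) ∈ I := by
  classical
  have key : ∀ r ≤ N, (r = q ∨ r + 1 = q) → coeff (ex N r) F ∈ I := by
    intro r hr hrq
    apply h.k2 r hr
    · intro hE
      rcases hrq with rfl | rfl
      · exact hG (L.EG _ hE)
      · exact hG (L.EG1 _ hE)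
    · intro i hY
      rcases hrq with rfl | rfl
      · exact hG (L.YG _ hY)
      · exact hG (L.YG1 _ hY)
  rw [coeff_X_mul']
  split_ifs with hj
  · rw [Finsupp.mem_support_iff] at hj
    fin_cases j
    · have hj' : ex (N+1) q 0 ≠ 0 := hj
      rw [ex_0] at hj'
      have he : ex (N+1) q - Finsupp.single ((fun i => i) ⟨0, by omega⟩ : Fin 2) 1 = ex N (q-1) := by
        apply fin2_ext
        · simp [ex]
        · simp [ex]
          omega
      rw [he]
      exact key (q-1) (by omega) (Or.inr (by omega))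
    · have hj' : ex (N+1) q 1 ≠ 0 := hj
      rw [ex_1] at hj'
      have he : ex (N+1) q - Finsupp.single ((fun i => i) ⟨1, by omega⟩ : Fin 2) 1 = ex N q := by
        apply fin2_ext
        · simp [ex]
        · simp [ex]
          omega
      rw [he]
      exact key q (by omega) (Or.inl rfl)
  · exact I.zero_mem

lemma KC_X (L : Lev δ N E G Y) (j : Fin 2) (h : KC c δ N E G Y I F) : KC c δ N E G Y I (X j * F) := by
  refine ⟨?_, ?_, ?_, ?_, ?_⟩
  · intro e he
    exact coeff_X_low j h e (by omega)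
  · intro p h1 h2 h3
    exact coeff_X_low j h _ (by rw [ex_0, ex_1]; omega)
  · intro p h1 h2 h3 i h4
    have := L.hY _ h4
    simp only at this
    exact I.sub_mem (coeff_X_low j h _ (by rw [ex_0, ex_1]; omega))
      (I.mul_mem_left _ (coeff_X_top L j h _ (by omega) h3))
  · intro p h1 h2 h3
    exact (le_sup_left : I ≤ _) (coeff_X_low j h _ (by rw [ex_0, ex_1]; omega))
  · intro q h1 h2 h3
    exact coeff_X_top L j h _ h1 h2

lemma KC_mul (L : Lev δ N E G Y) (H : MvPolynomial (Fin 2) A) (h : KC c δ N E G Y I F) :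
    KC c δ N E G Y I (H * F) := by
  induction H using MvPolynomial.induction_on with
  | C a => exact KC_C a h
  | add p q hp hq => rw [add_mul]; exact KC_add hp hq
  | mul_X p j hp =>
    have : p * X j * F = X j * (p * F) := by ring
    rw [this]; exact KC_X L j hp

/-- the ideal of all polynomials satisfying the conditions -/
def KI (L : Lev δ N E G Y) (c : ι → A) (I : Ideal A) : Ideal (MvPolynomial (Fin 2) A) where
  carrier := {F | KC c δ N E G Y I F}
  add_mem' := fun h h' => KC_add h h'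
  zero_mem' := KC_all (by intro e; rw [coeff_zero]; exact I.zero_mem)
  smul_mem' := fun H _ h => KC_mul L H h

lemma mem_KI (L : Lev δ N E G Y) : F ∈ KI L c I ↔ KC c δ N E G Y I F := Iff.rfl

lemma JJ_le_KI (L : Lev δ N E G Y)
    (uniq : ∀ p i j, (p, i) ∈ Y → (p, j) ∈ Y → p ∉ E → p + δ ∉ G → i = j) :
    JJ c δ N E G Y ≤ KI L c I := by
  refine Ideal.span_le.2 ?_
  rintro F (⟨p, hp, rfl⟩ | ⟨g, hg, rfl⟩ | ⟨e, he, rfl⟩ | ⟨⟨w, i⟩, hq, rfl⟩)
  · rw [SetLike.mem_coe, mem_KI]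
    have hz : ∀ e : Fin 2 →₀ ℕ, e 0 + e 1 ≤ N + 1 → coeff e (mo A (N+2) p) = 0 :=
      fun e he => coeff_mo_low hp e (by omega)
    refine ⟨?_, ?_, ?_, ?_, ?_⟩
    · intro e he; rw [hz e (by omega)]; exact I.zero_mem
    · intro p h1 h2 h3; rw [hz _ (by rw [ex_0, ex_1]; omega)]; exact I.zero_mem
    · intro p h1 h2 h3 i h4
      have := L.hY _ h4
      simp only at this
      rw [hz _ (by rw [ex_0, ex_1]; omega), hz _ (by rw [ex_0, ex_1]; omega), mul_zero, sub_zero]
      exact I.zero_mem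
    · intro p h1 h2 h3; rw [hz _ (by rw [ex_0, ex_1]; omega)]; exact Ideal.zero_mem _
    · intro p h1 h2 h3; rw [hz _ (by rw [ex_0, ex_1]; omega)]; exact I.zero_mem
  · rw [SetLike.mem_coe, mem_KI]
    have hgN := L.hG g hg
    have hz : ∀ e : Fin 2 →₀ ℕ, e 0 + e 1 ≠ N + 1 → coeff e (mo A (N+1) g) = 0 :=
      fun e he => coeff_mo_low hgN e he
    refine ⟨?_, ?_, ?_, ?_, ?_⟩
    · intro e he; rw [hz e (by omega)]; exact I.zero_mem
    · intro p h1 h2 h3; rw [hz _ (by rw [ex_0, ex_1]; omega)]; exact I.zero_mem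
    · intro p h1 h2 h3 i h4
      have := L.hY _ h4
      simp only at this
      rw [hz _ (by rw [ex_0, ex_1]; omega), coeff_mo_ne hgN (by omega) ?_, mul_zero, sub_zero]
      · exact I.zero_mem
      · rintro ⟨-, rfl⟩; exact h3 hg
    · intro p h1 h2 h3; rw [hz _ (by rw [ex_0, ex_1]; omega)]; exact Ideal.zero_mem _
    · intro p h1 h2 h3
      rw [coeff_mo_ne hgN (by omega) ?_]
      · exact I.zero_mem
      · rintro ⟨-, rfl⟩; exact h2 hg
  · rw [SetLike.mem_coe, mem_KI]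
    have heN := L.hE e he
    have hz : ∀ e' : Fin 2 →₀ ℕ, e' 0 + e' 1 ≠ N → coeff e' (mo A N e) = 0 :=
      fun e' he' => coeff_mo_low heN e' he'
    have hz2 : ∀ p ≤ N, p ∉ E → coeff (ex N p) (mo A N e) = 0 := by
      intro p hp hpE
      rw [coeff_mo_ne heN hp]
      rintro ⟨-, rfl⟩; exact hpE he
    refine ⟨?_, ?_, ?_, ?_, ?_⟩
    · intro e he; rw [hz e (by omega)]; exact I.zero_mem
    · intro p h1 h2 h3; rw [hz2 p h1 h2]; exact I.zero_mem
    · intro p h1 h2 h3 i h4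
      have := L.hY _ h4
      simp only at this
      rw [hz2 p h1 h2, hz _ (by rw [ex_0, ex_1]; omega), mul_zero, sub_zero]
      exact I.zero_mem
    · intro p h1 h2 h3; rw [hz2 p h1 h2]; exact Ideal.zero_mem _
    · intro p h1 h2 h3; rw [hz _ (by rw [ex_0, ex_1]; omega)]; exact I.zero_mem
  · rw [SetLike.mem_coe, mem_KI]
    have hwN := L.hY _ hq
    simp only at hwN ⊢
    refine ⟨?_, ?_, ?_, ?_, ?_⟩
    · intro e he
      rw [coeff_add, coeff_C_mul, coeff_mo_low (by omega) e (by omega),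
        coeff_mo_low (by omega) e (by omega), mul_zero, add_zero]
      exact I.zero_mem
    · intro p h1 h2 h3
      have hne : ¬ (N = N ∧ w = p) := by
        rintro ⟨-, rfl⟩; exact h3 i hq
      rw [coeff_add, coeff_C_mul, coeff_mo_low (by omega) _ (by rw [ex_0, ex_1]; omega),
        coeff_mo_ne (by omega) h1 hne, mul_zero, add_zero]
      exact I.zero_mem
    · intro p h1 h2 h3 j h4
      have hpN := L.hY _ h4
      simp only at hpN
      rw [coeff_add, coeff_C_mul, coeff_mo_low (p := w + δ) (by omega) (ex N p) (by rw [ex_0, ex_1]; omega),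
        coeff_add, coeff_C_mul, coeff_mo_low (p := w) (by omega) (ex (N+1) (p+δ)) (by rw [ex_0, ex_1]; omega),
        mul_zero, add_zero, zero_add]
      by_cases hwp : w = p
      · subst hwp
        have hij := uniq w i j hq h4 h2 h3
        subst hij
        rw [coeff_mo_self, coeff_mo_self, sub_self]
        exact I.zero_mem
      · rw [coeff_mo_ne (by omega) h1 (by rintro ⟨-, h⟩; exact hwp h),
          coeff_mo_ne (by omega) (by omega) (by rintro ⟨-, h⟩; exact hwp (by omega)), mul_zero, mul_zero,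
          sub_zero]
        exact I.zero_mem
    · intro p h1 h2 h3
      rw [coeff_add, coeff_C_mul, coeff_mo_low (p := w + δ) (by omega) (ex N p) (by rw [ex_0, ex_1]; omega),
        zero_add]
      by_cases hwp : w = p
      · subst hwp
        rw [coeff_mo_self, mul_one]
        have hmem : c i ∈ Ideal.span {a | ∃ i, (w, i) ∈ Y ∧ c i = a} :=
          Ideal.subset_span ⟨i, hq, rfl⟩
        exact Ideal.mem_sup_right hmem
      · rw [coeff_mo_ne (by omega) h1 (by rintro ⟨-, h⟩; exact hwp h), mul_zero]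
        exact Ideal.zero_mem _
    · intro q h1 h2 h3
      rw [coeff_add, coeff_C_mul, coeff_mo_low (p := w) (by omega) (ex (N+1) q) (by rw [ex_0, ex_1]; omega),
        mul_zero, add_zero, coeff_mo_ne (by omega) h1]
      · exact I.zero_mem
      · rintro ⟨-, h⟩; exact h3 w i hq h

lemma map_le_KI (L : Lev δ N E G Y) : Ideal.map C I ≤ KI L c I := by
  rw [Ideal.map_le_iff_le_comap]
  intro a ha
  rw [Ideal.mem_comap, mem_KI]
  apply KC_all
  intro e
  classical
  rw [coeff_C]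
  split_ifs
  · exact ha
  · exact I.zero_mem

lemma C_mul_mem {L : Ideal (MvPolynomial (Fin 2) A)} {a : A} {I : Ideal A} (hI : Ideal.map C I ≤ L)
    (ha : a ∈ I) (F : MvPolynomial (Fin 2) A) : C a * F ∈ L :=
  Ideal.mul_mem_right _ _ (hI (Ideal.mem_map_of_mem C ha))

lemma KI_le (L : Lev δ N E G Y) [DecidableEq ι]
    (uniq : ∀ p i j, (p, i) ∈ Y → (p, j) ∈ Y → p ∉ E → p + δ ∉ G → i = j) :
    KI L c I ≤ JJ c δ N E G Y ⊔ Ideal.map C I := by
  intro F hF
  set W := JJ c δ N E G Y ⊔ Ideal.map C I with hW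
  have hI : Ideal.map C I ≤ W := le_sup_right
  have hJ : JJ c δ N E G Y ≤ W := le_sup_left
  let Y' := Y.filter (fun q => q.1 ∉ E ∧ q.1 + δ ∉ G)
  let D : MvPolynomial (Fin 2) A := ∑ q ∈ Y', C (coeff (ex (N+1) (q.1+δ)) F) *
    (mo A (N+1) (q.1+δ) + C (c q.2) * mo A N q.1)
  have hDJ : D ∈ JJ c δ N E G Y := by
    refine Ideal.sum_mem _ (fun q hq => ?_)
    exact Ideal.mul_mem_left _ _ (mem_Y (Finset.mem_filter.1 hq).1)
  have hR : KC c δ N E G Y I (F - D) := by
    rw [← mem_KI L]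
    exact Ideal.sub_mem _ hF (JJ_le_KI L uniq hDJ)
  set R := F - D with hRdef
  have hcoefR : ∀ w i, (w, i) ∈ Y → w ∉ E → w + δ ∉ G → coeff (ex (N+1) (w+δ)) R = 0 := by
    intro w i hwi hwE hwG
    have hmem : (w, i) ∈ Y' := Finset.mem_filter.2 ⟨hwi, hwE, hwG⟩
    have hwN := L.hY _ hwi
    simp only at hwN
    rw [hRdef, coeff_sub, coeff_sum, Finset.sum_eq_single (w, i)]
    · simp only
      rw [coeff_C_mul, coeff_add, coeff_mo_self, coeff_C_mul,
        coeff_mo_low (p := w) (by omega) (ex (N+1) (w+δ)) (by rw [ex_0, ex_1]; omega), mul_zero, add_zero,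
        mul_one, sub_self]
    · rintro ⟨w', i'⟩ hw' hne
      obtain ⟨hw'Y, hw'E, hw'G⟩ := Finset.mem_filter.1 hw'
      have hw'N := L.hY _ hw'Y
      simp only at hw'N hw'E hw'G ⊢
      have hww : w' ≠ w := by
        rintro rfl
        exact hne (by rw [uniq w' i' i hw'Y hwi hw'E hw'G])
      rw [coeff_C_mul, coeff_add, coeff_C_mul,
        coeff_mo_low (p := w') (by omega) (ex (N+1) (w+δ)) (by rw [ex_0, ex_1]; omega), mul_zero, add_zero,
        coeff_mo_ne (by omega) (by omega) (by rintro ⟨-, h⟩; exact hww (by omega)), mul_zero]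
    · intro h; exact absurd hmem h
  have hFR : F = R + D := by rw [hRdef]; ring
  rw [hFR]
  refine W.add_mem ?_ (hJ hDJ)
  rw [← support_sum_monomial_coeff R]
  refine Ideal.sum_mem W (fun e _ => ?_)
  -- each term
  have hterm : monomial e (coeff e R) = C (coeff e R) * mo A (e 0 + e 1) (e 0) := by
    rw [mo, C_mul_monomial, mul_one, ← eq_ex]
  rw [hterm]
  rcases lt_trichotomy (e 0 + e 1) N with h1 | h1 | h1
  · exact C_mul_mem hI (hR.k1 e h1) _
  · -- degree N
    have he : e = ex N (e 0) := by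
      conv_lhs => rw [eq_ex e]
      rw [h1]
    have hp : e 0 ≤ N := by omega
    rw [h1]
    generalize e 0 = p at he hp
    rw [he]
    by_cases hpE : p ∈ E
    · exact W.mul_mem_left _ (hJ (mem_E hpE))
    · by_cases hpG : p + δ ∈ G
      · have h4 := hR.k4 p hp hpE hpG
        have hle : I ⊔ Ideal.span {a | ∃ i, (p, i) ∈ Y ∧ c i = a} ≤
            Submodule.comap (LinearMap.mulRight A (mo A N p) ∘ₗ (Algebra.linearMap A (MvPolynomial (Fin 2) A)))
              (W.restrictScalars A) := by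
          refine sup_le ?_ (Ideal.span_le.2 ?_)
          · intro a ha
            change C a * mo A N p ∈ W
            exact C_mul_mem hI ha _
          · rintro a ⟨i, hi, rfl⟩
            change C (c i) * mo A N p ∈ W
            have e1 : C (c i) * mo A N p = (mo A (N+1) (p+δ) + C (c i) * mo A N p) - mo A (N+1) (p+δ) := by
              ring
            rw [e1]
            exact W.sub_mem (hJ (mem_Y hi)) (hJ (mem_G hpG))
        exact hle h4
      · by_cases hY : ∃ i, (p, i) ∈ Y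
        · obtain ⟨i, hi⟩ := hY
          have h3 := hR.k3 p hp hpE hpG i hi
          rw [hcoefR p i hi hpE hpG, mul_zero, sub_zero] at h3
          exact C_mul_mem hI h3 _
        · push Not at hY
          exact C_mul_mem hI (hR.k2 p hp hpE hY) _
  · rcases Nat.eq_or_lt_of_le (Nat.succ_le_of_lt h1) with h2 | h2
    · -- degree N+1
      have h2' : e 0 + e 1 = N + 1 := h2.symm
      have he : e = ex (N+1) (e 0) := by
        conv_lhs => rw [eq_ex e]
        rw [h2']
      have hp : e 0 ≤ N + 1 := by omega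
      rw [h2']
      generalize e 0 = q at he hp
      rw [he]
      by_cases hqG : q ∈ G
      · exact W.mul_mem_left _ (hJ (mem_G hqG))
      · by_cases hY : ∃ p i, (p, i) ∈ Y ∧ p + δ = q
        · obtain ⟨p, i, hi, rfl⟩ := hY
          by_cases hpE : p ∈ E
          · have e1 : mo A (N+1) (p+δ) = (mo A (N+1) (p+δ) + C (c i) * mo A N p) - C (c i) * mo A N p := by
              ring
            refine W.mul_mem_left _ ?_
            rw [e1]
            exact W.sub_mem (hJ (mem_Y hi)) (W.mul_mem_left _ (hJ (mem_E hpE)))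
          · rw [hcoefR p i hi hpE hqG, C_0, zero_mul]
            exact W.zero_mem
        · refine C_mul_mem hI (hR.k5 q hp hqG ?_) _
          intro p i hpi hpq
          exact hY ⟨p, i, hpi, hpq⟩
    · exact W.mul_mem_left _ (hJ (mem_top (by omega) (by omega)))

/-- membership criterion -/
theorem mem_iff (L : Lev δ N E G Y) [DecidableEq ι]
    (uniq : ∀ p i j, (p, i) ∈ Y → (p, j) ∈ Y → p ∉ E → p + δ ∉ G → i = j) (F : MvPolynomial (Fin 2) A) :
    F ∈ JJ c δ N E G Y ⊔ Ideal.map C I ↔ KC c δ N E G Y I F := by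
  constructor
  · intro h
    exact (sup_le (JJ_le_KI L uniq) (map_le_KI L)) h
  · intro h
    exact KI_le L uniq h

end Pool.V1147.Def2
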