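import Mathlib

set_option autoImplicit false

open CategoryTheory Abelian

namespace Pool.V1147.PdVar

universe u

variable {R : Type u} [CommRing R]

/-- the factor map `R ⧸ J → R ⧸ (J ⊔ (r))` -/
noncomputable def facMap (J : Ideal R) (r : R) : (R ⧸ J) →ₗ[R] (R ⧸ (J ⊔ Ideal.span {r})) :=
  Submodule.factor (le_sup_left : J ≤ J ⊔ Ideal.span {r})

lemma facMap_mk (J : Ideal R) (r c : R) :
    facMap J r (Submodule.Quotient.mk c) = Submodule.Quotient.mk c := rfl

/-- The short complex `0 → R/J → R/J → R/(J+(r)) → 0`. -/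
noncomputable def kosComplex (J : Ideal R) (r : R) : ShortComplex (ModuleCat.{u} R) :=
  ShortComplex.mk (X₁ := ModuleCat.of R (R ⧸ J)) (X₂ := ModuleCat.of R (R ⧸ J))
    (X₃ := ModuleCat.of R (R ⧸ (J ⊔ Ideal.span {r})))
    (r • 𝟙 _) (ModuleCat.ofHom (facMap J r)) (by
      apply ModuleCat.hom_ext
      apply LinearMap.ext
      intro c
      obtain ⟨c, rfl⟩ := Submodule.Quotient.mk_surjective _ c
      change facMap J r (r • (Submodule.Quotient.mk c)) = 0
      rw [← Submodule.Quotient.mk_smul, facMap_mk, Submodule.Quotient.mk_eq_zero]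
      exact (le_sup_right : Ideal.span {r} ≤ _) (Ideal.mul_mem_right _ _ (Ideal.mem_span_singleton_self r)))

lemma kosComplex_shortExact (J : Ideal R) (r : R) (h : ∀ c, r * c ∈ J → c ∈ J) :
    (kosComplex J r).ShortExact := by
  refine { exact := ?_, mono_f := ?_, epi_g := ?_ }
  · rw [ShortComplex.moduleCat_exact_iff]
    intro c hc
    obtain ⟨c, rfl⟩ := Submodule.Quotient.mk_surjective _ c
    change facMap J r (Submodule.Quotient.mk c) = 0 at hc
    rw [facMap_mk, Submodule.Quotient.mk_eq_zero] at hc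
    obtain ⟨a, ha, b, hb, hab⟩ := Submodule.mem_sup.1 hc
    obtain ⟨d, rfl⟩ := Ideal.mem_span_singleton'.1 hb
    refine ⟨Submodule.Quotient.mk d, ?_⟩
    change r • (Submodule.Quotient.mk d : R ⧸ J) = Submodule.Quotient.mk c
    rw [← Submodule.Quotient.mk_smul, Submodule.Quotient.eq]
    have : r • d - c = -a := by rw [← hab, smul_eq_mul]; ring
    rw [this]; exact J.neg_mem ha
  · rw [ModuleCat.mono_iff_injective]
    intro a b hab
    obtain ⟨a, rfl⟩ := Submodule.Quotient.mk_surjective _ a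
    obtain ⟨b, rfl⟩ := Submodule.Quotient.mk_surjective _ b
    change r • (Submodule.Quotient.mk a : R ⧸ J) = r • (Submodule.Quotient.mk b : R ⧸ J) at hab
    rw [← Submodule.Quotient.mk_smul, ← Submodule.Quotient.mk_smul, Submodule.Quotient.eq] at hab
    change (Submodule.Quotient.mk a : R ⧸ J) = Submodule.Quotient.mk b
    rw [Submodule.Quotient.eq]
    apply h
    have : r * (a - b) = r • a - r • b := by simp only [smul_eq_mul]; ring
    rw [this]; exact hab
  · rw [ModuleCat.epi_iff_surjective]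
    intro c
    obtain ⟨c, rfl⟩ := Submodule.Quotient.mk_surjective _ c
    exact ⟨Submodule.Quotient.mk c, rfl⟩

lemma pdLT_kos (J : Ideal R) (r : R) (h : ∀ c, r * c ∈ J → c ∈ J) (n : ℕ)
    (hJ : HasProjectiveDimensionLT (ModuleCat.of R (R ⧸ J)) n) :
    HasProjectiveDimensionLT (ModuleCat.of R (R ⧸ (J ⊔ Ideal.span {r}))) (n + 1) := by
  have hS := kosComplex_shortExact J r h
  have hJ' : HasProjectiveDimensionLT (ModuleCat.of R (R ⧸ J)) (n + 1) :=
    hasProjectiveDimensionLT_of_ge _ n (n+1) (by omega)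
  exact hS.hasProjectiveDimensionLT_X₃ n hJ hJ'

lemma ext_kos (J : Ideal R) (r : R) (h : ∀ c, r * c ∈ J → c ∈ J) (n : ℕ)
    (L : ModuleCat.{u} R) (hL : ∀ l : L, r • l = 0)
    (hJ : ∃ e : Ext (ModuleCat.of R (R ⧸ J)) L n, e ≠ 0) :
    ∃ e : Ext (ModuleCat.of R (R ⧸ (J ⊔ Ideal.span {r}))) L (n + 1), e ≠ 0 := by
  have hS := kosComplex_shortExact J r h
  obtain ⟨e, he⟩ := hJ
  refine ⟨hS.extClass.comp e (add_comm 1 n), ?_⟩
  intro h0
  obtain ⟨x₂, hx⟩ := Ext.contravariant_sequence_exact₁ hS L e (add_comm 1 n) h0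
  apply he
  rw [← hx]
  have x₂' : Ext (ModuleCat.of R (R ⧸ J)) L n := x₂
  suffices h9 : ∀ x₂ : Ext (ModuleCat.of R (R ⧸ J)) L n,
      (Ext.mk₀ (r • 𝟙 (ModuleCat.of R (R ⧸ J)))).comp x₂ (zero_add n) = 0 from h9 x₂
  intro x₂
  rw [Ext.mk₀_smul, Ext.smul_comp, Ext.mk₀_id_comp]
  have h2 : x₂ = x₂.comp (Ext.mk₀ (𝟙 L)) (add_zero n) := by simp
  rw [h2, ← Ext.comp_smul, ← Ext.mk₀_smul]
  have h3 : r • 𝟙 L = 0 := by
    ext l
    exact hL l
  rw [h3, Ext.mk₀_zero, Ext.comp_zero]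

/-- the short complex `0 → I → I + (g) → R/(I:g) → 0` -/
noncomputable def toQuot (I : Ideal R) (g : R) (C : Ideal R) (hC : ∀ c, c ∈ C ↔ c * g ∈ I) :
    (R ⧸ C) ≃ₗ[R] (↥(I ⊔ Ideal.span {g}) ⧸ (Submodule.comap (Submodule.subtype (I ⊔ Ideal.span {g})) I)) := by
  let I' := I ⊔ Ideal.span {g}
  let φ : R →ₗ[R] (↥I' ⧸ (Submodule.comap (Submodule.subtype I') I)) :=
    (Submodule.mkQ _) ∘ₗ (LinearMap.toSpanSingleton R ↥I'
      ⟨g, (le_sup_right : Ideal.span {g} ≤ I') (Ideal.mem_span_singleton_self g)⟩)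
  have hφ : Function.Surjective φ := by
    intro q
    obtain ⟨⟨q, hq⟩, rfl⟩ := Submodule.Quotient.mk_surjective _ q
    obtain ⟨a, ha, b, hb, hab⟩ := Submodule.mem_sup.1 hq
    obtain ⟨d, rfl⟩ := Ideal.mem_span_singleton'.1 hb
    refine ⟨d, ?_⟩
    change Submodule.Quotient.mk _ = Submodule.Quotient.mk _
    rw [Submodule.Quotient.eq]
    change d * g - q ∈ I
    have : d * g - q = -a := by rw [← hab]; ring
    rw [this]; exact I.neg_mem ha
  have hker : LinearMap.ker φ = C := by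
    ext c
    rw [LinearMap.mem_ker, hC]
    change Submodule.Quotient.mk _ = _ ↔ _
    rw [Submodule.Quotient.mk_eq_zero]
    rfl
  exact (Submodule.quotEquivOfEq _ _ hker.symm).trans (LinearMap.quotKerEquivOfSurjective φ hφ)

noncomputable def stepComplex (I : Ideal R) (g : R) (C : Ideal R) (hC : ∀ c, c ∈ C ↔ c * g ∈ I) :
    ShortComplex (ModuleCat.{u} R) :=
  ShortComplex.mk (X₁ := ModuleCat.of R I) (X₂ := ModuleCat.of R ↥(I ⊔ Ideal.span {g}))
    (X₃ := ModuleCat.of R (R ⧸ C))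
    (ModuleCat.ofHom (Submodule.inclusion (le_sup_left : I ≤ I ⊔ Ideal.span {g})))
    (ModuleCat.ofHom ((toQuot I g C hC).symm.toLinearMap ∘ₗ (Submodule.mkQ _))) (by
      apply ModuleCat.hom_ext
      apply LinearMap.ext
      intro c
      change (toQuot I g C hC).symm (Submodule.Quotient.mk _) = 0
      rw [LinearEquiv.map_eq_zero_iff, Submodule.Quotient.mk_eq_zero]
      exact c.2)

lemma stepComplex_shortExact (I : Ideal R) (g : R) (C : Ideal R) (hC : ∀ c, c ∈ C ↔ c * g ∈ I) :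
    (stepComplex I g C hC).ShortExact := by
  refine { exact := ?_, mono_f := ?_, epi_g := ?_ }
  · rw [ShortComplex.moduleCat_exact_iff]
    intro c hc
    change (toQuot I g C hC).symm (Submodule.Quotient.mk c) = 0 at hc
    rw [LinearEquiv.map_eq_zero_iff, Submodule.Quotient.mk_eq_zero] at hc
    exact ⟨⟨_, hc⟩, rfl⟩
  · rw [ModuleCat.mono_iff_injective]
    exact Submodule.inclusion_injective (le_sup_left : I ≤ I ⊔ Ideal.span {g})
  · rw [ModuleCat.epi_iff_surjective]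
    intro c
    obtain ⟨c', hc'⟩ := (toQuot I g C hC).symm.surjective c
    obtain ⟨c'', rfl⟩ := Submodule.Quotient.mk_surjective _ c'
    exact ⟨c'', hc'⟩

lemma pdLT_step (I : Ideal R) (g : R) (C : Ideal R) (hC : ∀ c, c ∈ C ↔ c * g ∈ I) (n : ℕ)
    (h1 : HasProjectiveDimensionLT (ModuleCat.of R I) n)
    (h3 : HasProjectiveDimensionLT (ModuleCat.of R (R ⧸ C)) n) :
    HasProjectiveDimensionLT (ModuleCat.of R ↥(I ⊔ Ideal.span {g})) n :=
  (stepComplex_shortExact I g C hC).hasProjectiveDimensionLT_X₂ n h1 h3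

lemma pdLT_step₃ (I : Ideal R) (g : R) (C : Ideal R) (hC : ∀ c, c ∈ C ↔ c * g ∈ I) (n : ℕ)
    (h1 : HasProjectiveDimensionLT (ModuleCat.of R I) n)
    (h2 : HasProjectiveDimensionLT (ModuleCat.of R ↥(I ⊔ Ideal.span {g})) (n + 1)) :
    HasProjectiveDimensionLT (ModuleCat.of R (R ⧸ C)) (n + 1) :=
  (stepComplex_shortExact I g C hC).hasProjectiveDimensionLT_X₃ n h1 h2

end Pool.V1147.PdVar
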