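import Mathlib
import Pool.Agent.V1147.PdVar

set_option autoImplicit false

open CategoryTheory Abelian MvPolynomial
open scoped Pointwise

namespace Pool.V1147.MonPd

open Pool.V1147.PdVar

variable {σ : Type} {k : Type} [Field k]

/-- monomial ideal of an exponent set -/
noncomputable def MI (k : Type) [Field k] (U : Set (σ →₀ ℕ)) : Ideal (MvPolynomial σ k) :=
  Ideal.span ((fun e => monomial e (1 : k)) '' U)

lemma mem_MI {U : Set (σ →₀ ℕ)} (hU : IsUpperSet U) (f : MvPolynomial σ k) :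
    f ∈ MI k U ↔ ∀ m ∈ f.support, m ∈ U := by
  rw [MI, mem_ideal_span_monomial_image]
  constructor
  · intro h m hm
    obtain ⟨e, he, hle⟩ := h m hm
    exact hU hle he
  · intro h m hm
    exact ⟨m, h m hm, le_rfl⟩

lemma isUpperSet_Ici_union {U : Set (σ →₀ ℕ)} (hU : IsUpperSet U) (e : σ →₀ ℕ) :
    IsUpperSet (U ∪ Set.Ici e) := hU.union (isUpperSet_Ici e)

lemma MI_sup (U : Set (σ →₀ ℕ)) (e : σ →₀ ℕ) :
    MI k U ⊔ Ideal.span {monomial e (1 : k)} = MI k (U ∪ Set.Ici e) := by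
  apply le_antisymm
  · refine sup_le (Ideal.span_mono (Set.image_mono Set.subset_union_left)) ?_
    rw [Ideal.span_singleton_le_iff_mem]
    exact Ideal.subset_span ⟨e, Or.inr (Set.mem_Ici.2 le_rfl), rfl⟩
  · refine Ideal.span_le.2 ?_
    rintro _ ⟨m, hm | hm, rfl⟩
    · exact (le_sup_left : MI k U ≤ _) (Ideal.subset_span ⟨m, hm, rfl⟩)
    · have h1 : monomial m (1 : k) = monomial (m - e) 1 * monomial e 1 := by
        rw [monomial_mul, one_mul, tsub_add_cancel_of_le hm]
      show monomial m (1 : k) ∈ _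
      rw [h1]
      exact Ideal.mul_mem_left _ _ ((le_sup_right : Ideal.span {monomial e (1 : k)} ≤ _)
        (Ideal.mem_span_singleton_self _))

lemma isUpperSet_colon {U : Set (σ →₀ ℕ)} (hU : IsUpperSet U) (e : σ →₀ ℕ) :
    IsUpperSet {m | m + e ∈ U} := by
  intro a b hab ha
  exact hU (add_le_add_left hab e) ha

lemma colon_MI {U : Set (σ →₀ ℕ)} (hU : IsUpperSet U) (e : σ →₀ ℕ) (c : MvPolynomial σ k) :
    c ∈ MI k {m | m + e ∈ U} ↔ c * monomial e 1 ∈ MI k U := by
  rw [mem_MI hU, mem_MI (isUpperSet_colon hU e)]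
  constructor
  · intro h m hm
    rw [mem_support_iff, coeff_mul_monomial'] at hm
    by_cases hle : e ≤ m
    · rw [if_pos hle, mul_one] at hm
      have := h (m - e) (mem_support_iff.2 hm)
      rw [Set.mem_setOf_eq, tsub_add_cancel_of_le hle] at this
      exact this
    · rw [if_neg hle] at hm; exact absurd rfl hm
  · intro h m hm
    refine h (m + e) ?_
    rw [mem_support_iff, coeff_mul_monomial, mul_one]
    exact mem_support_iff.1 hm

lemma MI_mul (U V : Set (σ →₀ ℕ)) : MI k U * MI k V = MI k (U + V) := by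
  rw [MI, MI, Ideal.span_mul_span', MI]
  congr 1
  ext f
  constructor
  · rintro ⟨_, ⟨a, ha, rfl⟩, _, ⟨b, hb, rfl⟩, rfl⟩
    refine ⟨a + b, Set.add_mem_add ha hb, ?_⟩
    simp only [monomial_mul, one_mul]
  · rintro ⟨_, ⟨a, ha, b, hb, rfl⟩, rfl⟩
    refine ⟨_, ⟨a, ha, rfl⟩, _, ⟨b, hb, rfl⟩, ?_⟩
    simp only [monomial_mul, one_mul]

/-- exponents divisible by one of the variables of `V` -/
def VS (V : Finset σ) : Set (σ →₀ ℕ) := {m | ∃ i ∈ V, m i ≠ 0}

lemma isUpperSet_VS (V : Finset σ) : IsUpperSet (VS V) := by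
  rintro a b hab ⟨i, hi, h⟩
  have := hab i
  exact ⟨i, hi, by omega⟩

lemma MI_VS_empty : MI k (VS (∅ : Finset σ)) = ⊥ := by
  have : VS (∅ : Finset σ) = ∅ := by ext m; simp [VS]
  rw [this, MI, Set.image_empty, Ideal.span_empty]

lemma MI_VS_insert [DecidableEq σ] (V : Finset σ) (i : σ) :
    MI k (VS (insert i V)) = MI k (VS V) ⊔ Ideal.span {(X i : MvPolynomial σ k)} := by
  have h1 : (X i : MvPolynomial σ k) = monomial (Finsupp.single i 1) 1 := rfl
  rw [h1, MI_sup]
  congr 1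
  ext m
  simp only [VS, Set.mem_setOf_eq, Finset.mem_insert, Set.mem_union, Set.mem_Ici,
    Finsupp.single_le_iff]
  constructor
  · rintro ⟨j, hj | hj, hm⟩
    · right; subst hj; omega
    · exact Or.inl ⟨j, hj, hm⟩
  · rintro (⟨j, hj, hm⟩ | hm)
    · exact ⟨j, Or.inr hj, hm⟩
    · exact ⟨i, Or.inl rfl, by omega⟩

lemma VS_regular (V : Finset σ) (i : σ) (hi : i ∉ V) (c : MvPolynomial σ k)
    (h : X i * c ∈ MI k (VS V)) : c ∈ MI k (VS V) := by
  rw [mem_MI (isUpperSet_VS V)] at h ⊢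
  intro m hm
  have h1 : m + Finsupp.single i 1 ∈ (X i * c).support := by
    rw [mem_support_iff, mul_comm, coeff_mul_X]
    exact mem_support_iff.1 hm
  obtain ⟨l, hl, hml⟩ := h _ h1
  refine ⟨l, hl, ?_⟩
  have hne : i ≠ l := fun h => hi (h ▸ hl)
  classical
  rw [Finsupp.add_apply, Finsupp.single_apply, if_neg hne, add_zero] at hml
  exact hml

lemma pdLT_VS (V : Finset σ) :
    HasProjectiveDimensionLT (ModuleCat.of (MvPolynomial σ k) (MvPolynomial σ k ⧸ MI k (VS V)))
      (V.card + 1) := by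
  classical
  induction V using Finset.induction_on with
  | empty =>
    rw [MI_VS_empty]
    have : Module.Projective (MvPolynomial σ k) (MvPolynomial σ k ⧸ (⊥ : Ideal (MvPolynomial σ k))) :=
      Module.Projective.of_equiv (Submodule.quotEquivOfEqBot ⊥ rfl).symm
    have h2 : Projective (ModuleCat.of (MvPolynomial σ k)
        (MvPolynomial σ k ⧸ (⊥ : Ideal (MvPolynomial σ k)))) :=
      (IsProjective.iff_projective _).1 this
    exact inferInstance
  | insert i V hi ih =>
    rw [MI_VS_insert, Finset.card_insert_of_notMem hi]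
    exact pdLT_kos _ _ (VS_regular V i hi) _ ih

lemma one_notMem_VS (V : Finset σ) : (1 : MvPolynomial σ k) ∉ MI k (VS V) := by
  intro h
  rw [mem_MI (isUpperSet_VS V)] at h
  obtain ⟨i, hi, h0⟩ := h 0 (by rw [mem_support_iff]; simp)
  simp at h0

/-- the module killed by all variables -/
noncomputable abbrev LL (σ k : Type) [Field k] [Fintype σ] : ModuleCat (MvPolynomial σ k) :=
  ModuleCat.of (MvPolynomial σ k) (MvPolynomial σ k ⧸ MI k (VS (Finset.univ : Finset σ)))

lemma LL_kill [Fintype σ] (i : σ) (l : LL σ k) : (X i : MvPolynomial σ k) • l = 0 := by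
  obtain ⟨c, rfl⟩ := Submodule.Quotient.mk_surjective _ l
  rw [← Submodule.Quotient.mk_smul, Submodule.Quotient.mk_eq_zero, smul_eq_mul]
  refine Ideal.mul_mem_right _ _ ?_
  have h1 : (X i : MvPolynomial σ k) = monomial (Finsupp.single i 1) 1 := rfl
  rw [h1]
  exact Ideal.subset_span ⟨_, ⟨i, Finset.mem_univ _, by simp⟩, rfl⟩

lemma ext_VS [Fintype σ] (V : Finset σ) :
    ∃ e : Ext (ModuleCat.of (MvPolynomial σ k) (MvPolynomial σ k ⧸ MI k (VS V))) (LL σ k) V.card,
      e ≠ 0 := by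
  classical
  induction V using Finset.induction_on with
  | empty =>
    rw [Finset.card_empty]
    let f : ModuleCat.of (MvPolynomial σ k) (MvPolynomial σ k ⧸ MI k (VS (∅ : Finset σ))) ⟶ LL σ k :=
      ModuleCat.ofHom (Submodule.factor (by rw [MI_VS_empty]; exact bot_le))
    refine ⟨Ext.mk₀ f, ?_⟩
    intro h
    have h0 : f = 0 := by
      rw [← Ext.mk₀_zero] at h
      exact (Ext.mk₀_bijective _ _).1 h
    have h1 : f.hom (Submodule.Quotient.mk 1) = 0 := by rw [h0]; rfl
    have h2 : (Submodule.Quotient.mk 1 : MvPolynomial σ k ⧸ MI k (VS (Finset.univ : Finset σ))) = 0 := h1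
    rw [Submodule.Quotient.mk_eq_zero] at h2
    exact one_notMem_VS _ h2
  | insert i V hi ih =>
    rw [MI_VS_insert, Finset.card_insert_of_notMem hi]
    exact ext_kos _ _ (VS_regular V i hi) _ _ (LL_kill i) ih

lemma not_pdLT_VS [Fintype σ] (V : Finset σ) :
    ¬ HasProjectiveDimensionLT (ModuleCat.of (MvPolynomial σ k) (MvPolynomial σ k ⧸ MI k (VS V)))
      V.card := by
  intro h
  obtain ⟨e, he⟩ := ext_VS (k := k) V
  exact he (Ext.eq_zero_of_hasProjectiveDimensionLT e V.card le_rfl)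

/-- one step of a filtration -/
lemma pd_step {U : Set (σ →₀ ℕ)} (hU : IsUpperSet U) (e : σ →₀ ℕ) (V : Finset σ)
    (hV : ∀ m, m + e ∈ U ↔ ∃ i ∈ V, m i ≠ 0) (n : ℕ) (hn : V.card < n)
    (h : HasProjectiveDimensionLT (ModuleCat.of (MvPolynomial σ k) (MI k U)) n) :
    HasProjectiveDimensionLT (ModuleCat.of (MvPolynomial σ k) (MI k (U ∪ Set.Ici e))) n := by
  have hset : {m | m + e ∈ U} = VS V := by ext m; exact hV m
  rw [← MI_sup]
  refine pdLT_step (MI k U) _ (MI k (VS V)) ?_ n h ?_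
  · intro c
    rw [← hset]
    exact colon_MI hU e c
  · have := pdLT_VS (k := k) V
    exact hasProjectiveDimensionLT_of_ge _ (V.card + 1) n (by omega)

lemma pd_step_lower [Fintype σ] {U : Set (σ →₀ ℕ)} (hU : IsUpperSet U) (e : σ →₀ ℕ) (V : Finset σ)
    (hV : ∀ m, m + e ∈ U ↔ ∃ i ∈ V, m i ≠ 0) (n : ℕ) (hn : V.card = n + 1)
    (h2 : HasProjectiveDimensionLT (ModuleCat.of (MvPolynomial σ k) (MI k (U ∪ Set.Ici e))) (n + 1)) :
    ¬ HasProjectiveDimensionLT (ModuleCat.of (MvPolynomial σ k) (MI k U)) n := by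
  intro h
  have hset : {m | m + e ∈ U} = VS V := by ext m; exact hV m
  rw [← MI_sup] at h2
  have h3 := pdLT_step₃ (MI k U) _ (MI k (VS V)) (by
    intro c
    rw [← hset]
    exact colon_MI hU e c) n h h2
  rw [← hn] at h3
  exact not_pdLT_VS V h3

end Pool.V1147.MonPd
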