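import Mathlib
import Pool.Agent.V1147.MonPd

set_option autoImplicit false

open CategoryTheory Abelian MvPolynomial
open scoped Pointwise

namespace Pool.V1147.PosPd

open Pool.V1147.PdVar Pool.V1147.MonPd

variable {P : ℕ} {k : Type} [Field k]

/-- chain of ideals filtering the power of `(x,y)` -/
def CC (P M J : ℕ) : Set (Fin (P+2) →₀ ℕ) := {e | ∃ j < J, j ≤ e 1 ∧ M - j ≤ e 0}

lemma isUpperSet_CC (M J : ℕ) : IsUpperSet (CC P M J) := by
  rintro a b hab ⟨j, hj, h1, h2⟩
  exact ⟨j, hj, h1.trans (hab 1), h2.trans (hab 0)⟩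

lemma CC_succ (M J : ℕ) : CC P M (J+1) = CC P M J ∪
    Set.Ici (Finsupp.single 0 (M - J) + Finsupp.single 1 J) := by
  ext e
  simp only [CC, Set.mem_setOf_eq, Set.mem_union, Set.mem_Ici]
  have key : (Finsupp.single (0 : Fin (P+2)) (M - J) + Finsupp.single 1 J ≤ e) ↔
      (J ≤ e 1 ∧ M - J ≤ e 0) := by
    constructor
    · intro h
      have h0 := h 0
      have h1 := h 1
      simp at h0 h1
      exact ⟨h1, by omega⟩
    · rintro ⟨h1, h0⟩ i
      by_cases hi0 : i = 0
      · subst hi0; simp; omega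
      · by_cases hi1 : i = 1
        · subst hi1; simp [h1]
        · simp [Finsupp.single_apply, Ne.symm hi0, Ne.symm hi1]
  rw [key]
  constructor
  · rintro ⟨j, hj, h⟩
    rcases Nat.lt_succ_iff_lt_or_eq.1 hj with h' | h'
    · exact Or.inl ⟨j, h', h⟩
    · subst h'; exact Or.inr h
  · rintro (⟨j, hj, h⟩ | h)
    · exact ⟨j, by omega, h⟩
    · exact ⟨J, by omega, h⟩

lemma pd_CC (M J : ℕ) (hJ : J ≤ M + 1) :
    HasProjectiveDimensionLT (ModuleCat.of (MvPolynomial (Fin (P+2)) k) (MI k (CC P M J))) 2 := by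
  induction J with
  | zero =>
    have h0 : CC P M 0 = ∅ := by ext e; simp [CC]
    rw [h0, MI, Set.image_empty, Ideal.span_empty]
    have : Module.Projective (MvPolynomial (Fin (P+2)) k) ↥(⊥ : Ideal (MvPolynomial (Fin (P+2)) k)) := by
      have : Subsingleton ↥(⊥ : Ideal (MvPolynomial (Fin (P+2)) k)) := inferInstance
      infer_instance
    have h2 : Projective (ModuleCat.of (MvPolynomial (Fin (P+2)) k)
        ↥(⊥ : Ideal (MvPolynomial (Fin (P+2)) k))) :=
      (IsProjective.iff_projective _).1 this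
    exact hasProjectiveDimensionLT_of_ge _ 1 2 (by omega)
  | succ J ih =>
    rw [CC_succ]
    rcases Nat.eq_zero_or_pos J with h0 | h0
    · subst h0
      refine pd_step (isUpperSet_CC M 0) _ ∅ ?_ 2 (by simp) (ih (by omega))
      intro m
      simp [CC]
    · refine pd_step (isUpperSet_CC M J) _ {0} ?_ 2 (by simp) (ih (by omega))
      intro m
      simp only [CC, Set.mem_setOf_eq, Finset.mem_singleton, exists_eq_left]
      have e0 : (m + (Finsupp.single (0 : Fin (P+2)) (M - J) + Finsupp.single 1 J) : Fin (P+2) →₀ ℕ) 0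
          = m 0 + (M - J) := by
        simp
      have e1 : (m + (Finsupp.single (0 : Fin (P+2)) (M - J) + Finsupp.single 1 J) : Fin (P+2) →₀ ℕ) 1
          = m 1 + J := by
        simp
      rw [e0, e1]
      constructor
      · rintro ⟨j, hj, h1, h2⟩
        omega
      · intro h
        exact ⟨J - 1, by omega, by omega, by omega⟩

/-- the exponent set determined by pure positions `Pu` and marked positions `W` in degree `N` -/
def UU (P N : ℕ) (Pu : Finset ℕ) (W : Finset (ℕ × Fin P)) : Set (Fin (P+2) →₀ ℕ) :=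
  {e | N + 1 ≤ e 0 + e 1 ∨ (∃ j ∈ Pu, j ≤ N ∧ j ≤ e 0 ∧ N - j ≤ e 1) ∨
    (∃ q ∈ W, q.1 ≤ N ∧ q.1 ≤ e 0 ∧ N - q.1 ≤ e 1 ∧ 1 ≤ e q.2.succ.succ)}

lemma isUpperSet_UU (N : ℕ) (Pu : Finset ℕ) (W : Finset (ℕ × Fin P)) : IsUpperSet (UU P N Pu W) := by
  rintro a b hab (h | ⟨j, hj, hN, h1, h2⟩ | ⟨q, hq, hN, h1, h2, h3⟩)
  · left
    have := hab 0
    have := hab 1
    omega
  · exact Or.inr (Or.inl ⟨j, hj, hN, h1.trans (hab 0), h2.trans (hab 1)⟩)
  · exact Or.inr (Or.inr ⟨q, hq, hN, h1.trans (hab 0), h2.trans (hab 1), h3.trans (hab _)⟩)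

/-- variables attached to position `j` -/
def VV (W : Finset (ℕ × Fin P)) (j : ℕ) : Finset (Fin P) := Finset.univ.filter (fun i => (j, i) ∈ W)

def VV' (W : Finset (ℕ × Fin P)) (j : ℕ) : Finset (Fin (P+2)) :=
  insert 0 (insert 1 ((VV W j).image (fun i => i.succ.succ)))

lemma card_VV' (W : Finset (ℕ × Fin P)) (j : ℕ) : (VV' W j).card = (VV W j).card + 2 := by
  have hne1 : (1 : Fin (P+2)) ∉ (VV W j).image (fun i => i.succ.succ) := by
    intro h
    obtain ⟨i, -, hi⟩ := Finset.mem_image.1 h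
    have := congrArg Fin.val hi
    simp at this
  have hne0 : (0 : Fin (P+2)) ∉ insert 1 ((VV W j).image (fun i => i.succ.succ)) := by
    intro h
    rcases Finset.mem_insert.1 h with h | h
    · have := congrArg Fin.val h
      simp at this
    · obtain ⟨i, -, hi⟩ := Finset.mem_image.1 h
      have := congrArg Fin.val hi
      simp at this
  rw [VV', Finset.card_insert_of_notMem hne0, Finset.card_insert_of_notMem hne1,
    Finset.card_image_of_injective]
  intro a b hab
  exact Fin.succ_injective _ (Fin.succ_injective _ hab)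

/-- monomial `x^j y^{N-j}` -/
noncomputable def gE (P N j : ℕ) : Fin (P+2) →₀ ℕ := Finsupp.single 0 j + Finsupp.single 1 (N - j)

lemma gE_0 (N j : ℕ) : gE P N j 0 = j := by simp [gE]
lemma gE_1 (N j : ℕ) : gE P N j 1 = N - j := by simp [gE]
lemma gE_ss (N j : ℕ) (i : Fin P) : gE P N j i.succ.succ = 0 := by
  have h0 : (0 : Fin (P+2)) ≠ i.succ.succ := by
    intro h; have := congrArg Fin.val h; simp at this
  have h1 : (1 : Fin (P+2)) ≠ i.succ.succ := by
    intro h; have := congrArg Fin.val h; simp at this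
  simp [gE, Finsupp.single_apply, h0, h1]

lemma fin_cases_ss (i : Fin (P+2)) : i = 0 ∨ i = 1 ∨ ∃ i' : Fin P, i = i'.succ.succ := by
  refine Fin.cases ?_ (fun i => ?_) i
  · exact Or.inl rfl
  · refine Fin.cases ?_ (fun i => ?_) i
    · exact Or.inr (Or.inl rfl)
    · exact Or.inr (Or.inr ⟨i, rfl⟩)

lemma gE_le (N j : ℕ) (e : Fin (P+2) →₀ ℕ) : gE P N j ≤ e ↔ j ≤ e 0 ∧ N - j ≤ e 1 := by
  constructor
  · intro h
    have h0 := h 0
    have h1 := h 1
    rw [gE_0] at h0
    rw [gE_1] at h1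
    exact ⟨h0, h1⟩
  · rintro ⟨h0, h1⟩ i
    rcases fin_cases_ss i with rfl | rfl | ⟨i, rfl⟩
    · rw [gE_0]; exact h0
    · rw [gE_1]; exact h1
    · rw [gE_ss]; exact Nat.zero_le _

/-- colon by an unmarked position -/
lemma colon_pure (N : ℕ) (Pu : Finset ℕ) (W : Finset (ℕ × Fin P)) (j : ℕ) (hjN : j ≤ N)
    (hj : j ∉ Pu) (m : Fin (P+2) →₀ ℕ) :
    m + gE P N j ∈ UU P N Pu W ↔ ∃ i ∈ VV' W j, m i ≠ 0 := by
  simp only [UU, Set.mem_setOf_eq, Finsupp.add_apply, gE_0, gE_1, gE_ss, add_zero]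
  constructor
  · intro h
    by_cases h0 : m 0 = 0
    · by_cases h1 : m 1 = 0
      · rw [h0, h1] at h
        rcases h with h | ⟨j', hj', hN', ha, hb⟩ | ⟨q, hq, hN', ha, hb, hc⟩
        · omega
        · have : j' = j := by omega
          subst this; exact absurd hj' hj
        · have : q.1 = j := by omega
          refine ⟨q.2.succ.succ, ?_, by omega⟩
          subst this
          simp only [VV', VV, Finset.mem_insert, Finset.mem_image, Finset.mem_filter, Finset.mem_univ,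
            true_and]
          exact Or.inr (Or.inr ⟨q.2, hq, rfl⟩)
      · exact ⟨1, by simp [VV'], h1⟩
    · exact ⟨0, by simp [VV'], h0⟩
  · rintro ⟨i, hi, hm⟩
    simp only [VV', VV, Finset.mem_insert, Finset.mem_image, Finset.mem_filter, Finset.mem_univ,
            true_and] at hi
    rcases hi with rfl | rfl | ⟨i', hi', rfl⟩
    · left; omega
    · left; omega
    · right; right
      exact ⟨(j, i'), hi', hjN, by simp, by simp, by simp only; omega⟩

lemma UU_insert_pure (N : ℕ) (Pu : Finset ℕ) (W : Finset (ℕ × Fin P)) (j : ℕ) (hjN : j ≤ N) :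
    UU P N (insert j Pu) W = UU P N Pu W ∪ Set.Ici (gE P N j) := by
  ext e
  simp only [UU, Set.mem_setOf_eq, Set.mem_union, Set.mem_Ici, gE_le, Finset.mem_insert]
  constructor
  · rintro (h | ⟨j', hj' | hj', hN', h⟩ | h)
    · exact Or.inl (Or.inl h)
    · subst hj'; exact Or.inr h
    · exact Or.inl (Or.inr (Or.inl ⟨j', hj', hN', h⟩))
    · exact Or.inl (Or.inr (Or.inr h))
  · rintro ((h | ⟨j', hj', hN', h⟩ | h) | h)
    · exact Or.inl h
    · exact Or.inr (Or.inl ⟨j', Or.inr hj', hN', h⟩)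
    · exact Or.inr (Or.inr h)
    · exact Or.inr (Or.inl ⟨j, Or.inl rfl, hjN, h⟩)

lemma pd_pure (N : ℕ) (Pu : Finset ℕ) (hPu : ∀ j ∈ Pu, j ≤ N) (n : ℕ) (hn : 3 ≤ n) :
    HasProjectiveDimensionLT (ModuleCat.of (MvPolynomial (Fin (P+2)) k) (MI k (UU P N Pu ∅))) n := by
  induction Pu using Finset.induction_on with
  | empty =>
    have h0 : UU P N ∅ ∅ = CC P (N+1) (N+2) := by
      ext e
      simp only [UU, CC, Set.mem_setOf_eq, Finset.notMem_empty, false_and, exists_false, or_false]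
      constructor
      · intro h
        refine ⟨min (e 1) (N+1), by omega, by omega, by omega⟩
      · rintro ⟨j, h1, h2, h3⟩
        omega
    rw [h0]
    have := pd_CC (P := P) (k := k) (N+1) (N+2) (by omega)
    exact hasProjectiveDimensionLT_of_ge _ 2 n (by omega)
  | insert j Pu hj ih =>
    rw [UU_insert_pure N Pu ∅ j (hPu j (Finset.mem_insert_self _ _))]
    refine pd_step (isUpperSet_UU N Pu ∅) _ (VV' ∅ j)
      (colon_pure N Pu ∅ j (hPu j (Finset.mem_insert_self _ _)) hj) n ?_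
      (ih (fun j' hj' => hPu j' (Finset.mem_insert_of_mem hj')))
    rw [card_VV']
    have : VV (∅ : Finset (ℕ × Fin P)) j = ∅ := by
      ext i; simp [VV]
    rw [this, Finset.card_empty]; omega

noncomputable def gE' (P N : ℕ) (q : ℕ × Fin P) : Fin (P+2) →₀ ℕ :=
  gE P N q.1 + Finsupp.single q.2.succ.succ 1

lemma gE'_0 (N : ℕ) (q : ℕ × Fin P) : gE' P N q 0 = q.1 := by
  have h0 : (0 : Fin (P+2)) ≠ q.2.succ.succ := by
    intro h; have := congrArg Fin.val h; simp at this
  rw [gE', Finsupp.add_apply, gE_0, Finsupp.single_apply, if_neg h0.symm, add_zero]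
lemma gE'_1 (N : ℕ) (q : ℕ × Fin P) : gE' P N q 1 = N - q.1 := by
  have h0 : (1 : Fin (P+2)) ≠ q.2.succ.succ := by
    intro h; have := congrArg Fin.val h; simp at this
  rw [gE', Finsupp.add_apply, gE_1, Finsupp.single_apply, if_neg h0.symm, add_zero]
lemma gE'_ss (N : ℕ) (q : ℕ × Fin P) (i : Fin P) : gE' P N q i.succ.succ = if q.2 = i then 1 else 0 := by
  rw [gE', Finsupp.add_apply, gE_ss, Finsupp.single_apply, zero_add]
  congr 1
  simp

lemma gE'_le (N : ℕ) (q : ℕ × Fin P) (e : Fin (P+2) →₀ ℕ) :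
    gE' P N q ≤ e ↔ q.1 ≤ e 0 ∧ N - q.1 ≤ e 1 ∧ 1 ≤ e q.2.succ.succ := by
  constructor
  · intro h
    have h0 := h 0
    have h1 := h 1
    have h2 := h q.2.succ.succ
    rw [gE'_0] at h0
    rw [gE'_1] at h1
    rw [gE'_ss, if_pos rfl] at h2
    exact ⟨h0, h1, h2⟩
  · rintro ⟨h0, h1, h2⟩ i
    rcases fin_cases_ss i with rfl | rfl | ⟨i, rfl⟩
    · rw [gE'_0]; exact h0
    · rw [gE'_1]; exact h1
    · rw [gE'_ss]
      split_ifs with h
      · subst h; exact h2
      · exact Nat.zero_le _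

lemma UU_insert_W (N : ℕ) (Pu : Finset ℕ) (W : Finset (ℕ × Fin P)) (q : ℕ × Fin P) (hjN : q.1 ≤ N) :
    UU P N Pu (insert q W) = UU P N Pu W ∪ Set.Ici (gE' P N q) := by
  ext e
  simp only [UU, Set.mem_setOf_eq, Set.mem_union, Set.mem_Ici, gE'_le, Finset.mem_insert]
  constructor
  · rintro (h | h | ⟨q', hq' | hq', hN', h⟩)
    · exact Or.inl (Or.inl h)
    · exact Or.inl (Or.inr (Or.inl h))
    · subst hq'; exact Or.inr h
    · exact Or.inl (Or.inr (Or.inr ⟨q', hq', hN', h⟩))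
  · rintro ((h | h | ⟨q', hq', hN', h⟩) | h)
    · exact Or.inl h
    · exact Or.inr (Or.inl h)
    · exact Or.inr (Or.inr ⟨q', Or.inr hq', hN', h⟩)
    · exact Or.inr (Or.inr ⟨q, Or.inl rfl, hjN, h⟩)

lemma colon_W (N : ℕ) (Pu : Finset ℕ) (W : Finset (ℕ × Fin P)) (q : ℕ × Fin P) (hjN : q.1 ≤ N)
    (hj : q.1 ∉ Pu) (hq : q ∉ W) (m : Fin (P+2) →₀ ℕ) :
    m + gE' P N q ∈ UU P N Pu W ↔ ∃ i ∈ VV' W q.1, m i ≠ 0 := by
  simp only [UU, Set.mem_setOf_eq, Finsupp.add_apply, gE'_0, gE'_1, gE'_ss]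
  constructor
  · intro h
    by_cases h0 : m 0 = 0
    · by_cases h1 : m 1 = 0
      · rw [h0, h1] at h
        rcases h with h | ⟨j', hj', hN', ha, hb⟩ | ⟨q', hq', hN', ha, hb, hc⟩
        · omega
        · have : j' = q.1 := by omega
          subst this; exact absurd hj' hj
        · have h1 : q'.1 = q.1 := by omega
          have h2 : q.2 ≠ q'.2 := by
            intro h2
            apply hq
            have : q = q' := Prod.ext h1.symm h2
            rw [this]; exact hq'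
          rw [if_neg h2] at hc
          refine ⟨q'.2.succ.succ, ?_, by omega⟩
          rw [← h1]
          simp only [VV', VV, Finset.mem_insert, Finset.mem_image, Finset.mem_filter, Finset.mem_univ,
            true_and]
          exact Or.inr (Or.inr ⟨q'.2, hq', rfl⟩)
      · exact ⟨1, by simp [VV'], h1⟩
    · exact ⟨0, by simp [VV'], h0⟩
  · rintro ⟨i, hi, hm⟩
    simp only [VV', VV, Finset.mem_insert, Finset.mem_image, Finset.mem_filter, Finset.mem_univ,
            true_and] at hi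
    rcases hi with rfl | rfl | ⟨i', hi', rfl⟩
    · left; omega
    · left; omega
    · right; right
      exact ⟨(q.1, i'), hi', hjN, by simp, by simp, by simp only; omega⟩

lemma VV_insert_card (W : Finset (ℕ × Fin P)) (q : ℕ × Fin P) (hq : q ∉ W) :
    (VV (insert q W) q.1).card = (VV W q.1).card + 1 := by
  have h1 : VV (insert q W) q.1 = insert q.2 (VV W q.1) := by
    ext i
    simp only [VV, Finset.mem_filter, Finset.mem_univ, true_and, Finset.mem_insert]
    constructor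
    · rintro (h | h)
      · left; rw [← h]
      · exact Or.inr h
    · rintro (h | h)
      · left; subst h; rfl
      · exact Or.inr h
  rw [h1, Finset.card_insert_of_notMem]
  intro h
  simp only [VV, Finset.mem_filter, Finset.mem_univ, true_and] at h
  exact hq h

lemma VV_mono {W W' : Finset (ℕ × Fin P)} (h : W ⊆ W') (j : ℕ) : (VV W j).card ≤ (VV W' j).card := by
  refine Finset.card_le_card ?_
  intro i
  simp only [VV, Finset.mem_filter, Finset.mem_univ, true_and]
  exact fun hi => h hi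

lemma pd_upper (N : ℕ) (Pu : Finset ℕ) (hPu : ∀ j ∈ Pu, j ≤ N) (p : ℕ) (hp : 1 ≤ p)
    (W : Finset (ℕ × Fin P)) (hW : ∀ q ∈ W, q.1 ≤ N ∧ q.1 ∉ Pu) (hcard : ∀ j, (VV W j).card ≤ p) :
    HasProjectiveDimensionLT (ModuleCat.of (MvPolynomial (Fin (P+2)) k) (MI k (UU P N Pu W))) (p + 2) := by
  induction W using Finset.induction_on with
  | empty => exact pd_pure N Pu hPu (p+2) (by omega)
  | insert q W hq ih =>
    have hqW := hW q (Finset.mem_insert_self _ _)
    rw [UU_insert_W N Pu W q hqW.1]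
    refine pd_step (isUpperSet_UU N Pu W) _ (VV' W q.1)
      (colon_W N Pu W q hqW.1 hqW.2 hq) (p+2) ?_
      (ih (fun q' hq' => hW q' (Finset.mem_insert_of_mem hq'))
        (fun j => (VV_mono (Finset.subset_insert _ _) j).trans (hcard j)))
    rw [card_VV']
    have := hcard q.1
    rw [VV_insert_card W q hq] at this
    omega

lemma UU_filter (N : ℕ) (Pu : Finset ℕ) (W : Finset (ℕ × Fin P)) :
    UU P N Pu (W.filter (fun q => q.1 ∉ Pu)) = UU P N Pu W := by
  ext e
  simp only [UU, Set.mem_setOf_eq, Finset.mem_filter]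
  constructor
  · rintro (h | h | ⟨q', hq', hN', h⟩)
    · exact Or.inl h
    · exact Or.inr (Or.inl h)
    · exact Or.inr (Or.inr ⟨q', hq'.1, hN', h⟩)
  · rintro (h | h | ⟨q', hq', hN', h⟩)
    · exact Or.inl h
    · exact Or.inr (Or.inl h)
    · by_cases hq : q'.1 ∈ Pu
      · exact Or.inr (Or.inl ⟨q'.1, hq, hN', h.1, h.2.1⟩)
      · exact Or.inr (Or.inr ⟨q', ⟨hq', hq⟩, hN', h⟩)

lemma pd_lower (N : ℕ) (Pu : Finset ℕ) (hPu : ∀ j ∈ Pu, j ≤ N) (p : ℕ) (hp : 1 ≤ p)
    (W : Finset (ℕ × Fin P)) (hW : ∀ q ∈ W, q.1 ≤ N ∧ q.1 ∉ Pu) (hcard : ∀ j, (VV W j).card ≤ p)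
    (j₀ : ℕ) (hj₀ : j₀ ≤ N) (hj₀' : j₀ ∉ Pu) (h₀ : (VV W j₀).card = p) :
    ¬ HasProjectiveDimensionLT (ModuleCat.of (MvPolynomial (Fin (P+2)) k) (MI k (UU P N Pu W))) (p + 1) := by
  refine pd_step_lower (isUpperSet_UU N Pu W) (gE P N j₀) (VV' W j₀)
    (colon_pure N Pu W j₀ hj₀ hj₀') (p+1) ?_ ?_
  · rw [card_VV', h₀]
  · rw [← UU_insert_pure N Pu W j₀ hj₀, ← UU_filter]
    refine pd_upper N (insert j₀ Pu) ?_ p hp _ ?_ ?_
    · intro j hj
      rcases Finset.mem_insert.1 hj with rfl | h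
      · exact hj₀
      · exact hPu j h
    · intro q hq
      rw [Finset.mem_filter] at hq
      exact ⟨(hW q hq.1).1, hq.2⟩
    · intro j
      exact (VV_mono (Finset.filter_subset _ _) j).trans (hcard j)

/-- Main homological statement. -/
theorem pd_iff (N : ℕ) (Pu : Finset ℕ) (hPu : ∀ j ∈ Pu, j ≤ N) (p : ℕ) (hp : 1 ≤ p)
    (W : Finset (ℕ × Fin P)) (hW : ∀ q ∈ W, q.1 ≤ N ∧ q.1 ∉ Pu) (hcard : ∀ j, (VV W j).card ≤ p)
    (j₀ : ℕ) (hj₀ : j₀ ≤ N) (hj₀' : j₀ ∉ Pu) (h₀ : (VV W j₀).card = p) (m : ℕ) :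
    HasProjectiveDimensionLE (ModuleCat.of (MvPolynomial (Fin (P+2)) k) (MI k (UU P N Pu W))) m ↔
      p + 1 ≤ m := by
  constructor
  · intro h
    by_contra hm
    push Not at hm
    apply pd_lower (k := k) N Pu hPu p hp W hW hcard j₀ hj₀ hj₀' h₀
    have h' : HasProjectiveDimensionLT (ModuleCat.of (MvPolynomial (Fin (P+2)) k) (MI k (UU P N Pu W)))
      (m + 1) := h
    exact hasProjectiveDimensionLT_of_ge _ (m+1) (p+1) (by omega)
  · intro h
    have := pd_upper (k := k) N Pu hPu p hp W hW hcard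
    have h' : HasProjectiveDimensionLT (ModuleCat.of (MvPolynomial (Fin (P+2)) k) (MI k (UU P N Pu W)))
      (m + 1) := hasProjectiveDimensionLT_of_ge _ (p+2) (m+1) (by omega)
    exact h'

end Pool.V1147.PosPd
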