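import Mathlib
import Pool.Agent.V1147.PosPd

set_option autoImplicit false

open CategoryTheory Abelian MvPolynomial
open scoped Pointwise

namespace Pool.V1147.PosPow

open Pool.V1147.PdVar Pool.V1147.MonPd Pool.V1147.PosPd

variable {P : ℕ} {k : Type} [Field k]

/-- `t`-fold sums of elements of `E` -/
def SE (E : Finset ℕ) : ℕ → Finset ℕ
  | 0 => {0}
  | t+1 => Finset.image₂ (· + ·) (SE E t) E

lemma mem_SE_succ (E : Finset ℕ) (t j : ℕ) : j ∈ SE E (t+1) ↔ ∃ a ∈ SE E t, ∃ e ∈ E, a + e = j := by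
  simp [SE, Finset.mem_image₂]

/-- marked positions after `t+1` steps -/
def SY (E : Finset ℕ) (Y : Finset (ℕ × Fin P)) (t : ℕ) : Finset (ℕ × Fin P) :=
  Finset.image₂ (fun (q : ℕ × Fin P) (s : ℕ) => (q.1 + s, q.2)) Y (SE E t)

lemma mem_SY (E : Finset ℕ) (Y : Finset (ℕ × Fin P)) (t j : ℕ) (i : Fin P) :
    (j, i) ∈ SY E Y t ↔ ∃ y, (y, i) ∈ Y ∧ ∃ s ∈ SE E t, y + s = j := by
  simp only [SY, Finset.mem_image₂, Prod.mk.injEq]
  constructor
  · rintro ⟨⟨y, i'⟩, hy, s, hs, h1, h2⟩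
    simp only at h1 h2
    subst h2
    exact ⟨y, hy, s, hs, h1⟩
  · rintro ⟨y, hy, s, hs, h1⟩
    exact ⟨(y, i), hy, s, hs, h1, rfl⟩

/-- the data of positions -/
structure Data (E : Finset ℕ) (Y : Finset (ℕ × Fin P)) (d m₀ : ℕ) : Prop where
  zero_mem : 0 ∈ E
  le_d : ∀ e ∈ E, e ≤ d
  icc : ∀ e, m₀ ≤ e → e ≤ d → e ∈ E
  two : 2 * m₀ ≤ d + 1
  m0 : m₀ ≤ d
  Yle : ∀ q ∈ Y, q.1 ≤ d
  YY : ∀ q ∈ Y, ∀ q' ∈ Y, m₀ ≤ q.1 + q'.1

variable {E : Finset ℕ} {Y : Finset (ℕ × Fin P)} {d m₀ : ℕ}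

lemma zero_mem_SE (D : Data E Y d m₀) (t : ℕ) : 0 ∈ SE E t := by
  induction t with
  | zero => simp [SE]
  | succ t ih => rw [mem_SE_succ]; exact ⟨0, ih, 0, D.zero_mem, rfl⟩

lemma SE_mono (D : Data E Y d m₀) {t j : ℕ} (h : j ∈ SE E t) : j ∈ SE E (t+1) := by
  rw [mem_SE_succ]; exact ⟨j, h, 0, D.zero_mem, rfl⟩

lemma SE_le (D : Data E Y d m₀) (t j : ℕ) (h : j ∈ SE E t) : j ≤ d * t := by
  induction t generalizing j with
  | zero => simp [SE] at h; omega
  | succ t ih =>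
    rw [mem_SE_succ] at h
    obtain ⟨a, ha, e, he, rfl⟩ := h
    have := ih a ha
    have := D.le_d e he
    rw [Nat.mul_succ]; omega

lemma SE_icc (D : Data E Y d m₀) (t j : ℕ) (ht : 1 ≤ t) (h1 : m₀ ≤ j) (h2 : j ≤ d * t) : j ∈ SE E t := by
  induction t, ht using Nat.le_induction generalizing j with
  | base =>
    rw [mem_SE_succ]
    exact ⟨0, by simp [SE], j, D.icc j h1 (by omega), by omega⟩
  | succ t ht ih =>
    have hd : d * 1 ≤ d * t := Nat.mul_le_mul_left d ht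
    have htwo := D.two
    have hm0 := D.m0
    rw [Nat.mul_succ] at h2
    by_cases hj : j ≤ d * t
    · exact SE_mono D (ih j h1 hj)
    · rw [mem_SE_succ]
      by_cases hj2 : j ≤ d * t + m₀
      · exact ⟨j - m₀, ih _ (by omega) (by omega), m₀, D.icc m₀ le_rfl (by omega), by omega⟩
      · exact ⟨j - d, ih _ (by omega) (by omega), d, D.icc d (by omega) le_rfl, by omega⟩

lemma SE_one : SE E 1 = E := by
  ext j
  rw [mem_SE_succ]
  simp [SE]

lemma SY_zero : SY E Y 0 = Y := by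
  ext ⟨j, i⟩
  rw [mem_SY]
  constructor
  · rintro ⟨y, hy, s, hs, rfl⟩
    simp [SE] at hs
    subst hs
    exact hy
  · intro h
    exact ⟨j, h, 0, by simp [SE], rfl⟩

lemma add_step (D : Data E Y d m₀) (t : ℕ) :
    UU P (d * (t+1)) (SE E (t+1)) (SY E Y t) + UU P d E Y = UU P (d * (t+2)) (SE E (t+2)) (SY E Y (t+1)) := by
  have hd : d * (t+2) = d * (t+1) + d := by ring
  have hd1 : d * 1 ≤ d * (t+1) := Nat.mul_le_mul_left d (by omega)
  have hm0 := D.m0
  ext e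
  constructor
  · rintro ⟨a, ha, b, hb, rfl⟩
    simp only [UU, Set.mem_setOf_eq] at ha hb
    simp only [UU, Set.mem_setOf_eq, Finsupp.add_apply]
    rcases ha with ha | ⟨j, hj, hjN, ha0, ha1⟩ | ⟨q, hq, hqN, ha0, ha1, ha2⟩
    · have : d ≤ b 0 + b 1 := by
        rcases hb with hb | ⟨j', hj', hjN', hb0, hb1⟩ | ⟨q', hq', hqN', hb0, hb1, hb2⟩ <;> omega
      left; omega
    · rcases hb with hb | ⟨j', hj', hjN', hb0, hb1⟩ | ⟨q', hq', hqN', hb0, hb1, hb2⟩
      · left; omega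
      · right; left
        refine ⟨j + j', (mem_SE_succ _ _ _).2 ⟨j, hj, j', hj', rfl⟩, by omega, by omega, by omega⟩
      · right; right
        refine ⟨(q'.1 + j, q'.2), (mem_SY _ _ _ _ _).2 ⟨q'.1, hq', j, hj, rfl⟩, ?_, ?_, ?_, ?_⟩ <;>
          simp only <;> omega
    · rcases hb with hb | ⟨j', hj', hjN', hb0, hb1⟩ | ⟨q', hq', hqN', hb0, hb1, hb2⟩
      · left; omega
      · right; right
        obtain ⟨y, hy, s, hs, hys⟩ := (mem_SY E Y t q.1 q.2).1 hq
        refine ⟨(q.1 + j', q.2), (mem_SY _ _ _ _ _).2 ⟨y, hy, s + j', (mem_SE_succ _ _ _).2 ⟨s, hs, j', hj', rfl⟩, by omega⟩, ?_, ?_, ?_, ?_⟩ <;>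
          simp only <;> omega
      · right; left
        obtain ⟨y, hy, s, hs, hys⟩ := (mem_SY E Y t q.1 q.2).1 hq
        have h1 := D.YY _ hy _ hq'
        simp only at h1
        refine ⟨q.1 + q'.1, SE_icc D (t+2) _ (by omega) (by omega) (by omega), by omega, by omega, by omega⟩
  · intro h
    simp only [UU, Set.mem_setOf_eq] at h
    -- it is enough to split off a pure part
    have key : ∀ s ∈ SE E (t+1), s ≤ e 0 → d * (t+1) - s ≤ e 1 →
        (e - gE P (d * (t+1)) s) ∈ UU P d E Y →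
        e ∈ UU P (d * (t+1)) (SE E (t+1)) (SY E Y t) + UU P d E Y := by
      intro s hs h0 h1 hb
      refine ⟨gE P (d * (t+1)) s, ?_, _, hb, ?_⟩
      · right; left
        exact ⟨s, hs, SE_le D _ _ hs, by rw [gE_0], by rw [gE_1]⟩
      · exact add_tsub_cancel_of_le ((gE_le _ _ _).2 ⟨h0, h1⟩)
    rcases h with h | ⟨j, hj, hjN, h0, h1⟩ | ⟨q, hq, hqN, h0, h1, h2⟩
    · by_cases he1 : d * (t+1) ≤ e 1
      · refine key 0 (zero_mem_SE D _) (by omega) (by omega) ?_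
        left
        rw [Finsupp.tsub_apply, Finsupp.tsub_apply, gE_0, gE_1]; omega
      · by_cases he0 : d * (t+1) ≤ e 0
        · refine key (d * (t+1)) (SE_icc D _ _ (by omega) (by omega) (by omega)) (by omega) (by omega) ?_
          left
          rw [Finsupp.tsub_apply, Finsupp.tsub_apply, gE_0, gE_1]; omega
        · refine key (e 0) (SE_icc D _ _ (by omega) (by omega) (by omega)) (by omega) (by omega) ?_
          left
          rw [Finsupp.tsub_apply, Finsupp.tsub_apply, gE_0, gE_1]; omega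
    · obtain ⟨a, ha, e', he', rfl⟩ := (mem_SE_succ _ _ _).1 hj
      have hale := SE_le D _ _ ha
      have hele := D.le_d _ he'
      refine key a ha (by omega) (by omega) ?_
      right; left
      refine ⟨e', he', hele, ?_, ?_⟩
      · rw [Finsupp.tsub_apply, gE_0]; omega
      · rw [Finsupp.tsub_apply, gE_1]; omega
    · obtain ⟨y, hy, s, hs, hys⟩ := (mem_SY E Y (t+1) q.1 q.2).1 hq
      have hale := SE_le D _ _ hs
      have hele := D.Yle _ hy
      simp only at hele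
      refine key s hs (by omega) (by omega) ?_
      right; right
      refine ⟨(y, q.2), hy, ?_, ?_, ?_, ?_⟩
      · exact hele
      · rw [Finsupp.tsub_apply, gE_0]; simp only; omega
      · rw [Finsupp.tsub_apply, gE_1]; simp only; omega
      · rw [Finsupp.tsub_apply, gE_ss]; simp only; omega

lemma MI_pow (D : Data E Y d m₀) (t : ℕ) :
    (MI k (UU P d E Y)) ^ (t+1) = MI k (UU P (d * (t+1)) (SE E (t+1)) (SY E Y t)) := by
  induction t with
  | zero => rw [zero_add, pow_one, mul_one, SE_one, SY_zero]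
  | succ t ih => rw [pow_succ, ih, MI_mul, add_step D t]

/-- main abstract theorem -/
theorem pd_pow (D : Data E Y d m₀) (t : ℕ) (ht : 1 ≤ t) (p : ℕ) (hp : 1 ≤ p)
    (hcard : ∀ j, j ∉ SE E t → (VV (SY E Y (t-1)) j).card ≤ p)
    (j₀ : ℕ) (hj₀ : j₀ ∉ SE E t) (hj₀' : j₀ < m₀) (h₀ : (VV (SY E Y (t-1)) j₀).card = p) (m : ℕ) :
    HasProjectiveDimensionLE (ModuleCat.of (MvPolynomial (Fin (P+2)) k)
      ↥((MI k (UU P d E Y)) ^ t)) m ↔ p + 1 ≤ m := by
  obtain ⟨t, rfl⟩ : ∃ s, t = s + 1 := ⟨t - 1, by omega⟩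
  rw [Nat.add_sub_cancel] at hcard h₀
  rw [MI_pow D t, ← UU_filter]
  have hd1 : d * 1 ≤ d * (t+1) := Nat.mul_le_mul_left d (by omega)
  have hm0 := D.m0
  have hVV : ∀ j, j ∉ SE E (t+1) → VV ((SY E Y t).filter (fun q => q.1 ∉ SE E (t+1))) j = VV (SY E Y t) j := by
    intro j hj
    ext i
    simp only [VV, Finset.mem_filter, Finset.mem_univ, true_and, hj, not_false_eq_true, and_true]
  refine pd_iff _ _ (SE_le D (t+1)) p hp _ ?_ ?_ j₀ (by omega) hj₀ ?_ m
  · intro q hq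
    rw [Finset.mem_filter] at hq
    refine ⟨?_, hq.2⟩
    obtain ⟨y, hy, s, hs, hys⟩ := (mem_SY E Y t q.1 q.2).1 hq.1
    have h1 := SE_le D _ _ hs
    have h2 := D.Yle _ hy
    simp only at h2
    rw [Nat.mul_succ]; omega
  · intro j
    by_cases hj : j ∈ SE E (t+1)
    · have : VV ((SY E Y t).filter (fun q => q.1 ∉ SE E (t+1))) j = ∅ := by
        ext i
        simp [VV, hj]
      rw [this, Finset.card_empty]; omega
    · rw [hVV j hj]; exact hcard j hj
  · rw [hVV j₀ hj₀]; exact h₀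

end Pool.V1147.PosPow
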