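import Mathlib
import Pool.Agent.V1147.Def2
import Pool.Agent.V1147.PosPow

set_option autoImplicit false

open MvPolynomial

namespace Pool.V1147.Def2

open Pool.V1147.PosPow

universe u

variable {A : Type u} [CommRing A] {P : ℕ}

/-- pure positions in degree `N+1` -/
def SG (G E : Finset ℕ) (t : ℕ) : Finset ℕ := Finset.image₂ (· + ·) G (SE E t)

lemma mem_SG (G E : Finset ℕ) (t j : ℕ) : j ∈ SG G E t ↔ ∃ g ∈ G, ∃ s ∈ SE E t, g + s = j := by
  simp [SG, Finset.mem_image₂]

structure Data2 (E G : Finset ℕ) (Y : Finset (ℕ × Fin P)) (δ d m₀ : ℕ) : Prop where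
  D : Data E Y d m₀
  Yd : ∀ q ∈ Y, q.1 + δ ≤ d
  Gle : ∀ g ∈ G, g ≤ d + 1
  Gicc : ∀ g, m₀ ≤ g → g ≤ d + 1 → g ∈ G
  EG : ∀ e ∈ E, e ∈ G
  EG1 : ∀ e ∈ E, e + 1 ∈ G
  YG : ∀ q ∈ Y, q.1 ∈ G
  YG1 : ∀ q ∈ Y, q.1 + 1 ∈ G
  GY : ∀ g ∈ G, ∀ q ∈ Y, m₀ ≤ g + q.1 ∨ ∃ g' ∈ G, ∃ e ∈ E, g + q.1 = g' + e

variable {E G : Finset ℕ} {Y : Finset (ℕ × Fin P)} {δ d m₀ : ℕ} {c : Fin P → A}

lemma SE_add {a b s t : ℕ} (ha : a ∈ SE E s) (hb : b ∈ SE E t) : a + b ∈ SE E (s + t) := by
  induction t generalizing b with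
  | zero => simp [SE] at hb; subst hb; simpa using ha
  | succ t ih =>
    obtain ⟨b', hb', e, he, rfl⟩ := (mem_SE_succ _ _ _).1 hb
    rw [← Nat.add_assoc, ← Nat.add_assoc, mem_SE_succ]
    exact ⟨a + b', ih hb', e, he, rfl⟩

lemma mem_SE_one {e : ℕ} (he : e ∈ E) : e ∈ SE E 1 := by rw [SE_one]; exact he

lemma SG_of_SE (D : Data2 E G Y δ d m₀) {t j : ℕ} (hj : j ∈ SE E (t+1)) : j ∈ SG G E t := by
  obtain ⟨a, ha, e, he, rfl⟩ := (mem_SE_succ _ _ _).1 hj
  rw [mem_SG]
  exact ⟨e, D.EG e he, a, ha, by omega⟩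

lemma SG_icc (D : Data2 E G Y δ d m₀) (t j : ℕ) (h1 : m₀ ≤ j) (h2 : j ≤ d * (t+1) + 1) : j ∈ SG G E t := by
  by_cases hj : j ≤ d * (t+1)
  · exact SG_of_SE D (SE_icc D.D (t+1) j (by omega) h1 hj)
  · have hj' : j = (d + 1) + d * t := by rw [Nat.mul_succ] at hj h2; omega
    rw [mem_SG]
    have hm0 := D.D.m0
    refine ⟨d + 1, D.Gicc _ (by omega) le_rfl, d * t, ?_, hj'.symm⟩
    rcases Nat.eq_zero_or_pos t with rfl | ht
    · simp [SE]
    · have : d * 1 ≤ d * t := Nat.mul_le_mul_left d ht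
      exact SE_icc D.D t _ ht (by omega) le_rfl

lemma lev (D : Data2 E G Y δ d m₀) (t : ℕ) :
    Lev δ (d * (t+1)) (SE E (t+1)) (SG G E t) (SY E Y t) := by
  refine ⟨?_, ?_, ?_, ?_, ?_, ?_, ?_⟩
  · exact SE_le D.D _
  · intro g hg
    obtain ⟨g0, hg0, s, hs, rfl⟩ := (mem_SG _ _ _ _).1 hg
    have h1 := D.Gle g0 hg0
    have h2 := SE_le D.D _ _ hs
    rw [Nat.mul_succ]; omega
  · rintro ⟨p, i⟩ hq
    obtain ⟨y, hy, s, hs, rfl⟩ := (mem_SY _ _ _ _ _).1 hq
    have h1 := D.Yd _ hy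
    have h2 := SE_le D.D _ _ hs
    simp only at h1 ⊢
    rw [Nat.mul_succ]; omega
  · intro e he; exact SG_of_SE D he
  · intro e he
    obtain ⟨a, ha, e', he', rfl⟩ := (mem_SE_succ _ _ _).1 he
    rw [mem_SG]
    exact ⟨e' + 1, D.EG1 e' he', a, ha, by omega⟩
  · rintro ⟨p, i⟩ hq
    obtain ⟨y, hy, s, hs, rfl⟩ := (mem_SY _ _ _ _ _).1 hq
    rw [mem_SG]
    exact ⟨y, D.YG _ hy, s, hs, rfl⟩
  · rintro ⟨p, i⟩ hq
    obtain ⟨y, hy, s, hs, rfl⟩ := (mem_SY _ _ _ _ _).1 hq
    rw [mem_SG]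
    exact ⟨y + 1, D.YG1 _ hy, s, hs, by simp only; omega⟩

lemma JJ_mul (D : Data2 E G Y δ d m₀) (t : ℕ) :
    JJ c δ (d * (t+1)) (SE E (t+1)) (SG G E t) (SY E Y t) * JJ c δ d E G Y =
      JJ c δ (d * (t+2)) (SE E (t+2)) (SG G E (t+1)) (SY E Y (t+1)) := by
  have L1 := lev D t
  have L2 := lev D (t+1)
  have hN : d * (t+2) = d * (t+1) + d := by ring
  have hd1 : d ≤ d * (t+1) := by
    calc d = d * 1 := by ring
      _ ≤ _ := Nat.mul_le_mul_left d (by omega)
  have hm0 := D.D.m0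
  set N := d * (t+1) with hNdef
  set N' := d * (t+2) with hN'def
  set W := JJ c δ N' (SE E (t+2)) (SG G E (t+1)) (SY E Y (t+1)) with hW
  have top : ∀ h p, N' + 2 ≤ h → p ≤ h → mo A h p ∈ W := fun h p h1 h2 => mem_top h1 h2
  have inG : ∀ g, g ∈ SG G E (t+1) → mo A (N'+1) g ∈ W := fun g hg => mem_G hg
  have inE : ∀ g, g ∈ SE E (t+2) → mo A N' g ∈ W := fun g hg => mem_E hg
  have inY : ∀ p i, (p, i) ∈ SY E Y (t+1) → mo A (N'+1) (p+δ) + C (c i) * mo A N' p ∈ W :=
    fun p i hq => mem_Y hq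
  apply le_antisymm
  · rw [JJ, JJ, Ideal.span_mul_span', Ideal.span_le]
    rintro _ ⟨F, hF, F', hF', rfl⟩
    change F * F' ∈ W
    rcases hF with ⟨p, hp, rfl⟩ | ⟨g, hg, rfl⟩ | ⟨e, he, rfl⟩ | ⟨⟨p, i⟩, hq, rfl⟩
    · rcases hF' with ⟨p', hp', rfl⟩ | ⟨g', hg', rfl⟩ | ⟨e', he', rfl⟩ | ⟨⟨p', i'⟩, hq', rfl⟩
      · rw [mo_mul hp hp']; exact top _ _ (by omega) (by omega)
      · have := D.Gle _ hg'
        rw [mo_mul hp this]; exact top _ _ (by omega) (by omega)
      · have := D.D.le_d _ he'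
        rw [mo_mul hp this]; exact top _ _ (by omega) (by omega)
      · have := D.Yd _ hq'
        simp only at this ⊢
        rw [mul_add, mo_mul hp (by omega), mul_left_comm, mo_mul hp (by omega)]
        exact W.add_mem (top _ _ (by omega) (by omega)) (W.mul_mem_left _ (top _ _ (by omega) (by omega)))
    · have hgN := L1.hG g hg
      obtain ⟨g0, hg0, s, hs, rfl⟩ := (mem_SG _ _ _ _).1 hg
      rcases hF' with ⟨p', hp', rfl⟩ | ⟨g', hg', rfl⟩ | ⟨e', he', rfl⟩ | ⟨⟨p', i'⟩, hq', rfl⟩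
      · rw [mo_mul hgN hp']; exact top _ _ (by omega) (by omega)
      · have := D.Gle _ hg'
        rw [mo_mul hgN this]; exact top _ _ (by omega) (by omega)
      · have := D.D.le_d _ he'
        rw [mo_mul hgN this]
        have e1 : N + 1 + d = N' + 1 := by omega
        rw [e1]
        apply inG
        rw [mem_SG]
        exact ⟨g0, hg0, s + e', (mem_SE_succ _ _ _).2 ⟨s, hs, e', he', rfl⟩, by omega⟩
      · have := D.Yd _ hq'
        simp only at this ⊢
        rw [mul_add, mo_mul hgN (by omega), mul_left_comm, mo_mul hgN (by omega)]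
        refine W.add_mem (top _ _ (by omega) (by omega)) (W.mul_mem_left _ ?_)
        have e1 : N + 1 + d = N' + 1 := by omega
        rw [e1]
        apply inG
        rcases D.GY g0 hg0 _ hq' with h | ⟨g1, hg1, e1, he1, h⟩
        · simp only at h
          exact SG_icc D (t+1) _ (by omega) (by rw [← hN'def]; omega)
        · simp only at h
          rw [mem_SG]
          exact ⟨g1, hg1, s + e1, (mem_SE_succ _ _ _).2 ⟨s, hs, e1, he1, rfl⟩, by omega⟩
    · have heN := L1.hE e he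
      rcases hF' with ⟨p', hp', rfl⟩ | ⟨g', hg', rfl⟩ | ⟨e', he', rfl⟩ | ⟨⟨p', i'⟩, hq', rfl⟩
      · rw [mo_mul heN hp']; exact top _ _ (by omega) (by omega)
      · have := D.Gle _ hg'
        rw [mo_mul heN this]
        have e1 : N + (d + 1) = N' + 1 := by omega
        rw [e1]
        apply inG
        rw [mem_SG]
        exact ⟨g', hg', e, he, by omega⟩
      · have := D.D.le_d _ he'
        rw [mo_mul heN this]
        have e1 : N + d = N' := by omega
        rw [e1]
        apply inE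
        exact (mem_SE_succ _ _ _).2 ⟨e, he, e', he', rfl⟩
      · have := D.Yd _ hq'
        simp only at this ⊢
        rw [mul_add, mo_mul heN (by omega), mul_left_comm, mo_mul heN (by omega)]
        have e1 : N + (d + 1) = N' + 1 := by omega
        have e2 : N + d = N' := by omega
        have e3 : e + (p' + δ) = (p' + e) + δ := by omega
        have e4 : e + p' = p' + e := by omega
        rw [e1, e2, e3, e4]
        apply inY
        rw [mem_SY]
        exact ⟨p', hq', e, he, rfl⟩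
    · have hpN := L1.hY _ hq
      obtain ⟨w, hw, s, hs, hws⟩ := (mem_SY _ _ _ _ _).1 hq
      simp only at hpN ⊢
      rcases hF' with ⟨p', hp', rfl⟩ | ⟨g', hg', rfl⟩ | ⟨e', he', rfl⟩ | ⟨⟨p', i'⟩, hq', rfl⟩
      · rw [add_mul, mo_mul (by omega) hp', mul_assoc, mo_mul (by omega) hp']
        exact W.add_mem (top _ _ (by omega) (by omega)) (W.mul_mem_left _ (top _ _ (by omega) (by omega)))
      · have := D.Gle _ hg'
        rw [add_mul, mo_mul (by omega) this, mul_assoc, mo_mul (by omega) this]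
        refine W.add_mem (top _ _ (by omega) (by omega)) (W.mul_mem_left _ ?_)
        have e1 : N + (d + 1) = N' + 1 := by omega
        rw [e1]
        apply inG
        rcases D.GY g' hg' _ hw with h | ⟨g1, hg1, e1, he1, h⟩
        · simp only at h
          exact SG_icc D (t+1) _ (by omega) (by rw [← hN'def]; omega)
        · simp only at h
          rw [mem_SG]
          exact ⟨g1, hg1, s + e1, (mem_SE_succ _ _ _).2 ⟨s, hs, e1, he1, rfl⟩, by omega⟩
      · have := D.D.le_d _ he'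
        rw [add_mul, mo_mul (by omega) this, mul_assoc, mo_mul (by omega) this]
        have e1 : N + 1 + d = N' + 1 := by omega
        have e2 : N + d = N' := by omega
        have e3 : p + δ + e' = (p + e') + δ := by omega
        rw [e1, e2, e3]
        apply inY
        rw [mem_SY]
        exact ⟨w, hw, s + e', (mem_SE_succ _ _ _).2 ⟨s, hs, e', he', rfl⟩, by omega⟩
      · have h1 := D.Yd _ hq'
        have h2 := D.D.YY _ hw _ hq'
        simp only at h1 h2 ⊢
        have e0 : (mo A (N+1) (p+δ) + C (c i) * mo A N p) * (mo A (d+1) (p'+δ) + C (c i') * mo A d p')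
            = mo A (N+1) (p+δ) * mo A (d+1) (p'+δ) + C (c i') * (mo A (N+1) (p+δ) * mo A d p')
              + C (c i) * (mo A N p * mo A (d+1) (p'+δ)) + C (c i) * C (c i') * (mo A N p * mo A d p') := by
          ring
        rw [e0, mo_mul (by omega) (by omega), mo_mul (by omega) (by omega), mo_mul (by omega) (by omega),
          mo_mul (by omega) (by omega)]
        have e1 : N + 1 + d = N' + 1 := by omega
        have e2 : N + d = N' := by omega
        have e3 : N + (d + 1) = N' + 1 := by omega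
        rw [e1, e2, e3]
        refine W.add_mem (W.add_mem (W.add_mem (top _ _ (by omega) (by omega)) ?_) ?_) ?_
        · exact W.mul_mem_left _ (inG _ (SG_icc D (t+1) _ (by omega) (by rw [← hN'def]; omega)))
        · exact W.mul_mem_left _ (inG _ (SG_icc D (t+1) _ (by omega) (by rw [← hN'def]; omega)))
        · exact W.mul_mem_left _ (inE _ (SE_icc D.D (t+2) _ (by omega) (by omega) (by rw [← hN'def]; omega)))
  · rw [hW]
    refine Ideal.span_le.2 ?_
    rintro F (⟨p, hp, rfl⟩ | ⟨g, hg, rfl⟩ | ⟨e, he, rfl⟩ | ⟨⟨p, i⟩, hq, rfl⟩)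
    · by_cases hpd : d ≤ p
      · have h1 : mo A (N'+2) p = mo A (N+2) (p - d) * mo A d d := by
          rw [mo_mul (by omega) le_rfl]
          congr 1 <;> omega
        rw [SetLike.mem_coe, h1]
        exact Ideal.mul_mem_mul (mem_top le_rfl (by omega)) (mem_E (D.D.icc d hm0 le_rfl))
      · have h1 : mo A (N'+2) p = mo A (N+2) p * mo A d 0 := by
          rw [mo_mul (by omega) (by omega)]
          congr 1; omega
        rw [SetLike.mem_coe, h1]
        exact Ideal.mul_mem_mul (mem_top le_rfl (by omega)) (mem_E D.D.zero_mem)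
    · obtain ⟨g0, hg0, s, hs, rfl⟩ := (mem_SG _ _ _ _).1 hg
      have h2 := D.Gle _ hg0
      have h3 := L1.hE s hs
      have h1 : mo A (N'+1) (g0 + s) = mo A N s * mo A (d+1) g0 := by
        rw [mo_mul h3 h2]
        congr 1 <;> omega
      rw [SetLike.mem_coe, h1]
      exact Ideal.mul_mem_mul (mem_E hs) (mem_G hg0)
    · obtain ⟨a, ha, e', he', rfl⟩ := (mem_SE_succ _ _ _).1 he
      have h2 := L1.hE a ha
      have h3 := D.D.le_d _ he'
      have h1 : mo A N' (a + e') = mo A N a * mo A d e' := by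
        rw [mo_mul h2 h3]
        congr 1
      rw [SetLike.mem_coe, h1]
      exact Ideal.mul_mem_mul (mem_E ha) (mem_E he')
    · obtain ⟨w, hw, s, hs, rfl⟩ := (mem_SY _ _ _ _ _).1 hq
      have h2 := D.Yd _ hw
      have h3 := L1.hE s hs
      simp only at h2 ⊢
      have h1 : mo A (N'+1) (w + s + δ) + C (c i) * mo A N' (w + s)
          = mo A N s * (mo A (d+1) (w+δ) + C (c i) * mo A d w) := by
        rw [mul_add, mo_mul h3 (by omega), mul_left_comm, mo_mul h3 (by omega)]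
        have e1 : N + (d + 1) = N' + 1 := by omega
        have e2 : N + d = N' := by omega
        have e3 : s + (w + δ) = w + s + δ := by omega
        have e4 : s + w = w + s := by omega
        rw [e1, e2, e3, e4]
      rw [SetLike.mem_coe, h1]
      exact Ideal.mul_mem_mul (mem_E hs) (mem_Y hw)

lemma SY_zero' : SY E Y 0 = Y := SY_zero

lemma SG_zero : SG G E 0 = G := by
  ext j
  rw [mem_SG]
  simp [SE]

theorem JJ_pow (D : Data2 E G Y δ d m₀) (t : ℕ) :
    (JJ c δ d E G Y) ^ (t+1) = JJ c δ (d * (t+1)) (SE E (t+1)) (SG G E t) (SY E Y t) := by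
  induction t with
  | zero => rw [zero_add, pow_one, mul_one, SE_one, SY_zero', SG_zero]
  | succ t ih => rw [pow_succ, ih, JJ_mul D t]

end Pool.V1147.Def2
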