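import Mathlib
import Pool.Agent.V1147.PosPow

set_option autoImplicit false

namespace Pool.V1147.PosNum

open Pool.V1147.PosPow Pool.V1147.PosPd

/-! ### digits -/

lemma digits_aux (B : ℕ) (n : ℕ) : ∀ c c' : ℕ → ℕ, (∀ a, c a < B) → (∀ a, c' a < B) →
    ∑ a ∈ Finset.range n, c a * B ^ a = ∑ a ∈ Finset.range n, c' a * B ^ a →
    ∀ a < n, c a = c' a := by
  induction n with
  | zero => intro c c' _ _ _ a ha; omega
  | succ n ih =>
    intro c c' hc hc' h
    rw [Finset.sum_range_succ', Finset.sum_range_succ'] at h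
    simp only [pow_zero, mul_one] at h
    have e : ∀ c : ℕ → ℕ, ∑ a ∈ Finset.range n, c (a+1) * B ^ (a+1)
        = B * ∑ a ∈ Finset.range n, c (a+1) * B ^ a := by
      intro c
      rw [Finset.mul_sum]
      refine Finset.sum_congr rfl (fun a _ => ?_)
      rw [pow_succ]; ring
    rw [e c, e c'] at h
    have hB : 0 < B := lt_of_le_of_lt (Nat.zero_le _) (hc 0)
    have h0 : c 0 = c' 0 := by
      have h1 := congrArg (· % B) h
      simp only [Nat.mul_add_mod] at h1
      rwa [Nat.mod_eq_of_lt (hc 0), Nat.mod_eq_of_lt (hc' 0)] at h1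
    rw [h0, Nat.add_right_cancel_iff] at h
    have h2 := Nat.eq_of_mul_eq_mul_left hB h
    intro a ha
    rcases Nat.eq_zero_or_pos a with rfl | hpos
    · exact h0
    · have := ih (fun a => c (a+1)) (fun a => c' (a+1)) (fun a => hc _) (fun a => hc' _) h2 (a-1) (by omega)
      rwa [Nat.sub_add_cancel hpos] at this

/-- sum of powers of `B` -/
def dg (B : ℕ) (W : Multiset ℕ) : ℕ := (W.map (fun a => B ^ a)).sum

lemma dg_add (B : ℕ) (W W' : Multiset ℕ) : dg B (W + W') = dg B W + dg B W' := by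
  simp [dg]

lemma dg_replicate (B n a : ℕ) : dg B (Multiset.replicate n a) = n * B ^ a := by
  simp [dg]

lemma dg_singleton (B a : ℕ) : dg B {a} = B ^ a := by simp [dg]

lemma dg_cons (B a : ℕ) (W : Multiset ℕ) : dg B (a ::ₘ W) = B ^ a + dg B W := by simp [dg]

lemma dg_eq_sum (B n : ℕ) (W : Multiset ℕ) (hn : ∀ a ∈ W, a < n) :
    dg B W = ∑ a ∈ Finset.range n, W.count a * B ^ a := by
  rw [dg, Finset.sum_multiset_map_count]
  simp only [smul_eq_mul]
  refine Finset.sum_subset ?_ ?_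
  · intro a ha
    rw [Multiset.mem_toFinset] at ha
    exact Finset.mem_range.2 (hn a ha)
  · intro a _ ha
    rw [Multiset.mem_toFinset] at ha
    rw [Multiset.count_eq_zero_of_notMem ha, zero_mul]

lemma dg_inj (B : ℕ) (W W' : Multiset ℕ) (hW : Multiset.card W < B) (hW' : Multiset.card W' < B)
    (h : dg B W = dg B W') (a : ℕ) : W.count a = W'.count a := by
  let n := (W + W').sup + 1 + a
  have hn : ∀ b ∈ W + W', b < n := by
    intro b hb
    have := Multiset.le_sup hb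
    omega
  rw [dg_eq_sum B n W (fun b hb => hn b (Multiset.mem_add.2 (Or.inl hb))),
    dg_eq_sum B n W' (fun b hb => hn b (Multiset.mem_add.2 (Or.inr hb)))] at h
  exact digits_aux B n _ _ (fun b => (Multiset.count_le_card _ _).trans_lt hW)
    (fun b => (Multiset.count_le_card _ _).trans_lt hW') h a (by omega)

/-! ### parameters -/

section
variable (T P : ℕ)

def BB : ℕ := 20 * T + 40
def idx (s i : ℕ) : ℕ := (P + 2) * s + i
def tau : ℕ := (P + 2) * (T + 1)
def th : ℕ := (BB T) ^ (tau T P)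
def RR : ℕ := 4 * T + 1
def xx (s i : ℕ) : ℕ := th T P + (BB T) ^ (idx P s i)
def jj (s : ℕ) : ℕ := RR T * th T P + (BB T) ^ (idx P s (P+1))
def yy (s i : ℕ) : ℕ := jj T P s - (s-1) * xx T P s i
def vv (s : ℕ) : ℕ := jj T P s - s * xx T P s P
def mm : ℕ := (RR T + 1) * th T P
/-- value of a multiset of small indices -/
def val (W : Multiset ℕ) : ℕ := Multiset.card W * th T P + dg (BB T) W
def small (a : ℕ) : Prop := ∃ s i, 1 ≤ s ∧ s ≤ T ∧ i ≤ P ∧ a = idx P s i

variable {T P}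

lemma BB_pos : 0 < BB T := by unfold BB; omega

lemma idx_inj {s i s' i' : ℕ} (hi : i ≤ P + 1) (hi' : i' ≤ P + 1) (h : idx P s i = idx P s' i') :
    s = s' ∧ i = i' := by
  unfold idx at h
  have h1 : s = s' := by
    rcases lt_trichotomy s s' with hlt | heq | hgt
    · exfalso
      have : (P + 2) * (s + 1) ≤ (P + 2) * s' := Nat.mul_le_mul_left _ hlt
      rw [Nat.mul_succ] at this
      omega
    · exact heq
    · exfalso
      have : (P + 2) * (s' + 1) ≤ (P + 2) * s := Nat.mul_le_mul_left _ hgt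
      rw [Nat.mul_succ] at this
      omega
  subst h1
  exact ⟨rfl, by omega⟩

lemma idx_lt_tau {s i : ℕ} (hs : s ≤ T) (hi : i ≤ P + 1) : idx P s i < tau T P := by
  unfold idx tau
  have : (P + 2) * s ≤ (P + 2) * T := Nat.mul_le_mul_left _ hs
  rw [Nat.mul_succ]; omega

lemma small_lt_tau {a : ℕ} (h : small T P a) : a < tau T P := by
  obtain ⟨s, i, _, hs, hi, rfl⟩ := h
  exact idx_lt_tau hs (by omega)

lemma small_ne {a s : ℕ} (h : small T P a) : a ≠ idx P s (P+1) := by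
  obtain ⟨s', i, _, hs, hi, rfl⟩ := h
  intro h
  have := (idx_inj (by omega) (by omega) h).2
  omega

/-- `r * B^{idx s i} ≤ B^{idx s (P+1)}` for small `r`. -/
lemma pow_bound {r s i : ℕ} (hr : r ≤ T) (hi : i ≤ P) :
    r * (BB T) ^ (idx P s i) ≤ (BB T) ^ (idx P s (P+1)) := by
  have h1 : idx P s (P+1) = idx P s i + 1 + (P - i) := by unfold idx; omega
  rw [h1, pow_add, pow_succ]
  have h2 : 1 ≤ (BB T) ^ (P - i) := Nat.one_le_pow _ _ BB_pos
  have h3 : r ≤ BB T := by unfold BB; omega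
  calc r * (BB T) ^ (idx P s i) ≤ BB T * (BB T) ^ (idx P s i) := Nat.mul_le_mul_right _ h3
    _ = (BB T) ^ (idx P s i) * BB T * 1 := by ring
    _ ≤ _ := Nat.mul_le_mul_left _ h2

lemma kap_lt {s : ℕ} (hs : s ≤ T) : (BB T) ^ (idx P s (P+1)) < th T P := by
  unfold th
  refine Nat.pow_lt_pow_right ?_ (idx_lt_tau hs (by omega))
  unfold BB; omega

lemma jj_lt {s : ℕ} (hs : s ≤ T) : jj T P s < mm T P := by
  unfold jj mm
  have := kap_lt (P := P) hs
  rw [Nat.add_mul, one_mul]; omega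

lemma mul_xx (r s i : ℕ) : r * xx T P s i = r * th T P + r * (BB T) ^ (idx P s i) := by
  unfold xx; ring

lemma yy_add {s i : ℕ} (hs : s ≤ T) (hi : i ≤ P) :
    yy T P s i + (s-1) * xx T P s i = jj T P s := by
  unfold yy
  refine Nat.sub_add_cancel ?_
  rw [mul_xx]
  unfold jj
  refine Nat.add_le_add (Nat.mul_le_mul_right _ ?_) (pow_bound (by omega) hi)
  unfold RR; omega

lemma vv_add {s : ℕ} (hs : s ≤ T) :
    vv T P s + s * xx T P s P = jj T P s := by
  unfold vv
  refine Nat.sub_add_cancel ?_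
  rw [mul_xx]
  unfold jj
  refine Nat.add_le_add (Nat.mul_le_mul_right _ ?_) (pow_bound (by omega) le_rfl)
  unfold RR; omega

lemma yy_ge {s i : ℕ} (hs : s ≤ T) (hi : i ≤ P) : (RR T - (s-1)) * th T P ≤ yy T P s i := by
  have h1 := yy_add (P := P) hs hi
  rw [mul_xx] at h1
  have h2 := pow_bound (T := T) (r := s-1) (s := s) (by omega) hi
  have h3 : (RR T - (s-1)) * th T P + (s-1) * th T P = RR T * th T P := by
    rw [← Nat.add_mul]; congr 1; unfold RR; omega
  unfold jj at h1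
  omega

lemma vv_ge {s : ℕ} (hs : s ≤ T) : (RR T - s) * th T P ≤ vv T P s := by
  have h1 := vv_add (P := P) hs
  rw [mul_xx] at h1
  have h2 := pow_bound (T := T) (r := s) (s := s) (by omega) (le_refl P)
  have h3 : (RR T - s) * th T P + s * th T P = RR T * th T P := by
    rw [← Nat.add_mul]; congr 1; unfold RR; omega
  unfold jj at h1
  omega

lemma big_yy {s i : ℕ} (hs : s ≤ T) (hi : i ≤ P) : (2 * T + 1) * th T P ≤ yy T P s i := by
  refine le_trans (Nat.mul_le_mul_right _ ?_) (yy_ge hs hi)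
  unfold RR; omega

lemma big_vv {s : ℕ} (hs : s ≤ T) : (2 * T + 1) * th T P ≤ vv T P s := by
  refine le_trans (Nat.mul_le_mul_right _ ?_) (vv_ge hs)
  unfold RR; omega

lemma two_big {a b : ℕ} (ha : (2 * T + 1) * th T P ≤ a) (hb : (2 * T + 1) * th T P ≤ b) :
    mm T P ≤ a + b := by
  have : mm T P = (2 * T + 1) * th T P + (2 * T + 1) * th T P := by
    unfold mm RR; ring
  omega

/-! ### the pure set -/

/-- pure positions -/
def EE (T P : ℕ) : Finset ℕ :=
  {0} ∪ (Finset.image₂ (fun s i => xx T P s i) (Finset.Icc 1 T) (Finset.range (P+1)))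
    ∪ ((Finset.Ico 1 T).image (fun s => vv T P s)) ∪ Finset.Icc (mm T P) (2 * mm T P)

lemma mem_EE (e : ℕ) : e ∈ EE T P ↔ e = 0 ∨ (∃ s i, 1 ≤ s ∧ s ≤ T ∧ i ≤ P ∧ e = xx T P s i) ∨
    (∃ s, 1 ≤ s ∧ s < T ∧ e = vv T P s) ∨ (mm T P ≤ e ∧ e ≤ 2 * mm T P) := by
  simp only [EE, Finset.mem_union, Finset.mem_singleton, Finset.mem_image₂, Finset.mem_Icc,
    Finset.mem_range, Finset.mem_image, Finset.mem_Ico]
  constructor
  · rintro (((h | ⟨s, hs, i, hi, rfl⟩) | ⟨s, hs, rfl⟩) | h)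
    · exact Or.inl h
    · exact Or.inr (Or.inl ⟨s, i, hs.1, hs.2, by omega, rfl⟩)
    · exact Or.inr (Or.inr (Or.inl ⟨s, hs.1, hs.2, rfl⟩))
    · exact Or.inr (Or.inr (Or.inr h))
  · rintro (h | ⟨s, i, hs1, hs2, hi, rfl⟩ | ⟨s, hs1, hs2, rfl⟩ | h)
    · exact Or.inl (Or.inl (Or.inl h))
    · exact Or.inl (Or.inl (Or.inr ⟨s, ⟨hs1, hs2⟩, i, by omega, rfl⟩))
    · exact Or.inl (Or.inr ⟨s, ⟨hs1, hs2⟩, rfl⟩)
    · exact Or.inr h

/-- marked positions -/
def YY (T P : ℕ) (h : ℕ → ℕ) : Finset (ℕ × Fin P) :=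
  (Finset.Icc 1 T).biUnion (fun s => (Finset.univ.filter (fun i : Fin P => (i : ℕ) < h s)).image
    (fun i : Fin P => (yy T P s (i : ℕ), i)))

lemma mem_YY (h : ℕ → ℕ) (y : ℕ) (i : Fin P) :
    (y, i) ∈ YY T P h ↔ ∃ s, 1 ≤ s ∧ s ≤ T ∧ (i : ℕ) < h s ∧ y = yy T P s i := by
  simp only [YY, Finset.mem_biUnion, Finset.mem_Icc, Finset.mem_image, Finset.mem_filter,
    Finset.mem_univ, true_and, Prod.mk.injEq]
  constructor
  · rintro ⟨s, hs, i', hi', h1, rfl⟩
    exact ⟨s, hs.1, hs.2, hi', h1.symm⟩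
  · rintro ⟨s, hs1, hs2, hi, rfl⟩
    exact ⟨s, ⟨hs1, hs2⟩, i, hi, rfl, rfl⟩

lemma th_pos : 0 < th T P := Nat.pow_pos BB_pos

lemma xx_le {s i : ℕ} (hs : s ≤ T) (hi : i ≤ P) : xx T P s i ≤ 2 * mm T P := by
  unfold xx
  have h1 : (BB T) ^ (idx P s i) ≤ th T P := by
    unfold th
    exact Nat.pow_le_pow_right BB_pos (idx_lt_tau hs (by omega)).le
  have h2 : mm T P = (RR T + 1) * th T P := rfl
  have h3 : 1 * th T P ≤ (RR T + 1) * th T P := Nat.mul_le_mul_right _ (by omega)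
  omega

lemma jj_le {s : ℕ} (hs : s ≤ T) : jj T P s ≤ 2 * mm T P := by
  have := jj_lt (P := P) hs
  omega

lemma data (h : ℕ → ℕ) : Data (EE T P) (YY T P h) (2 * mm T P) (mm T P) := by
  refine ⟨?_, ?_, ?_, by omega, by omega, ?_, ?_⟩
  · rw [mem_EE]; exact Or.inl rfl
  · intro e he
    rw [mem_EE] at he
    rcases he with rfl | ⟨s, i, hs1, hs2, hi, rfl⟩ | ⟨s, hs1, hs2, rfl⟩ | he
    · omega
    · exact xx_le hs2 hi
    · have := vv_add (P := P) hs2.le
      have := jj_le (P := P) hs2.le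
      omega
    · exact he.2
  · intro e h1 h2
    rw [mem_EE]; exact Or.inr (Or.inr (Or.inr ⟨h1, h2⟩))
  · rintro ⟨y, i⟩ hq
    obtain ⟨s, hs1, hs2, hi, rfl⟩ := (mem_YY h y i).1 hq
    have := yy_add (P := P) hs2 i.2.le
    have := jj_le (P := P) hs2
    simp only
    omega
  · rintro ⟨y, i⟩ hq ⟨y', i'⟩ hq'
    obtain ⟨s, hs1, hs2, hi, rfl⟩ := (mem_YY h y i).1 hq
    obtain ⟨s', hs1', hs2', hi', rfl⟩ := (mem_YY h y' i').1 hq'
    exact two_big (big_yy hs2 i.2.le) (big_yy hs2' i'.2.le)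

/-- representation of small elements of sumsets -/
lemma rep (t σ : ℕ) (h : σ ∈ SE (EE T P) t) (hσ : σ < mm T P) :
    ∃ W : Multiset ℕ, (∀ a ∈ W, small T P a) ∧ Multiset.card W ≤ t ∧
      (σ = val T P W ∨ ∃ r, 1 ≤ r ∧ r < T ∧ Multiset.card W + 1 ≤ t ∧ σ = vv T P r + val T P W) := by
  induction t generalizing σ with
  | zero =>
    simp only [SE, Finset.mem_singleton] at h
    exact ⟨0, by simp, by simp, Or.inl (by simp [val, dg, h])⟩
  | succ t ih =>
    obtain ⟨a, ha, e, he, rfl⟩ := (mem_SE_succ _ _ _).1 h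
    obtain ⟨W, hW, hc, hval⟩ := ih a ha (by omega)
    rw [mem_EE] at he
    rcases he with rfl | ⟨s, i, hs1, hs2, hi, rfl⟩ | ⟨s, hs1, hs2, rfl⟩ | he
    · refine ⟨W, hW, by omega, ?_⟩
      rcases hval with hval | ⟨r, h1, h2, h3, h4⟩
      · exact Or.inl hval
      · exact Or.inr ⟨r, h1, h2, by omega, h4⟩
    · have hv : val T P (idx P s i ::ₘ W) = val T P W + xx T P s i := by
        simp only [val, Multiset.card_cons, dg_cons, xx]; ring
      refine ⟨idx P s i ::ₘ W, ?_, ?_, ?_⟩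
      · intro b hb
        rcases Multiset.mem_cons.1 hb with rfl | hb
        · exact ⟨s, i, hs1, hs2, hi, rfl⟩
        · exact hW b hb
      · rw [Multiset.card_cons]; omega
      · rw [hv, Multiset.card_cons]
        rcases hval with hval | ⟨r, h1, h2, h3, h4⟩
        · left; omega
        · exact Or.inr ⟨r, h1, h2, by omega, by omega⟩
    · rcases hval with hval | ⟨r, h1, h2, h3, h4⟩
      · exact ⟨W, hW, by omega, Or.inr ⟨s, hs1, hs2, by omega, by omega⟩⟩
      · exfalso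
        have := two_big (big_vv (P := P) h2.le) (big_vv (P := P) hs2.le)
        omega
    · omega

/-- representation attached to a marked position -/
lemma rep_y {s i : ℕ} (hs : s ≤ T) (hs1 : 1 ≤ s) (hi : i ≤ P) (t σ : ℕ) (h : σ ∈ SE (EE T P) t)
    (hσ : yy T P s i + σ < mm T P) :
    ∃ W : Multiset ℕ, (∀ a ∈ W, small T P a) ∧ Multiset.card W ≤ t ∧ Multiset.card W ≤ s - 1 ∧
      σ = val T P W := by
  obtain ⟨W, hW, hc, hval⟩ := rep t σ h (by omega)
  rcases hval with hval | ⟨r, h1, h2, h3, h4⟩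
  · refine ⟨W, hW, hc, ?_, hval⟩
    have h5 := yy_ge (T := T) hs hi
    have h6 : (RR T - (s-1)) * th T P + Multiset.card W * th T P < (RR T + 1) * th T P := by
      have : val T P W = Multiset.card W * th T P + dg (BB T) W := rfl
      have h7 : mm T P = (RR T + 1) * th T P := rfl
      omega
    rw [← Nat.add_mul] at h6
    have h8 := Nat.lt_of_mul_lt_mul_right h6
    unfold RR at h8
    omega
  · exfalso
    have := two_big (big_yy (P := P) hs hi) (big_vv (P := P) h2.le)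
    omega

end

end Pool.V1147.PosNum
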