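import Mathlib
import Pool.Agent.V1147.PosNum

set_option autoImplicit false

open CategoryTheory Abelian MvPolynomial

namespace Pool.V1147.PosFin

open Pool.V1147.PdVar Pool.V1147.MonPd Pool.V1147.PosPd Pool.V1147.PosPow Pool.V1147.PosNum

variable {T P : ℕ}

lemma dg_eq {n n' : ℕ} {U U' : Multiset ℕ} (hU : n + Multiset.card U < BB T)
    (hU' : n' + Multiset.card U' < BB T)
    (h : n * th T P + dg (BB T) U = n' * th T P + dg (BB T) U') (b : ℕ) (hb : b ≠ tau T P) :
    U.count b = U'.count b := by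
  have h1 : dg (BB T) (Multiset.replicate n (tau T P) + U)
      = dg (BB T) (Multiset.replicate n' (tau T P) + U') := by
    rw [dg_add, dg_add, dg_replicate, dg_replicate]
    exact h
  have h2 := dg_inj (BB T) _ _ (by simpa using hU) (by simpa using hU') h1 b
  rw [Multiset.count_add, Multiset.count_add, Multiset.count_replicate, Multiset.count_replicate,
    if_neg hb.symm, if_neg hb.symm, zero_add, zero_add] at h2
  exact h2

lemma count_kap (s : ℕ) (W : Multiset ℕ) (hW : ∀ a ∈ W, small T P a) :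
    W.count (idx P s (P+1)) = 0 := by
  rw [Multiset.count_eq_zero]
  intro h
  exact small_ne (hW _ h) rfl

lemma kap_ne_tau {s : ℕ} (hs : s ≤ T) : idx P s (P+1) ≠ tau T P :=
  (idx_lt_tau hs le_rfl).ne

lemma idx_ne_tau {s i : ℕ} (hs : s ≤ T) (hi : i ≤ P) : idx P s i ≠ tau T P :=
  (idx_lt_tau hs (by omega)).ne

/-- comparison of representations: `jj s + r xx(s',i') + val W = jj s' + r' xx(s'',i'') + val W'` forces `s = s'` -/
lemma kap_compare {s s' r r' a b a' b' : ℕ} {W W' : Multiset ℕ} (hs : s ≤ T) (hs' : s' ≤ T)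
    (hr : r ≤ T) (hr' : r' ≤ T) (hb : b ≤ P) (hb' : b' ≤ P)
    (hW : ∀ a ∈ W, small T P a) (hW' : ∀ a ∈ W', small T P a)
    (hc : Multiset.card W ≤ 4 * T + 2) (hc' : Multiset.card W' ≤ 4 * T + 2)
    (h : jj T P s + r * xx T P a b + val T P W = jj T P s' + r' * xx T P a' b' + val T P W') :
    s = s' ∧ ∀ c, c ≠ tau T P → (∀ s, c ≠ idx P s (P+1)) →
      (if idx P a b = c then r else 0) + W.count c = (if idx P a' b' = c then r' else 0) + W'.count c := by
  have h1 : (RR T + r + Multiset.card W) * th T P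
      + dg (BB T) ({idx P s (P+1)} + (Multiset.replicate r (idx P a b) + W))
      = (RR T + r' + Multiset.card W') * th T P
      + dg (BB T) ({idx P s' (P+1)} + (Multiset.replicate r' (idx P a' b') + W')) := by
    rw [dg_add, dg_add, dg_add, dg_add, dg_replicate, dg_replicate, dg_singleton, dg_singleton]
    rw [mul_xx, mul_xx] at h
    unfold jj val at h
    simp only [Nat.add_mul]
    omega
  have hcd : RR T + r + Multiset.card W +
      Multiset.card ({idx P s (P+1)} + (Multiset.replicate r (idx P a b) + W)) < BB T := by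
    simp only [Multiset.card_add, Multiset.card_singleton, Multiset.card_replicate]
    unfold RR BB; omega
  have hcd' : RR T + r' + Multiset.card W' +
      Multiset.card ({idx P s' (P+1)} + (Multiset.replicate r' (idx P a' b') + W')) < BB T := by
    simp only [Multiset.card_add, Multiset.card_singleton, Multiset.card_replicate]
    unfold RR BB; omega
  have h2 := dg_eq hcd hcd' h1
  have hss : s = s' := by
    have h3 := h2 (idx P s (P+1)) (kap_ne_tau hs)
    rw [Multiset.count_add, Multiset.count_add, Multiset.count_add, Multiset.count_add,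
      Multiset.count_replicate, Multiset.count_replicate, count_kap s W hW, count_kap s W' hW',
      Multiset.count_singleton_self] at h3
    have e1 : ∀ u v, v ≤ P → idx P u v ≠ idx P s (P+1) := by
      intro u v hv he
      have := (idx_inj (by omega) (by omega) he).2
      omega
    rw [if_neg (e1 a b hb), if_neg (e1 a' b' hb'), Multiset.count_singleton] at h3
    by_contra hne
    have hne' : idx P s (P+1) ≠ idx P s' (P+1) := by
      intro he
      exact hne (idx_inj (by omega) (by omega) he).1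
    rw [if_neg hne'] at h3
    omega
  refine ⟨hss, ?_⟩
  intro c hc1 hc2
  have h3 := h2 c hc1
  rw [Multiset.count_add, Multiset.count_add, Multiset.count_add, Multiset.count_add,
      Multiset.count_replicate, Multiset.count_replicate, Multiset.count_singleton, Multiset.count_singleton,
      if_neg (hc2 s), if_neg (hc2 s'), zero_add, zero_add] at h3
  exact h3

lemma idx_ne_kap {s i : ℕ} (hi : i ≤ P) (s' : ℕ) : idx P s i ≠ idx P s' (P+1) := by
  intro he
  have := (idx_inj (by omega) (by omega) he).2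
  omega

/-- two different marked positions meet only at `jj s`. -/
lemma meet {s i s' i' : ℕ} {W W' : Multiset ℕ} (hs1 : 1 ≤ s) (hs : s ≤ T) (hs1' : 1 ≤ s') (hs' : s' ≤ T)
    (hi : i ≤ P) (hi' : i' ≤ P)
    (hW : ∀ a ∈ W, small T P a) (hW' : ∀ a ∈ W', small T P a)
    (hc : Multiset.card W ≤ s - 1) (hc' : Multiset.card W' ≤ s' - 1)
    (h : yy T P s i + val T P W = yy T P s' i' + val T P W') :
    s = s' ∧ (i ≠ i' → Multiset.card W = s - 1 ∧ yy T P s i + val T P W = jj T P s) := by
  have h1 := yy_add (P := P) hs hi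
  have h2 := yy_add (P := P) hs' hi'
  have h3 : jj T P s + (s'-1) * xx T P s' i' + val T P W
      = jj T P s' + (s-1) * xx T P s i + val T P W' := by omega
  obtain ⟨hss, hcount⟩ := kap_compare hs hs' (by omega) (by omega) hi' hi hW hW' (by omega) (by omega) h3
  refine ⟨hss, ?_⟩
  intro hne
  subst hss
  have h4 := hcount (idx P s i) (idx_ne_tau hs hi) (idx_ne_kap hi)
  have h5 : idx P s i' ≠ idx P s i := by
    intro he
    exact hne (idx_inj (by omega) (by omega) he).2.symm
  rw [if_neg h5, if_pos rfl, zero_add] at h4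
  have h6 : s - 1 ≤ W.count (idx P s i) := by omega
  have h7 : W.count (idx P s i) ≤ Multiset.card W := Multiset.count_le_card _ _
  have h8 : Multiset.card W = s - 1 := by omega
  refine ⟨h8, ?_⟩
  have h9 : W = Multiset.replicate (s-1) (idx P s i) := by
    rw [Multiset.eq_replicate]
    refine ⟨h8, ?_⟩
    have h10 : W.count (idx P s i) = Multiset.card W := by omega
    intro b hb
    exact (Multiset.count_eq_card.1 h10 b hb).symm
  have h11 : val T P W = (s-1) * xx T P s i := by
    rw [h9, val, dg_replicate, Multiset.card_replicate, mul_xx]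
  rw [h11]; exact h1

lemma nsmul_mem_SE {E : Finset ℕ} {x : ℕ} (hx : x ∈ E) (n : ℕ) : n * x ∈ SE E n := by
  induction n with
  | zero => simp [SE]
  | succ n ih => rw [mem_SE_succ]; exact ⟨_, ih, x, hx, by ring⟩

lemma SE_mono_le (h : ℕ → ℕ) {t t' j : ℕ} (htt : t ≤ t') (hj : j ∈ SE (EE T P) t) :
    j ∈ SE (EE T P) t' := by
  induction t', htt using Nat.le_induction with
  | base => exact hj
  | succ t' _ ih => exact SE_mono (data h) ih

lemma jj_mem {s : ℕ} (hs1 : 1 ≤ s) (hs : s < T) : jj T P s ∈ SE (EE T P) (s+1) := by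
  rw [mem_SE_succ]
  refine ⟨s * xx T P s P, nsmul_mem_SE ?_ s, vv T P s, ?_, ?_⟩
  · rw [mem_EE]; exact Or.inr (Or.inl ⟨s, P, hs1, hs.le, le_rfl, rfl⟩)
  · rw [mem_EE]; exact Or.inr (Or.inr (Or.inl ⟨s, hs1, hs, rfl⟩))
  · have := vv_add (P := P) hs.le; omega

lemma card_bound {W : Multiset ℕ} (h : val T P W < mm T P) : Multiset.card W ≤ 4 * T + 2 := by
  have h1 : Multiset.card W * th T P < (RR T + 1) * th T P := by
    unfold val mm at h; omega
  have h2 := Nat.lt_of_mul_lt_mul_right h1
  unfold RR at h2; omega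

lemma jj_notMem {s t : ℕ} (hs1 : 1 ≤ s) (hs : s ≤ T) (hj : jj T P s ∈ SE (EE T P) t) :
    s < T ∧ s + 1 ≤ t := by
  have hlt := jj_lt (P := P) hs
  obtain ⟨W, hW, hc, hval⟩ := rep t _ hj hlt
  rcases hval with hval | ⟨r, h1, h2, h3, h4⟩
  · exfalso
    have hcb := card_bound (T := T) (P := P) (W := W) (by omega)
    have h5 : RR T * th T P + dg (BB T) {idx P s (P+1)} = Multiset.card W * th T P + dg (BB T) W := by
      rw [dg_singleton]
      unfold jj val at hval; exact hval
    have h6 := dg_eq (T := T) (P := P) (by simp only [Multiset.card_singleton]; unfold RR BB; omega)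
      (by unfold BB; omega) h5 (idx P s (P+1)) (kap_ne_tau hs)
    rw [count_kap s W hW, Multiset.count_singleton_self] at h6
    omega
  · have h5 := vv_add (P := P) h2.le
    have hcb := card_bound (T := T) (P := P) (W := W) (by omega)
    have h6 : jj T P s + r * xx T P r P + val T P 0 = jj T P r + 0 * xx T P 0 0 + val T P W := by
      have : val T P 0 = 0 := by simp [val, dg]
      rw [this]
      omega
    obtain ⟨hsr, hcount⟩ := kap_compare hs h2.le h2.le (Nat.zero_le _) le_rfl (Nat.zero_le _)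
      (by simp) hW (by simp) hcb h6
    subst hsr
    have h7 := hcount (idx P s P) (idx_ne_tau hs le_rfl) (idx_ne_kap le_rfl)
    rw [if_pos rfl, Multiset.count_zero, ite_self, zero_add, add_zero] at h7
    have h8 : W.count (idx P s P) ≤ Multiset.card W := Multiset.count_le_card _ _
    omega

/-- marks at `jj s` -/
lemma marks_jj (h : ℕ → ℕ) {s t : ℕ} (hs1 : 1 ≤ s) (hs : s ≤ T) (i : Fin P)
    (hi : (jj T P s, i) ∈ SY (EE T P) (YY T P h) t) : (i : ℕ) < h s := by
  obtain ⟨y, hy, σ, hσ, hsum⟩ := (mem_SY _ _ _ _ _).1 hi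
  obtain ⟨s', hs1', hs', hi', rfl⟩ := (mem_YY h y i).1 hy
  have hlt := jj_lt (P := P) hs
  obtain ⟨W, hW, hc, hc', rfl⟩ := rep_y hs' hs1' i.2.le t σ hσ (by omega)
  have h1 := yy_add (P := P) hs' i.2.le
  have h6 : jj T P s + (s'-1) * xx T P s' i + val T P 0 = jj T P s' + 0 * xx T P 0 0 + val T P W := by
    have : val T P 0 = 0 := by simp [val, dg]
    rw [this]
    omega
  obtain ⟨hsr, -⟩ := kap_compare hs hs' (by omega) (Nat.zero_le _) i.2.le (Nat.zero_le _)
      (by simp) hW (by simp) (by omega) h6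
  rw [hsr]; exact hi'

lemma marks_jj' (h : ℕ → ℕ) {s t : ℕ} (hs1 : 1 ≤ s) (hs : s ≤ T) (hst : s ≤ t) (i : Fin P)
    (hi : (i : ℕ) < h s) : (jj T P s, i) ∈ SY (EE T P) (YY T P h) (t-1) := by
  rw [mem_SY]
  refine ⟨yy T P s i, (mem_YY _ _ _).2 ⟨s, hs1, hs, hi, rfl⟩, (s-1) * xx T P s i,
    SE_mono_le h (show s - 1 ≤ t - 1 by omega) (nsmul_mem_SE ?_ _), yy_add hs i.2.le⟩
  rw [mem_EE]; exact Or.inr (Or.inl ⟨s, i, hs1, hs, i.2.le, rfl⟩)

lemma card_filter_lt (n : ℕ) (hn : n ≤ P) :
    (Finset.univ.filter (fun i : Fin P => (i : ℕ) < n)).card = n := by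
  have := Fin.card_filter_val_lt (n := P) (m := n)
  omega

/-- the combinatorial heart -/
lemma heart (h : ℕ → ℕ) (hT : 1 ≤ T) (hh : ∀ s, 1 ≤ s → s ≤ T → 1 ≤ h s ∧ h s ≤ P) (t : ℕ) (ht : 1 ≤ t) :
    (∀ j, j ∉ SE (EE T P) t → (VV (SY (EE T P) (YY T P h) (t-1)) j).card ≤ h (min t T)) ∧
    jj T P (min t T) ∉ SE (EE T P) t ∧
    (VV (SY (EE T P) (YY T P h) (t-1)) (jj T P (min t T))).card = h (min t T) := by
  have hs1 : 1 ≤ min t T := by omega
  have hs2 : min t T ≤ T := by omega
  have hcardjj : (VV (SY (EE T P) (YY T P h) (t-1)) (jj T P (min t T))).card = h (min t T) := by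
    have : VV (SY (EE T P) (YY T P h) (t-1)) (jj T P (min t T))
        = Finset.univ.filter (fun i : Fin P => (i : ℕ) < h (min t T)) := by
      ext i
      simp only [VV, Finset.mem_filter, Finset.mem_univ, true_and]
      constructor
      · intro hi; exact marks_jj h hs1 hs2 i hi
      · intro hi; exact marks_jj' h hs1 hs2 (by omega) i hi
    rw [this, card_filter_lt _ (hh _ hs1 hs2).2]
  refine ⟨?_, ?_, hcardjj⟩
  · intro j hj
    by_cases hle : (VV (SY (EE T P) (YY T P h) (t-1)) j).card ≤ 1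
    · exact hle.trans (hh _ hs1 hs2).1
    · rw [not_le, Finset.one_lt_card] at hle
      obtain ⟨i, hi, i', hi', hne⟩ := hle
      simp only [VV, Finset.mem_filter, Finset.mem_univ, true_and] at hi hi'
      obtain ⟨y, hy, σ, hσ, hsum⟩ := (mem_SY _ _ _ _ _).1 hi
      obtain ⟨y', hy', σ', hσ', hsum'⟩ := (mem_SY _ _ _ _ _).1 hi'
      obtain ⟨s, h1, h2, h3, rfl⟩ := (mem_YY h y i).1 hy
      obtain ⟨s', h1', h2', h3', rfl⟩ := (mem_YY h y' i').1 hy'
      by_cases hjm : mm T P ≤ j
      · exfalso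
        apply hj
        refine SE_icc (data h) t j ht hjm ?_
        have e1 := SE_le (data h) _ _ hσ
        have e2 := (data (P := P) h).Yle _ hy
        simp only at e2
        have e3 : 2 * mm T P * t = 2 * mm T P * (t-1) + 2 * mm T P := by
          obtain ⟨u, rfl⟩ : ∃ u, t = u + 1 := ⟨t-1, by omega⟩
          rw [Nat.add_sub_cancel]; ring
        omega
      · obtain ⟨W, hW, hc, hcs, rfl⟩ := rep_y h2 h1 i.2.le _ σ hσ (by omega)
        obtain ⟨W', hW', hc', hcs', rfl⟩ := rep_y h2' h1' i'.2.le _ σ' hσ' (by omega)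
        obtain ⟨hss, hmeet⟩ := meet h1 h2 h1' h2' i.2.le i'.2.le hW hW' hcs hcs' (by omega)
        have hne' : (i : ℕ) ≠ (i' : ℕ) := fun he => hne (Fin.ext he)
        obtain ⟨hcW, hjj⟩ := hmeet hne'
        have hj2 : j = jj T P s := by omega
        subst hj2
        have hst : min t T = s := by
          by_contra hmin
          apply hj
          have hsT : s < T := by omega
          have hst2 : s + 1 ≤ t := by omega
          exact SE_mono_le h hst2 (jj_mem h1 hsT)
        rw [← hst]
        exact hcardjj.le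
  · intro hmem
    obtain ⟨ha, hb⟩ := jj_notMem hs1 hs2 hmem
    omega

theorem main_pd (k : Type) [Field k] (h : ℕ → ℕ) (hT : 1 ≤ T)
    (hh : ∀ s, 1 ≤ s → s ≤ T → 1 ≤ h s ∧ h s ≤ P) (t : ℕ) (ht : 1 ≤ t) (m : ℕ) :
    HasProjectiveDimensionLE (ModuleCat.of (MvPolynomial (Fin (P+2)) k)
      ↥((MI k (UU P (2 * mm T P) (EE T P) (YY T P h))) ^ t)) m ↔ h (min t T) + 1 ≤ m := by
  obtain ⟨h1, h2, h3⟩ := heart (P := P) h hT hh t ht
  exact pd_pow (data h) t ht _ (hh _ (by omega) (by omega)).1 h1 _ h2 (jj_lt (by omega)) h3 m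

end Pool.V1147.PosFin
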