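import Mathlib
import Pool.Agent.V1147.Def2Pow
import Pool.Agent.V1147.PosFin

set_option autoImplicit false

namespace Pool.V1147.Def2Num

open Pool.V1147.PosPow Pool.V1147.PosPd Pool.V1147.PosNum Pool.V1147.PosFin Pool.V1147.Def2

section
variable (T P : ℕ)

/-- the shift -/
def dl : ℕ := (BB T) ^ 1
def gg (s : ℕ) : ℕ := jj T P s + dl T - (s-1) * xx T P s P

variable {T P}

lemma gg_add {s : ℕ} (hs : s ≤ T) : gg T P s + (s-1) * xx T P s P = jj T P s + dl T := by
  unfold gg
  refine Nat.sub_add_cancel ?_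
  have h1 := yy_add (T := T) (P := P) hs (le_refl P)
  omega

lemma big_gg {s : ℕ} (hs : s ≤ T) : (2 * T + 1) * th T P ≤ gg T P s := by
  have h1 := yy_add (T := T) (P := P) hs (le_refl P)
  have h2 := big_yy (T := T) (P := P) hs (le_refl P)
  have h3 := gg_add (T := T) (P := P) hs
  omega

lemma tau_pos : 2 ≤ tau T P := by
  unfold tau
  calc 2 = 2 * 1 := rfl
    _ ≤ (P+2) * (T+1) := Nat.mul_le_mul (by omega) (by omega)

lemma dl_lt : dl T < th T P := by
  unfold dl th
  refine Nat.pow_lt_pow_right ?_ (by have := tau_pos (T := T) (P := P); omega)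
  unfold BB; omega

lemma th_gt : 2 < th T P := by
  have h1 : dl T < th T P := dl_lt
  unfold dl at h1
  rw [pow_one] at h1
  unfold BB at h1
  omega

lemma th_le_mm : th T P ≤ mm T P := by
  unfold mm
  calc th T P = 1 * th T P := by ring
    _ ≤ _ := Nat.mul_le_mul_right _ (by omega)

/-- pure positions in the next degree -/
def GG (T P : ℕ) (h : ℕ → ℕ) : Finset ℕ :=
  EE T P ∪ (EE T P).image (· + 1) ∪ (YY T P h).image (fun q => q.1) ∪
    (YY T P h).image (fun q => q.1 + 1) ∪ (Finset.Icc 1 T).image (gg T P) ∪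
    Finset.Icc (mm T P) (2 * mm T P + 1)

lemma mem_GG (h : ℕ → ℕ) (g : ℕ) : g ∈ GG T P h ↔ (g ∈ EE T P ∨ (∃ e ∈ EE T P, g = e + 1) ∨
    (∃ q ∈ YY T P h, g = q.1) ∨ (∃ q ∈ YY T P h, g = q.1 + 1) ∨ (∃ s, 1 ≤ s ∧ s ≤ T ∧ g = gg T P s) ∨
    (mm T P ≤ g ∧ g ≤ 2 * mm T P + 1)) := by
  simp only [GG, Finset.mem_union, Finset.mem_image, Finset.mem_Icc]
  constructor
  · rintro (((((h1 | ⟨e, he, rfl⟩) | ⟨q, hq, rfl⟩) | ⟨q, hq, rfl⟩) | ⟨s, hs, rfl⟩) | h1)
    · exact Or.inl h1
    · exact Or.inr (Or.inl ⟨e, he, rfl⟩)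
    · exact Or.inr (Or.inr (Or.inl ⟨q, hq, rfl⟩))
    · exact Or.inr (Or.inr (Or.inr (Or.inl ⟨q, hq, rfl⟩)))
    · exact Or.inr (Or.inr (Or.inr (Or.inr (Or.inl ⟨s, hs.1, hs.2, rfl⟩))))
    · exact Or.inr (Or.inr (Or.inr (Or.inr (Or.inr h1))))
  · rintro (h1 | ⟨e, he, rfl⟩ | ⟨q, hq, rfl⟩ | ⟨q, hq, rfl⟩ | ⟨s, hs1, hs2, rfl⟩ | h1)
    · exact Or.inl (Or.inl (Or.inl (Or.inl (Or.inl h1))))
    · exact Or.inl (Or.inl (Or.inl (Or.inl (Or.inr ⟨e, he, rfl⟩))))
    · exact Or.inl (Or.inl (Or.inl (Or.inr ⟨q, hq, rfl⟩)))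
    · exact Or.inl (Or.inl (Or.inr ⟨q, hq, rfl⟩))
    · exact Or.inl (Or.inr ⟨s, ⟨hs1, hs2⟩, rfl⟩)
    · exact Or.inr h1

lemma YY_lt (h : ℕ → ℕ) (q : ℕ × Fin P) (hq : q ∈ YY T P h) :
    (2 * T + 1) * th T P ≤ q.1 ∧ q.1 < mm T P := by
  obtain ⟨y, i⟩ := q
  obtain ⟨s, hs1, hs2, hi, rfl⟩ := (mem_YY h y i).1 hq
  have h1 := yy_add (P := P) hs2 i.2.le
  have h2 := jj_lt (P := P) hs2
  have h3 := big_yy (P := P) hs2 i.2.le
  exact ⟨h3, by simp only; omega⟩

lemma data2 (h : ℕ → ℕ) : Data2 (EE T P) (GG T P h) (YY T P h) (dl T) (2 * mm T P) (mm T P) := by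
  have hd : dl T < th T P := dl_lt
  have ht : th T P ≤ mm T P := th_le_mm
  have h2 : 2 < th T P := th_gt
  refine ⟨data h, ?_, ?_, ?_, ?_, ?_, ?_, ?_, ?_⟩
  · intro q hq
    have := (YY_lt h q hq).2
    omega
  · intro g hg
    rw [mem_GG] at hg
    rcases hg with hg | ⟨e, he, rfl⟩ | ⟨q, hq, rfl⟩ | ⟨q, hq, rfl⟩ | ⟨s, hs1, hs2, rfl⟩ | hg
    · have := (data (P := P) h).le_d g hg; omega
    · have := (data (P := P) h).le_d e he; omega
    · have := (YY_lt h q hq).2; omega
    · have := (YY_lt h q hq).2; omega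
    · have h1 := gg_add (P := P) hs2
      have h3 := jj_lt (P := P) hs2
      omega
    · exact hg.2
  · intro g h1 h2
    rw [mem_GG]; exact Or.inr (Or.inr (Or.inr (Or.inr (Or.inr ⟨h1, h2⟩))))
  · intro e he; rw [mem_GG]; exact Or.inl he
  · intro e he; rw [mem_GG]; exact Or.inr (Or.inl ⟨e, he, rfl⟩)
  · intro q hq; rw [mem_GG]; exact Or.inr (Or.inr (Or.inl ⟨q, hq, rfl⟩))
  · intro q hq; rw [mem_GG]; exact Or.inr (Or.inr (Or.inr (Or.inl ⟨q, hq, rfl⟩)))
  · intro g hg q hq
    have hq1 := (YY_lt h q hq).1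
    rw [mem_GG] at hg
    rcases hg with hg | ⟨e, he, rfl⟩ | ⟨q', hq', rfl⟩ | ⟨q', hq', rfl⟩ | ⟨s, hs1, hs2, rfl⟩ | hg
    · right
      exact ⟨q.1, by rw [mem_GG]; exact Or.inr (Or.inr (Or.inl ⟨q, hq, rfl⟩)), g, hg, by omega⟩
    · right
      exact ⟨q.1 + 1, by rw [mem_GG]; exact Or.inr (Or.inr (Or.inr (Or.inl ⟨q, hq, rfl⟩))), e, he, by omega⟩
    · left
      exact two_big (YY_lt h q' hq').1 hq1
    · left
      have := two_big (YY_lt h q' hq').1 hq1
      omega
    · left
      exact two_big (big_gg hs2) hq1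
    · left; omega

lemma dg_le (W : Multiset ℕ) (m : ℕ) (hW : ∀ a ∈ W, a ≤ m) : dg (BB T) W ≤ Multiset.card W * (BB T) ^ m := by
  induction W using Multiset.induction_on with
  | empty => simp [dg]
  | cons a W ih =>
    rw [dg_cons, Multiset.card_cons, Nat.add_mul, one_mul]
    have h1 := ih (fun b hb => hW b (Multiset.mem_cons_of_mem hb))
    have h2 : (BB T) ^ a ≤ (BB T) ^ m := Nat.pow_le_pow_right BB_pos (hW a (Multiset.mem_cons_self _ _))
    omega

/-- the position stays below `mm` after the shift -/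
lemma shift_lt {s i : ℕ} {W : Multiset ℕ} (hs : s ≤ T) (hi : i ≤ P) (hW : ∀ a ∈ W, small T P a)
    (hc : Multiset.card W ≤ s - 1) : yy T P s i + val T P W + dl T < mm T P := by
  have h1 := yy_add (P := P) hs hi
  rw [mul_xx] at h1
  have h2 : val T P W = Multiset.card W * th T P + dg (BB T) W := rfl
  have h3 : Multiset.card W * th T P ≤ (s-1) * th T P := Nat.mul_le_mul_right _ hc
  have h4 : jj T P s = RR T * th T P + (BB T) ^ (idx P s (P+1)) := rfl
  have h5 : mm T P = RR T * th T P + th T P := by unfold mm; ring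
  have ht := tau_pos (T := T) (P := P)
  have h6 : dg (BB T) W ≤ Multiset.card W * (BB T) ^ (tau T P - 1) := dg_le W _ (by
    intro a ha
    have := small_lt_tau (hW a ha)
    omega)
  have h7 : (BB T) ^ (idx P s (P+1)) ≤ (BB T) ^ (tau T P - 1) := by
    refine Nat.pow_le_pow_right BB_pos ?_
    have := idx_lt_tau (T := T) (P := P) hs (le_refl (P+1))
    omega
  have h8 : dl T ≤ (BB T) ^ (tau T P - 1) := Nat.pow_le_pow_right BB_pos (by omega)
  have h9 : th T P = BB T * (BB T) ^ (tau T P - 1) := by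
    unfold th
    rw [← pow_succ', Nat.sub_add_cancel (by omega)]
  have h10 : Multiset.card W * (BB T) ^ (tau T P - 1) + (BB T) ^ (tau T P - 1) + (BB T) ^ (tau T P - 1)
      < th T P := by
    rw [h9]
    have : Multiset.card W * (BB T) ^ (tau T P - 1) + (BB T) ^ (tau T P - 1) + (BB T) ^ (tau T P - 1)
      = (Multiset.card W + 2) * (BB T) ^ (tau T P - 1) := by ring
    rw [this]
    refine Nat.mul_lt_mul_of_pos_right ?_ (Nat.pow_pos BB_pos)
    unfold BB; omega
  omega

lemma idx_ne_one {s i : ℕ} (hs : 1 ≤ s) : idx P s i ≠ 1 := by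
  unfold idx
  have : (P + 2) * 1 ≤ (P + 2) * s := Nat.mul_le_mul_left _ hs
  omega

lemma small_ne_one {a : ℕ} (h : small T P a) : a ≠ 1 := by
  obtain ⟨s, i, h1, _, _, rfl⟩ := h
  exact idx_ne_one h1

lemma count_one_small {W : Multiset ℕ} (hW : ∀ a ∈ W, small T P a) : W.count 1 = 0 := by
  rw [Multiset.count_eq_zero]
  intro h
  exact small_ne_one (hW _ h) rfl

/-- a number with shift digit is not a number without -/
lemma delta_ne {n n' : ℕ} {U U' : Multiset ℕ} (hU : n + (Multiset.card U + 1) < BB T)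
    (hU' : n' + Multiset.card U' < BB T) (h1 : U'.count 1 = 0) :
    n * th T P + (dg (BB T) U + dl T) ≠ n' * th T P + dg (BB T) U' := by
  intro h
  have h2 : n * th T P + dg (BB T) (1 ::ₘ U) = n' * th T P + dg (BB T) U' := by
    rw [dg_cons, ← h]
    unfold dl; ring
  have ht := tau_pos (T := T) (P := P)
  have h3 := dg_eq (T := T) (P := P) (by rw [Multiset.card_cons]; exact hU) hU' h2 1 (by omega)
  rw [Multiset.count_cons_self, h1] at h3
  omega

/-- main comparison, in additive form -/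
lemma no_pure {s i r a b z : ℕ} {W W' : Multiset ℕ} (hs1 : 1 ≤ s) (hs : s ≤ T) (hi : i ≤ P)
    (hW : ∀ a ∈ W, small T P a) (hW' : ∀ a ∈ W', small T P a)
    (hc : Multiset.card W ≤ T) (hc' : Multiset.card W' ≤ 4 * T + 2) (hr : r ≤ T) (ha : 1 ≤ a)
    (hz : z ≤ 1) (hb : 1 ≤ b) :
    (jj T P s + r * xx T P a P + val T P W + dl T ≠ (s-1) * xx T P s i + val T P W' + z) ∧
    (∀ i', jj T P s + r * xx T P a i' + val T P W + dl T ≠ jj T P b + (s-1) * xx T P s i + val T P W' + z) := by
  have hz' : z = dg (BB T) (Multiset.replicate z 0) := by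
    rw [dg_replicate, pow_zero, mul_one]
  constructor
  · intro h
    rw [mul_xx, mul_xx] at h
    have h1 : (RR T + r + Multiset.card W) * th T P +
        (dg (BB T) ({idx P s (P+1)} + (Multiset.replicate r (idx P a P) + W)) + dl T)
        = ((s-1) + Multiset.card W') * th T P +
        dg (BB T) (Multiset.replicate (s-1) (idx P s i) + (W' + Multiset.replicate z 0)) := by
      rw [dg_add, dg_add, dg_add, dg_add, dg_replicate, dg_replicate, dg_singleton, ← hz']
      unfold jj val at h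
      simp only [Nat.add_mul]
      omega
    refine delta_ne ?_ ?_ ?_ h1
    · simp only [Multiset.card_add, Multiset.card_singleton, Multiset.card_replicate]
      unfold RR BB; omega
    · simp only [Multiset.card_add, Multiset.card_replicate]
      unfold BB; omega
    · rw [Multiset.count_add, Multiset.count_add, Multiset.count_replicate, Multiset.count_replicate,
        if_neg (idx_ne_one hs1), count_one_small hW', if_neg (by omega)]
  · intro i' h
    rw [mul_xx, mul_xx] at h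
    have h1 : (RR T + r + Multiset.card W) * th T P +
        (dg (BB T) ({idx P s (P+1)} + (Multiset.replicate r (idx P a i') + W)) + dl T)
        = (RR T + (s-1) + Multiset.card W') * th T P +
        dg (BB T) ({idx P b (P+1)} + (Multiset.replicate (s-1) (idx P s i) + (W' + Multiset.replicate z 0))) := by
      rw [dg_add, dg_add, dg_add, dg_add, dg_add, dg_replicate, dg_replicate, dg_singleton, dg_singleton, ← hz']
      unfold jj val at h
      simp only [Nat.add_mul]
      omega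
    refine delta_ne ?_ ?_ ?_ h1
    · simp only [Multiset.card_add, Multiset.card_singleton, Multiset.card_replicate]
      unfold RR BB; omega
    · simp only [Multiset.card_add, Multiset.card_singleton, Multiset.card_replicate]
      unfold RR BB; omega
    · rw [Multiset.count_add, Multiset.count_add, Multiset.count_add, Multiset.count_replicate,
        Multiset.count_replicate,
        if_neg (idx_ne_one hs1), count_one_small hW', if_neg (by omega), Multiset.count_singleton,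
        if_neg (idx_ne_one hb).symm]

/-- a representation of a small marked position -/
lemma rep_mark (h : ℕ → ℕ) (t p : ℕ) (i : Fin P) (hp : (p, i) ∈ SY (EE T P) (YY T P h) t)
    (hpm : p < mm T P) : ∃ s W, 1 ≤ s ∧ s ≤ T ∧ (i : ℕ) < h s ∧ (∀ a ∈ W, small T P a) ∧
      Multiset.card W ≤ t ∧ Multiset.card W ≤ s - 1 ∧ p = yy T P s i + val T P W := by
  obtain ⟨y, hy, σ, hσ, hsum⟩ := (mem_SY _ _ _ _ _).1 hp
  obtain ⟨s, h1, h2, h3, rfl⟩ := (mem_YY h y i).1 hy
  obtain ⟨W, hW, hc, hcs, rfl⟩ := rep_y h2 h1 i.2.le _ σ hσ (by omega)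
  exact ⟨s, W, h1, h2, h3, hW, hc, hcs, hsum.symm⟩

lemma mark_le (h : ℕ → ℕ) (t p : ℕ) (i : Fin P) (hp : (p, i) ∈ SY (EE T P) (YY T P h) t)
    (hpm : mm T P ≤ p) : p ∈ SE (EE T P) (t+1) := by
  refine SE_icc (data h) (t+1) p (by omega) hpm ?_
  obtain ⟨y, hy, σ, hσ, hsum⟩ := (mem_SY _ _ _ _ _).1 hp
  have e1 := SE_le (data h) _ _ hσ
  have e2 := (data (P := P) h).Yle _ hy
  simp only at e2
  rw [Nat.mul_succ]; omega

lemma jj_dl_mem (h : ℕ → ℕ) {s t : ℕ} (hs1 : 1 ≤ s) (hs : s ≤ T) (hst : s - 1 ≤ t) :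
    jj T P s + dl T ∈ SG (GG T P h) (EE T P) t := by
  rw [mem_SG]
  refine ⟨gg T P s, ?_, (s-1) * xx T P s P, ?_, gg_add hs⟩
  · rw [mem_GG]; exact Or.inr (Or.inr (Or.inr (Or.inr (Or.inl ⟨s, hs1, hs, rfl⟩))))
  · refine SE_mono_le h hst (nsmul_mem_SE ?_ _)
    rw [mem_EE]; exact Or.inr (Or.inl ⟨s, P, hs1, hs, le_rfl, rfl⟩)

/-- the marks are exposed only at the distinguished position -/
lemma expo (h : ℕ → ℕ) (t p : ℕ) (i : Fin P) (hp : (p, i) ∈ SY (EE T P) (YY T P h) t)
    (hpE : p ∉ SE (EE T P) (t+1)) (hpG : p + dl T ∈ SG (GG T P h) (EE T P) t) :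
    p = jj T P (min (t+1) T) := by
  have hpm : p < mm T P := by
    by_contra hcon
    exact hpE (mark_le h t p i hp (by omega))
  obtain ⟨s, W, hs1, hs2, his, hW, hc, hcs, rfl⟩ := rep_mark h t p i hp hpm
  have hlt := shift_lt (T := T) (P := P) (i := (i : ℕ)) hs2 i.2.le hW hcs
  have hyy := yy_add (T := T) (P := P) hs2 i.2.le
  obtain ⟨g, hg, σ, hσ, hsum⟩ := (mem_SG _ _ _ _).1 hpG
  have hcT : Multiset.card W ≤ T := by omega
  -- the case of a pure element plus `z`
  have pureCase : ∀ z ρ, z ≤ 1 → ρ ∈ SE (EE T P) (t+1) → yy T P s i + val T P W + dl T = ρ + z → False := by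
    intro z ρ hz hρ heq
    obtain ⟨W', hW', hc', hval⟩ := rep (t+1) ρ hρ (by omega)
    rcases hval with hval | ⟨r, hr1, hr2, hr3, hr4⟩
    · have hcb := card_bound (T := T) (P := P) (W := W') (by omega)
      refine (no_pure (T := T) (P := P) (r := 0) (a := 1) (b := 1) (z := z) hs1 hs2 i.2.le hW hW' hcT hcb
        (Nat.zero_le _) le_rfl hz le_rfl).1 ?_
      rw [zero_mul]; omega
    · have hcb := card_bound (T := T) (P := P) (W := W') (by omega)
      have hvv := vv_add (T := T) (P := P) hr2.le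
      refine (no_pure (T := T) (P := P) (r := r) (a := r) (b := r) (z := z) hs1 hs2 i.2.le hW hW' hcT hcb
        hr2.le hr1 hz hr1).2 P ?_
      omega
  have markCase : ∀ z, z ≤ 1 → ∀ q ∈ YY T P h, g = q.1 + z → False := by
    rintro z hz ⟨w, i'⟩ hq rfl
    obtain ⟨s', h1', h2', h3', rfl⟩ := (mem_YY h w i').1 hq
    simp only at hsum
    obtain ⟨W', hW', hc', hcs', rfl⟩ := rep_y h2' h1' i'.2.le _ σ hσ (by omega)
    have hyy' := yy_add (T := T) (P := P) h2' i'.2.le
    refine (no_pure (T := T) (P := P) (r := s' - 1) (a := s') (b := s') (z := z) hs1 hs2 i.2.le hW hW' hcT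
      (by omega) (by omega) h1' hz h1').2 i' ?_
    omega
  rw [mem_GG] at hg
  rcases hg with hg | ⟨e, he, rfl⟩ | ⟨q, hq, hgq⟩ | ⟨q, hq, hgq⟩ | ⟨s', h1', h2', rfl⟩ | hg
  · exfalso
    exact pureCase 0 (g + σ) (by omega) (by rw [Nat.add_comm g]; exact (mem_SE_succ _ _ _).2 ⟨σ, hσ, g, hg, rfl⟩)
      (by omega)
  · exfalso
    exact pureCase 1 (e + σ) (by omega) (by rw [Nat.add_comm e]; exact (mem_SE_succ _ _ _).2 ⟨σ, hσ, e, he, rfl⟩)
      (by omega)
  · exact (markCase 0 (by omega) q hq hgq).elim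
  · exact (markCase 1 le_rfl q hq hgq).elim
  · obtain ⟨W', hW', hc', hval⟩ := rep t σ hσ (by omega)
    rcases hval with hval | ⟨r, hr1, hr2, hr3, hr4⟩
    · have hcb := card_bound (T := T) (P := P) (W := W') (by omega)
      have hgg := gg_add (T := T) (P := P) h2'
      have h6 : jj T P s + (s'-1) * xx T P s' P + val T P W
          = jj T P s' + (s-1) * xx T P s i + val T P W' := by omega
      obtain ⟨hss, hcount⟩ := kap_compare hs2 h2' (by omega) (by omega) le_rfl i.2.le hW hW' (by omega)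
        hcb h6
      subst hss
      have h7 := hcount (idx P s i) (idx_ne_tau hs2 i.2.le) (idx_ne_kap i.2.le)
      have h5 : idx P s P ≠ idx P s i := by
        intro he
        have := (idx_inj (by omega) (by omega) he).2
        omega
      rw [if_neg h5, if_pos rfl, zero_add] at h7
      have h8 : W.count (idx P s i) ≤ Multiset.card W := Multiset.count_le_card _ _
      have h9 : Multiset.card W = s - 1 := by omega
      have h10 : W = Multiset.replicate (s-1) (idx P s i) := by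
        rw [Multiset.eq_replicate]
        refine ⟨h9, ?_⟩
        have h11 : W.count (idx P s i) = Multiset.card W := by omega
        intro b hb
        exact (Multiset.count_eq_card.1 h11 b hb).symm
      have h11 : val T P W = (s-1) * xx T P s i := by
        rw [h10, val, dg_replicate, Multiset.card_replicate, mul_xx]
      have hpj : yy T P s i + val T P W = jj T P s := by rw [h11]; exact hyy
      rw [hpj] at hpE ⊢
      have hst : min (t+1) T = s := by
        by_contra hmin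
        apply hpE
        exact SE_mono_le h (show s + 1 ≤ t + 1 by omega) (jj_mem hs1 (by omega))
      rw [hst]
    · exfalso
      have := two_big (big_gg (P := P) h2') (big_vv (P := P) hr2.le)
      omega
  · exfalso
    omega

/-- hidden marks are unique -/
lemma uniq (h : ℕ → ℕ) (t p : ℕ) (i j : Fin P) (hi : (p, i) ∈ SY (EE T P) (YY T P h) t)
    (hj : (p, j) ∈ SY (EE T P) (YY T P h) t) (hpE : p ∉ SE (EE T P) (t+1))
    (hpG : p + dl T ∉ SG (GG T P h) (EE T P) t) : i = j := by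
  by_contra hne
  have hpm : p < mm T P := by
    by_contra hcon
    exact hpE (mark_le h t p i hi (by omega))
  obtain ⟨s, W, hs1, hs2, his, hW, hc, hcs, hp1⟩ := rep_mark h t p i hi hpm
  obtain ⟨s', W', hs1', hs2', his', hW', hc', hcs', hp2⟩ := rep_mark h t p j hj hpm
  obtain ⟨hss, hmeet⟩ := meet hs1 hs2 hs1' hs2' i.2.le j.2.le hW hW' hcs hcs' (by omega)
  have hne' : (i : ℕ) ≠ (j : ℕ) := fun he => hne (Fin.ext he)
  obtain ⟨hcW, hjj⟩ := hmeet hne'
  apply hpG
  rw [hp1, hjj]
  exact jj_dl_mem h hs1 hs2 (by omega)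

lemma SE_small (t σ : ℕ) (hσ : σ ∈ SE (EE T P) t) : σ = 0 ∨ th T P ≤ σ := by
  induction t generalizing σ with
  | zero => simp [SE] at hσ; exact Or.inl hσ
  | succ t ih =>
    obtain ⟨a, ha, e, he, rfl⟩ := (mem_SE_succ _ _ _).1 hσ
    rcases ih a ha with rfl | h1
    · rw [mem_EE] at he
      rcases he with rfl | ⟨s, i, hs1, hs2, hi, rfl⟩ | ⟨s, hs1, hs2, rfl⟩ | he
      · left; rfl
      · right; unfold xx; omega
      · right
        have := big_vv (P := P) hs2.le
        have h2 : 1 * th T P ≤ (2 * T + 1) * th T P := Nat.mul_le_mul_right _ (by omega)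
        omega
      · right
        have := th_le_mm (T := T) (P := P)
        omega
    · right; omega

/-- position `2` is free -/
lemma two_notMem (h : ℕ → ℕ) (t : ℕ) : 2 ∉ SG (GG T P h) (EE T P) t ∧
    ∀ p i, (p, i) ∈ SY (EE T P) (YY T P h) t → p + dl T ≠ 2 := by
  have ht : 2 < th T P := th_gt
  have h2 : 1 * th T P ≤ (2 * T + 1) * th T P := Nat.mul_le_mul_right _ (by omega)
  have hm := th_le_mm (T := T) (P := P)
  constructor
  · intro hmem
    obtain ⟨g, hg, σ, hσ, hsum⟩ := (mem_SG _ _ _ _).1 hmem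
    rw [mem_GG] at hg
    rcases hg with hg | ⟨e, he, rfl⟩ | ⟨q, hq, rfl⟩ | ⟨q, hq, rfl⟩ | ⟨s', h1', h2', rfl⟩ | hg
    · rcases SE_small 1 g (mem_SE_one hg) with h1 | h1 <;> rcases SE_small t σ hσ with h3 | h3 <;> omega
    · rcases SE_small 1 e (mem_SE_one he) with h1 | h1 <;> rcases SE_small t σ hσ with h3 | h3 <;> omega
    · have := (YY_lt h q hq).1; omega
    · have := (YY_lt h q hq).1; omega
    · have := big_gg (P := P) h2'; omega
    · omega
  · intro p i hp
    obtain ⟨y, hy, σ, hσ, hsum⟩ := (mem_SY _ _ _ _ _).1 hp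
    have := (YY_lt h _ hy).1
    simp only at this
    omega

end

end Pool.V1147.Def2Num
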