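import Mathlib
import Pool.Agent.V1147.PdVar

set_option autoImplicit false

open CategoryTheory Abelian RingTheory.Sequence
open scoped Pointwise

namespace Pool.V1147.Dep

open Pool.V1147.PdVar

universe u

variable {R : Type u} [CommRing R]

/-- elementary form of regular sequences on `R/J` -/
def RS : Ideal R → List R → Prop
  | J, [] => J ≠ ⊤
  | J, r :: rs => (∀ c, r * c ∈ J → c ∈ J) ∧ RS (J ⊔ Ideal.span {r}) rs

lemma smul_top_eq_ker (J : Ideal R) (r : R) :
    (r • (⊤ : Submodule R (R ⧸ J))) = LinearMap.ker (facMap J r) := by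
  ext c
  rw [LinearMap.mem_ker]
  constructor
  · intro h
    obtain ⟨d, -, rfl⟩ := (Submodule.mem_smul_pointwise_iff_exists _ _ _).1 h
    obtain ⟨d, rfl⟩ := Submodule.Quotient.mk_surjective _ d
    rw [← Submodule.Quotient.mk_smul, facMap_mk, Submodule.Quotient.mk_eq_zero]
    exact (le_sup_right : Ideal.span {r} ≤ _) (Ideal.mul_mem_right _ _ (Ideal.mem_span_singleton_self r))
  · intro h
    obtain ⟨c, rfl⟩ := Submodule.Quotient.mk_surjective _ c
    rw [facMap_mk, Submodule.Quotient.mk_eq_zero] at h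
    obtain ⟨a, ha, b, hb, hab⟩ := Submodule.mem_sup.1 h
    obtain ⟨d, rfl⟩ := Ideal.mem_span_singleton'.1 hb
    refine (Submodule.mem_smul_pointwise_iff_exists _ _ _).2 ⟨Submodule.Quotient.mk d, trivial, ?_⟩
    rw [← Submodule.Quotient.mk_smul, Submodule.Quotient.eq]
    have : r • d - c = -a := by rw [← hab, smul_eq_mul]; ring
    rw [this]; exact J.neg_mem ha

noncomputable def quotEquiv (J : Ideal R) (r : R) :
    (QuotSMulTop r (R ⧸ J)) ≃ₗ[R] (R ⧸ (J ⊔ Ideal.span {r})) :=
  (Submodule.quotEquivOfEq _ _ (smul_top_eq_ker J r)).trans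
    (LinearMap.quotKerEquivOfSurjective (facMap J r) (by
      intro c
      obtain ⟨c, rfl⟩ := Submodule.Quotient.mk_surjective _ c
      exact ⟨Submodule.Quotient.mk c, rfl⟩))

lemma isSMulRegular_iff (J : Ideal R) (r : R) :
    IsSMulRegular (R ⧸ J) r ↔ (∀ c, r * c ∈ J → c ∈ J) := by
  constructor
  · intro h c hc
    have : r • (Submodule.Quotient.mk c : R ⧸ J) = r • 0 := by
      rw [smul_zero, ← Submodule.Quotient.mk_smul, Submodule.Quotient.mk_eq_zero]
      exact hc
    exact (Submodule.Quotient.mk_eq_zero _).1 (h this)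
  · intro h a b hab
    obtain ⟨a, rfl⟩ := Submodule.Quotient.mk_surjective _ a
    obtain ⟨b, rfl⟩ := Submodule.Quotient.mk_surjective _ b
    change r • (Submodule.Quotient.mk a : R ⧸ J) = r • (Submodule.Quotient.mk b : R ⧸ J) at hab
    rw [← Submodule.Quotient.mk_smul, ← Submodule.Quotient.mk_smul, Submodule.Quotient.eq] at hab
    rw [Submodule.Quotient.eq]
    apply h
    have : r * (a - b) = r • a - r • b := by simp only [smul_eq_mul]; ring
    rw [this]; exact hab

lemma isRegular_iff (J : Ideal R) (rs : List R) : IsRegular (R ⧸ J) rs ↔ RS J rs := by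
  induction rs generalizing J with
  | nil =>
    simp only [RS]
    rw [← Ideal.Quotient.nontrivial_iff]
    constructor
    · intro h
      have h2 := h.2
      rw [Ideal.ofList_nil, Submodule.bot_smul] at h2
      exact (Submodule.nontrivial_iff R).1 ⟨_, _, h2.symm⟩
    · intro h
      exact IsRegular.nil R (R ⧸ J)
  | cons r rs ih =>
    rw [isRegular_cons_iff, isSMulRegular_iff, (quotEquiv J r).isRegular_congr, ih]
    rfl

/-- the residue module -/
noncomputable abbrev KK (I : Ideal R) : ModuleCat.{u} R := ModuleCat.of R (Shrink.{u} (R ⧸ I))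

/-- vanishing of `Ext^i(R/I, R/J)` for `i < n` -/
def EV (I J : Ideal R) (n : ℕ) : Prop :=
  ∀ i < n, Subsingleton (Ext (KK I) (ModuleCat.of R (R ⧸ J)) i)

lemma EV_mono {I J : Ideal R} {n m : ℕ} (hmn : m ≤ n) (h : EV I J n) : EV I J m :=
  fun i hi => h i (by omega)

lemma rees [IsNoetherianRing R] (I J : Ideal R) (hIJ : I ⊔ J ≠ ⊤) (n : ℕ) :
    EV I J n ↔ ∃ rs : List R, rs.length = n ∧ (∀ r ∈ rs, r ∈ I) ∧ RS J rs := by
  have hlt : I • (⊤ : Submodule R (ModuleCat.of R (R ⧸ J))) < ⊤ := by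
    rw [lt_top_iff_ne_top]
    intro h
    apply hIJ
    rw [Ideal.eq_top_iff_one]
    have h1 : (Submodule.Quotient.mk (1:R) : R ⧸ J) ∈ I • (⊤ : Submodule R (R ⧸ J)) := by
      change I • (⊤ : Submodule R (R ⧸ J)) = ⊤ at h
      rw [h]; trivial
    have h2 : ∀ c ∈ I • (⊤ : Submodule R (R ⧸ J)), c ∈ Submodule.map (Submodule.mkQ J) (I ⊔ J) := by
      intro c hc
      refine Submodule.smul_induction_on hc ?_ ?_
      · intro r hr d _
        obtain ⟨d, rfl⟩ := Submodule.Quotient.mk_surjective _ d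
        refine ⟨r * d, (le_sup_left : I ≤ I ⊔ J) (I.mul_mem_right _ hr), rfl⟩
      · intro a b ha hb
        exact Submodule.add_mem _ ha hb
    obtain ⟨a, ha, hab⟩ := h2 _ h1
    have h3 : a - 1 ∈ J := (Submodule.Quotient.eq J).1 hab
    have h4 : (1:R) = a - (a - 1) := by ring
    rw [h4]
    exact (I ⊔ J).sub_mem ha ((le_sup_right : J ≤ I ⊔ J) h3)
  have htfae := ModuleCat.exists_isRegular_tfae I n (ModuleCat.of R (R ⧸ J)) hlt
  have h24 := htfae.out 1 3
  simp only [← isRegular_iff]
  exact h24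

lemma EV_quot {I J : Ideal R} {n : ℕ} (r : R) (hr : ∀ c, r * c ∈ J → c ∈ J) (h : EV I J (n+1)) :
    EV I (J ⊔ Ideal.span {r}) n := by
  intro i hi
  have hS := kosComplex_shortExact J r hr
  have zero1 := AddCommGrpCat.isZero_of_iff_subsingleton.mpr (h i (by omega))
  have zero2 := AddCommGrpCat.isZero_of_iff_subsingleton.mpr (h (i + 1) (by omega))
  exact AddCommGrpCat.subsingleton_of_isZero <| ShortComplex.Exact.isZero_of_both_zeros
        ((Ext.covariant_sequence_exact₃' (KK I) hS) i (i + 1) rfl)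
        (zero1.eq_zero_of_src _) (zero2.eq_zero_of_tgt _)

/-- ideal obtained by adding a list -/
def addL : Ideal R → List R → Ideal R
  | J, [] => J
  | J, r :: rs => addL (J ⊔ Ideal.span {r}) rs

lemma EV_list {I : Ideal R} (rs : List R) {J : Ideal R} {n : ℕ} (hrs : RS J rs)
    (h : EV I J (n + rs.length)) : EV I (addL J rs) n := by
  induction rs generalizing J with
  | nil => exact h
  | cons r rs ih =>
    refine ih hrs.2 ?_
    refine EV_quot r hrs.1 ?_
    rw [List.length_cons] at h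
    exact h

lemma not_EV_one {I J : Ideal R} (u : R) (hu : u ∉ J) (hIu : ∀ a ∈ I, a * u ∈ J) : ¬ EV I J 1 := by
  intro h
  have h0 := h 0 (by omega)
  have h1 : Subsingleton ((KK I) ⟶ (ModuleCat.of R (R ⧸ J))) :=
    Ext.addEquiv₀.subsingleton_congr.mp h0
  have h2 : Subsingleton ((KK I) →ₗ[R] (ModuleCat.of R (R ⧸ J))) :=
    ModuleCat.homAddEquiv.symm.subsingleton
  let φ : (R ⧸ I) →ₗ[R] (R ⧸ J) := Submodule.liftQ I (LinearMap.toSpanSingleton R (R ⧸ J)
    (Submodule.Quotient.mk u)) (by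
      intro a ha
      rw [LinearMap.mem_ker, LinearMap.toSpanSingleton_apply, ← Submodule.Quotient.mk_smul,
        Submodule.Quotient.mk_eq_zero]
      exact hIu a ha)
  have h3 : φ = 0 := by
    have h4 : φ ∘ₗ (Shrink.linearEquiv R (R ⧸ I)).toLinearMap = 0 := Subsingleton.elim _ _
    ext c
    have h5 := LinearMap.congr_fun h4 ((Shrink.linearEquiv R (R ⧸ I)).symm (Submodule.Quotient.mk 1))
    simp only [LinearMap.coe_comp, Function.comp_apply, LinearEquiv.coe_coe,
      LinearEquiv.apply_symm_apply] at h5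
    exact h5
  have h6 : φ (Submodule.Quotient.mk 1) = 0 := by rw [h3]; rfl
  have h7 : φ (Submodule.Quotient.mk 1) = Submodule.Quotient.mk u := by
    change (1:R) • (Submodule.Quotient.mk u : R ⧸ J) = _
    rw [one_smul]
  rw [h7, Submodule.Quotient.mk_eq_zero] at h6
  exact hu h6

/-- upper bound for the length of regular sequences -/
theorem length_le [IsNoetherianRing R] {I J : Ideal R} (hIJ : I ⊔ J ≠ ⊤) (rs : List R)
    (hrs : RS J rs) (u : R) (hu : u ∉ addL J rs) (hIu : ∀ a ∈ I, a * u ∈ addL J rs)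
    (rs' : List R) (hI' : ∀ r ∈ rs', r ∈ I) (hrs' : RS J rs') : rs'.length ≤ rs.length := by
  by_contra hlt
  rw [not_le] at hlt
  have h1 : EV I J rs'.length := (rees I J hIJ _).2 ⟨rs', rfl, hI', hrs'⟩
  have h2 : EV I J (1 + rs.length) := EV_mono (by omega) h1
  exact not_EV_one u hu hIu (EV_list rs hrs h2)

end Pool.V1147.Dep
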