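import Mathlib
import Pool.Agent.V1147.DepA

set_option autoImplicit false

open CategoryTheory Abelian RingTheory.Sequence MvPolynomial
open scoped Pointwise

namespace Pool.V1147.Dep

open Pool.V1147.PdVar

universe u

/-! ### regular sequences of variables -/

section vars

variable {σ : Type} {k : Type u} [Field k]

lemma X_regular (V : Set σ) (i : σ) (hi : i ∉ V) (c : MvPolynomial σ k)
    (h : X i * c ∈ Ideal.span (X '' V : Set (MvPolynomial σ k))) :
    c ∈ Ideal.span (X '' V : Set (MvPolynomial σ k)) := by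
  rw [mem_ideal_span_X_image] at h ⊢
  intro m hm
  have h1 : m + Finsupp.single i 1 ∈ (X i * c).support := by
    rw [mem_support_iff, mul_comm, coeff_mul_X]
    exact mem_support_iff.1 hm
  obtain ⟨l, hl, hml⟩ := h _ h1
  refine ⟨l, hl, ?_⟩
  have hne : i ≠ l := fun h => hi (h ▸ hl)
  classical
  rw [Finsupp.add_apply, Finsupp.single_apply, if_neg hne, add_zero] at hml
  exact hml

lemma span_X_insert (V : Set σ) (i : σ) :
    Ideal.span (X '' V : Set (MvPolynomial σ k)) ⊔ Ideal.span {X i} =
      Ideal.span (X '' (insert i V) : Set (MvPolynomial σ k)) := by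
  rw [← Ideal.span_union, Set.image_insert_eq, Set.union_comm, Set.singleton_union]

lemma span_X_ne_top (V : Set σ) : Ideal.span (X '' V : Set (MvPolynomial σ k)) ≠ ⊤ := by
  intro h
  have h1 : (1 : MvPolynomial σ k) ∈ Ideal.span (X '' V : Set (MvPolynomial σ k)) := by
    rw [h]; trivial
  rw [mem_ideal_span_X_image] at h1
  obtain ⟨i, hi, h0⟩ := h1 0 (by rw [mem_support_iff]; simp)
  simp at h0

lemma RS_vars (l : List σ) (hl : l.Nodup) (V : Set σ) (hV : ∀ i ∈ l, i ∉ V) :
    RS (Ideal.span (X '' V : Set (MvPolynomial σ k))) (l.map X) ∧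
    addL (Ideal.span (X '' V : Set (MvPolynomial σ k))) (l.map X) =
      Ideal.span (X '' (V ∪ {i | i ∈ l}) : Set (MvPolynomial σ k)) := by
  induction l generalizing V with
  | nil =>
    refine ⟨span_X_ne_top V, ?_⟩
    simp only [List.map_nil, addL]
    congr 2
    ext i; simp
  | cons i l ih =>
    rw [List.nodup_cons] at hl
    have h2 := ih hl.2 (insert i V) (by
      intro j hj hj'
      rcases Set.mem_insert_iff.1 hj' with h | h
      · subst h; exact hl.1 hj
      · exact hV j (List.mem_cons_of_mem _ hj) h)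
    simp only [List.map_cons, RS, addL]
    rw [span_X_insert]
    refine ⟨⟨X_regular V i (hV i List.mem_cons_self), h2.1⟩, ?_⟩
    rw [h2.2]
    congr 2
    ext j
    simp only [Set.mem_union, Set.mem_insert_iff, Set.mem_setOf_eq, List.mem_cons]
    tauto

end vars

variable {k : Type u} [Field k] {n : ℕ}

/-- the homogeneous maximal ideal -/
noncomputable def mm (k : Type u) [Field k] (n : ℕ) : Ideal (MvPolynomial (Fin n) k) :=
  RingHom.ker (constantCoeff : MvPolynomial (Fin n) k →+* k)

lemma mem_mm (f : MvPolynomial (Fin n) k) : f ∈ mm k n ↔ constantCoeff f = 0 := RingHom.mem_ker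

lemma mm_eq_span : mm k n = Ideal.span (X '' (Set.univ : Set (Fin n))) := by
  ext f
  rw [mem_mm, mem_ideal_span_X_image]
  constructor
  · intro h m hm
    by_contra hcon
    push Not at hcon
    have : m = 0 := by ext i; simpa using hcon i trivial
    subst this
    rw [mem_support_iff] at hm
    exact hm h
  · intro h
    by_contra hcon
    obtain ⟨i, -, hi⟩ := h 0 (mem_support_iff.2 hcon)
    simp at hi

instance mm_prime : (mm k n).IsPrime := RingHom.ker_isPrime _

lemma mm_ne_top : mm k n ≠ ⊤ := (mm_prime).ne_top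

lemma EV_bot : EV (mm k n) (⊥ : Ideal (MvPolynomial (Fin n) k)) n := by
  rw [rees (mm k n) ⊥ (by rw [sup_bot_eq]; exact mm_ne_top)]
  have h := RS_vars (k := k) (List.finRange n) (List.nodup_finRange n) ∅ (by simp)
  refine ⟨(List.finRange n).map X, by simp, ?_, ?_⟩
  · intro r hr
    obtain ⟨i, -, rfl⟩ := List.mem_map.1 hr
    rw [mem_mm]; simp
  · have h1 := h.1
    rw [Set.image_empty, Ideal.span_empty] at h1
    exact h1

lemma length_bot (rs : List (MvPolynomial (Fin n) k)) (h1 : ∀ r ∈ rs, r ∈ mm k n) (h2 : RS ⊥ rs) :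
    rs.length ≤ n := by
  have h := RS_vars (k := k) (List.finRange n) (List.nodup_finRange n) ∅ (by simp)
  rw [Set.image_empty, Ideal.span_empty] at h
  have hadd : addL (⊥ : Ideal (MvPolynomial (Fin n) k)) ((List.finRange n).map X) = mm k n := by
    rw [h.2, mm_eq_span]
    congr 2
    ext i; simp
  have := length_le (I := mm k n) (J := ⊥) (by rw [sup_bot_eq]; exact mm_ne_top)
    ((List.finRange n).map X) h.1 1
    (by rw [hadd, mem_mm]; simp) (by intro a ha; rw [hadd, mul_one]; exact ha) rs h1 h2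
  simpa using this

/-- `d` is the depth of `S/J`: the maximal length of an `S/J`-regular sequence in the homogeneous
maximal ideal. -/
def IsDepth (J : Ideal (MvPolynomial (Fin n) k)) (d : ℕ) : Prop :=
  IsGreatest {l : ℕ | ∃ rs : List (MvPolynomial (Fin n) k), rs.length = l ∧
    (∀ r ∈ rs, constantCoeff r = 0) ∧ IsRegular (MvPolynomial (Fin n) k ⧸ J) rs} d

lemma isDepth_iff (J : Ideal (MvPolynomial (Fin n) k)) (d : ℕ) :
    IsDepth J d ↔ (∃ rs : List (MvPolynomial (Fin n) k), rs.length = d ∧
      (∀ r ∈ rs, r ∈ mm k n) ∧ RS J rs) ∧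
      ∀ rs : List (MvPolynomial (Fin n) k), (∀ r ∈ rs, r ∈ mm k n) → RS J rs → rs.length ≤ d := by
  simp only [IsDepth, isRegular_iff, IsGreatest, upperBounds, Set.mem_setOf_eq, mem_mm]
  constructor
  · rintro ⟨h1, h2⟩
    exact ⟨h1, fun rs h3 h4 => h2 ⟨rs, rfl, h3, h4⟩⟩
  · rintro ⟨h1, h2⟩
    refine ⟨h1, ?_⟩
    rintro _ ⟨rs, rfl, h3, h4⟩
    exact h2 rs h3 h4

lemma EV_span (g : MvPolynomial (Fin n) k) (hg : g ≠ 0) (hn : 1 ≤ n) :
    EV (mm k n) (Ideal.span {g}) (n - 1) := by
  have h1 := EV_quot (I := mm k n) (J := ⊥) (n := n - 1) g (by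
    intro c hc
    rw [Ideal.mem_bot] at hc ⊢
    exact (mul_eq_zero.1 hc).resolve_left hg) (by
      rw [Nat.sub_add_cancel hn]; exact EV_bot)
  rwa [bot_sup_eq] at h1

/-- depth of a hypersurface ring -/
lemma isDepth_span (g : MvPolynomial (Fin n) k) (hg : g ≠ 0) (hgm : g ∈ mm k n) (hn : 1 ≤ n) :
    IsDepth (Ideal.span {g}) (n - 1) := by
  rw [isDepth_iff]
  refine ⟨?_, ?_⟩
  · have h1 := EV_span g hg hn
    rw [rees (mm k n) _ ?_] at h1
    · exact h1
    · rw [sup_eq_left.2 ((Ideal.span_singleton_le_iff_mem _).2 hgm)]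
      exact mm_ne_top
  · intro rs h1 h2
    have h3 : RS (⊥ : Ideal (MvPolynomial (Fin n) k)) (g :: rs) := by
      refine ⟨?_, ?_⟩
      · intro c hc
        rw [Ideal.mem_bot] at hc ⊢
        exact (mul_eq_zero.1 hc).resolve_left hg
      · rw [bot_sup_eq]; exact h2
    have h4 := length_bot (g :: rs) (by
      intro r hr
      rcases List.mem_cons.1 hr with rfl | hr
      · exact hgm
      · exact h1 r hr) h3
    rw [List.length_cons] at h4
    omega

/-! ### depth and dimension -/

lemma RS_isWeaklyRegular {R : Type u} [CommRing R] (J : Ideal R) (rs : List R) (h : RS J rs) :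
    IsWeaklyRegular (R ⧸ J) rs := ((isRegular_iff J rs).2 h).1

/-- chains of primes from regular sequences -/
lemma exists_chain {R : Type u} [CommRing R] [IsNoetherianRing R] (m : Ideal R) [m.IsPrime]
    (J : Ideal R) (hJ : J ≤ m) (rs : List R) (hrs : RS J rs) (hm : ∀ r ∈ rs, r ∈ m) :
    ∃ p : LTSeries (PrimeSpectrum R), p.length = rs.length ∧ J ≤ p.head.asIdeal := by
  let A := Localization.AtPrime m
  let N := LocalizedModule m.primeCompl (R ⧸ J)
  let f : (R ⧸ J) →ₗ[R] N := LocalizedModule.mkLinearMap m.primeCompl (R ⧸ J)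
  have hN : Nontrivial N := by
    refine ⟨⟨f (Submodule.Quotient.mk 1), 0, ?_⟩⟩
    intro h
    rw [IsLocalizedModule.eq_zero_iff m.primeCompl f] at h
    obtain ⟨⟨c, hc⟩, h⟩ := h
    change c • (Submodule.Quotient.mk 1 : R ⧸ J) = 0 at h
    rw [← Submodule.Quotient.mk_smul, Submodule.Quotient.mk_eq_zero, smul_eq_mul, mul_one] at h
    exact hc (hJ h)
  have hreg : IsRegular N (rs.map (algebraMap R A)) :=
    (RS_isWeaklyRegular J rs hrs).isRegular_of_isLocalizedModule_of_mem A m f hm
  have hdim := Module.supportDim_add_length_eq_supportDim_of_isRegular _ hreg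
  have hnt : Nontrivial (N ⧸ (Ideal.ofList (rs.map (algebraMap R A)) • (⊤ : Submodule A N))) :=
    Submodule.Quotient.nontrivial_iff.2 hreg.2.symm
  have h0 : (0 : WithBot ℕ∞) ≤
      Module.supportDim A (N ⧸ (Ideal.ofList (rs.map (algebraMap R A)) • (⊤ : Submodule A N))) := by
    have h1 := Module.supportDim_ne_bot_of_nontrivial A
      (N ⧸ (Ideal.ofList (rs.map (algebraMap R A)) • (⊤ : Submodule A N)))
    rw [← WithBot.coe_unbot _ h1]
    exact WithBot.coe_le_coe.2 zero_le
  have hle : ((rs.length : ℕ) : WithBot ℕ∞) ≤ Module.supportDim A N := by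
    rw [← hdim, List.length_map]
    calc ((rs.length : ℕ) : WithBot ℕ∞) = 0 + rs.length := by rw [zero_add]
      _ ≤ _ := by gcongr
  rw [Module.supportDim, Order.le_krullDim_iff] at hle
  obtain ⟨l, hl⟩ := hle
  let φ : Module.support A N → PrimeSpectrum R := fun P => PrimeSpectrum.comap (algebraMap R A) P.1
  have hφ : StrictMono φ := by
    intro P P' hPP
    refine lt_of_le_of_ne (Ideal.comap_mono hPP.le) ?_
    intro h
    have := PrimeSpectrum.localization_comap_injective A m.primeCompl h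
    exact hPP.ne (Subtype.ext this)
  refine ⟨l.map φ hφ, by simpa using hl, ?_⟩
  rw [LTSeries.head_map]
  intro c hc
  have h1 := Module.mem_support_iff_of_finite.1 l.head.2
  change algebraMap R A c ∈ l.head.1.asIdeal
  apply h1
  rw [Module.mem_annihilator]
  intro x
  obtain ⟨⟨q, s⟩, rfl⟩ := IsLocalizedModule.mk'_surjective m.primeCompl f x
  obtain ⟨q, rfl⟩ := Submodule.Quotient.mk_surjective _ q
  change algebraMap R A c • IsLocalizedModule.mk' f (Submodule.Quotient.mk q : R ⧸ J) s = 0
  rw [algebraMap_smul, ← IsLocalizedModule.mk'_smul, ← Submodule.Quotient.mk_smul]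
  have h2 : (Submodule.Quotient.mk (c • q) : R ⧸ J) = 0 := by
    rw [Submodule.Quotient.mk_eq_zero]; exact J.mul_mem_right _ hc
  rw [h2, IsLocalizedModule.mk'_zero]

/-- an ideal inside `m` not contained in any principal prime has depth at most `n - 2` -/
lemma length_codim_two (J : Ideal (MvPolynomial (Fin n) k)) (hJ : J ≤ mm k n) (hJ0 : J ≠ ⊥)
    (hp : ∀ p : MvPolynomial (Fin n) k, Prime p → ¬ J ≤ Ideal.span {p})
    (rs : List (MvPolynomial (Fin n) k)) (hm : ∀ r ∈ rs, r ∈ mm k n) (hrs : RS J rs) :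
    rs.length + 2 ≤ n := by
  obtain ⟨l, hl, hhead⟩ := exists_chain (mm k n) J hJ rs hrs hm
  -- a prime element in the head
  obtain ⟨a, ha, ha0⟩ := Submodule.exists_mem_ne_zero_of_ne_bot hJ0
  have hP := l.head.2
  have : ∃ p : MvPolynomial (Fin n) k, Prime p ∧ p ∈ l.head.asIdeal := by
    have hau : ¬ IsUnit a := by
      intro hu
      exact hP.ne_top (Ideal.eq_top_of_isUnit_mem _ (hhead ha) hu)
    have hne : l.head.asIdeal ≠ ⊥ := by
      intro h
      have := hhead ha
      rw [h, Ideal.mem_bot] at this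
      exact ha0 this
    obtain ⟨p, hp1, hp2⟩ := hP.exists_mem_prime_of_ne_bot hne
    exact ⟨p, hp2, hp1⟩
  obtain ⟨p, hpp, hpP⟩ := this
  have hprime : (Ideal.span {p}).IsPrime := (Ideal.span_singleton_prime hpp.ne_zero).2 hpp
  let P1 : PrimeSpectrum (MvPolynomial (Fin n) k) := ⟨Ideal.span {p}, hprime⟩
  let P0 : PrimeSpectrum (MvPolynomial (Fin n) k) := ⟨⊥, Ideal.isPrime_bot⟩
  have h1 : P1 < l.head := by
    refine lt_of_le_of_ne ((Ideal.span_singleton_le_iff_mem _).2 hpP) ?_
    intro h
    apply hp p hpp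
    have : l.head.asIdeal = Ideal.span {p} := by rw [← h]
    rw [← this]
    exact hhead
  have h0 : P0 < P1 := by
    refine lt_of_le_of_ne bot_le ?_
    intro h
    have : (⊥ : Ideal (MvPolynomial (Fin n) k)) = Ideal.span {p} := congrArg PrimeSpectrum.asIdeal h
    rw [eq_comm, Ideal.span_singleton_eq_bot] at this
    exact hpp.ne_zero this
  have hdim : ringKrullDim (MvPolynomial (Fin n) k) = n := by
    rw [MvPolynomial.ringKrullDim_of_isNoetherianRing, ringKrullDim_eq_zero_of_field, zero_add,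
      Nat.card_eq_fintype_card, Fintype.card_fin]
  have hle : (((l.cons P1 h1).cons P0 (by simpa using h0)).length : WithBot ℕ∞) ≤
      ringKrullDim (MvPolynomial (Fin n) k) := le_iSup (fun p : LTSeries _ => (p.length : WithBot ℕ∞)) _
  rw [hdim] at hle
  simp only [RelSeries.cons_length, hl] at hle
  exact_mod_cast hle

end Pool.V1147.Dep
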