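import Mathlib
import Pool.Agent.V1147.DepB

set_option autoImplicit false

open CategoryTheory Abelian RingTheory.Sequence MvPolynomial
open scoped Pointwise

namespace Pool.V1147.Dep

open Pool.V1147.PdVar

universe u

/-! ### splitting off the greatest common divisor -/

lemma gcd_decomp {R : Type u} [CommRing R] [IsDomain R] [IsNoetherianRing R] (Q : Ideal R)
    (hQ : Q ≠ ⊥) : ∃ (g : R) (Q' : Ideal R), g ≠ 0 ∧ Ideal.span {g} * Q' = Q ∧
      ∀ p : R, Prime p → ¬ Q' ≤ Ideal.span {p} := by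
  let F : Set (Ideal R) := {Q' | ∃ g : R, g ≠ 0 ∧ Ideal.span {g} * Q' = Q}
  have hF : F.Nonempty := ⟨Q, 1, one_ne_zero, by rw [Ideal.span_singleton_one, Ideal.top_mul]⟩
  obtain ⟨M, ⟨g, hg, hgM⟩, hmax⟩ := set_has_maximal_iff_noetherian.2 (inferInstance : IsNoetherian R R) F hF
  refine ⟨g, M, hg, hgM, ?_⟩
  intro p hp hle
  let M' : Ideal R := Submodule.comap (LinearMap.lsmul R R p) M
  have hM' : ∀ c, c ∈ M' ↔ p * c ∈ M := fun c => Iff.rfl
  have h1 : Ideal.span {p} * M' = M := by
    apply le_antisymm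
    · rw [Ideal.mul_le]
      intro r hr s hs
      obtain ⟨a, rfl⟩ := Ideal.mem_span_singleton'.1 hr
      rw [mul_assoc]
      exact Ideal.mul_mem_left M _ ((hM' s).1 hs)
    · intro c hc
      obtain ⟨d, rfl⟩ := Ideal.mem_span_singleton'.1 (hle hc)
      rw [mul_comm d p] at hc ⊢
      exact Ideal.mul_mem_mul (Ideal.mem_span_singleton_self p) ((hM' d).2 hc)
  have h2 : M' ∈ F := by
    refine ⟨g * p, mul_ne_zero hg hp.ne_zero, ?_⟩
    rw [← Ideal.span_singleton_mul_span_singleton, mul_assoc, h1, hgM]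
  have h3 : M ≤ M' := by
    intro c hc
    rw [hM']; exact Ideal.mul_mem_left M _ hc
  have h4 : M' = M := by
    by_contra hne
    exact hmax M' h2 (lt_of_le_of_ne h3 (Ne.symm hne))
  rw [h4] at h1
  obtain ⟨r, hr1, hr2⟩ := Submodule.exists_sub_one_mem_and_smul_eq_zero_of_fg_of_le_smul
    (Ideal.span {p}) M (IsNoetherian.noetherian M) (by rw [smul_eq_mul, h1])
  have hM0 : M ≠ ⊥ := by
    rintro rfl
    rw [Ideal.mul_bot] at hgM
    exact hQ hgM.symm
  obtain ⟨a, ha, ha0⟩ := Submodule.exists_mem_ne_zero_of_ne_bot hM0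
  have h5 := hr2 a ha
  rw [smul_eq_mul] at h5
  have h6 := (mul_eq_zero.1 h5).resolve_right ha0
  rw [h6, zero_sub] at hr1
  have h7 : (1 : R) ∈ Ideal.span {p} := by
    have := (Ideal.span {p}).neg_mem hr1
    rwa [neg_neg] at this
  obtain ⟨b, hb⟩ := Ideal.mem_span_singleton'.1 h7
  exact hp.not_unit (IsUnit.of_mul_eq_one b (by rw [mul_comm]; exact hb))

variable {k : Type u} [Field k] {n : ℕ}

/-- homogeneous ideals -/
def Homog (Q : Ideal (MvPolynomial (Fin n) k)) : Prop :=
  ∀ f ∈ Q, ∀ d : ℕ, homogeneousComponent d f ∈ Q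

lemma Homog.le_mm {Q : Ideal (MvPolynomial (Fin n) k)} (h : Homog Q) (htop : Q ≠ ⊤) : Q ≤ mm k n := by
  intro f hf
  rw [mem_mm]
  by_contra hcon
  apply htop
  have h1 := h f hf 0
  rw [homogeneousComponent_zero] at h1
  refine Ideal.eq_top_of_isUnit_mem _ h1 ?_
  rw [← constantCoeff_eq]
  exact (isUnit_iff_ne_zero.2 hcon).map C

lemma principal_of_not_le {Q Q' : Ideal (MvPolynomial (Fin n) k)} (h : Homog Q)
    (g : MvPolynomial (Fin n) k) (hg : g ≠ 0) (hgQ : Ideal.span {g} * Q' = Q)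
    (hQ' : ¬ Q' ≤ mm k n) : Q = Ideal.span {g} := by
  classical
  obtain ⟨q, hq, hqm⟩ := Set.not_subset.1 hQ'
  rw [SetLike.mem_coe, mem_mm] at hqm
  have hex : ∃ d, homogeneousComponent d g ≠ 0 := by
    by_contra hcon
    push Not at hcon
    apply hg
    rw [← sum_homogeneousComponent g]
    exact Finset.sum_eq_zero (fun i _ => hcon i)
  let d := Nat.find hex
  have hd : homogeneousComponent d g ≠ 0 := Nat.find_spec hex
  have hdmin : ∀ i < d, homogeneousComponent i g = 0 := by
    intro i hi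
    have := Nat.find_min hex hi
    push Not at this
    exact this
  have hcoef : ∀ e : Fin n →₀ ℕ, e.degree < d → coeff e g = 0 := by
    intro e he
    have := congrArg (coeff e) (hdmin _ he)
    rw [coeff_homogeneousComponent, if_pos rfl, coeff_zero] at this
    exact this
  have hcomp : homogeneousComponent d (g * q) = C (constantCoeff q) * homogeneousComponent d g := by
    ext e
    rw [coeff_homogeneousComponent, coeff_C_mul, coeff_homogeneousComponent]
    by_cases he : e.degree = d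
    · rw [if_pos he, if_pos he, coeff_mul, Finset.sum_eq_single (e, 0)]
      · rw [mul_comm]; rfl
      · rintro ⟨a, b⟩ hab hne
        rw [Finset.HasAntidiagonal.mem_antidiagonal] at hab
        simp only at hab ⊢
        by_cases hb : b = 0
        · exfalso; apply hne; subst hb; rw [add_zero] at hab; rw [hab]
        · rw [hcoef a ?_, zero_mul]
          have h1 : a.degree + b.degree = d := by rw [← map_add, hab, he]
          have h2 : b.degree ≠ 0 := by
            intro h; exact hb ((Finsupp.degree_eq_zero_iff b).1 h)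
          omega
      · intro hne
        exfalso; apply hne
        rw [Finset.HasAntidiagonal.mem_antidiagonal, add_zero]
    · rw [if_neg he, if_neg he, mul_zero]
  have hmem : homogeneousComponent d g ∈ Q := by
    have h1 : g * q ∈ Q := by
      rw [← hgQ]; exact Ideal.mul_mem_mul (Ideal.mem_span_singleton_self g) hq
    have h2 := h _ h1 d
    rw [hcomp] at h2
    have h3 := Q.mul_mem_left (C (constantCoeff q)⁻¹) h2
    rwa [← mul_assoc, ← C_mul, inv_mul_cancel₀ hqm, C_1, one_mul] at h3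
  have hle : Q ≤ Ideal.span {g} := by rw [← hgQ]; exact Ideal.mul_le_left
  have hdvd : g ∣ homogeneousComponent d g := Ideal.mem_span_singleton.1 (hle hmem)
  have hdeg : g.totalDegree ≤ d := by
    obtain ⟨a, ha⟩ := hdvd
    have ha0 : a ≠ 0 := by rintro rfl; rw [mul_zero] at ha; exact hd ha
    have h1 : (homogeneousComponent d g).totalDegree = g.totalDegree + a.totalDegree := by
      conv_lhs => rw [ha]
      exact totalDegree_mul_of_isDomain hg ha0
    have h2 : (homogeneousComponent d g).totalDegree ≤ d :=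
      (homogeneousComponent_isHomogeneous d g).totalDegree_le
    omega
  have heq : homogeneousComponent d g = g := by
    ext e
    rw [coeff_homogeneousComponent]
    by_cases he : e.degree = d
    · rw [if_pos he]
    · rw [if_neg he]
      rcases lt_or_gt_of_ne he with h1 | h1
      · rw [hcoef e h1]
      · rw [coeff_eq_zero_of_totalDegree_lt]
        refine lt_of_le_of_lt hdeg ?_
        exact h1
  apply le_antisymm hle
  rw [Ideal.span_singleton_le_iff_mem]
  rwa [heq] at hmem

/-! ### the exact sequence `0 → S/J → S/GJ → S/G → 0` -/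

noncomputable def gMap {R : Type u} [CommRing R] (J : Ideal R) (G : R) :
    (R ⧸ J) →ₗ[R] (R ⧸ (Ideal.span {G} * J)) :=
  Submodule.mapQ J (Ideal.span {G} * J) (LinearMap.lsmul R R G) (by
    intro c hc
    exact Ideal.mul_mem_mul (Ideal.mem_span_singleton_self G) hc)

noncomputable def gComplex {R : Type u} [CommRing R] (J : Ideal R) (G : R) :
    ShortComplex (ModuleCat.{u} R) :=
  ShortComplex.mk (X₁ := ModuleCat.of R (R ⧸ J)) (X₂ := ModuleCat.of R (R ⧸ (Ideal.span {G} * J)))
    (X₃ := ModuleCat.of R (R ⧸ Ideal.span {G}))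
    (ModuleCat.ofHom (gMap J G)) (ModuleCat.ofHom (Submodule.factor Ideal.mul_le_left)) (by
      apply ModuleCat.hom_ext
      apply LinearMap.ext
      intro c
      obtain ⟨c, rfl⟩ := Submodule.Quotient.mk_surjective _ c
      change (Submodule.Quotient.mk (G * c) : R ⧸ Ideal.span {G}) = 0
      rw [Submodule.Quotient.mk_eq_zero]
      exact Ideal.mul_mem_right _ _ (Ideal.mem_span_singleton_self G))

lemma gComplex_shortExact {R : Type u} [CommRing R] [IsDomain R] (J : Ideal R) (G : R) (hG : G ≠ 0) :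
    (gComplex J G).ShortExact := by
  have key : ∀ c, G * c ∈ Ideal.span {G} * J → c ∈ J := by
    intro c hc
    obtain ⟨d, hd, hdc⟩ := Ideal.mem_span_singleton_mul.1 hc
    rw [mul_left_cancel₀ hG hdc] at hd
    exact hd
  refine { exact := ?_, mono_f := ?_, epi_g := ?_ }
  · rw [ShortComplex.moduleCat_exact_iff]
    intro c hc
    obtain ⟨c, rfl⟩ := Submodule.Quotient.mk_surjective _ c
    change (Submodule.Quotient.mk c : R ⧸ Ideal.span {G}) = 0 at hc
    rw [Submodule.Quotient.mk_eq_zero] at hc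
    obtain ⟨d, rfl⟩ := Ideal.mem_span_singleton'.1 hc
    refine ⟨Submodule.Quotient.mk d, ?_⟩
    change (Submodule.Quotient.mk (G * d) : R ⧸ (Ideal.span {G} * J)) = Submodule.Quotient.mk (d * G)
    exact congrArg _ (mul_comm G d)
  · rw [ModuleCat.mono_iff_injective]
    intro a b hab
    obtain ⟨a, rfl⟩ := Submodule.Quotient.mk_surjective _ a
    obtain ⟨b, rfl⟩ := Submodule.Quotient.mk_surjective _ b
    change (Submodule.Quotient.mk (G * a) : R ⧸ (Ideal.span {G} * J)) = Submodule.Quotient.mk (G * b) at hab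
    rw [Submodule.Quotient.eq] at hab
    change (Submodule.Quotient.mk a : R ⧸ J) = Submodule.Quotient.mk b
    rw [Submodule.Quotient.eq]
    apply key
    rw [mul_sub]; exact hab
  · rw [ModuleCat.epi_iff_surjective]
    intro c
    obtain ⟨c, rfl⟩ := Submodule.Quotient.mk_surjective _ c
    exact ⟨Submodule.Quotient.mk c, rfl⟩

lemma EV_gMap {R : Type u} [CommRing R] [IsDomain R] (I J : Ideal R) (G : R) (hG : G ≠ 0) (n : ℕ)
    (h2 : EV I (Ideal.span {G} * J) n) (h3 : EV I (Ideal.span {G}) n) : EV I J n := by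
  intro i hi
  have hS := gComplex_shortExact J G hG
  rcases Nat.eq_zero_or_pos i with rfl | hpos
  · have h0 : Subsingleton ((KK I) ⟶ (ModuleCat.of R (R ⧸ (Ideal.span {G} * J)))) :=
      Ext.addEquiv₀.subsingleton_congr.mp (h2 0 hi)
    refine Ext.addEquiv₀.subsingleton_congr.mpr ⟨fun a b => ?_⟩
    have hm := hS.mono_f
    exact hm.right_cancellation a b (h0.elim _ _)
  · obtain ⟨j, rfl⟩ : ∃ j, i = j + 1 := ⟨i - 1, by omega⟩
    have zero1 := AddCommGrpCat.isZero_of_iff_subsingleton.mpr (h3 j (by omega))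
    have zero2 := AddCommGrpCat.isZero_of_iff_subsingleton.mpr (h2 (j + 1) (by omega))
    exact AddCommGrpCat.subsingleton_of_isZero <| ShortComplex.Exact.isZero_of_both_zeros
        ((Ext.covariant_sequence_exact₁' (KK I) hS) j (j + 1) rfl)
        (zero1.eq_zero_of_src _) (zero2.eq_zero_of_tgt _)

/-- if one power has depth `n - 1` then all powers have -/
theorem depth_const (Q : Ideal (MvPolynomial (Fin n) k)) (hhom : Homog Q) (hbot : Q ≠ ⊥)
    (htop : Q ≠ ⊤) (t : ℕ) (ht : 1 ≤ t) (hn : 1 ≤ n) (h : IsDepth (Q ^ t) (n - 1)) (s : ℕ) (hs : 1 ≤ s) :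
    IsDepth (Q ^ s) (n - 1) := by
  have hle := hhom.le_mm htop
  obtain ⟨g, Q', hg, hgQ, hp⟩ := gcd_decomp Q hbot
  by_cases hQ' : Q' ≤ mm k n
  · exfalso
    have hpow : Q ^ t = Ideal.span {g ^ t} * Q' ^ t := by
      rw [← hgQ, mul_pow, Ideal.span_singleton_pow]
    have hlet : Q ^ t ≤ mm k n := (Ideal.pow_le_self (by omega)).trans hle
    have hle' : Q' ^ t ≤ mm k n := (Ideal.pow_le_self (by omega)).trans hQ'
    obtain ⟨⟨rs, hlen, hm, hrs⟩, -⟩ := (isDepth_iff _ _).1 h
    have h1 : EV (mm k n) (Q ^ t) (n - 1) :=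
      (rees (mm k n) _ (by rw [sup_eq_left.2 hlet]; exact mm_ne_top) _).2 ⟨rs, hlen, hm, hrs⟩
    rw [hpow] at h1
    have h2 := EV_gMap (mm k n) (Q' ^ t) (g ^ t) (pow_ne_zero _ hg) (n - 1) h1
      (EV_span (g ^ t) (pow_ne_zero _ hg) hn)
    obtain ⟨rs', hlen', hm', hrs'⟩ :=
      (rees (mm k n) _ (by rw [sup_eq_left.2 hle']; exact mm_ne_top) _).1 h2
    have hQ0 : Q' ≠ ⊥ := by
      rintro rfl
      rw [Ideal.mul_bot] at hgQ
      exact hbot hgQ.symm
    have := length_codim_two (Q' ^ t) hle' (pow_ne_zero _ hQ0) (by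
      intro p hpp hle2
      apply hp p hpp
      have hprime : (Ideal.span {p}).IsPrime := (Ideal.span_singleton_prime hpp.ne_zero).2 hpp
      exact hprime.le_of_pow_le hle2) rs' hm' hrs'
    omega
  · have hQ := principal_of_not_le hhom g hg hgQ hQ'
    rw [hQ, Ideal.span_singleton_pow]
    refine isDepth_span _ (pow_ne_zero _ hg) ?_ hn
    have hgm : g ∈ mm k n := by
      apply hle; rw [hQ]; exact Ideal.mem_span_singleton_self g
    exact Ideal.pow_mem_of_mem _ hgm _ (by omega)

lemma length_codim_one (J : Ideal (MvPolynomial (Fin n) k)) (hJ : J ≤ mm k n) (hJ0 : J ≠ ⊥)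
    (rs : List (MvPolynomial (Fin n) k)) (hm : ∀ r ∈ rs, r ∈ mm k n) (hrs : RS J rs) :
    rs.length + 1 ≤ n := by
  obtain ⟨l, hl, hhead⟩ := exists_chain (mm k n) J hJ rs hrs hm
  let P0 : PrimeSpectrum (MvPolynomial (Fin n) k) := ⟨⊥, Ideal.isPrime_bot⟩
  have h0 : P0 < l.head := by
    refine lt_of_le_of_ne bot_le ?_
    intro h
    apply hJ0
    have : l.head.asIdeal = ⊥ := by rw [← h]
    rw [this] at hhead
    exact le_bot_iff.1 hhead
  have hdim : ringKrullDim (MvPolynomial (Fin n) k) = n := by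
    rw [MvPolynomial.ringKrullDim_of_isNoetherianRing, ringKrullDim_eq_zero_of_field, zero_add,
      Nat.card_eq_fintype_card, Fintype.card_fin]
  have hle : ((l.cons P0 h0).length : WithBot ℕ∞) ≤
      ringKrullDim (MvPolynomial (Fin n) k) := le_iSup (fun p : LTSeries _ => (p.length : WithBot ℕ∞)) _
  rw [hdim] at hle
  simp only [RelSeries.cons_length, hl] at hle
  exact_mod_cast hle

/-- the lower bound for the number of variables -/
theorem lower_bound (Q : Ideal (MvPolynomial (Fin n) k)) (hhom : Homog Q) (hbot : Q ≠ ⊥)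
    (htop : Q ≠ ⊤) (f : ℕ → ℕ) (hf : ∀ t, 1 ≤ t → IsDepth (Q ^ t) (f t)) :
    (∀ t, 1 ≤ t → f t + 1 ≤ n) ∧ ((∃ s t, 1 ≤ s ∧ 1 ≤ t ∧ f s ≠ f t) → ∀ t, 1 ≤ t → f t + 2 ≤ n) := by
  have hle := hhom.le_mm htop
  have h1 : ∀ t, 1 ≤ t → f t + 1 ≤ n := by
    intro t ht
    obtain ⟨⟨rs, hlen, hm, hrs⟩, -⟩ := (isDepth_iff _ _).1 (hf t ht)
    have := length_codim_one (Q ^ t) ((Ideal.pow_le_self (by omega)).trans hle)
      (pow_ne_zero _ hbot) rs hm hrs
    omega
  refine ⟨h1, ?_⟩
  rintro ⟨s, s', hs, hs', hne⟩ t ht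
  by_contra hcon
  have h2 := h1 t ht
  have h3 : f t = n - 1 := by omega
  have h4 := hf t ht
  rw [h3] at h4
  have h5 := depth_const Q hhom hbot htop t ht (by omega) h4
  apply hne
  rw [(hf s hs).unique (h5 s hs), (hf s' hs').unique (h5 s' hs')]

end Pool.V1147.Dep
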