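import Mathlib
import Pool.Agent.V1147.Def2Num
import Pool.Agent.V1147.DepC

set_option autoImplicit false

open MvPolynomial

namespace Pool.V1147.Def2Fin

open Pool.V1147.PosPow Pool.V1147.PosPd Pool.V1147.PosNum Pool.V1147.PosFin Pool.V1147.Def2
open Pool.V1147.Def2Num
open Pool.V1147.Dep (RS addL)

universe u

section
variable {k : Type u} [Field k] {m : ℕ}

/-- level hypotheses for the depth computation -/
structure LH (δ N : ℕ) (E G : Finset ℕ) (Y : Finset (ℕ × Fin m)) (h : ℕ) : Prop where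
  L : Lev δ N E G Y
  uniq : ∀ p i j, (p, i) ∈ Y → (p, j) ∈ Y → p ∉ E → p + δ ∉ G → i = j
  expo : ∀ p i, (p, i) ∈ Y → p ∉ E → p + δ ∈ G → (i : ℕ) < h
  N0 : 0 < N

variable {δ N : ℕ} {E G : Finset ℕ} {Y : Finset (ℕ × Fin m)} {h : ℕ}

/-- the ideal with variables -/
noncomputable abbrev JX (k : Type u) [Field k] (δ N : ℕ) (E G : Finset ℕ) (Y : Finset (ℕ × Fin m)) :
    Ideal (MvPolynomial (Fin 2) (MvPolynomial (Fin m) k)) :=
  JJ (fun i : Fin m => (X i : MvPolynomial (Fin m) k)) δ N E G Y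

/-- adding variables -/
noncomputable def JV (k : Type u) [Field k] (δ N : ℕ) (E G : Finset ℕ) (Y : Finset (ℕ × Fin m))
    (V : Set (Fin m)) : Ideal (MvPolynomial (Fin 2) (MvPolynomial (Fin m) k)) :=
  JX k δ N E G Y ⊔ Ideal.map C (Ideal.span (X '' V))

lemma mem_JV (H : LH δ N E G Y h) (V : Set (Fin m)) (F : MvPolynomial (Fin 2) (MvPolynomial (Fin m) k)) :
    F ∈ JV k δ N E G Y V ↔
      KC (fun i : Fin m => (X i : MvPolynomial (Fin m) k)) δ N E G Y (Ideal.span (X '' V)) F :=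
  mem_iff H.L H.uniq F

lemma span_sup_span (V : Set (Fin m)) (p : ℕ) :
    (Ideal.span (X '' V) ⊔ Ideal.span {a : MvPolynomial (Fin m) k | ∃ i, (p, i) ∈ Y ∧ X i = a}) =
      Ideal.span (X '' (V ∪ {i | (p, i) ∈ Y})) := by
  rw [← Ideal.span_union, Set.image_union]
  rfl

lemma JV_regular (H : LH δ N E G Y h) (V : Set (Fin m)) (r : Fin m) (hr : r ∉ V) (hrh : h ≤ (r : ℕ))
    (F : MvPolynomial (Fin 2) (MvPolynomial (Fin m) k)) (hF : C (X r) * F ∈ JV k δ N E G Y V) :
    F ∈ JV k δ N E G Y V := by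
  rw [mem_JV H] at hF ⊢
  refine ⟨?_, ?_, ?_, ?_, ?_⟩
  · intro e he
    have := hF.k1 e he
    rw [coeff_C_mul] at this
    exact Dep.X_regular V r hr _ this
  · intro p h1 h2 h3
    have := hF.k2 p h1 h2 h3
    rw [coeff_C_mul] at this
    exact Dep.X_regular V r hr _ this
  · intro p h1 h2 h3 i h4
    have := hF.k3 p h1 h2 h3 i h4
    rw [coeff_C_mul, coeff_C_mul, mul_left_comm, ← mul_sub] at this
    exact Dep.X_regular V r hr _ this
  · intro p h1 h2 h3
    have := hF.k4 p h1 h2 h3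
    rw [coeff_C_mul, span_sup_span] at this
    rw [span_sup_span]
    refine Dep.X_regular _ r ?_ _ this
    rintro (h4 | h4)
    · exact hr h4
    · have := H.expo p r h4 h2 h3
      omega
  · intro p h1 h2 h3
    have := hF.k5 p h1 h2 h3
    rw [coeff_C_mul] at this
    exact Dep.X_regular V r hr _ this

lemma JV_ne_top (H : LH δ N E G Y h) (V : Set (Fin m)) : JV k δ N E G Y V ≠ ⊤ := by
  intro htop
  have h1 : (1 : MvPolynomial (Fin 2) (MvPolynomial (Fin m) k)) ∈ JV k δ N E G Y V := by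
    rw [htop]; trivial
  rw [mem_JV H] at h1
  have h2 := h1.k1 0 (by simpa using H.N0)
  rw [coeff_zero_one] at h2
  exact Dep.span_X_ne_top V ((Ideal.eq_top_iff_one _).2 h2)

lemma JV_insert (V : Set (Fin m)) (i : Fin m) :
    JV k δ N E G Y V ⊔ Ideal.span {C (X i)} = JV k δ N E G Y (insert i V) := by
  rw [JV, JV, sup_assoc, ← Dep.span_X_insert, Ideal.map_sup, Ideal.map_span C {X i}, Set.image_singleton]

lemma JV_RS (H : LH δ N E G Y h) (l : List (Fin m)) (hl : l.Nodup) (hlh : ∀ i ∈ l, h ≤ (i : ℕ))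
    (V : Set (Fin m)) (hV : ∀ i ∈ l, i ∉ V) :
    RS (JV k δ N E G Y V) (l.map (fun i => C (X i))) ∧
    addL (JV k δ N E G Y V) (l.map (fun i => C (X i))) = JV k δ N E G Y (V ∪ {i | i ∈ l}) := by
  induction l generalizing V with
  | nil =>
    refine ⟨JV_ne_top H V, ?_⟩
    simp only [List.map_nil, addL]
    congr 1
    ext i; simp
  | cons i l ih =>
    rw [List.nodup_cons] at hl
    have h2 := ih hl.2 (fun j hj => hlh j (List.mem_cons_of_mem _ hj)) (insert i V) (by
      intro j hj hj'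
      rcases Set.mem_insert_iff.1 hj' with h | h
      · subst h; exact hl.1 hj
      · exact hV j (List.mem_cons_of_mem _ hj) h)
    simp only [List.map_cons, RS, addL]
    rw [JV_insert]
    refine ⟨⟨JV_regular H V i (hV i List.mem_cons_self) (hlh i List.mem_cons_self), h2.1⟩, ?_⟩
    rw [h2.2]
    congr 1
    ext j
    simp only [Set.mem_union, Set.mem_insert_iff, Set.mem_setOf_eq, List.mem_cons]
    tauto

lemma X0_mul (h p : ℕ) : (X 0 : MvPolynomial (Fin 2) (MvPolynomial (Fin m) k)) * mo _ h p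
    = mo _ (h+1) (p+1) := by
  have : (X 0 : MvPolynomial (Fin 2) (MvPolynomial (Fin m) k)) = monomial (Finsupp.single 0 1) 1 := rfl
  rw [this, mo, monomial_mul, one_mul, mo]
  congr 2
  apply fin2_ext
  · rw [Finsupp.add_apply, ex_0, ex_0]; simp; omega
  · rw [Finsupp.add_apply, ex_1, ex_1]; simp

lemma X1_mul {h p : ℕ} (hp : p ≤ h) : (X 1 : MvPolynomial (Fin 2) (MvPolynomial (Fin m) k)) * mo _ h p
    = mo _ (h+1) p := by
  have : (X 1 : MvPolynomial (Fin 2) (MvPolynomial (Fin m) k)) = monomial (Finsupp.single 1 1) 1 := rfl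
  rw [this, mo, monomial_mul, one_mul, mo]
  congr 2
  apply fin2_ext
  · rw [Finsupp.add_apply, ex_0, ex_0]; simp
  · rw [Finsupp.add_apply, ex_1, ex_1]; simp; omega

/-- the socle elements -/
lemma socle (H : LH δ N E G Y h) (hpos : 0 < h → ∃ p ≤ N, p ∉ E ∧ p + δ ∈ G ∧ (∀ i : Fin m, (i : ℕ) < h → (p, i) ∈ Y)
      ∧ p ∈ G ∧ p + 1 ∈ G)
    (hzero : h = 0 → ∃ q ≤ N + 1, q ∉ G ∧ ∀ p i, (p, i) ∈ Y → p + δ ≠ q) :
    ∃ u : MvPolynomial (Fin 2) (MvPolynomial (Fin m) k),
      u ∉ JV k δ N E G Y {i | h ≤ (i : ℕ)} ∧ (∀ j : Fin 2, X j * u ∈ JV k δ N E G Y {i | h ≤ (i : ℕ)}) ∧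
      ∀ i : Fin m, C (X i) * u ∈ JV k δ N E G Y {i | h ≤ (i : ℕ)} := by
  have hle : JX k δ N E G Y ≤ JV k δ N E G Y {i | h ≤ (i : ℕ)} := le_sup_left
  have hCi : ∀ i : Fin m, h ≤ (i : ℕ) → ∀ F, C (X i) * F ∈ JV k δ N E G Y {i | h ≤ (i : ℕ)} := by
    intro i hi F
    refine Ideal.mul_mem_right _ _ ((le_sup_right : Ideal.map C (Ideal.span (X '' {i : Fin m | h ≤ (i : ℕ)})) ≤ _)
      (Ideal.mem_map_of_mem C (Ideal.subset_span ⟨i, hi, rfl⟩)))
  rcases Nat.eq_zero_or_pos h with h0 | h0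
  · obtain ⟨q, hq, hqG, hqY⟩ := hzero h0
    refine ⟨mo _ (N+1) q, ?_, ?_, fun i => hCi i (by omega) _⟩
    · intro hmem
      rw [mem_JV H] at hmem
      have := hmem.k5 q hq hqG hqY
      rw [coeff_mo_self] at this
      exact Dep.span_X_ne_top _ ((Ideal.eq_top_iff_one _).2 this)
    · intro j
      fin_cases j
      · change X 0 * _ ∈ _
        rw [X0_mul]
        exact hle (mem_top (by omega) (by omega))
      · change X 1 * _ ∈ _
        rw [X1_mul hq]
        exact hle (mem_top (by omega) (by omega))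
  · obtain ⟨p, hp, hpE, hpG, hpY, hpG0, hpG1⟩ := hpos h0
    refine ⟨mo _ N p, ?_, ?_, ?_⟩
    · intro hmem
      rw [mem_JV H] at hmem
      have := hmem.k4 p hp hpE hpG
      rw [coeff_mo_self, span_sup_span] at this
      exact Dep.span_X_ne_top _ ((Ideal.eq_top_iff_one _).2 this)
    · intro j
      fin_cases j
      · change X 0 * _ ∈ _
        rw [X0_mul]
        exact hle (mem_G hpG1)
      · change X 1 * _ ∈ _
        rw [X1_mul hp]
        exact hle (mem_G hpG0)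
    · intro i
      by_cases hi : (i : ℕ) < h
      · have h1 := mem_Y (c := fun i : Fin m => (X i : MvPolynomial (Fin m) k)) (δ := δ) (N := N) (E := E)
          (G := G) (hpY i hi)
        have h2 := mem_G (c := fun i : Fin m => (X i : MvPolynomial (Fin m) k)) (δ := δ) (N := N) (E := E)
          (Y := Y) hpG
        have e1 : C (X i) * mo (MvPolynomial (Fin m) k) N p =
          (mo (MvPolynomial (Fin m) k) (N+1) (p+δ) + C (X i) * mo (MvPolynomial (Fin m) k) N p)
          - mo (MvPolynomial (Fin m) k) (N+1) (p+δ) := by ring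
        rw [e1]
        exact hle (Ideal.sub_mem _ h1 h2)
      · exact hCi i (by omega) _

end

/-! ### transport -/

section transport
variable {R R' : Type u} [CommRing R] [CommRing R']

lemma mem_map_iff (ψ : R ≃+* R') (J : Ideal R) (c : R) : ψ c ∈ J.map ψ ↔ c ∈ J := by
  rw [Ideal.mem_map_of_equiv]
  constructor
  · rintro ⟨x, hx, hxc⟩
    rwa [← ψ.injective hxc]
  · intro hc; exact ⟨c, hc, rfl⟩

lemma RS_map (ψ : R ≃+* R') (rs : List R) (J : Ideal R) (hJ : RS J rs) :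
    RS (J.map ψ) (rs.map ψ) ∧ addL (J.map ψ) (rs.map ψ) = (addL J rs).map ψ := by
  induction rs generalizing J with
  | nil =>
    refine ⟨?_, rfl⟩
    intro h
    apply hJ
    rw [Ideal.eq_top_iff_one] at h ⊢
    rw [← map_one ψ, mem_map_iff] at h
    exact h
  | cons r rs ih =>
    simp only [List.map_cons, RS, addL]
    have h1 : J.map ψ ⊔ Ideal.span {ψ r} = (J ⊔ Ideal.span {r}).map ψ := by
      rw [Ideal.map_sup, Ideal.map_span, Set.image_singleton]
    rw [h1]
    refine ⟨⟨?_, (ih _ hJ.2).1⟩, (ih _ hJ.2).2⟩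
    intro c hc
    obtain ⟨c, rfl⟩ := ψ.surjective c
    rw [← map_mul, mem_map_iff] at hc
    rw [mem_map_iff]
    exact hJ.1 c hc

end transport

section final

variable (k : Type u) [Field k] (m : ℕ)

def eqv (m : ℕ) : Fin (m+2) ≃ Fin 2 ⊕ Fin m := (finCongr (Nat.add_comm m 2)).trans finSumFinEquiv.symm

noncomputable def psi : MvPolynomial (Fin 2) (MvPolynomial (Fin m) k) ≃ₐ[k] MvPolynomial (Fin (m+2)) k :=
  (sumAlgEquiv k (Fin 2) (Fin m)).symm.trans (renameEquiv k (eqv m).symm)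

variable {k m}

lemma psi_X (j : Fin 2) : psi k m (X j) = X ((eqv m).symm (Sum.inl j)) := by
  simp [psi, sumAlgEquiv_symm_X]

lemma psi_CX (i : Fin m) : psi k m (C (X i)) = X ((eqv m).symm (Sum.inr i)) := by
  simp [psi, sumAlgEquiv_symm_C_X]

lemma mo_eq (h p : ℕ) : mo (MvPolynomial (Fin m) k) h p = X 0 ^ p * X 1 ^ (h - p) := by
  rw [mo, ex, X_pow_eq_monomial, X_pow_eq_monomial, monomial_mul, one_mul]

lemma psi_mo {h p : ℕ} (hp : p ≤ h) : (psi k m (mo _ h p)).IsHomogeneous h := by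
  rw [mo_eq, map_mul, map_pow, map_pow, psi_X, psi_X]
  have h1 := ((isHomogeneous_X k ((eqv m).symm (Sum.inl 0))).pow p).mul
    ((isHomogeneous_X k ((eqv m).symm (Sum.inl 1))).pow (h-p))
  rw [one_mul, one_mul, Nat.add_sub_cancel' hp] at h1
  exact h1

/-- spans of homogeneous elements are homogeneous -/
lemma homog_span {n : ℕ} (s : Set (MvPolynomial (Fin n) k)) (hs : ∀ f ∈ s, ∃ d, f.IsHomogeneous d) :
    Dep.Homog (Ideal.span s) := by
  letI : GradedAlgebra (homogeneousSubmodule (Fin n) k) := MvPolynomial.gradedAlgebra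
  have h1 : (Ideal.span s).IsHomogeneous (homogeneousSubmodule (Fin n) k) := by
    refine Ideal.homogeneous_span _ s ?_
    intro f hf
    obtain ⟨d, hd⟩ := hs f hf
    exact ⟨d, hd⟩
  intro f hf d
  have h2 := h1 d hf
  have h3 : (DirectSum.decompose (homogeneousSubmodule (Fin n) k) f d : MvPolynomial (Fin n) k)
      = homogeneousComponent d f := decomposition.decompose'_apply f d
  rw [h3] at h2
  exact h2

/-- the ideal in the polynomial ring in `m+2` variables -/
noncomputable def QQ (k : Type u) [Field k] {m : ℕ} (δ N : ℕ) (E G : Finset ℕ) (Y : Finset (ℕ × Fin m)) :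
    Ideal (MvPolynomial (Fin (m+2)) k) :=
  (JX k δ N E G Y).map (psi k m).toRingEquiv

variable {δ N : ℕ} {E G : Finset ℕ} {Y : Finset (ℕ × Fin m)} {h : ℕ}

lemma QQ_homog (L : Lev δ N E G Y) : Dep.Homog (QQ k δ N E G Y) := by
  have h1 : QQ k δ N E G Y = Ideal.span ((psi k m).toRingEquiv '' gens (fun i : Fin m => X i) δ N E G Y) := by
    rw [QQ, JX, JJ, Ideal.map_span]
  rw [h1]
  apply homog_span
  rintro _ ⟨F, hF, rfl⟩
  rcases hF with ⟨p, hp, rfl⟩ | ⟨g, hg, rfl⟩ | ⟨e, he, rfl⟩ | ⟨⟨p, i⟩, hq, rfl⟩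
  · exact ⟨_, psi_mo hp⟩
  · exact ⟨_, psi_mo (L.hG g hg)⟩
  · exact ⟨_, psi_mo (L.hE e he)⟩
  · have h2 := L.hY _ hq
    simp only at h2
    refine ⟨N + 1, ?_⟩
    change (psi k m _).IsHomogeneous (N+1)
    rw [map_add, map_mul, psi_CX]
    have h3 := (isHomogeneous_X k ((eqv m).symm (Sum.inr i))).mul (psi_mo (k := k) (m := m) (h := N) (p := p) (by omega))
    rw [Nat.add_comm 1 N] at h3
    exact (psi_mo (by omega)).add h3

/-- depth at one level -/
theorem QQ_depth (H : LH δ N E G Y h) (hm : h ≤ m)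
    (hpos : 0 < h → ∃ p ≤ N, p ∉ E ∧ p + δ ∈ G ∧ (∀ i : Fin m, (i : ℕ) < h → (p, i) ∈ Y)
      ∧ p ∈ G ∧ p + 1 ∈ G)
    (hzero : h = 0 → ∃ q ≤ N + 1, q ∉ G ∧ ∀ p i, (p, i) ∈ Y → p + δ ≠ q)
    (hle : QQ k δ N E G Y ≤ Dep.mm k (m+2)) :
    Dep.IsDepth (QQ k δ N E G Y) (m - h) := by
  let l : List (Fin m) := (List.finRange m).filter (fun i => h ≤ (i : ℕ))
  have hl : l.Nodup := (List.nodup_finRange m).filter _
  have hlmem : ∀ i, i ∈ l ↔ h ≤ (i : ℕ) := by intro i; simp [l]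
  have hlen : l.length = m - h := by
    have h1 : l.length = (Finset.univ.filter (fun i : Fin m => h ≤ (i : ℕ))).card := by
      rw [← List.toFinset_card_of_nodup hl]
      congr 1
      ext i
      rw [List.mem_toFinset, hlmem]; simp
    have h2 := Finset.card_filter_add_card_filter_not (s := (Finset.univ : Finset (Fin m))) (fun i : Fin m => (i : ℕ) < h)
    rw [card_filter_lt h hm] at h2
    simp only [not_lt, Finset.card_univ, Fintype.card_fin] at h2
    omega
  have hJV0 : JV k δ N E G Y ∅ = JX k δ N E G Y := by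
    rw [JV, Set.image_empty, Ideal.span_empty, Ideal.map_bot, sup_bot_eq]
  obtain ⟨hRS, hadd⟩ := JV_RS (k := k) H l hl (fun i hi => (hlmem i).1 hi) ∅ (by simp)
  have hset : (∅ ∪ {i | i ∈ l} : Set (Fin m)) = {i : Fin m | h ≤ (i : ℕ)} := by
    ext i
    simp only [Set.empty_union, Set.mem_setOf_eq, hlmem]
  rw [hset] at hadd
  rw [hJV0] at hRS hadd
  obtain ⟨hRS', hadd'⟩ := RS_map (psi k m).toRingEquiv _ _ hRS
  obtain ⟨u, hu, huX, huC⟩ := socle (k := k) H hpos hzero
  rw [Dep.isDepth_iff]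
  have hlist : ∀ r ∈ (l.map (fun i => (C (X i) : MvPolynomial (Fin 2) (MvPolynomial (Fin m) k)))).map
      (psi k m).toRingEquiv, r ∈ Dep.mm k (m+2) := by
    intro r hr
    rw [List.map_map, List.mem_map] at hr
    obtain ⟨i, -, rfl⟩ := hr
    change psi k m (C (X i)) ∈ _
    rw [psi_CX, Dep.mem_mm]; simp
  refine ⟨⟨_, ?_, hlist, hRS'⟩, ?_⟩
  · rw [List.length_map, List.length_map, hlen]
  · intro rs hrs1 hrs2
    have h1 := Dep.length_le (I := Dep.mm k (m+2)) (J := QQ k δ N E G Y)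
      (by rw [sup_eq_left.2 hle]; exact Dep.mm_ne_top) _ hRS' (psi k m u) ?_ ?_ rs hrs1 hrs2
    · rw [List.length_map, List.length_map, hlen] at h1
      exact h1
    · change _ ∉ addL ((JX k δ N E G Y).map (psi k m).toRingEquiv) _
      rw [hadd', hadd]
      change ¬ ((psi k m).toRingEquiv u ∈ _)
      rw [mem_map_iff]
      exact hu
    · change ∀ a ∈ Dep.mm k (m+2), a * psi k m u ∈ addL ((JX k δ N E G Y).map (psi k m).toRingEquiv) _
      rw [hadd', hadd]
      intro a ha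
      rw [Dep.mm_eq_span] at ha
      refine Submodule.span_induction (p := fun a _ => a * psi k m u ∈
        Ideal.map (psi k m).toRingEquiv (JV k δ N E G Y {i | h ≤ (i : ℕ)})) ?_ ?_ ?_ ?_ ha
      · rintro _ ⟨j, -, rfl⟩
        have hkey : ∀ v, v * u ∈ JV k δ N E G Y {i | h ≤ (i : ℕ)} → psi k m v * psi k m u ∈
            Ideal.map (psi k m).toRingEquiv (JV k δ N E G Y {i | h ≤ (i : ℕ)}) := by
          intro v hv
          rw [← map_mul]
          change (psi k m).toRingEquiv (v * u) ∈ _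
          rw [mem_map_iff]; exact hv
        obtain ⟨j, rfl⟩ := (eqv m).symm.surjective j
        rcases j with j | i
        · rw [← psi_X]; exact hkey _ (huX j)
        · rw [← psi_CX]; exact hkey _ (huC i)
      · rw [zero_mul]; exact Ideal.zero_mem _
      · intro a b _ _ ha hb
        rw [add_mul]; exact Ideal.add_mem _ ha hb
      · intro a b _ hb
        rw [smul_eq_mul, mul_assoc]; exact Ideal.mul_mem_left _ _ hb

/-- main construction -/
theorem construction (k : Type u) [Field k] (m T : ℕ) (h : ℕ → ℕ) (hT : 1 ≤ T)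
    (hh : ∀ s, 1 ≤ s → s ≤ T → h s ≤ m) :
    ∃ Q : Ideal (MvPolynomial (Fin (m+2)) k), Dep.Homog Q ∧ Q ≠ ⊥ ∧ Q ≠ ⊤ ∧
      ∀ t, 1 ≤ t → Dep.IsDepth (Q ^ t) (m - h (min t T)) := by
  have D := data2 (T := T) (P := m) h
  have hmm0 : 0 < PosNum.mm T m := by
    have h1 := th_le_mm (T := T) (P := m)
    have h2 := th_gt (T := T) (P := m)
    omega
  let Q := QQ k (dl T) (2 * PosNum.mm T m) (EE T m) (GG T m h) (YY T m h)
  have hlev := lev D 0
  rw [zero_add, mul_one, SE_one, SG_zero, SY_zero'] at hlev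
  have hhom : Dep.Homog Q := QQ_homog hlev
  have hLH : ∀ t, LH (dl T) (2 * PosNum.mm T m * (t+1)) (SE (EE T m) (t+1)) (SG (GG T m h) (EE T m) t)
      (SY (EE T m) (YY T m h) t) (h (min (t+1) T)) := by
    intro t
    refine ⟨lev D t, fun p i j => uniq h t p i j, ?_, ?_⟩
    · intro p i h1 h2 h3
      have h4 := expo h t p i h1 h2 h3
      rw [h4] at h1
      exact marks_jj h (by omega) (by omega) i h1
    · exact Nat.mul_pos (by omega) (by omega)
  have hQpow : ∀ t, Q ^ (t+1) = QQ k (dl T) (2 * PosNum.mm T m * (t+1)) (SE (EE T m) (t+1))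
      (SG (GG T m h) (EE T m) t) (SY (EE T m) (YY T m h) t) := by
    intro t
    change (Ideal.map _ _) ^ _ = Ideal.map _ _
    rw [← Ideal.map_pow, JX, JX, JJ_pow D t]
  have hbot : Q ≠ ⊥ := by
    intro hb
    have h1 : (psi k m).toRingEquiv (mo _ (2 * PosNum.mm T m) 0) ∈ Q := by
      change _ ∈ Ideal.map _ _
      rw [mem_map_iff]
      exact mem_E D.D.zero_mem
    rw [hb, Ideal.mem_bot, map_eq_zero_iff _ (psi k m).toRingEquiv.injective, mo, monomial_eq_zero] at h1
    exact one_ne_zero h1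
  have htop : Q ≠ ⊤ := by
    intro ht
    have h2 := hQpow 0
    rw [zero_add, pow_one, ht] at h2
    have h1 : (psi k m).toRingEquiv 1 ∈ QQ k (dl T) (2 * PosNum.mm T m * 1) (SE (EE T m) 1)
      (SG (GG T m h) (EE T m) 0) (SY (EE T m) (YY T m h) 0) := by rw [← h2]; trivial
    rw [QQ, mem_map_iff] at h1
    have h3 := JV_ne_top (k := k) (hLH 0) ∅
    apply h3
    rw [Ideal.eq_top_iff_one]
    exact (le_sup_left : JX k _ _ _ _ _ ≤ _) h1
  refine ⟨Q, hhom, hbot, htop, ?_⟩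
  intro t ht
  obtain ⟨t, rfl⟩ : ∃ s, t = s + 1 := ⟨t - 1, by omega⟩
  have hs1 : 1 ≤ min (t+1) T := by omega
  have hs2 : min (t+1) T ≤ T := by omega
  have hle : Q ^ (t+1) ≤ Dep.mm k (m+2) := (Ideal.pow_le_self (by omega)).trans (hhom.le_mm htop)
  rw [hQpow t] at hle ⊢
  refine QQ_depth (hLH t) (hh _ hs1 hs2) ?_ ?_ hle
  · intro hpos
    have h1 := jj_lt (T := T) (P := m) hs2
    have h2 : ∀ i : Fin m, (i : ℕ) < h (min (t+1) T) →
        (jj T m (min (t+1) T), i) ∈ SY (EE T m) (YY T m h) t := by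
      intro i hi
      have := marks_jj' (T := T) (P := m) h hs1 hs2 (t := t+1) (by omega) i hi
      rwa [Nat.add_sub_cancel] at this
    have hhm := hh _ hs1 hs2
    have h3 := h2 ⟨0, by omega⟩ hpos
    refine ⟨jj T m (min (t+1) T), ?_, ?_, ?_, h2, ?_, ?_⟩
    · have : 2 * PosNum.mm T m * 1 ≤ 2 * PosNum.mm T m * (t+1) := Nat.mul_le_mul_left _ (by omega)
      omega
    · intro hmem
      obtain ⟨ha, hb⟩ := jj_notMem hs1 hs2 hmem
      omega
    · exact jj_dl_mem h hs1 hs2 (by omega)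
    · exact (lev D t).YG _ h3
    · exact (lev D t).YG1 _ h3
  · intro _
    obtain ⟨h1, h2⟩ := two_notMem (T := T) (P := m) h t
    refine ⟨2, ?_, h1, h2⟩
    have h3 := th_le_mm (T := T) (P := m)
    have h4 := th_gt (T := T) (P := m)
    have : 2 * PosNum.mm T m * 1 ≤ 2 * PosNum.mm T m * (t+1) := Nat.mul_le_mul_left _ (by omega)
    omega

end final

end Pool.V1147.Def2Fin
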