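import Mathlib

set_option autoImplicit false

namespace Pool.V1147.PdOne

variable {R : Type*} [CommRing R]

/-- `I` has a finite free cover with projective kernel. -/
def HasRes (I : Ideal R) : Prop :=
  ∃ (m : ℕ) (f : (Fin m → R) →ₗ[R] ↥I),
    Function.Surjective f ∧ Module.Projective R ↥(LinearMap.ker f)

lemma hasRes_bot : HasRes (⊥ : Ideal R) := by
  refine ⟨0, 0, ?_, ?_⟩
  · intro y
    refine ⟨0, ?_⟩
    exact Subsingleton.elim _ _
  · have : Subsingleton ↥(LinearMap.ker (0 : (Fin 0 → R) →ₗ[R] ↥(⊥ : Ideal R))) := inferInstance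
    infer_instance

lemma hasRes_sup (I : Ideal R) (g : R) (h : HasRes I) (C : Ideal R)
    (hC : ∀ c, c ∈ C ↔ c * g ∈ I) (hP : Module.Projective R C) :
    HasRes (I ⊔ Ideal.span {g}) := by
  obtain ⟨m, f, hf, hK⟩ := h
  -- the new cover
  let F : (Fin (m+1) → R) →ₗ[R] R :=
    (Submodule.subtype I) ∘ₗ f ∘ₗ (LinearMap.funLeft R R (Fin.succ : Fin m → Fin (m+1)))
      + (LinearMap.toSpanSingleton R R g) ∘ₗ (LinearMap.proj (0 : Fin (m+1)))
  have hFapp : ∀ v, F v = (f (fun i => v i.succ) : R) + v 0 * g := by
    intro v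
    simp only [F, LinearMap.add_apply, LinearMap.comp_apply, LinearMap.toSpanSingleton_apply,
      LinearMap.proj_apply, smul_eq_mul, Submodule.subtype_apply]
    rfl
  have hFmem : ∀ v, F v ∈ I ⊔ Ideal.span {g} := by
    intro v
    rw [hFapp]
    refine Ideal.add_mem _ ?_ ?_
    · exact (le_sup_left : I ≤ I ⊔ Ideal.span {g}) (f _).2
    · exact (le_sup_right : Ideal.span {g} ≤ I ⊔ Ideal.span {g})
        (Ideal.mem_span_singleton'.2 ⟨v 0, rfl⟩)
  let F' : (Fin (m+1) → R) →ₗ[R] ↥(I ⊔ Ideal.span {g}) := F.codRestrict _ hFmem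
  refine ⟨m+1, F', ?_, ?_⟩
  · rintro ⟨y, hy⟩
    obtain ⟨a, ha, b, hb, hab⟩ := Submodule.mem_sup.1 hy
    obtain ⟨c, rfl⟩ := Ideal.mem_span_singleton'.1 hb
    obtain ⟨w, hw⟩ := hf ⟨a, ha⟩
    refine ⟨Fin.cons c w, ?_⟩
    apply Subtype.ext
    change F _ = y
    rw [hFapp]
    simp only [Fin.cons_succ, Fin.cons_zero]
    rw [hw, ← hab]
  · -- the map from ker F' to C
    have hker : ∀ v : ↥(LinearMap.ker F'), (f (fun i => (v : Fin (m+1) → R) i.succ) : R) + (v : Fin (m+1) → R) 0 * g = 0 := by
      intro v
      have h1 : F' v = 0 := v.2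
      have h2 : F (v : Fin (m+1) → R) = 0 := by
        have := congrArg Subtype.val h1
        exact this
      rw [← hFapp]; exact h2
    let φ0 : ↥(LinearMap.ker F') →ₗ[R] R := (LinearMap.proj (0 : Fin (m+1))) ∘ₗ (Submodule.subtype _)
    have hφ0 : ∀ v, φ0 v ∈ C := by
      intro v
      rw [hC]
      have h1 := hker v
      have h2 : φ0 v * g = -(f (fun i => (v : Fin (m+1) → R) i.succ) : R) := by
        have : φ0 v = (v : Fin (m+1) → R) 0 := rfl
        rw [this]
        linear_combination h1
      rw [h2]
      exact I.neg_mem (f _).2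
    let φ : ↥(LinearMap.ker F') →ₗ[R] C := φ0.codRestrict C hφ0
    have hφ : Function.Surjective φ := by
      rintro ⟨c, hc⟩
      have hcg : -(c * g) ∈ I := I.neg_mem ((hC c).1 hc)
      obtain ⟨w, hw⟩ := hf ⟨_, hcg⟩
      refine ⟨⟨Fin.cons c w, ?_⟩, ?_⟩
      · rw [LinearMap.mem_ker]
        apply Subtype.ext
        change F _ = 0
        rw [hFapp]
        simp only [Fin.cons_succ, Fin.cons_zero]
        rw [hw]
        simp
      · apply Subtype.ext
        rfl
    obtain ⟨s, hs⟩ := Module.projective_lifting_property φ LinearMap.id hφ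
    have hs' : ∀ c, φ (s c) = c := fun c => by
      have := congrArg (fun l => l c) hs
      simpa using this
    -- inclusion of ker f
    let j0 : ↥(LinearMap.ker f) →ₗ[R] (Fin (m+1) → R) :=
      { toFun := fun w => Fin.cons 0 (w : Fin m → R)
        map_add' := by
          intro a b
          ext i
          refine Fin.cases ?_ (fun i => ?_) i <;> simp
        map_smul' := by
          intro a b
          ext i
          refine Fin.cases ?_ (fun i => ?_) i <;> simp }
    have hj0 : ∀ w, j0 w ∈ LinearMap.ker F' := by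
      intro w
      rw [LinearMap.mem_ker]
      apply Subtype.ext
      change F (Fin.cons 0 (w : Fin m → R)) = 0
      rw [hFapp]
      simp only [Fin.cons_succ, Fin.cons_zero]
      have : f (w : Fin m → R) = 0 := w.2
      rw [this]
      simp
    let j : ↥(LinearMap.ker f) →ₗ[R] ↥(LinearMap.ker F') := j0.codRestrict _ hj0
    let e : (↥(LinearMap.ker f) × C) →ₗ[R] ↥(LinearMap.ker F') := j.coprod s
    have hφj : ∀ w, φ (j w) = 0 := by
      intro w
      apply Subtype.ext
      rfl
    have he : Function.Bijective e := by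
      constructor
      · rw [← LinearMap.ker_eq_bot, LinearMap.ker_eq_bot']
        rintro ⟨w, c⟩ h0
        have h1 : j w + s c = 0 := h0
        have h2 : c = 0 := by
          have := congrArg φ h1
          rw [map_add, hφj, hs', zero_add, map_zero] at this
          exact this
        subst h2
        rw [map_zero, add_zero] at h1
        have h3 : w = 0 := by
          apply Subtype.ext
          have h4 := congrArg Subtype.val h1
          funext i
          have h5 := congrFun h4 i.succ
          exact h5
        rw [h3]; rfl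
      · intro v
        have hv0 : ((v - s (φ v) : ↥(LinearMap.ker F')) : Fin (m+1) → R) 0 = 0 := by
          have h1 : φ (v - s (φ v)) = 0 := by
            rw [map_sub, hs', sub_self]
          exact congrArg Subtype.val h1
        have hw : (fun i : Fin m => ((v - s (φ v) : ↥(LinearMap.ker F')) : Fin (m+1) → R) i.succ) ∈ LinearMap.ker f := by
          rw [LinearMap.mem_ker]
          apply Subtype.ext
          have h1 := hker (v - s (φ v))
          rw [hv0, zero_mul, add_zero] at h1
          exact h1
        refine ⟨(⟨_, hw⟩, φ v), ?_⟩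
        change j _ + s (φ v) = v
        rw [← eq_sub_iff_add_eq]
        apply Subtype.ext
        funext i
        refine Fin.cases ?_ (fun i => ?_) i
        · rw [hv0]; rfl
        · rfl
    exact Module.Projective.of_equiv (LinearEquiv.ofBijective e he)

lemma projective_span_singleton [IsDomain R] (c : R) (hc : c ≠ 0) :
    Module.Projective R ↥(Ideal.span {c}) := by
  have := (LinearEquiv.toSpanNonzeroSingleton R R c hc)
  exact Module.Projective.of_equiv this

/-- step with colon a power of the prime `x`. -/
lemma hasRes_step [IsDomain R] (I : Ideal R) (x u : R) (k e : ℕ) (hx : Prime x) (hu : ¬ x ∣ u)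
    (hI : I ≤ Ideal.span {x ^ (k + e)}) (hmem : x ^ e * (x ^ k * u) ∈ I) (h : HasRes I) :
    HasRes (I ⊔ Ideal.span {x ^ k * u}) := by
  refine hasRes_sup I _ h (Ideal.span {x ^ e}) ?_ (projective_span_singleton _ (pow_ne_zero _ hx.ne_zero))
  intro c
  rw [Ideal.mem_span_singleton]
  constructor
  · rintro ⟨d, rfl⟩
    have : x ^ e * d * (x ^ k * u) = d * (x ^ e * (x ^ k * u)) := by ring
    rw [this]
    exact I.mul_mem_left _ hmem
  · intro hc
    have h1 := hI hc
    rw [Ideal.mem_span_singleton] at h1
    obtain ⟨d, hd⟩ := h1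
    have h2 : c * u = x ^ e * d := by
      have : x ^ k * (c * u) = x ^ k * (x ^ e * d) := by
        rw [pow_add] at hd
        linear_combination hd
      exact mul_left_cancel₀ (pow_ne_zero _ hx.ne_zero) this
    have h3 : x ^ e ∣ c * u := ⟨d, h2⟩
    exact hx.pow_dvd_of_dvd_mul_right e hu h3

/-- the coprimality property passes to projective modules -/
lemma coprime_projective {M : Type*} [AddCommGroup M] [Module R M] [Module.Projective R M]
    (α β : R) (hαβ : ∀ p q : R, β * p = α * q → α ∣ p) (u v : M) (h : β • u = α • v) :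
    ∃ w : M, u = α • w := by
  obtain ⟨s, hs⟩ := (Module.projective_def' (R := R) (P := M)).1 inferInstance
  have hs' : ∀ m, Finsupp.linearCombination R (id : M → M) (s m) = m := fun m => by
    have := congrArg (fun l => l m) hs
    simpa using this
  have h1 : ∀ i, α ∣ s u i := by
    intro i
    refine hαβ _ (s v i) ?_
    have := congrArg (fun m => s m i) h
    simpa using this
  choose d hd using h1
  classical
  let w' : M →₀ R := Finsupp.onFinset (s u).support (fun i => if i ∈ (s u).support then d i else 0)
    (by intro i hi; by_contra h0; simp [h0] at hi)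
  have hw : s u = α • w' := by
    ext i
    by_cases h0 : i ∈ (s u).support
    · simp only [w', Finsupp.smul_apply, Finsupp.onFinset_apply, h0, if_true, smul_eq_mul]
      exact hd i
    · simp only [w', Finsupp.smul_apply, Finsupp.onFinset_apply, h0, if_false, smul_eq_mul, mul_zero]
      exact Finsupp.notMem_support_iff.1 h0
  refine ⟨Finsupp.linearCombination R (id : M → M) w', ?_⟩
  rw [← map_smul, ← hw, hs']

/-- a proper ideal containing a coprime pair is not projective -/
lemma not_projective (I : Ideal R) (α β : R) (hα : α ∈ I) (hβ : β ∈ I) (h1 : (1 : R) ∉ I)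
    (hreg : ∀ p : R, α * p = 0 → p = 0)
    (hαβ : ∀ p q : R, β * p = α * q → α ∣ p) : ¬ Module.Projective R ↥I := by
  intro hP
  obtain ⟨w, hw⟩ := coprime_projective α β hαβ (⟨α, hα⟩ : ↥I) (⟨β, hβ⟩ : ↥I)
    (by apply Subtype.ext; simp [mul_comm])
  apply h1
  have h2 : α = α * (w : R) := congrArg Subtype.val hw
  have h3 : (w : R) - 1 = 0 := hreg _ (by linear_combination -h2)
  have h4 : (w : R) = 1 := by linear_combination h3
  rw [← h4]
  exact w.2

/-- the Koszul property for three elements passes to projective modules -/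
lemma koszul_projective {M : Type*} [AddCommGroup M] [Module R M] [Module.Projective R M]
    (x y z : R)
    (hk : ∀ a b c : R, x * a + y * b + z * c = 0 →
      ∃ p q r : R, a = z * q - y * r ∧ b = x * r - z * p ∧ c = y * p - x * q)
    (a b c : M) (h : x • a + y • b + z • c = 0) :
    ∃ p q r : M, a = z • q - y • r ∧ b = x • r - z • p ∧ c = y • p - x • q := by
  obtain ⟨s, hs⟩ := (Module.projective_def' (R := R) (P := M)).1 inferInstance
  have hs' : ∀ m, Finsupp.linearCombination R (id : M → M) (s m) = m := fun m => by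
    have := congrArg (fun l => l m) hs
    simpa using this
  have h1 : ∀ i, ∃ p q r : R, s a i = z * q - y * r ∧ s b i = x * r - z * p ∧ s c i = y * p - x * q := by
    intro i
    refine hk _ _ _ ?_
    have := congrArg (fun m => s m i) h
    simpa using this
  choose P Q S hP hQ hS using h1
  classical
  let T : Finset M := (s a).support ∪ (s b).support ∪ (s c).support
  let mk : (M → R) → (M →₀ R) := fun g => Finsupp.onFinset T (fun i => if i ∈ T then g i else 0)
    (by intro i hi; by_contra h0; simp [h0] at hi)
  have hmk : ∀ g i, i ∈ T → mk g i = g i := by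
    intro g i hi
    simp [mk, hi]
  have hmk' : ∀ g i, i ∉ T → mk g i = 0 := by
    intro g i hi
    simp [mk, hi]
  have ha0 : ∀ i, i ∉ T → s a i = 0 := by
    intro i hi
    simp only [T, Finset.mem_union, not_or, Finsupp.notMem_support_iff] at hi
    exact hi.1.1
  have hb0 : ∀ i, i ∉ T → s b i = 0 := by
    intro i hi
    simp only [T, Finset.mem_union, not_or, Finsupp.notMem_support_iff] at hi
    exact hi.1.2
  have hc0 : ∀ i, i ∉ T → s c i = 0 := by
    intro i hi
    simp only [T, Finset.mem_union, not_or, Finsupp.notMem_support_iff] at hi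
    exact hi.2
  have e1 : s a = z • mk Q - y • mk S := by
    ext i
    by_cases hi : i ∈ T
    · simp only [Finsupp.sub_apply, Finsupp.smul_apply, smul_eq_mul, hmk _ i hi]; exact hP i
    · simp only [Finsupp.sub_apply, Finsupp.smul_apply, smul_eq_mul, hmk' _ i hi, mul_zero, sub_zero]
      exact ha0 i hi
  have e2 : s b = x • mk S - z • mk P := by
    ext i
    by_cases hi : i ∈ T
    · simp only [Finsupp.sub_apply, Finsupp.smul_apply, smul_eq_mul, hmk _ i hi]; exact hQ i
    · simp only [Finsupp.sub_apply, Finsupp.smul_apply, smul_eq_mul, hmk' _ i hi, mul_zero, sub_zero]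
      exact hb0 i hi
  have e3 : s c = y • mk P - x • mk Q := by
    ext i
    by_cases hi : i ∈ T
    · simp only [Finsupp.sub_apply, Finsupp.smul_apply, smul_eq_mul, hmk _ i hi]; exact hS i
    · simp only [Finsupp.sub_apply, Finsupp.smul_apply, smul_eq_mul, hmk' _ i hi, mul_zero, sub_zero]
      exact hc0 i hi
  let π := Finsupp.linearCombination R (id : M → M)
  refine ⟨π (mk P), π (mk Q), π (mk S), ?_, ?_, ?_⟩
  · rw [← map_smul, ← map_smul, ← map_sub, ← e1, hs']
  · rw [← map_smul, ← map_smul, ← map_sub, ← e2, hs']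
  · rw [← map_smul, ← map_smul, ← map_sub, ← e3, hs']

/-- If `u ∉ I` but `x u, y u, z u ∈ I`, then `I` has no finite free cover with projective kernel. -/
lemma not_hasRes (I : Ideal R) (x y z u : R)
    (hk : ∀ a b c : R, x * a + y * b + z * c = 0 →
      ∃ p q r : R, a = z * q - y * r ∧ b = x * r - z * p ∧ c = y * p - x * q)
    (hxr : ∀ p : R, x * p = 0 → p = 0)
    (hxy : ∀ p q : R, y * p = x * q → x ∣ p)
    (hxu : x * u ∈ I) (hyu : y * u ∈ I) (hzu : z * u ∈ I) (hu : u ∉ I) : ¬ HasRes I := by
  rintro ⟨m, f, hf, hK⟩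
  obtain ⟨a, ha⟩ := hf ⟨_, hxu⟩
  obtain ⟨b, hb⟩ := hf ⟨_, hyu⟩
  obtain ⟨c, hc⟩ := hf ⟨_, hzu⟩
  -- kernel elements
  have k1 : z • b - y • c ∈ LinearMap.ker f := by
    rw [LinearMap.mem_ker, map_sub, map_smul, map_smul, hb, hc]
    apply Subtype.ext
    change z * (y * u) - y * (z * u) = 0
    ring
  have k2 : x • c - z • a ∈ LinearMap.ker f := by
    rw [LinearMap.mem_ker, map_sub, map_smul, map_smul, ha, hc]
    apply Subtype.ext
    change x * (z * u) - z * (x * u) = 0
    ring
  have k3 : y • a - x • b ∈ LinearMap.ker f := by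
    rw [LinearMap.mem_ker, map_sub, map_smul, map_smul, ha, hb]
    apply Subtype.ext
    change y * (x * u) - x * (y * u) = 0
    ring
  obtain ⟨p, q, r, h1, h2, h3⟩ := koszul_projective (M := ↥(LinearMap.ker f)) x y z hk ⟨_, k1⟩ ⟨_, k2⟩ ⟨_, k3⟩
    (by
      apply Subtype.ext
      change x • (z • b - y • c) + y • (x • c - z • a) + z • (y • a - x • b) = 0
      funext i
      simp only [Pi.add_apply, Pi.sub_apply, Pi.smul_apply, smul_eq_mul, Pi.zero_apply]
      ring)
  have h3' : y • a - x • b = y • (p : Fin m → R) - x • (q : Fin m → R) := congrArg Subtype.val h3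
  -- a - p = x w
  have h4 : ∀ i, x ∣ (a - (p : Fin m → R)) i := by
    intro i
    refine hxy _ ((b - (q : Fin m → R)) i) ?_
    have := congrFun h3' i
    simp only [Pi.sub_apply, Pi.smul_apply, smul_eq_mul] at this
    simp only [Pi.sub_apply]
    linear_combination this
  choose w hw using h4
  apply hu
  have h5 : a = (p : Fin m → R) + x • w := by
    funext i
    have := hw i
    simp only [Pi.sub_apply] at this
    simp only [Pi.add_apply, Pi.smul_apply, smul_eq_mul]
    linear_combination this
  have h6 : f a = x • f w := by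
    rw [h5, map_add, map_smul]
    have : f (p : Fin m → R) = 0 := p.2
    rw [this, zero_add]
  have h7 : x * u = x * (f w : R) := by
    have := congrArg Subtype.val (ha.symm.trans h6)
    exact this
  have h8 : u - (f w : R) = 0 := hxr _ (by linear_combination h7)
  have h9 : u = (f w : R) := by linear_combination h8
  rw [h9]
  exact (f w).2

end Pool.V1147.PdOne
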