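import Mathlib
import Pool.Agent.V1147.PdOne

set_option autoImplicit false

open MvPolynomial

namespace Pool.V1147.PdOneEx

open Pool.V1147.PdOne

abbrev A := MvPolynomial (Fin 3) ℚ

noncomputable def x : A := X 0
noncomputable def y : A := X 1
noncomputable def z : A := X 2

lemma prime_x : Prime x := X_prime
lemma prime_y : Prime y := X_prime
lemma prime_z : Prime z := X_prime

lemma not_dvd_X (i j : Fin 3) (h : i ≠ j) : ¬ (X i : A) ∣ X j := by
  rintro ⟨d, hd⟩
  have h1 := congrArg (MvPolynomial.aeval (fun l : Fin 3 => if l = i then (0:ℚ) else 1)) hd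
  rw [map_mul, aeval_X, aeval_X] at h1
  simp [h.symm] at h1

lemma x_ndvd_y : ¬ x ∣ y := not_dvd_X 0 1 (by decide)
lemma x_ndvd_z : ¬ x ∣ z := not_dvd_X 0 2 (by decide)
lemma y_ndvd_x : ¬ y ∣ x := not_dvd_X 1 0 (by decide)
lemma y_ndvd_z : ¬ y ∣ z := not_dvd_X 1 2 (by decide)

noncomputable def ε : A →ₐ[ℚ] A := MvPolynomial.aeval (fun i => if i = 0 then 0 else X i)

lemma ε_x : ε x = 0 := by simp [ε, x]
lemma ε_y : ε y = y := by simp [ε, y]
lemma ε_z : ε z = z := by simp [ε, z]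

lemma ε_sub (c : A) : x ∣ c - ε c := by
  induction c using MvPolynomial.induction_on with
  | C a => simp [ε]
  | add p q hp hq =>
    have : p + q - ε (p + q) = (p - ε p) + (q - ε q) := by rw [map_add]; ring
    rw [this]; exact dvd_add hp hq
  | mul_X p i hp =>
    have : p * X i - ε (p * X i) = (p - ε p) * X i + ε p * (X i - ε (X i)) := by
      rw [map_mul]; ring
    rw [this]
    refine dvd_add (Dvd.dvd.mul_right hp _) (Dvd.dvd.mul_left ?_ _)
    by_cases hi : i = 0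
    · subst hi
      have : ε (X 0) = 0 := ε_x
      rw [this, sub_zero]; exact dvd_refl _
    · have : ε (X i) = X i := by simp [ε, hi]
      rw [this, sub_self]; exact dvd_zero _

lemma koszul (a b c : A) (h : x * a + y * b + z * c = 0) :
    ∃ p q r : A, a = z * q - y * r ∧ b = x * r - z * p ∧ c = y * p - x * q := by
  -- y | ε c
  have h1 : y * ε b + z * ε c = 0 := by
    have := congrArg ε h
    rw [map_add, map_add, map_mul, map_mul, map_mul, ε_x, ε_y, ε_z, map_zero] at this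
    linear_combination this
  have h2 : y ∣ z * ε c := ⟨-ε b, by linear_combination h1⟩
  obtain ⟨p, hp⟩ := (prime_y.dvd_or_dvd h2).resolve_left y_ndvd_z
  obtain ⟨q', hq'⟩ := ε_sub c
  have hc : c = y * p - x * (-q') := by linear_combination hq' + hp
  have h3 : x * (a - z * (-q')) = y * (-(b + z * p)) := by
    linear_combination h - z * hc
  have h4 : y ∣ x * (a - z * (-q')) := ⟨_, h3⟩
  obtain ⟨r', hr'⟩ := (prime_y.dvd_or_dvd h4).resolve_left y_ndvd_x
  refine ⟨p, -q', -r', ?_, ?_, hc⟩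
  · linear_combination hr'
  · have h5 : y * (x * r') = y * (-(b + z * p)) := by
      rw [← h3, hr']; ring
    have h6 := mul_left_cancel₀ prime_y.ne_zero h5
    linear_combination h6

/-- the chain of ideals -/
noncomputable def Q1 : Ideal A := ⊥ ⊔ Ideal.span {x ^ 6}
noncomputable def Q2 : Ideal A := Q1 ⊔ Ideal.span {x ^ 5 * y}
noncomputable def Q3 : Ideal A := Q2 ⊔ Ideal.span {x ^ 4 * y ^ 3}
noncomputable def Q4 : Ideal A := Q3 ⊔ Ideal.span {x ^ 3 * (y ^ 4 + z * x * y ^ 2)}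
noncomputable def Q5 : Ideal A := Q4 ⊔ Ideal.span {x ^ 1 * y ^ 5}
noncomputable def Q6 : Ideal A := Q5 ⊔ Ideal.span {x ^ 0 * y ^ 6}

lemma x_ndvd_ypow (n : ℕ) : ¬ x ∣ y ^ n := fun h => x_ndvd_y (prime_x.dvd_of_dvd_pow h)

lemma hasRes_Q1 : HasRes Q1 := by
  refine hasRes_sup ⊥ _ hasRes_bot ⊥ ?_ ?_
  · intro c
    rw [Ideal.mem_bot, Ideal.mem_bot]
    constructor
    · rintro rfl; simp
    · intro h
      exact (mul_eq_zero.1 h).resolve_right (pow_ne_zero _ prime_x.ne_zero)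
  · have : Subsingleton ↥(⊥ : Ideal A) := inferInstance
    infer_instance

lemma Q1_le : Q1 ≤ Ideal.span {x ^ 6} := by
  simp [Q1]

lemma mem_Q1 : x ^ 6 ∈ Q1 := by
  simp only [Q1, bot_sup_eq]; exact Ideal.mem_span_singleton_self _
lemma mem_Q2 : x ^ 5 * y ∈ Q2 := (le_sup_right : _ ≤ Q2) (Ideal.mem_span_singleton_self _)
lemma mem_Q3 : x ^ 4 * y ^ 3 ∈ Q3 := (le_sup_right : _ ≤ Q3) (Ideal.mem_span_singleton_self _)
lemma mem_Q4 : x ^ 3 * (y ^ 4 + z * x * y ^ 2) ∈ Q4 :=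
  (le_sup_right : _ ≤ Q4) (Ideal.mem_span_singleton_self _)
lemma mem_Q5 : x ^ 1 * y ^ 5 ∈ Q5 := (le_sup_right : _ ≤ Q5) (Ideal.mem_span_singleton_self _)
lemma mem_Q6 : x ^ 0 * y ^ 6 ∈ Q6 := (le_sup_right : _ ≤ Q6) (Ideal.mem_span_singleton_self _)

lemma Q12 : Q1 ≤ Q2 := le_sup_left
lemma Q23 : Q2 ≤ Q3 := le_sup_left
lemma Q34 : Q3 ≤ Q4 := le_sup_left
lemma Q45 : Q4 ≤ Q5 := le_sup_left
lemma Q56 : Q5 ≤ Q6 := le_sup_left

lemma span_pow_le {m n : ℕ} (h : m ≤ n) : Ideal.span {x ^ n} ≤ Ideal.span {x ^ m} := by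
  rw [Ideal.span_singleton_le_span_singleton]
  exact pow_dvd_pow _ h

lemma span_mul_le (m : ℕ) (u : A) : Ideal.span {x ^ m * u} ≤ Ideal.span {x ^ m} := by
  rw [Ideal.span_singleton_le_span_singleton]
  exact Dvd.intro _ rfl

lemma Q2_le : Q2 ≤ Ideal.span {x ^ 5} := by
  refine sup_le (Q1_le.trans (span_pow_le (by norm_num))) (span_mul_le _ _)
lemma Q3_le : Q3 ≤ Ideal.span {x ^ 4} := by
  refine sup_le (Q2_le.trans (span_pow_le (by norm_num))) (span_mul_le _ _)
lemma Q4_le : Q4 ≤ Ideal.span {x ^ 3} := by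
  refine sup_le (Q3_le.trans (span_pow_le (by norm_num))) (span_mul_le _ _)
lemma Q5_le : Q5 ≤ Ideal.span {x ^ 1} := by
  refine sup_le (Q4_le.trans (span_pow_le (by norm_num))) (span_mul_le _ _)

lemma hasRes_Q2 : HasRes Q2 := by
  refine hasRes_step Q1 x y 5 1 prime_x x_ndvd_y Q1_le ?_ hasRes_Q1
  have := Ideal.mul_mem_left _ y mem_Q1
  convert this using 1; ring

lemma hasRes_Q3 : HasRes Q3 := by
  refine hasRes_step Q2 x (y ^ 3) 4 1 prime_x (x_ndvd_ypow _) Q2_le ?_ hasRes_Q2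
  have := Ideal.mul_mem_left _ (y ^ 2) mem_Q2
  convert this using 1; ring

lemma hasRes_Q4 : HasRes Q4 := by
  refine hasRes_step Q3 x _ 3 1 prime_x ?_ Q3_le ?_ hasRes_Q3
  · intro h
    apply x_ndvd_ypow 4
    have h2 : x ∣ z * x * y ^ 2 := ⟨z * y ^ 2, by ring⟩
    exact (dvd_add_left h2).1 h
  · have := Ideal.add_mem _ (Ideal.mul_mem_left _ y mem_Q3) (Ideal.mul_mem_left _ (z * y) (Q23 mem_Q2))
    convert this using 1; ring

lemma hasRes_Q5 : HasRes Q5 := by
  refine hasRes_step Q4 x _ 1 2 prime_x (x_ndvd_ypow 5) Q4_le ?_ hasRes_Q4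
  have := Ideal.sub_mem _ (Ideal.mul_mem_left _ y mem_Q4) (Ideal.mul_mem_left _ z (Q34 mem_Q3))
  convert this using 1; ring

lemma hasRes_Q6 : HasRes Q6 := by
  refine hasRes_step Q5 x _ 0 1 prime_x (x_ndvd_ypow 6) Q5_le ?_ hasRes_Q5
  have := Ideal.mul_mem_left _ y mem_Q5
  convert this using 1; ring

/-- the powers of `(x,y)` -/
noncomputable def D (N : ℕ) : Ideal A := Ideal.span {m | ∃ a b : ℕ, a + b = N ∧ m = x ^ a * y ^ b}
noncomputable def J (N i : ℕ) : Ideal A :=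
  Ideal.span {m | ∃ a b : ℕ, a + b = N ∧ b < i ∧ m = x ^ a * y ^ b}

lemma J_zero (N : ℕ) : J N 0 = ⊥ := by
  have : {m : A | ∃ a b : ℕ, a + b = N ∧ b < 0 ∧ m = x ^ a * y ^ b} = ∅ := by
    ext m; simp
  simp [J, this]

lemma J_succ (N i : ℕ) (hi : i ≤ N) : J N (i+1) = J N i ⊔ Ideal.span {x ^ (N - i) * y ^ i} := by
  apply le_antisymm
  · refine Ideal.span_le.2 ?_
    rintro m ⟨a, b, hab, hb, rfl⟩
    rcases Nat.lt_succ_iff_lt_or_eq.1 hb with h | h
    · exact (le_sup_left : J N i ≤ _) (Ideal.subset_span ⟨a, b, hab, h, rfl⟩)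
    · subst h
      have : a = N - b := by omega
      subst this
      exact (le_sup_right : Ideal.span {x ^ (N - b) * y ^ b} ≤ _) (Ideal.mem_span_singleton_self _)
  · refine sup_le (Ideal.span_mono ?_) ?_
    · rintro m ⟨a, b, hab, hb, rfl⟩
      exact ⟨a, b, hab, by omega, rfl⟩
    · rw [Ideal.span_singleton_le_iff_mem]
      exact Ideal.subset_span ⟨N - i, i, by omega, by omega, rfl⟩

lemma J_full (N : ℕ) : J N (N+1) = D N := by
  apply le_antisymm
  · refine Ideal.span_mono ?_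
    rintro m ⟨a, b, hab, hb, rfl⟩
    exact ⟨a, b, hab, rfl⟩
  · refine Ideal.span_mono ?_
    rintro m ⟨a, b, hab, rfl⟩
    exact ⟨a, b, hab, by omega, rfl⟩

lemma J_le (N i : ℕ) (hi : i ≤ N) : J N i ≤ Ideal.span {x ^ ((N - i) + 1)} := by
  refine Ideal.span_le.2 ?_
  rintro m ⟨a, b, hab, hb, rfl⟩
  rw [SetLike.mem_coe, Ideal.mem_span_singleton]
  exact Dvd.dvd.mul_right (pow_dvd_pow _ (by omega)) _

lemma hasRes_J (N i : ℕ) (hi : i ≤ N + 1) : HasRes (J N i) := by
  induction i with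
  | zero => rw [J_zero]; exact hasRes_bot
  | succ i ih =>
    rw [J_succ N i (by omega)]
    rcases Nat.eq_zero_or_pos i with h0 | h0
    · subst h0
      rw [J_zero]
      refine hasRes_sup ⊥ _ hasRes_bot ⊥ ?_ ?_
      · intro c
        rw [Ideal.mem_bot, Ideal.mem_bot]
        constructor
        · rintro rfl; simp
        · intro h
          refine (mul_eq_zero.1 h).resolve_right ?_
          exact mul_ne_zero (pow_ne_zero _ prime_x.ne_zero) (pow_ne_zero _ prime_y.ne_zero)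
      · have : Subsingleton ↥(⊥ : Ideal A) := inferInstance
        infer_instance
    · refine hasRes_step (J N i) x (y ^ i) (N - i) 1 prime_x (x_ndvd_ypow i) (J_le N i (by omega)) ?_
        (ih (by omega))
      have h1 : x ^ (N - i + 1) * y ^ (i - 1) ∈ J N i :=
        Ideal.subset_span ⟨N - i + 1, i - 1, by omega, by omega, rfl⟩
      have := Ideal.mul_mem_left _ y h1
      convert this using 1
      have : y ^ i = y ^ (i - 1) * y := by rw [← pow_succ]; congr 1; omega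
      rw [this]; ring

lemma hasRes_D (N : ℕ) : HasRes (D N) := by
  rw [← J_full]; exact hasRes_J N _ le_rfl

lemma D_mul (m n : ℕ) : D m * D n ≤ D (m + n) := by
  rw [D, D, Ideal.span_mul_span']
  refine Ideal.span_le.2 ?_
  rintro _ ⟨_, ⟨a, b, hab, rfl⟩, _, ⟨c, d, hcd, rfl⟩, rfl⟩
  refine Ideal.subset_span ⟨a + c, b + d, by omega, ?_⟩
  simp only [pow_add]; ring

lemma mem_D (a b : ℕ) (u : A) : u * (x ^ a * y ^ b) ∈ D (a + b) :=
  Ideal.mul_mem_left _ _ (Ideal.subset_span ⟨a, b, rfl, rfl⟩)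

lemma Q6_le_D : Q6 ≤ D 6 := by
  refine sup_le (sup_le (sup_le (sup_le (sup_le (sup_le bot_le ?_) ?_) ?_) ?_) ?_) ?_ <;>
    rw [Ideal.span_singleton_le_iff_mem]
  · have := mem_D 6 0 1; convert this using 1; ring
  · have := mem_D 5 1 1; convert this using 1; ring
  · have := mem_D 4 2 y; convert this using 1; ring
  · have := Ideal.add_mem _ (mem_D 3 3 y) (mem_D 4 2 z); convert this using 1; ring
  · have := mem_D 1 5 1; convert this using 1; ring
  · have := mem_D 0 6 1; convert this using 1; ring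

lemma Q6_pow_le (t : ℕ) : Q6 ^ t ≤ D (6 * t) := by
  induction t with
  | zero =>
    have : (1 : A) ∈ D (6 * 0) := Ideal.subset_span ⟨0, 0, rfl, by simp⟩
    rw [(Ideal.eq_top_iff_one _).2 this]
    exact le_top
  | succ t ih =>
    rw [pow_succ]
    refine (Ideal.mul_mono ih Q6_le_D).trans ?_
    exact D_mul _ _

lemma le_Q6_pow (t : ℕ) (ht : 4 ≤ t) : D (6 * t) ≤ Q6 ^ t := by
  have hE : (Ideal.span {x ^ 5, y ^ 5} : Ideal A) * Ideal.span {x, y} ≤ Q6 := by
    rw [Ideal.span_pair_mul_span_pair]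
    refine Ideal.span_le.2 ?_
    have h1 : x ^ 5 * x ∈ Q6 := by
      have := Q56 (Q45 (Q34 (Q23 (Q12 mem_Q1)))); convert this using 1; ring
    have h2 : x ^ 5 * y ∈ Q6 := Q56 (Q45 (Q34 (Q23 mem_Q2)))
    have h3 : y ^ 5 * x ∈ Q6 := by
      have := Q56 mem_Q5; convert this using 1; ring
    have h4 : y ^ 5 * y ∈ Q6 := by
      have := mem_Q6; convert this using 1; ring
    intro m hm
    simp only [Set.mem_insert_iff, Set.mem_singleton_iff] at hm
    rcases hm with rfl | rfl | rfl | rfl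
    · exact h1
    · exact h2
    · exact h3
    · exact h4
  refine le_trans ?_ (Ideal.pow_right_mono hE t)
  rw [mul_pow]
  refine Ideal.span_le.2 ?_
  rintro m ⟨a, b, hab, rfl⟩
  -- a = 5 i + j
  obtain ⟨i, j, hi, hj, hij⟩ : ∃ i j : ℕ, i ≤ t ∧ j ≤ t ∧ a = 5 * i + j := by
    by_cases h : a / 5 ≤ t
    · exact ⟨a / 5, a % 5, h, by omega, by omega⟩
    · exact ⟨t, a - 5 * t, le_rfl, by omega, by omega⟩
  have hx5 : x ^ 5 ∈ (Ideal.span {x ^ 5, y ^ 5} : Ideal A) := Ideal.subset_span (by simp)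
  have hy5 : y ^ 5 ∈ (Ideal.span {x ^ 5, y ^ 5} : Ideal A) := Ideal.subset_span (by simp)
  have hx1 : x ∈ (Ideal.span {x, y} : Ideal A) := Ideal.subset_span (by simp)
  have hy1 : y ∈ (Ideal.span {x, y} : Ideal A) := Ideal.subset_span (by simp)
  have e1 : (x ^ 5) ^ i * (y ^ 5) ^ (t - i) ∈ (Ideal.span {x ^ 5, y ^ 5} : Ideal A) ^ t := by
    have := Ideal.mul_mem_mul (Ideal.pow_mem_pow hx5 i) (Ideal.pow_mem_pow hy5 (t - i))
    rw [← pow_add, Nat.add_sub_cancel' hi] at this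
    exact this
  have e2 : x ^ j * y ^ (t - j) ∈ (Ideal.span {x, y} : Ideal A) ^ t := by
    have := Ideal.mul_mem_mul (Ideal.pow_mem_pow hx1 j) (Ideal.pow_mem_pow hy1 (t - j))
    rw [← pow_add, Nat.add_sub_cancel' hj] at this
    exact this
  have e3 := Ideal.mul_mem_mul e1 e2
  have hb : b = 5 * (t - i) + (t - j) := by omega
  have e4 : x ^ a * y ^ b = (x ^ 5) ^ i * (y ^ 5) ^ (t - i) * (x ^ j * y ^ (t - j)) := by
    rw [hij, hb, pow_add, pow_add, pow_mul, pow_mul]; ring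
  rw [SetLike.mem_coe, e4]
  exact e3

lemma Q6_pow (t : ℕ) (ht : 4 ≤ t) : Q6 ^ t = D (6 * t) :=
  le_antisymm (Q6_pow_le t) (le_Q6_pow t ht)

lemma D_one (N : ℕ) (hN : 1 ≤ N) : (1 : A) ∉ D N := by
  intro h
  have h1 : D N ≤ RingHom.ker (constantCoeff : A →+* ℚ) := by
    refine Ideal.span_le.2 ?_
    rintro m ⟨a, b, hab, rfl⟩
    rw [SetLike.mem_coe, RingHom.mem_ker, map_mul, map_pow, map_pow]
    simp only [x, y, constantCoeff_X]
    rcases Nat.eq_zero_or_pos a with h0 | h0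
    · have : b ≠ 0 := by omega
      simp [this]
    · have : a ≠ 0 := by omega
      simp [this]
  have h2 := h1 h
  rw [RingHom.mem_ker, map_one] at h2
  exact one_ne_zero h2

lemma xy_coprime (m n : ℕ) (p q : A) (h : y ^ n * p = x ^ m * q) : x ^ m ∣ p := by
  have h1 : x ^ m ∣ y ^ n * p := ⟨q, h⟩
  exact prime_x.pow_dvd_of_dvd_mul_left m (x_ndvd_ypow n) h1

lemma notproj (I : Ideal A) (m n : ℕ) (hx : x ^ m ∈ I) (hy : y ^ n ∈ I) (h1 : (1 : A) ∉ I) :
    ¬ Module.Projective A ↥I := by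
  refine not_projective I (x ^ m) (y ^ n) hx hy h1 ?_ ?_
  · intro p hp
    exact (mul_eq_zero.1 hp).resolve_left (pow_ne_zero _ prime_x.ne_zero)
  · intro p q h
    exact xy_coprime m n p q h

/-- bounding ideal for the square -/
noncomputable def N : Ideal A := Ideal.span {z, x ^ 5, y ^ 9}

lemma mem_N (a b c : A) : z * a + x ^ 5 * b + y ^ 9 * c ∈ N := by
  refine Ideal.add_mem _ (Ideal.add_mem _ ?_ ?_) ?_
  · exact Ideal.mul_mem_right _ _ (Ideal.subset_span (by simp))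
  · exact Ideal.mul_mem_right _ _ (Ideal.subset_span (by simp))
  · exact Ideal.mul_mem_right _ _ (Ideal.subset_span (by simp))

lemma Q6_eq : Q6 = Ideal.span {x ^ 6, x ^ 5 * y, x ^ 4 * y ^ 3, x ^ 3 * (y ^ 4 + z * x * y ^ 2),
    x ^ 1 * y ^ 5, x ^ 0 * y ^ 6} := by
  simp only [Q6, Q5, Q4, Q3, Q2, Q1, Ideal.span_insert, bot_sup_eq, sup_assoc]

lemma Q6_sq_le : Q6 ^ 2 ≤ N := by
  rw [pow_two, Q6_eq, Ideal.span_mul_span']
  refine Ideal.span_le.2 ?_
  rintro _ ⟨u, hu, v, hv, rfl⟩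
  simp only [Set.mem_insert_iff, Set.mem_singleton_iff] at hu hv
  rw [SetLike.mem_coe]
  rcases hu with rfl | rfl | rfl | rfl | rfl | rfl <;> rcases hv with rfl | rfl | rfl | rfl | rfl | rfl
  -- row 1
  · have := mem_N 0 (x * x ^ 6) 0; convert this using 1; ring
  · have := mem_N 0 (x * (x ^ 5 * y)) 0; convert this using 1; ring
  · have := mem_N 0 (x * (x ^ 4 * y ^ 3)) 0; convert this using 1; ring
  · have := mem_N 0 (x * (x ^ 3 * (y ^ 4 + z * x * y ^ 2))) 0; convert this using 1; ring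
  · have := mem_N 0 (x * (x * y ^ 5)) 0; convert this using 1; ring
  · have := mem_N 0 (x * (y ^ 6)) 0; convert this using 1; ring
  -- row 2
  · have := mem_N 0 (y * x ^ 6) 0; convert this using 1; ring
  · have := mem_N 0 (y * (x ^ 5 * y)) 0; convert this using 1; ring
  · have := mem_N 0 (y * (x ^ 4 * y ^ 3)) 0; convert this using 1; ring
  · have := mem_N 0 (y * (x ^ 3 * (y ^ 4 + z * x * y ^ 2))) 0; convert this using 1; ring
  · have := mem_N 0 (y * (x * y ^ 5)) 0; convert this using 1; ring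
  · have := mem_N 0 (y * (y ^ 6)) 0; convert this using 1; ring
  -- row 3
  · have := mem_N 0 (x * (x ^ 4 * y ^ 3)) 0; convert this using 1; ring
  · have := mem_N 0 (y * (x ^ 4 * y ^ 3)) 0; convert this using 1; ring
  · have := mem_N 0 (x ^ 3 * y ^ 6) 0; convert this using 1; ring
  · have := mem_N 0 (x ^ 2 * y ^ 3 * (y ^ 4 + z * x * y ^ 2)) 0; convert this using 1; ring
  · have := mem_N 0 (y ^ 8) 0; convert this using 1; ring
  · have := mem_N 0 0 (x ^ 4); convert this using 1; ring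
  -- row 4
  · have := mem_N 0 (x * (x ^ 3 * (y ^ 4 + z * x * y ^ 2))) 0; convert this using 1; ring
  · have := mem_N 0 (y * (x ^ 3 * (y ^ 4 + z * x * y ^ 2))) 0; convert this using 1; ring
  · have := mem_N 0 (x ^ 2 * y ^ 3 * (y ^ 4 + z * x * y ^ 2)) 0; convert this using 1; ring
  · have := mem_N 0 (x * (y ^ 4 + z * x * y ^ 2) ^ 2) 0; convert this using 1; ring
  · have := mem_N (x ^ 5 * y ^ 7) 0 (x ^ 4); convert this using 1; ring
  · have := mem_N (x ^ 4 * y ^ 8) 0 (x ^ 3 * y); convert this using 1; ring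
  -- row 5
  · have := mem_N 0 (x * (x * y ^ 5)) 0; convert this using 1; ring
  · have := mem_N 0 (y * (x * y ^ 5)) 0; convert this using 1; ring
  · have := mem_N 0 (y ^ 8) 0; convert this using 1; ring
  · have := mem_N (x ^ 5 * y ^ 7) 0 (x ^ 4); convert this using 1; ring
  · have := mem_N 0 0 (x ^ 2 * y); convert this using 1; ring
  · have := mem_N 0 0 (x * y ^ 2); convert this using 1; ring
  -- row 6
  · have := mem_N 0 (x * (y ^ 6)) 0; convert this using 1; ring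
  · have := mem_N 0 (y * (y ^ 6)) 0; convert this using 1; ring
  · have := mem_N 0 0 (x ^ 4); convert this using 1; ring
  · have := mem_N (x ^ 4 * y ^ 8) 0 (x ^ 3 * y); convert this using 1; ring
  · have := mem_N 0 0 (x * y ^ 2); convert this using 1; ring
  · have := mem_N 0 0 (y ^ 3); convert this using 1; ring

lemma u_notMem_N : x ^ 4 * y ^ 8 ∉ N := by
  intro h
  have hN : N = Ideal.span ((fun s => monomial s (1 : ℚ)) ''
      ({Finsupp.single 2 1, Finsupp.single 0 5, Finsupp.single 1 9} : Set (Fin 3 →₀ ℕ))) := by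
    simp only [N, Set.image_insert_eq, Set.image_singleton, x, y, z, X_pow_eq_monomial]
    rfl
  rw [hN, mem_ideal_span_monomial_image] at h
  have hu : (x ^ 4 * y ^ 8 : A) = monomial (Finsupp.single 0 4 + Finsupp.single 1 8) 1 := by
    rw [x, y, X_pow_eq_monomial, X_pow_eq_monomial, monomial_mul, one_mul]
  rw [hu, support_monomial, if_neg one_ne_zero] at h
  obtain ⟨s, hs, hle⟩ := h _ (Finset.mem_singleton_self _)
  simp only [Set.mem_insert_iff, Set.mem_singleton_iff] at hs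
  rcases hs with rfl | rfl | rfl
  · have := hle 2; simp at this
  · have := hle 0; simp at this
  · have := hle 1; simp at this

lemma not_hasRes_sq : ¬ HasRes (Q6 ^ 2) := by
  have h6 : ∀ {u v : A}, u ∈ Q6 → v ∈ Q6 → u * v ∈ Q6 ^ 2 := by
    intro u v hu hv
    rw [pow_two]; exact Ideal.mul_mem_mul hu hv
  have m1 : x ^ 6 ∈ Q6 := Q56 (Q45 (Q34 (Q23 (Q12 mem_Q1))))
  have m2 : x ^ 5 * y ∈ Q6 := Q56 (Q45 (Q34 (Q23 mem_Q2)))
  have m3 : x ^ 4 * y ^ 3 ∈ Q6 := Q56 (Q45 (Q34 mem_Q3))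
  have m4 := Q56 (Q45 mem_Q4)
  have m5 := Q56 mem_Q5
  have m6 := mem_Q6
  refine not_hasRes (Q6 ^ 2) x y z (x ^ 4 * y ^ 8) koszul ?_ ?_ ?_ ?_ ?_ ?_
  · intro p hp
    exact (mul_eq_zero.1 hp).resolve_left prime_x.ne_zero
  · intro p q h
    have := xy_coprime 1 1 p q (by simpa using h)
    simpa using this
  · -- x u = (x^5 y) (x^0 y^6) y
    have := Ideal.mul_mem_left _ y (h6 m2 m6)
    convert this using 1; ring
  · -- y u = x^4 y^3 * y^6
    have := h6 m3 m6
    convert this using 1; ring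
  · -- z u = y^6 g4 - x (x y^5)^2
    have := Ideal.sub_mem _ (h6 m6 m4) (Ideal.mul_mem_left _ x (h6 m5 m5))
    convert this using 1; ring
  · intro h
    exact u_notMem_N (Q6_sq_le h)

lemma Q6_homog : ∃ s : Set A, (∀ p ∈ s, ∃ d : ℕ, MvPolynomial.IsHomogeneous p d) ∧ Q6 = Ideal.span s := by
  refine ⟨_, ?_, Q6_eq⟩
  have hx : IsHomogeneous x 1 := isHomogeneous_X _ _
  have hy : IsHomogeneous y 1 := isHomogeneous_X _ _
  have hz : IsHomogeneous z 1 := isHomogeneous_X _ _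
  intro p hp
  simp only [Set.mem_insert_iff, Set.mem_singleton_iff] at hp
  rcases hp with rfl | rfl | rfl | rfl | rfl | rfl
  · exact ⟨_, hx.pow 6⟩
  · exact ⟨_, (hx.pow 5).mul hy⟩
  · exact ⟨_, (hx.pow 4).mul (hy.pow 3)⟩
  · refine ⟨_, (hx.pow 3).mul (IsHomogeneous.add (hy.pow 4) ?_)⟩
    exact (hz.mul hx).mul (hy.pow 2)
  · exact ⟨_, (hx.pow 1).mul (hy.pow 5)⟩
  · exact ⟨_, (hx.pow 0).mul (hy.pow 6)⟩

lemma Q6_one : (1 : A) ∉ Q6 := fun h => D_one 6 (by norm_num) (Q6_le_D h)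

lemma Q6_notproj : ¬ Module.Projective A ↥Q6 := by
  refine notproj Q6 6 6 (Q56 (Q45 (Q34 (Q23 (Q12 mem_Q1))))) ?_ Q6_one
  have := mem_Q6
  convert this using 1; ring

lemma D_notproj (N : ℕ) (hN : 1 ≤ N) : ¬ Module.Projective A ↥(D N) := by
  refine notproj (D N) N N ?_ ?_ (D_one N hN)
  · exact Ideal.subset_span ⟨N, 0, rfl, by simp⟩
  · exact Ideal.subset_span ⟨0, N, by simp, by simp⟩

end Pool.V1147.PdOneEx
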